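import Mathlib

/-!
# Regular bipartite dart systems are edge colourable (Koenig)
-/

set_option autoImplicit false

namespace OddG

open Finset

section Konig

/-- counting darts -/
theorem konig_count {V Y : Type} [Fintype Y] (d : ℕ) (nb : V → Y → V) (P : V → Y → Prop)
    [∀ v, DecidablePred (P v)]
    (hsym : ∀ v x, P v x → P (nb v x) x) (hinv : ∀ v x, P v x → nb (nb v x) x = v)
    (S T : Finset V) (hS : ∀ v ∈ S, (univ.filter (P v)).card = d)
    (hT : ∀ v ∈ T, (univ.filter (P v)).card = d)
    (hST : ∀ v ∈ S, ∀ x, P v x → nb v x ∈ T) : S.card * d ≤ T.card * d := by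
  have e1 : (S.sigma fun v => univ.filter (P v)).card = S.card * d := by
    rw [Finset.card_sigma, Finset.sum_congr rfl hS, Finset.sum_const, smul_eq_mul]
  have e2 : (T.sigma fun v => univ.filter (P v)).card = T.card * d := by
    rw [Finset.card_sigma, Finset.sum_congr rfl hT, Finset.sum_const, smul_eq_mul]
  rw [← e1, ← e2]
  refine Finset.card_le_card_of_injOn (fun q => ⟨nb q.1 q.2, q.2⟩) ?_ ?_
  · rintro ⟨v, x⟩ hq
    simp only [Finset.coe_sigma, Set.mem_sigma_iff, Finset.mem_coe, Finset.mem_filter,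
      Finset.mem_univ, true_and] at hq ⊢
    exact ⟨hST v hq.1 x hq.2, hsym v x hq.2⟩
  · rintro ⟨v, x⟩ hq ⟨v', x'⟩ hq' h
    simp only [Finset.coe_sigma, Set.mem_sigma_iff, Finset.mem_coe, Finset.mem_filter,
      Finset.mem_univ, true_and] at hq hq'
    simp only [Sigma.mk.injEq, heq_eq_eq] at h
    obtain ⟨h1, h2⟩ := h
    subst h2
    have : v = v' := by
      rw [← hinv v x hq.2, h1, hinv v' x hq'.2]
    subst this
    rfl

/-- a perfect matching -/
theorem konig_match {V Y : Type} [Fintype V] [Fintype Y] [Nonempty Y] (d : ℕ) (hd0 : 0 < d)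
    (nb : V → Y → V) (isV : V → Prop) (P : V → Y → Prop) [∀ v, DecidablePred (P v)]
    (s : V → Bool)
    (hV : ∀ v x, P v x → isV v) (hsym : ∀ v x, P v x → P (nb v x) x)
    (hinv : ∀ v x, P v x → nb (nb v x) x = v) (hs : ∀ v x, P v x → s (nb v x) ≠ s v)
    (hd : ∀ v, isV v → (univ.filter (P v)).card = d) :
    ∃ M : V → Y, (∀ v, isV v → P v (M v)) ∧ ∀ v, isV v → M (nb v (M v)) = M v := by
  classical
  let A : Finset V := univ.filter fun v => isV v ∧ s v = true
  let B : Finset V := univ.filter fun v => isV v ∧ s v = false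
  have hA : ∀ v, v ∈ A ↔ isV v ∧ s v = true := fun v => by simp [A]
  have hB : ∀ v, v ∈ B ↔ isV v ∧ s v = false := fun v => by simp [B]
  have hAB : ∀ v ∈ A, ∀ x, P v x → nb v x ∈ B := by
    intro v hv x hx
    rw [hB]
    refine ⟨hV _ x (hsym v x hx), ?_⟩
    have h1 := hs v x hx
    rw [((hA v).1 hv).2] at h1
    simpa using h1
  have hBA : ∀ v ∈ B, ∀ x, P v x → nb v x ∈ A := by
    intro v hv x hx
    rw [hA]
    refine ⟨hV _ x (hsym v x hx), ?_⟩
    have h1 := hs v x hx
    rw [((hB v).1 hv).2] at h1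
    simpa using h1
  let t : ↥A → Finset V := fun v => (univ.filter (P v.1)).image (nb v.1)
  have ht : ∀ (v : ↥A) w, w ∈ t v ↔ ∃ x, P v.1 x ∧ nb v.1 x = w := by
    intro v w
    simp [t]
  have hall : ∀ S : Finset ↥A, S.card ≤ (S.biUnion t).card := by
    intro S
    have h1 := konig_count d nb P hsym hinv (S.map (Function.Embedding.subtype _)) (S.biUnion t)
      (by
        intro v hv
        rw [Finset.mem_map] at hv
        obtain ⟨v', _, rfl⟩ := hv
        exact hd _ ((hA _).1 v'.2).1)
      (by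
        intro w hw
        rw [Finset.mem_biUnion] at hw
        obtain ⟨v, _, hw⟩ := hw
        obtain ⟨x, hx, rfl⟩ := (ht v w).1 hw
        exact hd _ (hV _ x (hsym _ x hx)))
      (by
        intro v hv x hx
        rw [Finset.mem_map] at hv
        obtain ⟨v', hv', rfl⟩ := hv
        rw [Finset.mem_biUnion]
        exact ⟨v', hv', (ht _ _).2 ⟨x, hx, rfl⟩⟩)
    rw [Finset.card_map] at h1
    exact Nat.le_of_mul_le_mul_right h1 hd0
  obtain ⟨f, hfinj, hf⟩ := (Finset.all_card_le_biUnion_card_iff_exists_injective t).1 hall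
  -- choose the darts
  have hch : ∀ v : ↥A, ∃ x, P v.1 x ∧ nb v.1 x = f v := fun v => (ht v _).1 (hf v)
  choose m hmP hmn using hch
  have hfB : ∀ v, f v ∈ B := fun v => by
    rw [← hmn v]
    exact hAB v.1 v.2 _ (hmP v)
  -- surjectivity
  have hcard : B.card ≤ A.card := by
    have h1 := konig_count d nb P hsym hinv B A (fun v hv => hd _ ((hB v).1 hv).1)
      (fun v hv => hd _ ((hA v).1 hv).1) hBA
    exact Nat.le_of_mul_le_mul_right h1 hd0
  have hsurj : ∀ w ∈ B, ∃ v, f v = w := by
    have himg : (univ.image f) = B := by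
      refine Finset.eq_of_subset_of_card_le ?_ ?_
      · intro w hw
        rw [Finset.mem_image] at hw
        obtain ⟨v, _, rfl⟩ := hw
        exact hfB v
      · rw [Finset.card_image_of_injective _ hfinj, Finset.card_univ]
        simpa using hcard
    intro w hw
    rw [← himg, Finset.mem_image] at hw
    obtain ⟨v, _, hv⟩ := hw
    exact ⟨v, hv⟩
  choose g hg using hsurj
  obtain ⟨M, hMA, hMB⟩ : ∃ M : V → Y, (∀ v : ↥A, M v.1 = m v) ∧
      ∀ w (hw : w ∈ B), M w = m (g w hw) := by
    refine ⟨fun v => if h : v ∈ A then m ⟨v, h⟩ else if h' : v ∈ B then m (g v h') else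
      Classical.arbitrary Y, ?_, ?_⟩
    · rintro ⟨v, hv⟩
      simp [hv]
    · intro w hw
      have h3 : w ∉ A := by
        rw [hA]
        rintro ⟨_, h4⟩
        rw [((hB _).1 hw).2] at h4
        exact Bool.noConfusion h4
      simp [hw, h3]
  have hcases : ∀ v, isV v → v ∈ A ∨ v ∈ B := by
    intro v hv
    rw [hA, hB]
    cases hsv : s v
    · exact Or.inr ⟨hv, rfl⟩
    · exact Or.inl ⟨hv, rfl⟩
  have h6 : ∀ v (hvB : v ∈ B), nb v (m (g v hvB)) = (g v hvB).1 := by
    intro v hvB
    have h7 := hinv _ _ (hmP (g v hvB))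
    rw [hmn, hg v hvB] at h7
    exact h7
  refine ⟨M, ?_, ?_⟩
  · intro v hv
    rcases hcases v hv with h | h
    · rw [hMA ⟨v, h⟩]
      exact hmP ⟨v, h⟩
    · rw [hMB v h]
      have h1 := hsym _ _ (hmP (g v h))
      rw [hmn, hg v h] at h1
      exact h1
  · intro v hv
    rcases hcases v hv with h | h
    · have h2 : f ⟨v, h⟩ ∈ B := hfB _
      have h5 : g (f ⟨v, h⟩) h2 = ⟨v, h⟩ := hfinj (hg _ h2)
      have h9 := hmn ⟨v, h⟩
      have h10 := hMA ⟨v, h⟩
      simp only at h9 h10
      rw [h10, h9, hMB _ h2, h5]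
    · rw [hMB v h, h6 v h, hMA]

theorem konig_dart {V Y : Type} [Fintype V] [DecidableEq V] [Fintype Y] [DecidableEq Y] (d : ℕ)
    (nb : V → Y → V) (isV : V → Prop) (P : V → Y → Prop) [∀ v, DecidablePred (P v)]
    (s : V → Bool)
    (hV : ∀ v x, P v x → isV v) (hsym : ∀ v x, P v x → P (nb v x) x)
    (hinv : ∀ v x, P v x → nb (nb v x) x = v) (hs : ∀ v x, P v x → s (nb v x) ≠ s v)
    (hd : ∀ v, isV v → (univ.filter (P v)).card = d) :
    ∃ col : V → Y → ℕ, (∀ v x, P v x → col v x < d) ∧ (∀ v x, P v x → col (nb v x) x = col v x) ∧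
      (∀ v x y, P v x → P v y → x ≠ y → col v x ≠ col v y) := by
  classical
  rcases isEmpty_or_nonempty Y with hY | hY
  · exact ⟨fun _ _ => 0, fun v x => (hY.false x).elim, fun v x => (hY.false x).elim,
      fun v x => (hY.false x).elim⟩
  suffices H : ∀ (d : ℕ) (P : V → Y → Prop), (∀ v x, P v x → isV v) →
      (∀ v x, P v x → P (nb v x) x) → (∀ v x, P v x → nb (nb v x) x = v) →
      (∀ v x, P v x → s (nb v x) ≠ s v) →
      (∀ v, isV v → (univ.filter (P v)).card = d) →
      ∃ col : V → Y → ℕ, (∀ v x, P v x → col v x < d) ∧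
        (∀ v x, P v x → col (nb v x) x = col v x) ∧
        (∀ v x y, P v x → P v y → x ≠ y → col v x ≠ col v y) by
    refine H d P hV hsym hinv hs ?_
    intro v hv
    rw [← hd v hv]
    congr
  clear hV hsym hinv hs hd d
  intro d
  induction d with
  | zero =>
    intro P hV hsym hinv hs hd
    have hno : ∀ v x, ¬ P v x := by
      intro v x hx
      have h1 := hd v (hV v x hx)
      rw [Finset.card_eq_zero] at h1
      have : x ∈ univ.filter (P v) := by simp [hx]
      rw [h1] at this
      exact absurd this (Finset.notMem_empty x)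
    exact ⟨fun _ _ => 0, fun v x hx => absurd hx (hno v x), fun v x hx => absurd hx (hno v x),
      fun v x _ hx => absurd hx (hno v x)⟩
  | succ d ih =>
    intro P hV hsym hinv hs hd
    obtain ⟨M, hM1, hM2⟩ := konig_match (d + 1) (Nat.succ_pos d) nb isV P s hV hsym hinv hs hd
    have hMx : ∀ v x, P v x → (M (nb v x) = x ↔ M v = x) := by
      intro v x hx
      have hv := hV v x hx
      have hw := hV _ x (hsym v x hx)
      constructor
      · intro h
        have h1 := hM2 _ hw
        rw [h, hinv v x hx] at h1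
        exact h1
      · intro h
        have h1 := hM2 _ hv
        rw [h] at h1
        exact h1
    obtain ⟨col, hc1, hc2, hc3⟩ := ih (fun v x => P v x ∧ x ≠ M v)
      (fun v x hx => hV v x hx.1)
      (fun v x hx => ⟨hsym v x hx.1, fun h => hx.2 ((hMx v x hx.1).1 h.symm).symm⟩)
      (fun v x hx => hinv v x hx.1) (fun v x hx => hs v x hx.1)
      (by
        intro v hv
        have h1 : ((univ.filter (P v)).erase (M v)).card = d := by
          rw [Finset.card_erase_of_mem (by simp [hM1 v hv]), hd v hv]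
          rfl
        rw [← h1]
        congr 1
        ext x
        simp only [Finset.mem_filter, Finset.mem_univ, true_and, Finset.mem_erase]
        tauto)
    refine ⟨fun v x => if x = M v then d else col v x, ?_, ?_, ?_⟩
    · intro v x hx
      by_cases h : x = M v
      · simp [h]
      · simp only [h, if_false]
        exact Nat.lt_succ_of_lt (hc1 v x ⟨hx, h⟩)
    · intro v x hx
      by_cases h : x = M v
      · have h1 : x = M (nb v x) := ((hMx v x hx).2 h.symm).symm
        simp only [← h1, ← h, if_true]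
      · have h1 : ¬ x = M (nb v x) := fun h2 => h ((hMx v x hx).1 h2.symm).symm
        simp only [h, h1, if_false]
        exact hc2 v x ⟨hx, h⟩
    · intro v x y hx hy hxy
      by_cases h : x = M v
      · have h' : ¬ y = M v := fun h2 => hxy (h.trans h2.symm)
        simp only [h, h', if_true, if_false]
        exact (hc1 v y ⟨hy, h'⟩).ne'
      · by_cases h' : y = M v
        · simp only [h, h', if_true, if_false]
          exact (hc1 v x ⟨hx, h⟩).ne
        · simp only [h, h', if_false]
          exact hc3 v x y ⟨hx, h⟩ ⟨hy, h'⟩ hxy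

end Konig

end OddG
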