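import Pool.Agent.Lib.MP_e26f2a_co.LinkDefs

set_option autoImplicit false

namespace OddG

open Finset

theorem choose_even (m : ℕ) (hm : ¬ ∃ r : ℕ, m + 1 = 2 ^ r) : Even ((2*m+1).choose m) := by
  induction m using Nat.strong_induction_on with
  | _ m ih =>
  have hp : Fact (Nat.Prime 2) := ⟨Nat.prime_two⟩
  have h := Choose.choose_modEq_choose_mod_mul_choose_div_nat (n := 2*m+1) (k := m) (p := 2)
  have h1 : (2*m+1) % 2 = 1 := by omega
  have h2 : (2*m+1) / 2 = m := by omega
  rw [h1, h2] at h
  rw [Nat.even_iff]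
  rcases Nat.even_or_odd' m with ⟨a, ha | ha⟩
  · have ha0 : a ≠ 0 := by
      rintro rfl
      exact hm ⟨0, by subst ha; simp⟩
    have h3 : m % 2 = 0 := by omega
    have h4 : m / 2 = a := by omega
    rw [h3, h4] at h
    have h5 : m.choose a = Nat.centralBinom a := by rw [ha]; rfl
    have h6 := Nat.two_dvd_centralBinom_of_one_le (n := a) (by omega)
    rw [h5] at h
    unfold Nat.ModEq at h
    rw [h, Nat.choose_zero_right, one_mul]
    omega
  · have h3 : m % 2 = 1 := by omega
    have h4 : m / 2 = a := by omega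
    rw [h3, h4] at h
    have h5 := ih a (by omega) (by
      rintro ⟨r, hr⟩
      exact hm ⟨r+1, by rw [pow_succ, ← hr]; omega⟩)
    rw [Nat.even_iff] at h5
    unfold Nat.ModEq at h
    rw [h, ha, Nat.choose_self, one_mul]
    exact h5

end OddG
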