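import Pool.Agent.Lib.MP_e26f2a_co.Defs

set_option autoImplicit false

namespace OddG

open Finset

variable {n : ℕ}

theorem mem_N (A : Finset (X n)) (x y : X n) : y ∈ N A x ↔ y ≠ x ∧ y ∉ A := by
  simp [N, not_or]

theorem N_N (A : Finset (X n)) (x : X n) (h : x ∉ A) : N (N A x) x = A := by
  ext y
  rw [mem_N, mem_N]
  constructor
  · rintro ⟨h1, h2⟩
    by_contra h3
    exact h2 ⟨h1, h3⟩
  · intro hy
    refine ⟨?_, fun h2 => h2.2 hy⟩
    rintro rfl
    exact h hy

theorem not_mem_N (A : Finset (X n)) (x : X n) : x ∉ N A x := by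
  rw [mem_N]; exact fun h => h.1 rfl

theorem card_N {m : ℕ} (A : Finset (X (2*m+1))) (x : X (2*m+1)) (hA : A.card = 2*m+1)
    (h : x ∉ A) : (N A x).card = 2*m+1 := by
  unfold N
  rw [Finset.card_compl, Finset.card_insert_of_notMem h, hA]
  simp only [X, Fintype.card_option, Fintype.card_prod, Fintype.card_fin, Fintype.card_bool]
  omega

theorem mem_Lam (A : Finset (X n)) (i : Fin n) :
    i ∈ Lam A ↔ ¬ (some (i, true) ∈ A ↔ some (i, false) ∈ A) := by simp [Lam]

theorem mem_Es (A : Finset (X n)) (i : Fin n) :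
    i ∈ Es A ↔ some (i, true) ∉ A ∧ some (i, false) ∉ A := by simp [Es]

theorem mem_Fs (A : Finset (X n)) (i : Fin n) :
    i ∈ Fs A ↔ some (i, true) ∈ A ∧ some (i, false) ∈ A := by simp [Fs]

theorem sg_eq (A : Finset (X n)) (i : Fin n) : sg A i = true ↔ some (i, true) ∈ A := by
  simp [sg]

theorem sg_eq_false (A : Finset (X n)) (i : Fin n) : sg A i = false ↔ some (i, true) ∉ A := by
  simp [sg]

/-- membership at a letter position -/
theorem mem_letter (A : Finset (X n)) (i : Fin n) (hi : i ∈ Lam A) (b : Bool) :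
    some (i, b) ∈ A ↔ b = sg A i := by
  rw [mem_Lam] at hi
  unfold sg
  cases b
  · by_cases h : (some (i, true) : X n) ∈ A
    · simp [h] at hi ⊢; exact hi
    · simp [h] at hi ⊢; exact hi
  · by_cases h : (some (i, true) : X n) ∈ A <;> simp [h]

theorem mem_E (A : Finset (X n)) (i : Fin n) (hi : i ∈ Es A) (b : Bool) :
    some (i, b) ∉ A := by
  rw [mem_Es] at hi
  cases b
  · exact hi.2
  · exact hi.1

theorem mem_F (A : Finset (X n)) (i : Fin n) (hi : i ∈ Fs A) (b : Bool) :
    some (i, b) ∈ A := by
  rw [mem_Fs] at hi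
  cases b
  · exact hi.2
  · exact hi.1

theorem trich (A : Finset (X n)) (i : Fin n) : i ∈ Lam A ∨ i ∈ Es A ∨ i ∈ Fs A := by
  rw [mem_Lam, mem_Es, mem_Fs]
  by_cases h1 : (some (i, true) : X n) ∈ A <;> by_cases h2 : (some (i, false) : X n) ∈ A <;>
    simp [h1, h2]

theorem Lam_not_Es (A : Finset (X n)) (i : Fin n) (h : i ∈ Lam A) : i ∉ Es A := by
  rw [mem_Lam] at h; rw [mem_Es]; rintro ⟨h1, h2⟩; exact h (by simp [h1, h2])

theorem Lam_not_Fs (A : Finset (X n)) (i : Fin n) (h : i ∈ Lam A) : i ∉ Fs A := by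
  rw [mem_Lam] at h; rw [mem_Fs]; rintro ⟨h1, h2⟩; exact h (by simp [h1, h2])

theorem Es_not_Fs (A : Finset (X n)) (i : Fin n) (h : i ∈ Es A) : i ∉ Fs A := by
  rw [mem_Es] at h; rw [mem_Fs]; rintro ⟨h1, h2⟩; exact h.1 h1

theorem ext_A (A B : Finset (X n)) (h0 : none ∈ A ↔ none ∈ B) (hL : Lam A = Lam B)
    (hs : ∀ i ∈ Lam A, sg A i = sg B i) (hF : Fs A = Fs B) : A = B := by
  ext x
  rcases x with _ | ⟨i, b⟩
  · exact h0
  · rcases trich A i with h | h | h
    · rw [mem_letter A i h, mem_letter B i (hL ▸ h), hs i h]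
    · have hB : i ∈ Es B := by
        rcases trich B i with h' | h' | h'
        · exact absurd h (Lam_not_Es A i (hL.symm ▸ h'))
        · exact h'
        · exact absurd (hF.symm ▸ h') (Es_not_Fs A i h)
      exact ⟨fun h1 => absurd h1 (mem_E A i h b), fun h1 => absurd h1 (mem_E B i hB b)⟩
    · have hB : i ∈ Fs B := hF ▸ h
      exact ⟨fun _ => mem_F B i hB b, fun _ => mem_F A i h b⟩

theorem card_n (A : Finset (X n)) : (Fs A).card + (Es A).card + (Lam A).card = n := by
  have h1 : Disjoint (Fs A) (Es A) := by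
    rw [Finset.disjoint_left]; intro i hi hi'; exact Es_not_Fs A i hi' hi
  have h2 : Disjoint (Fs A ∪ Es A) (Lam A) := by
    rw [Finset.disjoint_left]; intro i hi hi'
    rcases Finset.mem_union.1 hi with h | h
    · exact Lam_not_Fs A i hi' h
    · exact Lam_not_Es A i hi' h
  rw [← Finset.card_union_of_disjoint h1, ← Finset.card_union_of_disjoint h2]
  have : (Fs A ∪ Es A) ∪ Lam A = univ := by
    ext i; simp only [Finset.mem_union, Finset.mem_univ, iff_true]
    rcases trich A i with h | h | h <;> simp [h]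
  rw [this]; simp

theorem card_A (A : Finset (X n)) :
    A.card = 2 * (Fs A).card + (Lam A).card + (if none ∈ A then 1 else 0) := by
  classical
  have hsplit : A.card = (if (none : X n) ∈ A then 1 else 0) +
      ∑ i : Fin n, ∑ b : Bool, (if (some (i, b) : X n) ∈ A then 1 else 0) := by
    have : A.card = ∑ x : X n, (if x ∈ A then 1 else 0) := by
      rw [Finset.sum_ite_mem]; simp
    rw [this, Fintype.sum_option, Fintype.sum_prod_type]
  have hpt : ∀ i : Fin n, (∑ b : Bool, (if (some (i, b) : X n) ∈ A then 1 else 0)) =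
      2 * (if i ∈ Fs A then 1 else 0) + (if i ∈ Lam A then 1 else 0) := by
    intro i
    rw [Fintype.sum_bool]
    simp only [mem_Fs, mem_Lam]
    by_cases h1 : (some (i, true) : X n) ∈ A <;> by_cases h2 : (some (i, false) : X n) ∈ A <;>
      simp [h1, h2]
  rw [hsplit, Finset.sum_congr rfl (fun i _ => hpt i), Finset.sum_add_distrib, ← Finset.mul_sum,
    Finset.sum_ite_mem, Finset.sum_ite_mem]
  simp only [Finset.univ_inter, Finset.sum_const, smul_eq_mul, mul_one]
  ring

/-- for a vertex: number of empty pairs -/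
theorem card_Es {m : ℕ} (A : Finset (X (2*m+1))) (hA : A.card = 2*m+1) :
    (Es A).card = (Fs A).card + (if none ∈ A then 1 else 0) := by
  have h1 := card_A A
  have h2 := card_n A
  split_ifs at h1 ⊢ <;> omega

theorem none_iff {m : ℕ} (A : Finset (X (2*m+1))) (hA : A.card = 2*m+1) :
    none ∈ A ↔ Even (Lam A).card := by
  have h1 := card_A A
  rw [Nat.even_iff]
  split_ifs at h1 with h
  · simp only [h, true_iff]; omega
  · simp only [h, false_iff]; omega

theorem dl_notMem (A : Finset (X n)) (i : Fin n) (hi : i ∈ Lam A) : dl A i ∉ A := by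
  unfold dl; rw [mem_letter A i hi]; simp

theorem cases_notMem (A : Finset (X n)) (x : X n) (hx : x ∉ A) :
    x = none ∨ (∃ i ∈ Lam A, x = dl A i) ∨ ∃ i ∈ Es A, ∃ b, x = some (i, b) := by
  rcases x with _ | ⟨i, b⟩
  · exact Or.inl rfl
  · right
    rcases trich A i with h | h | h
    · left
      refine ⟨i, h, ?_⟩
      rw [mem_letter A i h] at hx
      unfold dl
      cases b <;> cases h2 : sg A i <;> simp_all
    · right; exact ⟨i, h, b, rfl⟩
    · exact absurd (mem_F A i h b) hx

/-! neighbours -/

theorem sg_N (A : Finset (X n)) (x : X n) (j : Fin n) (h : x ≠ some (j, true)) :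
    sg (N A x) j = !sg A j := by
  have h' : (some (j, true) : X n) ≠ x := fun e => h e.symm
  unfold sg
  by_cases h1 : (some (j, true) : X n) ∈ A
  · have : ¬ (some (j, true) : X n) ∈ N A x := by rw [mem_N]; exact fun e => e.2 h1
    simp [h1, this]
  · have : (some (j, true) : X n) ∈ N A x := by rw [mem_N]; exact ⟨h', h1⟩
    simp [h1, this]

theorem Lam_N_none (A : Finset (X n)) : Lam (N A none) = Lam A := by
  ext i; simp only [mem_Lam, mem_N]
  by_cases h1 : (some (i, true) : X n) ∈ A <;> by_cases h2 : (some (i, false) : X n) ∈ A <;>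
    simp [h1, h2]

theorem Es_N_none (A : Finset (X n)) : Es (N A none) = Fs A := by
  ext i; simp only [mem_Es, mem_Fs, mem_N]
  by_cases h1 : (some (i, true) : X n) ∈ A <;> by_cases h2 : (some (i, false) : X n) ∈ A <;>
    simp [h1, h2]

theorem Fs_N_none (A : Finset (X n)) : Fs (N A none) = Es A := by
  ext i; simp only [mem_Es, mem_Fs, mem_N]
  by_cases h1 : (some (i, true) : X n) ∈ A <;> by_cases h2 : (some (i, false) : X n) ∈ A <;>
    simp [h1, h2]

theorem sg_N_none (A : Finset (X n)) (i : Fin n) : sg (N A none) i = !sg A i :=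
  sg_N A none i (by simp)

theorem Lam_dl (A : Finset (X n)) (i : Fin n) (hi : i ∈ Lam A) :
    Lam (N A (dl A i)) = (Lam A).erase i := by
  ext j
  rw [Finset.mem_erase, mem_Lam (N A (dl A i)), mem_N, mem_N]
  by_cases hj : j = i
  · subst hj
    have h1 := mem_letter A j hi true
    have h2 := mem_letter A j hi false
    rw [h1, h2]
    unfold dl
    cases sg A j <;> simp
  · have h1 : (some (j, true) : X n) ≠ dl A i := by
      unfold dl; intro h; simp only [Option.some.injEq, Prod.mk.injEq] at h; exact hj h.1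
    have h2 : (some (j, false) : X n) ≠ dl A i := by
      unfold dl; intro h; simp only [Option.some.injEq, Prod.mk.injEq] at h; exact hj h.1
    rw [mem_Lam]
    simp only [ne_eq, h1, h2, not_false_eq_true, true_and, hj]
    by_cases h3 : (some (j, true) : X n) ∈ A <;> by_cases h4 : (some (j, false) : X n) ∈ A <;>
      simp [h3, h4]

theorem Fs_dl (A : Finset (X n)) (i : Fin n) (hi : i ∈ Lam A) :
    Fs (N A (dl A i)) = Es A := by
  ext j
  rw [mem_Fs, mem_Es, mem_N, mem_N]
  by_cases hj : j = i
  · subst hj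
    have h1 := mem_letter A j hi true
    have h2 := mem_letter A j hi false
    rw [h1, h2]
    unfold dl
    cases sg A j <;> simp
  · have h1 : (some (j, true) : X n) ≠ dl A i := by
      unfold dl; intro h; simp only [Option.some.injEq, Prod.mk.injEq] at h; exact hj h.1
    have h2 : (some (j, false) : X n) ≠ dl A i := by
      unfold dl; intro h; simp only [Option.some.injEq, Prod.mk.injEq] at h; exact hj h.1
    simp [h1, h2]

theorem Es_dl (A : Finset (X n)) (i : Fin n) (hi : i ∈ Lam A) :
    Es (N A (dl A i)) = insert i (Fs A) := by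
  ext j
  rw [Finset.mem_insert, mem_Es, mem_Fs, mem_N, mem_N]
  by_cases hj : j = i
  · subst hj
    have h1 := mem_letter A j hi true
    have h2 := mem_letter A j hi false
    rw [h1, h2]
    unfold dl
    cases sg A j <;> simp
  · have h1 : (some (j, true) : X n) ≠ dl A i := by
      unfold dl; intro h; simp only [Option.some.injEq, Prod.mk.injEq] at h; exact hj h.1
    have h2 : (some (j, false) : X n) ≠ dl A i := by
      unfold dl; intro h; simp only [Option.some.injEq, Prod.mk.injEq] at h; exact hj h.1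
    simp [h1, h2, hj]

theorem Lam_ins (A : Finset (X n)) (i : Fin n) (hi : i ∈ Es A) (b : Bool) :
    Lam (N A (some (i, b))) = insert i (Lam A) := by
  ext j
  rw [Finset.mem_insert, mem_Lam (N A (some (i, b))), mem_N, mem_N]
  by_cases hj : j = i
  · subst hj
    have h1 := mem_E A j hi true
    have h2 := mem_E A j hi false
    cases b <;> simp [h1, h2]
  · have h1 : (some (j, true) : X n) ≠ some (i, b) := by
      intro h; simp only [Option.some.injEq, Prod.mk.injEq] at h; exact hj h.1
    have h2 : (some (j, false) : X n) ≠ some (i, b) := by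
      intro h; simp only [Option.some.injEq, Prod.mk.injEq] at h; exact hj h.1
    rw [mem_Lam]
    simp only [ne_eq, h1, h2, not_false_eq_true, true_and, hj, false_or]
    by_cases h3 : (some (j, true) : X n) ∈ A <;> by_cases h4 : (some (j, false) : X n) ∈ A <;>
      simp [h3, h4]

theorem sg_ins (A : Finset (X n)) (i : Fin n) (hi : i ∈ Es A) (b : Bool) :
    sg (N A (some (i, b))) i = !b := by
  have h1 := mem_E A i hi true
  cases b
  · simp only [Bool.not_false]; rw [sg_eq, mem_N]; simp [h1]
  · simp only [Bool.not_true]; rw [sg_eq_false, mem_N]; simp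

theorem Es_ins (A : Finset (X n)) (i : Fin n) (hi : i ∈ Es A) (b : Bool) :
    Es (N A (some (i, b))) = Fs A := by
  ext j
  rw [mem_Es, mem_Fs, mem_N, mem_N]
  by_cases hj : j = i
  · subst hj
    have h1 := mem_E A j hi true
    have h2 := mem_E A j hi false
    cases b <;> simp [h1, h2]
  · have h1 : (some (j, true) : X n) ≠ some (i, b) := by
      intro h; simp only [Option.some.injEq, Prod.mk.injEq] at h; exact hj h.1
    have h2 : (some (j, false) : X n) ≠ some (i, b) := by
      intro h; simp only [Option.some.injEq, Prod.mk.injEq] at h; exact hj h.1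
    simp only [ne_eq, h1, h2, not_false_eq_true, true_and, not_not]

theorem Fs_ins (A : Finset (X n)) (i : Fin n) (hi : i ∈ Es A) (b : Bool) :
    Fs (N A (some (i, b))) = (Es A).erase i := by
  ext j
  rw [Finset.mem_erase, mem_Es, mem_Fs, mem_N, mem_N]
  by_cases hj : j = i
  · subst hj
    cases b <;> simp
  · have h1 : (some (j, true) : X n) ≠ some (i, b) := by
      intro h; simp only [Option.some.injEq, Prod.mk.injEq] at h; exact hj h.1
    have h2 : (some (j, false) : X n) ≠ some (i, b) := by
      intro h; simp only [Option.some.injEq, Prod.mk.injEq] at h; exact hj h.1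
    simp only [ne_eq, h1, h2, not_false_eq_true, true_and, hj]

theorem dl_ins (A : Finset (X n)) (i : Fin n) (hi : i ∈ Es A) (b : Bool) :
    dl (N A (some (i, b))) i = some (i, b) := by
  unfold dl; rw [sg_ins A i hi b]; simp

theorem N_dl_ins (A : Finset (X n)) (i : Fin n) (hi : i ∈ Es A) (b : Bool) :
    N (N A (some (i, b))) (dl (N A (some (i, b))) i) = A := by
  rw [dl_ins A i hi b]; exact N_N A _ (mem_E A i hi b)

theorem none_N (A : Finset (X n)) (x : X n) (hx : x ≠ none) : none ∈ N A x ↔ none ∉ A := by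
  rw [mem_N]; exact ⟨fun h => h.2, fun h => ⟨fun e => hx e.symm, h⟩⟩

theorem dl_ne_none (A : Finset (X n)) (i : Fin n) : dl A i ≠ none := by simp [dl]

end OddG
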