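import Pool.Agent.Lib.MP_e26f2a_co.LinkDefs

set_option autoImplicit false

namespace OddG

open Finset

theorem chi_diff {m : ℕ} (V : Finset (Fin (2*m+1))) (hV : V.card = m) (p q : Fin (2*m+1))
    (hp : p ∉ V) (hq : q ∉ V) (h : p < q) :
    chi V p - chi V q = -(((Finset.Ioc p q \ V).card : ℕ) : ZMod (m+1)) := by
  have hm : ((2 * m + 1 : ℕ) : ZMod (m+1)) = -1 ∧ ((m : ℕ) : ZMod (m+1)) = -1 := by
    have h := ZMod.natCast_self (m+1)
    push_cast at h ⊢
    constructor
    · linear_combination 2 * h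
    · linear_combination h
  have hpq : (p : ℕ) < q := h
  have hqm := q.isLt
  have h1 : ∀ v ∈ V, (((v - p : Fin (2*m+1)) : ℕ) : ZMod (m+1)) -
      (((v - q : Fin (2*m+1)) : ℕ) : ZMod (m+1)) = (((q : ℕ) : ZMod (m+1)) - ((p : ℕ) : ZMod (m+1)))
        + (if v ∈ Finset.Ioc p q then 1 else 0) := by
    intro v hv
    have hvm := v.isLt
    have hvp : v ≠ p := by rintro rfl; exact hp hv
    have hvq : v ≠ q := by rintro rfl; exact hq hv
    have key : ((v - p : Fin (2*m+1)) : ℕ) + p + (if v ∈ Finset.Ioc p q then 2*m+1 else 0) =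
        ((v - q : Fin (2*m+1)) : ℕ) + q := by
      rcases lt_or_gt_of_ne hvp with h1 | h1
      · have e1 := Fin.coe_sub_iff_lt.2 h1
        have e2 := Fin.coe_sub_iff_lt.2 (h1.trans h)
        have h2 : (v : ℕ) < p := h1
        rw [if_neg (fun h3 => absurd (Finset.mem_Ioc.1 h3).1 h1.not_gt)]
        omega
      · have e1 := Fin.coe_sub_iff_le.2 h1.le
        have h2 : (p : ℕ) < v := h1
        rcases lt_or_gt_of_ne hvq with h3 | h3
        · have e2 := Fin.coe_sub_iff_lt.2 h3
          have h4 : (v : ℕ) < q := h3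
          rw [if_pos (Finset.mem_Ioc.2 ⟨h1, h3.le⟩)]
          omega
        · have e2 := Fin.coe_sub_iff_le.2 h3.le
          have h4 : (q : ℕ) < v := h3
          rw [if_neg (fun h5 => absurd (Finset.mem_Ioc.1 h5).2 h3.not_ge)]
          omega
    have key2 := congrArg (Nat.cast : ℕ → ZMod (m+1)) key
    by_cases h5 : v ∈ Finset.Ioc p q
    · rw [if_pos h5] at key2 ⊢
      have h6 := hm.1
      push_cast at key2 h6
      linear_combination key2 - h6
    · rw [if_neg h5] at key2 ⊢
      push_cast at key2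
      linear_combination key2
  have h2 : (Finset.Ioc p q).card = (q : ℕ) - p := by simp
  have h3 : (Finset.Ioc p q ∩ V).card + (Finset.Ioc p q \ V).card = (q : ℕ) - p := by
    rw [← h2]; exact Finset.card_inter_add_card_sdiff _ _
  have h4 : (Finset.Ioc p q ∩ V).card + (Finset.Ioc p q \ V).card + p = (q : ℕ) := by omega
  have h5 := congrArg (Nat.cast : ℕ → ZMod (m+1)) h4
  rw [Nat.cast_add, Nat.cast_add] at h5
  unfold chi
  rw [← sum_sub_distrib, sum_congr rfl h1, sum_add_distrib, sum_const, hV, nsmul_eq_mul, hm.2,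
    Finset.sum_ite_mem, sum_const, nsmul_eq_mul, mul_one, Finset.inter_comm, ← h5]
  ring

theorem chi_inj_lt {m : ℕ} (V : Finset (Fin (2*m+1))) (hV : V.card = m) (p q : Fin (2*m+1))
    (hp : p ∉ V) (hq : q ∉ V) (h : p < q) : chi V p ≠ chi V q := by
  intro he
  have h1 := chi_diff V hV p q hp hq h
  rw [he, sub_self, eq_comm, neg_eq_zero, ZMod.natCast_eq_zero_iff] at h1
  have h2 : 0 < (Finset.Ioc p q \ V).card :=
    Finset.card_pos.2 ⟨q, Finset.mem_sdiff.2 ⟨Finset.mem_Ioc.2 ⟨h, le_rfl⟩, hq⟩⟩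
  have h3 : (Finset.Ioc p q \ V).card ≤ ((univ \ V).erase p).card := by
    refine card_le_card ?_
    intro x hx
    rw [Finset.mem_sdiff, Finset.mem_Ioc] at hx
    rw [Finset.mem_erase, Finset.mem_sdiff]
    exact ⟨hx.1.1.ne', Finset.mem_univ _, hx.2⟩
  rw [card_erase_of_mem (Finset.mem_sdiff.2 ⟨Finset.mem_univ _, hp⟩),
    Finset.card_sdiff_of_subset (Finset.subset_univ _), hV, Finset.card_univ, Fintype.card_fin] at h3
  have := Nat.le_of_dvd h2 h1
  omega

theorem chi_inj {m : ℕ} (V : Finset (Fin (2*m+1))) (hV : V.card = m) (p q : Fin (2*m+1))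
    (hp : p ∉ V) (hq : q ∉ V) (h : chi V p = chi V q) : p = q := by
  rcases lt_trichotomy p q with h1 | h1 | h1
  · exact absurd h (chi_inj_lt V hV p q hp hq h1)
  · exact h1
  · exact absurd h.symm (chi_inj_lt V hV q p hq hp h1)

theorem chi_surj {m : ℕ} (V : Finset (Fin (2*m+1))) (hV : V.card = m) (c : ZMod (m+1)) :
    ∃ p, p ∉ V ∧ chi V p = c := by
  classical
  have h1 : Set.InjOn (chi V) ((univ \ V : Finset (Fin (2*m+1))) : Set (Fin (2*m+1))) := by
    intro p hp q hq h
    rw [Finset.mem_coe, Finset.mem_sdiff] at hp hq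
    exact chi_inj V hV p q hp.2 hq.2 h
  have h2 : ((univ \ V).image (chi V)).card = m + 1 := by
    rw [Finset.card_image_of_injOn h1, Finset.card_sdiff_of_subset (Finset.subset_univ _), hV,
      Finset.card_univ, Fintype.card_fin]
    omega
  have h3 : (univ \ V).image (chi V) = univ := by
    rw [← Finset.card_eq_iff_eq_univ, h2, ZMod.card]
  have h4 : c ∈ (univ \ V).image (chi V) := by rw [h3]; exact Finset.mem_univ _
  rw [Finset.mem_image] at h4
  obtain ⟨p, hp, h5⟩ := h4
  exact ⟨p, (Finset.mem_sdiff.1 hp).2, h5⟩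

end OddG
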