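import Pool.Agent.Lib.MP_e26f2a_co.LinkDefs

set_option autoImplicit false

namespace OddG

open Finset

theorem chi_res {m : ℕ} (V : Finset (Fin (2*m+1))) (p y : Fin (2*m+1)) (hV : V.card = m)
    (hp : p ∉ V) (hy : y ∈ V) (c : ZMod (m+1)) :
    ((co V p).filter fun x => chi (sw V y x) p = c).card ≤ 2 := by
  classical
  set K : ZMod (m+1) := ∑ v ∈ V.erase y, (((v - p : Fin (2*m+1)) : ℕ) : ZMod (m+1)) with hK
  have hsw : ∀ x ∈ co V p, chi (sw V y x) p = (((x - p : Fin (2*m+1)) : ℕ) : ZMod (m+1)) + K := by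
    intro x hx
    have hx' : x ∉ V.erase y := by
      intro h
      simp only [co, mem_sdiff, mem_univ, mem_insert, not_or, true_and] at hx
      exact hx.2 (mem_of_mem_erase h)
    unfold chi sw
    rw [sum_insert hx']
  refine le_trans (card_le_card_of_injOn (t := ({(c - K).val, (c - K).val + (m+1)} : Finset ℕ))
    (fun x => ((x - p : Fin (2*m+1)) : ℕ)) ?_ ?_) (card_le_two)
  · intro x hx
    rw [mem_coe, mem_filter] at hx
    have h1 : (((x - p : Fin (2*m+1)) : ℕ) : ZMod (m+1)) = c - K := by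
      rw [← hx.2, hsw x hx.1]; ring
    have h2 := congrArg ZMod.val h1
    rw [ZMod.val_natCast] at h2
    have h3 : ((x - p : Fin (2*m+1)) : ℕ) < 2*m+1 := (x - p).isLt
    simp only [coe_insert, coe_singleton, Set.mem_insert_iff, Set.mem_singleton_iff]
    rw [← h2]
    have h4 := Nat.div_add_mod ((x - p : Fin (2*m+1)) : ℕ) (m+1)
    have h5 : ((x - p : Fin (2*m+1)) : ℕ) / (m+1) < 2 := by
      rw [Nat.div_lt_iff_lt_mul (by omega)]; omega
    interval_cases h6 : ((x - p : Fin (2*m+1)) : ℕ) / (m+1)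
    · left; omega
    · right; omega
  · intro x _ x' _ h
    have : x - p = x' - p := Fin.ext h
    exact sub_left_injective this

end OddG
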