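import Pool.Agent.Lib.MP_e26f2a_co.LinkDefs

set_option autoImplicit false

namespace OddG

open Finset

theorem cast_mn (m : ℕ) : ((2 * m + 1 : ℕ) : ZMod (m+1)) = -1 ∧ ((m : ℕ) : ZMod (m+1)) = -1 := by
  have h := ZMod.natCast_self (m+1)
  push_cast at h ⊢
  constructor
  · linear_combination 2 * h
  · linear_combination h

theorem chi_rot {m : ℕ} (V : Finset (Fin (2*m+1))) (p j : Fin (2*m+1)) :
    chi (V.image (· + j)) (p + j) = chi V p := by
  unfold chi
  rw [sum_image (fun a _ b _ h => add_right_cancel h)]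
  refine sum_congr rfl fun v _ => ?_
  rw [add_sub_add_right_eq_sub]

theorem chi_co {m : ℕ} (V : Finset (Fin (2*m+1))) (p : Fin (2*m+1)) (hV : V.card = m)
    (hp : p ∉ V) : chi (co V p) p = 1 - chi V p := by
  have h1 : chi (co V p) p + chi V p + (((p - p : Fin (2*m+1)) : ℕ) : ZMod (m+1)) =
      ∑ v : Fin (2*m+1), (((v - p : Fin (2*m+1)) : ℕ) : ZMod (m+1)) := by
    unfold chi co
    rw [← sum_sdiff (subset_univ (insert p V)), sum_insert hp]
    ring
  have h2 : ∑ v : Fin (2*m+1), (((v - p : Fin (2*m+1)) : ℕ) : ZMod (m+1)) =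
      ∑ u : Fin (2*m+1), ((u : ℕ) : ZMod (m+1)) :=
    Equiv.sum_comp (Equiv.subRight p) (fun u : Fin (2*m+1) => ((u : ℕ) : ZMod (m+1)))
  have h3 : ∑ u : Fin (2*m+1), ((u : ℕ) : ZMod (m+1)) = 1 := by
    rw [Fin.sum_univ_eq_sum_range (fun i => ((i : ℕ) : ZMod (m+1))) (2*m+1), ← Nat.cast_sum]
    have h4 : ∑ i ∈ range (2*m+1), i = m * (2*m+1) := by
      have := Finset.sum_range_id_mul_two (2*m+1)
      have h5 : (2*m+1) * (2*m+1-1) = (m * (2*m+1)) * 2 := by
        rw [Nat.add_sub_cancel]; ring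
      omega
    rw [h4, Nat.cast_mul, (cast_mn m).1, (cast_mn m).2]
    ring
  rw [h2, h3, sub_self] at h1
  simp only [Fin.val_zero, Nat.cast_zero, add_zero] at h1
  rw [← h1]; ring

theorem val_rev_sub {m : ℕ} (v p : Fin (2*m+1)) : Fin.rev v - Fin.rev p = p - v := by
  apply Fin.ext
  rw [Fin.sub_def, Fin.sub_def]
  simp only [Fin.val_rev]
  congr 1
  have := v.isLt
  have := p.isLt
  omega

theorem val_sub_add {m : ℕ} (v p : Fin (2*m+1)) (h : v ≠ p) :
    ((p - v : Fin (2*m+1)) : ℕ) + ((v - p : Fin (2*m+1)) : ℕ) = 2*m+1 := by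
  rcases lt_or_gt_of_ne h with h1 | h1
  · have e1 := Fin.coe_sub_iff_le.2 h1.le
    have e2 := Fin.coe_sub_iff_lt.2 h1
    have h2 : (v : ℕ) < p := h1
    have := p.isLt
    omega
  · have e1 := Fin.coe_sub_iff_le.2 h1.le
    have e2 := Fin.coe_sub_iff_lt.2 h1
    have h2 : (p : ℕ) < v := h1
    have := v.isLt
    omega

theorem chi_rev {m : ℕ} (V : Finset (Fin (2*m+1))) (p : Fin (2*m+1)) (hV : V.card = m)
    (hp : p ∉ V) : chi (rvV V) (Fin.rev p) = 1 - chi V p := by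
  unfold chi rvV
  rw [sum_image (fun a _ b _ h => Fin.rev_injective h)]
  have h1 : ∀ v ∈ V, (((Fin.rev v - Fin.rev p : Fin (2*m+1)) : ℕ) : ZMod (m+1)) =
      -1 - (((v - p : Fin (2*m+1)) : ℕ) : ZMod (m+1)) := by
    intro v hv
    have hne : v ≠ p := by rintro rfl; exact hp hv
    have h2 := congrArg (Nat.cast : ℕ → ZMod (m+1)) (val_sub_add v p hne)
    rw [(cast_mn m).1, Nat.cast_add] at h2
    rw [val_rev_sub]
    linear_combination h2
  rw [sum_congr rfl h1, sum_sub_distrib, sum_const, hV, nsmul_eq_mul, (cast_mn m).2]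
  ring

end OddG
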