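import Pool.Agent.Lib.MP_e26f2a_co.Orb

set_option autoImplicit false

namespace OddG

open Finset

namespace Coll

variable {m : ℕ}

theorem mem_co {V : Finset (Fin (2*m+1))} {p i : Fin (2*m+1)} :
    i ∈ co V p ↔ i ≠ p ∧ i ∉ V := by
  simp [co, not_or]

theorem card_co (V : Finset (Fin (2*m+1))) (p : Fin (2*m+1)) (hV : V.card = m) (hp : p ∉ V) :
    (co V p).card = m := by
  unfold co
  rw [card_sdiff_of_subset (subset_univ _), card_insert_of_notMem hp, hV]
  simp only [card_univ, Fintype.card_fin]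
  omega

theorem mem_sw {V : Finset (Fin (2*m+1))} {y x i : Fin (2*m+1)} :
    i ∈ sw V y x ↔ i = x ∨ (i ≠ y ∧ i ∈ V) := by
  simp [sw]

theorem sw_inj (V : Finset (Fin (2*m+1))) (y x y' x' : Fin (2*m+1)) (hy : y ∈ V)
    (hx : x ∉ V) (h : sw V y x = sw V y' x') : y = y' ∧ x = x' := by
  constructor
  · have h1 : y ∉ sw V y x := by
      rw [mem_sw]
      rintro (h | h)
      · exact hx (h ▸ hy)
      · exact h.1 rfl
    rw [h, mem_sw] at h1
    by_contra h2
    exact h1 (Or.inr ⟨h2, hy⟩)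
  · have h1 : x ∈ sw V y x := by rw [mem_sw]; exact Or.inl rfl
    rw [h, mem_sw] at h1
    rcases h1 with h1 | h1
    · exact h1
    · exact absurd h1.2 hx

theorem sw_tr (V : Finset (Fin (2*m+1))) (y x j : Fin (2*m+1)) :
    (sw V y x).image (· + j) = sw (V.image (· + j)) (y + j) (x + j) := by
  ext i
  rw [mem_image, mem_sw, mem_image]
  constructor
  · rintro ⟨a, ha, rfl⟩
    rw [mem_sw] at ha
    rcases ha with rfl | ⟨h1, h2⟩
    · exact Or.inl rfl
    · exact Or.inr ⟨fun h => h1 (add_right_cancel h), a, h2, rfl⟩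
  · rintro (rfl | ⟨h1, a, ha, rfl⟩)
    · exact ⟨x, by rw [mem_sw]; exact Or.inl rfl, rfl⟩
    · exact ⟨a, by rw [mem_sw]; exact Or.inr ⟨fun h => h1 (by rw [h]), ha⟩, rfl⟩

/-- for a fixed translation few second arcs occur -/
theorem card_B (V : Finset (Fin (2*m+1))) (p : Fin (2*m+1)) (hV : V.card = m)
    (hp : p ∉ V) (j : Fin (2*m+1)) (hj : V.image (· + j) ≠ V) :
    ((V ×ˢ co V p).filter (fun r' => ∃ r ∈ V ×ˢ co V p,
      sw V r'.1 r'.2 = (sw V r.1 r.2).image (· + j))).card ≤ 2*m+1 := by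
  classical
  set V' := V.image (· + j) with hV'
  have hc : V'.card = V.card := by
    rw [hV']; exact card_image_of_injective _ (add_left_injective j)
  have hab : (∃ a ∈ V, a ∉ V') ∧ (∃ b ∈ V', b ∉ V) := by
    constructor
    · by_contra h
      push Not at h
      exact hj ((eq_of_subset_of_card_le h (le_of_eq hc)).symm)
    · by_contra h
      push Not at h
      exact hj (eq_of_subset_of_card_le h (le_of_eq hc.symm))
  obtain ⟨⟨a, ha, ha'⟩, b, hb', hb⟩ := hab
  -- the exceptional arc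
  have hex : ∃ r0 : Fin (2*m+1) × Fin (2*m+1), ∀ r' ∈ (V ×ˢ co V p).filter
      (fun r' => ∃ r ∈ V ×ˢ co V p, sw V r'.1 r'.2 = (sw V r.1 r.2).image (· + j)),
      r'.1 ≠ a → r'.2 ≠ b → r' = r0 := by
    by_cases hne : ∃ r0 ∈ (V ×ˢ co V p).filter
      (fun r' => ∃ r ∈ V ×ˢ co V p, sw V r'.1 r'.2 = (sw V r.1 r.2).image (· + j)),
      r0.1 ≠ a ∧ r0.2 ≠ b
    · obtain ⟨r0, hr0, h01, h02⟩ := hne
      have key : ∀ r' ∈ (V ×ˢ co V p).filter
        (fun r' => ∃ r ∈ V ×ˢ co V p, sw V r'.1 r'.2 = (sw V r.1 r.2).image (· + j)),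
        r'.1 ≠ a → r'.2 ≠ b → sw V r'.1 r'.2 = sw V' b a := by
        intro r' hr' h1 h2
        rw [mem_filter, mem_product] at hr'
        obtain ⟨⟨hy', hx'⟩, r, hr, h⟩ := hr'
        rw [mem_product] at hr
        rw [mem_co] at hx'
        rw [sw_tr, ← hV'] at h
        have e1 : a = r.2 + j := by
          have : a ∈ sw V r'.1 r'.2 := by
            rw [mem_sw]; exact Or.inr ⟨fun h => h1 h.symm, ha⟩
          rw [h, mem_sw] at this
          rcases this with h3 | h3
          · exact h3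
          · exact absurd h3.2 ha'
        have e2 : b = r.1 + j := by
          have : b ∉ sw V r'.1 r'.2 := by
            rw [mem_sw]
            rintro (h3 | h3)
            · exact h2 h3.symm
            · exact hb h3.2
          rw [h, mem_sw] at this
          by_contra h3
          exact this (Or.inr ⟨h3, hb'⟩)
        rw [h, e1, e2]
      refine ⟨r0, fun r' hr' h1 h2 => ?_⟩
      have k1 := key r' hr' h1 h2
      have k2 := key r0 hr0 h01 h02
      rw [mem_filter, mem_product, mem_co] at hr'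
      have := sw_inj V r'.1 r'.2 r0.1 r0.2 hr'.1.1 hr'.1.2.2 (k1.trans k2.symm)
      exact Prod.ext this.1 this.2
    · push Not at hne
      exact ⟨(a, a), fun r' hr' h1 h2 => absurd (hne r' hr' h1) h2⟩
  obtain ⟨r0, hr0⟩ := hex
  have hsub : (V ×ˢ co V p).filter
      (fun r' => ∃ r ∈ V ×ˢ co V p, sw V r'.1 r'.2 = (sw V r.1 r.2).image (· + j)) ⊆
      (({a} : Finset (Fin (2*m+1))) ×ˢ co V p ∪ V ×ˢ {b}) ∪ {r0} := by
    intro r' hr'
    have h0 := hr'
    rw [mem_filter, mem_product] at h0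
    rw [mem_union, mem_union, mem_product, mem_product, mem_singleton, mem_singleton,
      mem_singleton]
    by_cases h1 : r'.1 = a
    · exact Or.inl (Or.inl ⟨h1, h0.1.2⟩)
    · by_cases h2 : r'.2 = b
      · exact Or.inl (Or.inr ⟨h0.1.1, h2⟩)
      · exact Or.inr (hr0 r' hr' h1 h2)
  refine (card_le_card hsub).trans ((card_union_le _ _).trans ?_)
  have h3 := card_union_le (({a} : Finset (Fin (2*m+1))) ×ˢ co V p) (V ×ˢ {b})
  rw [card_product, card_product, card_singleton, card_singleton, card_co V p hV hp, hV] at h3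
  rw [card_singleton]
  omega

end Coll

open Coll

theorem collide {m : ℕ} (V : Finset (Fin (2*m+1))) (p : Fin (2*m+1)) (hV : V.card = m)
    (hp : p ∉ V) :
    (((V ×ˢ co V p) ×ˢ (V ×ˢ co V p)).filter
      (fun q => orb (sw V q.1.1 q.1.2) = orb (sw V q.2.1 q.2.2))).card ≤ 9 * m^2 := by
  classical
  set R := V ×ˢ co V p with hR
  have hRc : R.card = m * m := by rw [hR, card_product, hV, card_co V p hV hp]
  let S : Fin (2*m+1) → Finset ((Fin (2*m+1) × Fin (2*m+1)) × (Fin (2*m+1) × Fin (2*m+1))) :=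
    fun j => (R ×ˢ R).filter (fun q => sw V q.2.1 q.2.2 = (sw V q.1.1 q.1.2).image (· + j))
  have hsub : (R ×ˢ R).filter
      (fun q => orb (sw V q.1.1 q.1.2) = orb (sw V q.2.1 q.2.2)) ⊆ univ.biUnion S := by
    intro q hq
    rw [mem_filter] at hq
    obtain ⟨j, hj⟩ := orb_eq _ _ hq.2
    rw [mem_biUnion]
    exact ⟨j, mem_univ _, mem_filter.2 ⟨hq.1, hj⟩⟩
  have hS0 : (S 0).card ≤ m * m := by
    rw [← hRc]
    refine card_le_card_of_injOn (fun q => q.1) ?_ ?_
    · intro q hq
      rw [mem_coe, mem_filter, mem_product] at hq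
      exact hq.1.1
    · intro q hq q' hq' h
      rw [mem_coe, mem_filter, mem_product] at hq hq'
      have h' : q.1 = q'.1 := h
      refine Prod.ext h' ?_
      have h2 := hq.1.2
      rw [hR, mem_product, mem_co] at h2
      have h3 : sw V q.2.1 q.2.2 = sw V q'.2.1 q'.2.2 := by rw [hq.2, hq'.2, h']
      have := sw_inj V _ _ _ _ h2.1 h2.2.2 h3
      exact Prod.ext this.1 this.2
  have hSj : ∀ j, j ≠ 0 → (S j).card ≤ 2*m+1 := by
    intro j hj
    refine le_trans ?_ (card_B V p hV hp j (fun h => hj (rot_free V j hV h)))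
    refine card_le_card_of_injOn (fun q => q.2) ?_ ?_
    · intro q hq
      rw [mem_coe, mem_filter, mem_product] at hq
      rw [mem_coe, mem_filter]
      exact ⟨hq.1.2, q.1, hq.1.1, hq.2⟩
    · intro q hq q' hq' h
      rw [mem_coe, mem_filter, mem_product] at hq hq'
      have h' : q.2 = q'.2 := h
      refine Prod.ext ?_ h'
      have h2 := hq.1.1
      rw [hR, mem_product, mem_co] at h2
      have h3 : (sw V q.1.1 q.1.2).image (· + j) = (sw V q'.1.1 q'.1.2).image (· + j) := by
        rw [← hq.2, ← hq'.2, h']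
      have h4 : sw V q.1.1 q.1.2 = sw V q'.1.1 q'.1.2 :=
        image_injective (add_left_injective j) h3
      have := sw_inj V _ _ _ _ h2.1 h2.2.2 h4
      exact Prod.ext this.1 this.2
  have htot : (univ.biUnion S).card ≤ m * m + 2 * m * (2*m+1) := by
    refine card_biUnion_le.trans ?_
    rw [← add_sum_erase univ (fun j => (S j).card) (mem_univ 0)]
    refine add_le_add hS0 ?_
    refine (sum_le_card_nsmul _ _ (2*m+1) fun j hj => hSj j (ne_of_mem_erase hj)).trans ?_
    rw [card_erase_of_mem (mem_univ _), card_univ, Fintype.card_fin, smul_eq_mul]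
    exact le_of_eq (by rw [Nat.add_sub_cancel])
  refine (card_le_card hsub).trans (htot.trans ?_)
  rcases Nat.eq_zero_or_pos m with h | h
  · subst h; simp
  · nlinarith

end OddG
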