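import Mathlib

set_option autoImplicit false

/-! Definitions for the edge colouring of the odd graphs `O_k`, `k` even (MP_e26f2a_co).
`k = 2 (m+1)`, `n = 2 m + 1` pairs, ground set `X n` with `2 n + 1 = 2 k - 1` elements. -/

namespace OddG

open Finset

/-- Ground set: a special element `none` and the pairs `some (i, true)`, `some (i, false)`. -/
abbrev X (n : ℕ) := Option (Fin n × Bool)

section basic
variable {n : ℕ}

/-- The neighbour of the vertex `A` missing the element `x`. -/
def N (A : Finset (X n)) (x : X n) : Finset (X n) := (insert x A)ᶜ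

/-- Positions of the letters: exactly one element of the pair is in `A`. -/
def Lam (A : Finset (X n)) : Finset (Fin n) :=
  univ.filter fun i => ¬ (some (i, true) ∈ A ↔ some (i, false) ∈ A)

/-- The sign of the letter at `i`. -/
def sg (A : Finset (X n)) (i : Fin n) : Bool := decide (some (i, true) ∈ A)

/-- Empty pairs. -/
def Es (A : Finset (X n)) : Finset (Fin n) :=
  univ.filter fun i => some (i, true) ∉ A ∧ some (i, false) ∉ A

/-- Full pairs. -/
def Fs (A : Finset (X n)) : Finset (Fin n) :=
  univ.filter fun i => some (i, true) ∈ A ∧ some (i, false) ∈ A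

/-- The missing element at a letter position (deletion of the letter `i`). -/
def dl (A : Finset (X n)) (i : Fin n) : X n := some (i, !sg A i)

/-- Smallest and largest element (junk value irrelevant). -/
def mn (Λ : Finset (Fin n)) (i₀ : Fin n) : Fin n := if h : Λ.Nonempty then Λ.min' h else i₀
def mx (Λ : Finset (Fin n)) (i₀ : Fin n) : Fin n := if h : Λ.Nonempty then Λ.max' h else i₀

/-- Sign of the first letter / of the last letter. -/
def fs (A : Finset (X n)) : Bool :=
  if h : (Lam A).Nonempty then sg A ((Lam A).min' h) else true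
def ls (A : Finset (X n)) : Bool :=
  if h : (Lam A).Nonempty then sg A ((Lam A).max' h) else true

/-- rank, next and previous position in a finite set of positions -/
def rk (Λ : Finset (Fin n)) (i : Fin n) : ℕ := (Λ.filter (· < i)).card
def nx (Λ : Finset (Fin n)) (i : Fin n) : Fin n := mn (Λ.filter (i < ·)) i
def pv (Λ : Finset (Fin n)) (i : Fin n) : Fin n := mx (Λ.filter (· < i)) i

/-- The option set: three positions, first and last sign equal, sum of positions in `S`. -/
def op2 (S : Finset (ZMod 6)) (Λ : Finset (Fin n)) (s : Fin n → Bool) : Bool :=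
  decide (Λ.card = 3 ∧ (∀ i ∈ Λ, ∀ j ∈ Λ, rk Λ i = 0 → rk Λ j = 2 → s i = s j) ∧
    (((∑ i ∈ Λ, (i : ℕ)) : ℕ) : ZMod 6) ∈ S)

/-- Label of the deletion of the letter `i`, for at least two letters. -/
def cdf (S : Finset (ZMod 6)) (Λ : Finset (Fin n)) (s : Fin n → Bool) (i : Fin n) : Bool :=
  xor (if rk Λ i % 2 = 0 ∧ (Λ.filter (i < ·)).Nonempty then decide (s i = s (nx Λ i))
       else decide (s (pv Λ i) ≠ s i))
    (op2 S Λ s && decide (rk Λ i = 1))

/-- Label of the special edge, for an odd number `≥ 3` of letters. -/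
def czf (S : Finset (ZMod 6)) (Λ : Finset (Fin n)) (s : Fin n → Bool) : Bool :=
  xor (decide (∀ i ∈ Λ, rk Λ i + 1 = Λ.card → s (pv Λ i) = s i)) (op2 S Λ s)

/-- Label of the tie at a vertex with one letter. -/
def tD (D : Finset (Fin n) → Fin n → Bool) (A : Finset (X n)) : Bool :=
  decide (∃ p ∈ Lam A, D (if sg A p = true then Es A else Fs A) p = true)

/-- Label of the deletion of the letter `i` of `A`. -/
def cA (S : Finset (ZMod 6)) (D : Finset (Fin n) → Fin n → Bool) (A : Finset (X n))
    (i : Fin n) : Bool :=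
  if (Lam A).card = 1 then tD D A else cdf S (Lam A) (sg A) i

/-- The label of the edge at `A` missing `x`. -/
def lab (S : Finset (ZMod 6)) (D : Finset (Fin n) → Fin n → Bool) (A : Finset (X n)) :
    X n → Bool
  | none => if (Lam A).card = 1 then !(tD D A) else czf S (Lam A) (sg A)
  | some (i, b) => if some (i, !b) ∈ A then cA S D A i else cA S D (N A (some (i, b))) i

/-- Mirror images. -/
def rvx : X n → X n := Option.map (fun q => (Fin.rev q.1, q.2))
def rvA (A : Finset (X n)) : Finset (X n) := A.image rvx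
def rvV (V : Finset (Fin n)) : Finset (Fin n) := V.image Fin.rev

end basic

/-- What is needed of the labelling `L` (the graph `L = true`). -/
structure Good (m : ℕ) (S : Finset (ZMod 6)) (D : Finset (Fin (2*m+1)) → Fin (2*m+1) → Bool)
    (L : Finset (X (2*m+1)) → X (2*m+1) → Bool) : Prop where
  symm : ∀ A x, A.card = 2*m+1 → x ∉ A → L (N A x) x = L A x
  reg : ∀ A, A.card = 2*m+1 → (univ.filter fun x => x ∉ A ∧ L A x = true).card = m+1
  cut : ∀ A x, A.card = 2*m+1 → x ∉ A → L A x = true → (Lam A).Nonempty →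
    (Lam (N A x)).Nonempty → fs (N A x) ≠ fs A
  tie : ∀ A p, A.card = 2*m+1 → Lam A = {p} →
    L A (dl A p) = D (if sg A p = true then Es A else Fs A) p
  d2a : ∀ A i j, A.card = 2*m+1 → Lam A = {i, j} → i < j →
    L A (dl A i) = decide (sg A i = sg A j)
  d2b : ∀ A i j, A.card = 2*m+1 → Lam A = {i, j} → i < j →
    L A (dl A j) = decide (sg A i ≠ sg A j)
  d3a : ∀ A i j k, A.card = 2*m+1 → Lam A = {i, j, k} → i < j → j < k →
    L A (dl A i) = decide (sg A i = sg A j)
  d3b : ∀ A i j k, A.card = 2*m+1 → Lam A = {i, j, k} → i < j → j < k →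
    L A (dl A j) = xor (decide (sg A i ≠ sg A j))
      (decide (sg A i = sg A k ∧ (((i : ℕ) + (j : ℕ) + (k : ℕ) : ℕ) : ZMod 6) ∈ S))
  d3c : ∀ A i j k, A.card = 2*m+1 → Lam A = {i, j, k} → i < j → j < k →
    L A (dl A k) = decide (sg A j ≠ sg A k)
  d3z : ∀ A i j k, A.card = 2*m+1 → Lam A = {i, j, k} → i < j → j < k →
    L A none = xor (decide (sg A j = sg A k))
      (decide (sg A i = sg A k ∧ (((i : ℕ) + (j : ℕ) + (k : ℕ) : ℕ) : ZMod 6) ∈ S))

/-- Cyclic distance statistic modulo `m+1`. -/
def chi {m : ℕ} (V : Finset (Fin (2*m+1))) (p : Fin (2*m+1)) : ZMod (m+1) :=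
  ∑ v ∈ V, (((v - p : Fin (2*m+1)) : ℕ) : ZMod (m+1))

/-- complement inside `univ \ {p}` -/
def co {m : ℕ} (V : Finset (Fin (2*m+1))) (p : Fin (2*m+1)) : Finset (Fin (2*m+1)) :=
  univ \ insert p V

/-- The tie labels determined by the sign function `ep`. -/
def Dep {m : ℕ} (ep : Finset (Fin (2*m+1)) → Bool) (V : Finset (Fin (2*m+1)))
    (p : Fin (2*m+1)) : Bool :=
  if chi V p = 1 - chi V p then !ep V else decide ((chi V p).val < (1 - chi V p).val)

/-- degree of the first piece, and its fraction -/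
def d1 (m : ℕ) : ℕ := (m+2)/2
noncomputable def th (m : ℕ) : ℝ := (d1 m : ℝ) / ((m : ℝ) + 1)

/-- The charge of the vertex `(p, σ, V)`. -/
noncomputable def ps {m : ℕ} (ep : Finset (Fin (2*m+1)) → Bool) (σ : Bool)
    (p : Fin (2*m+1)) (V : Finset (Fin (2*m+1))) : ℝ :=
  if Dep ep V p = true then
    (if σ = true then th m - (if ep V = false then 1 else 0)
      else -(th m - (if ep (co V p) = true then 1 else 0)))
  else 0

/-- exchange of `y ∈ V` and `x ∉ V` -/
def sw {m : ℕ} (V : Finset (Fin (2*m+1))) (y x : Fin (2*m+1)) : Finset (Fin (2*m+1)) :=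
  insert x (V.erase y)

/-- The required properties of the sign function, with averaged charges at most `δ`. -/
structure EpOK (m : ℕ) (δ : ℝ) (ep : Finset (Fin (2*m+1)) → Bool) : Prop where
  rot : ∀ V j, V.card = m → ep (V.image (· + j)) = ep V
  anti : ∀ V p, V.card = m → p ∉ V → chi V p = 1 - chi V p → ep (co V p) = !ep V
  bal : ((univ.powersetCard m).filter fun V => ep V = true).card =
    ((univ.powersetCard m).filter fun V => ep V = false).card
  small : ∀ σ V p, V.card = m → p ∉ V →
    |∑ y ∈ V, ∑ x ∈ co V p, ps ep σ p (sw V y x)| ≤ δ * (m : ℝ)^2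

/-- The good option sets. -/
def GS (S : Finset (ZMod 6)) : Prop := ∀ d : ZMod 6, ∃ s, s ∈ S ∧ s + d ∈ S

/-- The vertex with one letter `σ` at `p` and full set `F`. -/
def W1 {m : ℕ} (p : Fin (2*m+1)) (σ : Bool) (F : Finset (Fin (2*m+1))) :
    Finset (X (2*m+1)) :=
  univ.filter fun x => x = some (p, σ) ∨ ∃ i ∈ F, ∃ b : Bool, x = some (i, b)

/-- The vertex `(p, σ, V)`. -/
def uv {m : ℕ} (p : Fin (2*m+1)) (σ : Bool) (V : Finset (Fin (2*m+1))) :
    Finset (X (2*m+1)) :=
  if σ = true then W1 p true (co V p) else W1 p false V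

/-- allowed exchanges -/
def al {m : ℕ} (S : Finset (ZMod 6)) (p x y : Fin (2*m+1)) : Prop :=
  (x < p ∧ p < y) ∨ (y < p ∧ p < x) ∨ (((p : ℕ) + (x : ℕ) + (y : ℕ) : ℕ) : ZMod 6) ∈ S

instance {m : ℕ} (S : Finset (ZMod 6)) (p x y : Fin (2*m+1)) : Decidable (al S p x y) := by
  unfold al; infer_instance

/-- the sheet after the exchange -/
def fl {m : ℕ} (p x y : Fin (2*m+1)) (σ : Bool) : Bool :=
  if p < x ∧ p < y then !σ else σ

/-- directed energy of `g` along the edges with label `true` which are not ties -/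
noncomputable def enr {m : ℕ} (L : Finset (X (2*m+1)) → X (2*m+1) → Bool)
    (g : Finset (X (2*m+1)) → ℝ) : ℝ :=
  ∑ A ∈ univ.powersetCard (2*m+1), ∑ x : X (2*m+1),
    if x ∉ A ∧ L A x = true ∧ (Lam A).Nonempty ∧ (Lam (N A x)).Nonempty
    then |g A - g (N A x)| else 0

end OddG
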