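import Pool.Agent.Lib.MP_e26f2a_co.ChiInj
import Pool.Agent.Lib.MP_e26f2a_co.ChiSym

set_option autoImplicit false

namespace OddG

open Finset

theorem cnt_fix (m : ℕ) : ((univ : Finset (ZMod (m+1))).filter fun c => c = 1 - c).card ≤ 1 := by
  rw [Finset.card_le_one]
  intro a ha b hb
  rw [Finset.mem_filter] at ha hb
  have h1 : 2 * a = 1 := by linear_combination ha.2
  have h2 : 2 * b = 1 := by linear_combination hb.2
  calc a = (2 * b) * a := by rw [h2, one_mul]
    _ = (2 * a) * b := by ring
    _ = b := by rw [h1, one_mul]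

theorem cnt_split (m : ℕ) :
    ((univ : Finset (ZMod (m+1))).filter fun c => c = 1 - c).card +
      2 * ((univ : Finset (ZMod (m+1))).filter fun c => c.val < (1 - c).val).card = m + 1 := by
  have h1 : ((univ : Finset (ZMod (m+1))).filter fun c => (1 - c).val < c.val).card =
      ((univ : Finset (ZMod (m+1))).filter fun c => c.val < (1 - c).val).card := by
    refine Finset.card_nbij' (fun c => 1 - c) (fun c => 1 - c) ?_ ?_ ?_ ?_
    · intro c hc
      simp only [Finset.coe_filter, Finset.mem_univ, true_and, Set.mem_ofPred_eq] at hc ⊢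
      rw [sub_sub_cancel]; exact hc
    · intro c hc
      simp only [Finset.coe_filter, Finset.mem_univ, true_and, Set.mem_ofPred_eq] at hc ⊢
      rw [sub_sub_cancel]; exact hc
    · intro c _; exact sub_sub_cancel 1 c
    · intro c _; exact sub_sub_cancel 1 c
  have h2 : (univ : Finset (ZMod (m+1))).card = m + 1 := by rw [Finset.card_univ, ZMod.card]
  have h3 := Finset.card_filter_add_card_filter_not (s := (univ : Finset (ZMod (m+1))))
    (fun c => c = 1 - c)
  have h4 := Finset.card_filter_add_card_filter_not
    (s := (univ : Finset (ZMod (m+1))).filter fun c => ¬ c = 1 - c)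
    (fun c => c.val < (1 - c).val)
  rw [Finset.filter_filter, Finset.filter_filter] at h4
  have h5 : ((univ : Finset (ZMod (m+1))).filter fun c => ¬ c = 1 - c ∧ c.val < (1 - c).val) =
      (univ : Finset (ZMod (m+1))).filter fun c => c.val < (1 - c).val := by
    refine Finset.filter_congr fun c _ => ?_
    constructor
    · exact fun h => h.2
    · intro h; refine ⟨fun h' => ?_, h⟩
      rw [← h'] at h; exact absurd h (lt_irrefl _)
  have h6 : ((univ : Finset (ZMod (m+1))).filter fun c => ¬ c = 1 - c ∧ ¬ c.val < (1 - c).val) =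
      (univ : Finset (ZMod (m+1))).filter fun c => (1 - c).val < c.val := by
    refine Finset.filter_congr fun c _ => ?_
    constructor
    · rintro ⟨h, h'⟩
      refine lt_of_le_of_ne (not_lt.1 h') ?_
      intro h7; exact h (ZMod.val_injective (m+1) h7).symm
    · intro h; refine ⟨fun h' => ?_, h.not_gt⟩
      rw [← h'] at h; exact absurd h (lt_irrefl _)
  rw [h5, h6, h1] at h4
  omega

theorem cnt_plus {m : ℕ} (ep : Finset (Fin (2*m+1)) → Bool) (V : Finset (Fin (2*m+1)))
    (hV : V.card = m) :
    ((univ \ V).filter fun p => Dep ep V p = true).card =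
      if ep V = true then m + 1 - d1 m else d1 m := by
  classical
  have h1 : ((univ \ V).filter fun p => Dep ep V p = true).card =
      ((univ : Finset (ZMod (m+1))).filter fun c =>
        (if c = 1 - c then !ep V else decide (c.val < (1 - c).val)) = true).card := by
    have h2 : Set.InjOn (chi V)
        (((univ \ V).filter fun p => Dep ep V p = true : Finset (Fin (2*m+1))) :
          Set (Fin (2*m+1))) := by
      intro p hp q hq h
      rw [Finset.mem_coe, Finset.mem_filter, Finset.mem_sdiff] at hp hq
      exact chi_inj V hV p q hp.1.2 hq.1.2 h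
    rw [← Finset.card_image_of_injOn h2]
    congr 1
    ext c
    rw [Finset.mem_image, Finset.mem_filter]
    constructor
    · rintro ⟨p, hp, rfl⟩
      rw [Finset.mem_filter] at hp
      exact ⟨Finset.mem_univ _, hp.2⟩
    · rintro ⟨-, h3⟩
      obtain ⟨p, hp, rfl⟩ := chi_surj V hV c
      exact ⟨p, Finset.mem_filter.2 ⟨Finset.mem_sdiff.2 ⟨Finset.mem_univ _, hp⟩, h3⟩, rfl⟩
  have h3 := cnt_fix m
  have h4 := cnt_split m
  rw [h1]
  cases hep : ep V
  · have h5 : ((univ : Finset (ZMod (m+1))).filter fun c =>
        (if c = 1 - c then !false else decide (c.val < (1 - c).val)) = true) =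
        ((univ : Finset (ZMod (m+1))).filter fun c => c = 1 - c) ∪
        ((univ : Finset (ZMod (m+1))).filter fun c => c.val < (1 - c).val) := by
      ext c
      simp only [Finset.mem_filter, Finset.mem_univ, true_and, Finset.mem_union]
      by_cases h : c = 1 - c
      · rw [if_pos h]
        exact ⟨fun _ => Or.inl h, fun _ => rfl⟩
      · rw [if_neg h, decide_eq_true_iff]
        exact ⟨fun h' => Or.inr h', fun h' => h'.resolve_left h⟩
    have h6 : Disjoint ((univ : Finset (ZMod (m+1))).filter fun c => c = 1 - c)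
        ((univ : Finset (ZMod (m+1))).filter fun c => c.val < (1 - c).val) := by
      rw [Finset.disjoint_filter]
      intro c _ h h'
      rw [← h] at h'
      exact absurd h' (lt_irrefl _)
    rw [h5, Finset.card_union_of_disjoint h6]
    simp only [Bool.false_eq_true, if_false]
    unfold d1
    omega
  · have h5 : ((univ : Finset (ZMod (m+1))).filter fun c =>
        (if c = 1 - c then !true else decide (c.val < (1 - c).val)) = true) =
        ((univ : Finset (ZMod (m+1))).filter fun c => c.val < (1 - c).val) := by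
      ext c
      simp only [Finset.mem_filter, Finset.mem_univ, true_and]
      by_cases h : c = 1 - c
      · rw [if_pos h, ← h]
        exact ⟨fun h' => absurd h' (by decide), fun h' => absurd h' (lt_irrefl _)⟩
      · rw [if_neg h, decide_eq_true_iff]
    rw [h5]
    simp only [if_true]
    unfold d1
    omega

theorem dec_not_lt {m : ℕ} (c : ZMod (m+1)) (h : ¬ c = 1 - c) :
    decide ((1 - c).val < c.val) = !decide (c.val < (1 - c).val) := by
  by_cases h1 : c.val < (1 - c).val
  · have h2 : ¬ (1 - c).val < c.val := h1.not_gt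
    simp [h1, h2]
  · have h2 : (1 - c).val < c.val :=
      lt_of_le_of_ne (not_lt.1 h1) (fun h7 => h (ZMod.val_injective (m+1) h7).symm)
    simp [h1, h2]

theorem fix_iff {m : ℕ} (c : ZMod (m+1)) : (1 - c = 1 - (1 - c)) ↔ c = 1 - c := by
  rw [sub_sub_cancel]; exact eq_comm

theorem Dep_co {m : ℕ} (ep : Finset (Fin (2*m+1)) → Bool)
    (anti : ∀ V p, V.card = m → p ∉ V → chi V p = 1 - chi V p → ep (co V p) = !ep V)
    (V : Finset (Fin (2*m+1))) (p : Fin (2*m+1)) (hV : V.card = m) (hp : p ∉ V) :
    Dep ep (co V p) p = !Dep ep V p := by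
  unfold Dep
  rw [chi_co V p hV hp]
  by_cases h : chi V p = 1 - chi V p
  · rw [if_pos h, if_pos ((fix_iff _).2 h), anti V p hV hp h]
  · rw [if_neg h, if_neg (fun h' => h ((fix_iff _).1 h')), sub_sub_cancel, dec_not_lt _ h]

theorem Dep_rev {m : ℕ} (ep : Finset (Fin (2*m+1)) → Bool)
    (V : Finset (Fin (2*m+1))) (p : Fin (2*m+1)) (hV : V.card = m) (hp : p ∉ V) :
    Dep (fun V => !ep (rvV V)) V p = !Dep ep (rvV V) (Fin.rev p) := by
  unfold Dep
  rw [chi_rev V p hV hp]
  by_cases h : chi V p = 1 - chi V p
  · rw [if_pos h, if_pos ((fix_iff _).2 h)]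
  · rw [if_neg h, if_neg (fun h' => h ((fix_iff _).1 h')), sub_sub_cancel, dec_not_lt _ h,
      Bool.not_not]

theorem Dep_rot {m : ℕ} (ep : Finset (Fin (2*m+1)) → Bool)
    (rot : ∀ V j, V.card = m → ep (V.image (· + j)) = ep V)
    (V : Finset (Fin (2*m+1))) (p j : Fin (2*m+1)) (hV : V.card = m) :
    Dep ep (V.image (· + j)) (p + j) = Dep ep V p := by
  unfold Dep
  rw [chi_rot, rot V j hV]

end OddG
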