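import Pool.Agent.Lib.MP_e26f2a_co.LinkDefs

set_option autoImplicit false

namespace OddG

open Finset

theorem dual_flow {V E : Type} [Fintype V] [DecidableEq V] [Fintype E] (src tgt : E → V)
    (ψ : V → ℝ) (c : ℝ) (hc : 0 ≤ c)
    (H : ∀ g : V → ℝ, ∑ v, ψ v * g v ≤ c * ∑ e, |g (src e) - g (tgt e)|) :
    ∃ f : E → ℝ, (∀ e, |f e| ≤ c) ∧
      ∀ v, (∑ e, if src e = v then f e else 0) - (∑ e, if tgt e = v then f e else 0) = ψ v := by
  classical
  let L : (E → ℝ) →ₗ[ℝ] (V → ℝ) :=
    { toFun := fun f v => (∑ e, if src e = v then f e else 0) - (∑ e, if tgt e = v then f e else 0)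
      map_add' := by
        intro f g; funext v
        simp only [Pi.add_apply]
        have h1 : ∀ (t : E → V), (∑ e, if t e = v then f e + g e else 0) =
            (∑ e, if t e = v then f e else 0) + (∑ e, if t e = v then g e else 0) := by
          intro t; rw [← sum_add_distrib]
          exact sum_congr rfl fun e _ => by split_ifs <;> simp
        rw [h1, h1]; ring
      map_smul' := by
        intro r f; funext v
        simp only [Pi.smul_apply, smul_eq_mul, RingHom.id_apply]
        have h1 : ∀ (t : E → V), (∑ e, if t e = v then r * f e else 0) =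
            r * (∑ e, if t e = v then f e else 0) := by
          intro t; rw [mul_sum]
          exact sum_congr rfl fun e _ => by split_ifs <;> simp
        rw [h1, h1]; ring }
  let B : Set (E → ℝ) := Set.Icc (fun _ => -c) (fun _ => c)
  have hBc : IsCompact B := isCompact_Icc
  have hBv : Convex ℝ B := convex_Icc _ _
  have hLc : Continuous L := L.continuous_of_finiteDimensional
  have hK1 : IsClosed (L '' B) := (hBc.image hLc).isClosed
  have hK2 : Convex ℝ (L '' B) := hBv.linear_image L
  by_cases hψ : ψ ∈ L '' B
  · obtain ⟨f, hf, hfe⟩ := hψ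
    refine ⟨f, ?_, ?_⟩
    · intro e
      rw [abs_le]
      exact ⟨hf.1 e, hf.2 e⟩
    · intro v
      exact congrFun hfe v
  · exfalso
    obtain ⟨F, u, h1, h2⟩ := geometric_hahn_banach_closed_point hK2 hK1 hψ
    let g : V → ℝ := fun v => F (Pi.single v 1)
    have hF : ∀ x : V → ℝ, F x = ∑ v, x v * g v := by
      intro x
      have hx : x = ∑ v, x v • (Pi.single v (1:ℝ) : V → ℝ) := by
        funext w
        simp [Finset.sum_apply, Pi.single_apply]
      conv_lhs => rw [hx]
      rw [map_sum]
      exact sum_congr rfl fun v _ => by rw [map_smul, smul_eq_mul]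
    let f : E → ℝ := fun e => if g (tgt e) ≤ g (src e) then c else -c
    have hfB : f ∈ B := by
      constructor
      · intro e; simp only [f]; split_ifs <;> linarith
      · intro e; simp only [f]; split_ifs <;> linarith
    have h3 := h1 (L f) ⟨f, hfB, rfl⟩
    have h4 : F (L f) = c * ∑ e, |g (src e) - g (tgt e)| := by
      rw [hF]
      have h5 : ∀ (t : E → V), ∑ v, (∑ e, if t e = v then f e else 0) * g v =
          ∑ e, f e * g (t e) := by
        intro t
        simp_rw [sum_mul]
        rw [sum_comm]
        apply sum_congr rfl
        intro e _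
        have : ∀ v, (if t e = v then f e else 0) * g v = if t e = v then f e * g v else 0 := by
          intro v; split_ifs <;> simp
        simp_rw [this]
        simp
      have h6 : ∑ v, (L f) v * g v = ∑ v, (∑ e, if src e = v then f e else 0) * g v -
          ∑ v, (∑ e, if tgt e = v then f e else 0) * g v := by
        rw [← sum_sub_distrib]
        apply sum_congr rfl
        intro v _
        show ((∑ e, if src e = v then f e else 0) - (∑ e, if tgt e = v then f e else 0)) * g v = _
        ring
      rw [h6, h5, h5, ← sum_sub_distrib, mul_sum]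
      apply sum_congr rfl
      intro e _
      simp only [f]
      split_ifs with h
      · rw [abs_of_nonneg (by linarith)]; ring
      · rw [abs_of_neg (by linarith [not_le.mp h])]; ring
    have h7 := H g
    rw [← hF] at h7
    linarith

end OddG
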