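import Pool.Agent.Lib.MP_e26f2a_co.LinkDefs

set_option autoImplicit false

namespace OddG

open Finset

theorem numeric (m : ℕ) (hm : 60000 ≤ m) :
    2 * ((2:ℝ)^(2*m+1) * (2*m+1) * 4) *
      Real.exp (-((((m:ℝ)^2/61))^2 / (4*(9*(m:ℝ)^2/4)))) < 1 := by
  have hmR : (60000:ℝ) ≤ m := by exact_mod_cast hm
  have hpos : (0:ℝ) < m := by linarith
  have e1 : (((m:ℝ)^2/61))^2 / (4*(9*(m:ℝ)^2/4)) = (m:ℝ)^2/33489 := by
    field_simp
    norm_num
  rw [e1, Real.exp_neg]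
  have hexp : 2 * ((2:ℝ)^(2*m+1) * (2*m+1) * 4) < Real.exp ((m:ℝ)^2/33489) := by
    have h1 : (2:ℝ)^(2*m+1) = 2 * Real.exp (2*m*Real.log 2) := by
      rw [pow_succ, mul_comm]
      congr 1
      rw [mul_comm (2*(m:ℝ)) (Real.log 2), Real.exp_mul, Real.exp_log (by norm_num)]
      rw [← Real.rpow_natCast]; push_cast; ring_nf
    have h2 : Real.exp (2*m*Real.log 2) ≤ Real.exp (1.3863*m) := by
      apply Real.exp_le_exp.mpr
      have := Real.log_two_lt_d9
      nlinarith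
    have h3 : (0.4*(m:ℝ))^2/2 ≤ Real.exp (0.4*m) := by
      have := Real.quadratic_le_exp_of_nonneg (x := 0.4*(m:ℝ)) (by positivity)
      nlinarith
    have h4 : Real.exp (1.3863*m) * Real.exp (0.4*m) ≤ Real.exp ((m:ℝ)^2/33489) := by
      rw [← Real.exp_add]
      apply Real.exp_le_exp.mpr
      rw [le_div_iff₀ (by norm_num)]
      nlinarith
    have h5 : 16*(2*(m:ℝ)+1) < Real.exp (0.4*m) := by
      refine lt_of_lt_of_le ?_ h3
      nlinarith
    have h6 : 0 < Real.exp (1.3863*m) := Real.exp_pos _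
    calc 2 * ((2:ℝ)^(2*m+1) * (2*m+1) * 4) = 16*(2*(m:ℝ)+1) * Real.exp (2*m*Real.log 2) := by
          rw [h1]; ring
      _ ≤ 16*(2*(m:ℝ)+1) * Real.exp (1.3863*m) := by
          apply mul_le_mul_of_nonneg_left h2; positivity
      _ < Real.exp (0.4*m) * Real.exp (1.3863*m) := by
          apply mul_lt_mul_of_pos_right h5 h6
      _ ≤ Real.exp ((m:ℝ)^2/33489) := by rw [mul_comm]; exact h4
  have hE : 0 < Real.exp ((m:ℝ)^2/33489) := Real.exp_pos _
  rw [← div_eq_mul_inv, div_lt_one hE]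
  exact hexp

end OddG
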