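import Pool.Agent.Lib.MP_e26f2a_co.LinkDefs
import Pool.Agent.Lib.MP_e26f2a_co.ChiRes

set_option autoImplicit false

namespace OddG

open Finset

/-- random coefficient of the charge -/
noncomputable def alc {m : ℕ} (p : Fin (2*m+1)) (V : Finset (Fin (2*m+1))) : ℝ :=
  if chi V p = 1 - chi V p then (1 - th m)/2
  else if (chi V p).val < (1 - chi V p).val then 1/2 else 0
/-- deterministic part of the charge -/
noncomputable def kac {m : ℕ} (p : Fin (2*m+1)) (V : Finset (Fin (2*m+1))) : ℝ :=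
  if chi V p = 1 - chi V p then -(1 - th m)/2
  else if (chi V p).val < (1 - chi V p).val then (2 * th m - 1)/2 else 0

namespace PsF

theorem th_b (m : ℕ) : 0 ≤ th m ∧ th m ≤ 1 ∧ 1 ≤ 2 * th m ∧ 2 * th m - 1 ≤ 1/((m:ℝ)+1) := by
  have hm : (0:ℝ) < (m:ℝ) + 1 := by positivity
  have h1 : ((m:ℝ) + 1) ≤ 2 * (d1 m : ℝ) := by
    have : m + 1 ≤ 2 * d1 m := by unfold d1; omega
    exact_mod_cast this
  have h2 : 2 * (d1 m : ℝ) ≤ (m:ℝ) + 2 := by
    have : 2 * d1 m ≤ m + 2 := by unfold d1; omega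
    exact_mod_cast this
  have h3 : (d1 m : ℝ) ≤ (m:ℝ) + 1 := by
    have : d1 m ≤ m + 1 := by unfold d1; omega
    exact_mod_cast this
  unfold th
  refine ⟨by positivity, ?_, ?_, ?_⟩
  · rw [div_le_one hm]; exact h3
  · rw [← mul_div_assoc, le_div_iff₀ hm]; linarith
  · rw [← mul_div_assoc, sub_le_iff_le_add, div_le_iff₀ hm]
    have : (1 / ((m:ℝ) + 1) + 1) * ((m:ℝ) + 1) = 1 + ((m:ℝ) + 1) := by field_simp
    rw [this]; linarith

theorem half_unique {R : Type} [CommRing R] (c c' : R) (h : c = 1 - c) (h' : c' = 1 - c') :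
    c = c' := by
  have h1 : c + c = 1 := by linear_combination h
  have h2 : c' + c' = 1 := by linear_combination h'
  calc c = c * (c' + c') := by rw [h2, mul_one]
    _ = (c + c) * c' := by ring
    _ = c' := by rw [h1, one_mul]

end PsF

open PsF

theorem ps_expand {m : ℕ} (ep : Finset (Fin (2*m+1)) → Bool)
    (anti : ∀ V p, V.card = m → p ∉ V → chi V p = 1 - chi V p → ep (co V p) = !ep V)
    (V : Finset (Fin (2*m+1))) (p : Fin (2*m+1)) (hV : V.card = m) (hp : p ∉ V) :
    ps ep true p V = alc p V * (if ep V = true then 1 else -1) + kac p V ∧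
    ps ep false p V = alc p V * (if ep (co V p) = true then 1 else -1) - kac p V := by
  unfold ps Dep alc kac
  by_cases h : chi V p = 1 - chi V p
  · have ha := anti V p hV hp h
    rw [if_pos h, if_pos h, if_pos h, ha]
    cases ep V <;> simp <;> constructor <;> ring
  · rw [if_neg h, if_neg h, if_neg h]
    by_cases h2 : (chi V p).val < (1 - chi V p).val
    · rw [if_pos h2, if_pos h2]
      simp only [h2, decide_true, if_true]
      constructor
      · cases ep V <;> simp <;> ring
      · cases ep (co V p) <;> simp <;> ring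
    · rw [if_neg h2, if_neg h2]
      simp [h2]

theorem ps_le {m : ℕ} (ep : Finset (Fin (2*m+1)) → Bool) (σ : Bool) (p : Fin (2*m+1))
    (V : Finset (Fin (2*m+1))) : |ps ep σ p V| ≤ 1 := by
  obtain ⟨h1, h2, _, _⟩ := th_b m
  unfold ps
  rw [abs_le]
  split_ifs <;> constructor <;> linarith

theorem kac_small {m : ℕ} (V : Finset (Fin (2*m+1))) (p : Fin (2*m+1)) (hV : V.card = m)
    (hp : p ∉ V) : |∑ y ∈ V, ∑ x ∈ co V p, kac p (sw V y x)| ≤ m := by
  obtain ⟨t1, t2, t3, t4⟩ := th_b m
  have hm1 : (0:ℝ) < (m:ℝ) + 1 := by positivity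
  have hcard : (co V p).card = m := by
    unfold co
    rw [card_sdiff_of_subset (subset_univ _), card_insert_of_notMem hp, hV]
    simp only [card_univ, Fintype.card_fin]
    omega
  -- pointwise
  have hpt : ∀ y ∈ V, ∀ x ∈ co V p, |kac p (sw V y x)| ≤
      (if chi (sw V y x) p = 1 - chi (sw V y x) p then (1:ℝ)/4 else 0) + 1/(2*((m:ℝ)+1)) := by
    intro y _ x _
    have hpos : (0:ℝ) ≤ 1/(2*((m:ℝ)+1)) := by positivity
    have he : 1/(2*((m:ℝ)+1)) = (1/((m:ℝ)+1))/2 := by field_simp
    unfold kac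
    by_cases h : chi (sw V y x) p = 1 - chi (sw V y x) p
    · rw [if_pos h, if_pos h, abs_le]
      constructor <;> linarith
    · rw [if_neg h, if_neg h, abs_le]
      split_ifs
      · constructor <;> linarith
      · constructor <;> linarith
  have hrow : ∀ y ∈ V, ∑ x ∈ co V p,
      (if chi (sw V y x) p = 1 - chi (sw V y x) p then (1:ℝ)/4 else 0) ≤ 1/2 := by
    intro y hy
    rw [← sum_filter, sum_const, nsmul_eq_mul]
    have hc : ((co V p).filter fun x => chi (sw V y x) p = 1 - chi (sw V y x) p).card ≤ 2 := by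
      by_cases hex : ∃ x ∈ co V p, chi (sw V y x) p = 1 - chi (sw V y x) p
      · obtain ⟨x0, hx0, h0⟩ := hex
        refine le_trans (card_le_card ?_) (chi_res V p y hV hp hy (chi (sw V y x0) p))
        intro x hx
        rw [mem_filter] at hx ⊢
        exact ⟨hx.1, half_unique _ _ hx.2 h0⟩
      · rw [filter_false_of_mem]
        · simp
        · intro x hx h; exact hex ⟨x, hx, h⟩
    have : (((co V p).filter fun x => chi (sw V y x) p = 1 - chi (sw V y x) p).card : ℝ) ≤ 2 := by
      exact_mod_cast hc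
    linarith
  calc |∑ y ∈ V, ∑ x ∈ co V p, kac p (sw V y x)|
      ≤ ∑ y ∈ V, ∑ x ∈ co V p, |kac p (sw V y x)| :=
        (abs_sum_le_sum_abs _ _).trans (sum_le_sum fun y _ => abs_sum_le_sum_abs _ _)
    _ ≤ ∑ y ∈ V, ∑ x ∈ co V p,
        ((if chi (sw V y x) p = 1 - chi (sw V y x) p then (1:ℝ)/4 else 0) +
          1/(2*((m:ℝ)+1))) := sum_le_sum fun y hy => sum_le_sum fun x hx => hpt y hy x hx
    _ ≤ ∑ y ∈ V, ((1:ℝ)/2 + m * (1/(2*((m:ℝ)+1)))) := by
        refine sum_le_sum fun y hy => ?_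
        rw [sum_add_distrib, sum_const, nsmul_eq_mul, hcard]
        exact add_le_add (hrow y hy) le_rfl
    _ = m * ((1:ℝ)/2 + m * (1/(2*((m:ℝ)+1)))) := by
        rw [sum_const, nsmul_eq_mul, hV]
    _ ≤ m * 1 := by
        refine mul_le_mul_of_nonneg_left ?_ (by positivity)
        have : (m:ℝ) * (1/(2*((m:ℝ)+1))) ≤ 1/2 := by
          rw [mul_one_div, div_le_div_iff₀ (by positivity) (by norm_num)]
          linarith
        linarith
    _ = m := mul_one _

end OddG
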