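import Pool.Agent.Lib.MP_e26f2a_co.LinkDefs

set_option autoImplicit false

namespace OddG

open Finset

namespace Signs

/-- real sign of a Boolean -/
noncomputable def rs (b : Bool) : ℝ := if b = true then 1 else -1

theorem rs_not (b : Bool) : rs (!b) = - rs b := by cases b <;> simp [rs]

theorem mgf {Q : Type} [Fintype Q] [DecidableEq Q] (c : Q → ℝ) (l : ℝ) :
    ∑ w : Q → Bool, Real.exp (l * ∑ q, c q * rs (w q)) ≤
      2 ^ (Fintype.card Q) * Real.exp (l^2 * (∑ q, (c q)^2) / 2) := by
  have h1 : ∀ w : Q → Bool, Real.exp (l * ∑ q, c q * rs (w q)) =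
      ∏ q, Real.exp (l * c q * rs (w q)) := by
    intro w
    rw [← Real.exp_sum, mul_sum]
    congr 1
    exact sum_congr rfl fun q _ => by ring
  simp_rw [h1]
  have h2 : ∑ w : Q → Bool, ∏ q, Real.exp (l * c q * rs (w q)) =
      ∏ q : Q, ∑ b : Bool, Real.exp (l * c q * rs b) := by
    rw [Finset.prod_univ_sum (fun _ => (univ : Finset Bool))
      (fun q b => Real.exp (l * c q * rs b)), Fintype.piFinset_univ]
  rw [h2]
  have h3 : ∀ q : Q, ∑ b : Bool, Real.exp (l * c q * rs b) ≤ 2 * Real.exp ((l * c q)^2/2) := by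
    intro q
    have hh := Real.cosh_le_exp_half_sq (l * c q)
    rw [Real.cosh_eq] at hh
    simp only [Fintype.sum_bool, rs]
    simp only [if_true, mul_one, Bool.false_eq_true, if_false, mul_neg]
    linarith
  calc ∏ q : Q, ∑ b : Bool, Real.exp (l * c q * rs b)
      ≤ ∏ q : Q, (2 * Real.exp ((l * c q)^2/2)) := by
        apply Finset.prod_le_prod
        · intro q _; exact sum_nonneg fun b _ => (Real.exp_pos _).le
        · intro q _; exact h3 q
    _ = 2 ^ (Fintype.card Q) * Real.exp (l^2 * (∑ q, (c q)^2) / 2) := by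
        rw [Finset.prod_mul_distrib, ← Real.exp_sum]
        simp only [prod_const, card_univ]
        congr 2
        rw [mul_sum, sum_div]
        exact sum_congr rfl fun q _ => by ring

end Signs

open Signs in
theorem sign_exists {Q I : Type} [Fintype Q] [DecidableEq Q] [Fintype I] (π : Q → Q)
    (h1 : ∀ q, π (π q) = q) (h2 : ∀ q, π q ≠ q) (a : I → Q → ℝ) (s t : ℝ) (hs : 0 < s)
    (ht : 0 < t) (ha : ∀ i, ∑ q, (a i q)^2 ≤ s)
    (hI : 2 * (Fintype.card I : ℝ) * Real.exp (-(t^2 / (4*s))) < 1) :
    ∃ e : Q → Bool, (∀ q, e (π q) = !e q) ∧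
      ∀ i, |∑ q, a i q * (if e q = true then 1 else -1)| ≤ t := by
  classical
  obtain ⟨T, hT⟩ : ∃ T : Q → Prop, ∀ q, T (π q) ↔ ¬ T q := by
    let ord := Fintype.equivFin Q
    refine ⟨fun q => ord q < ord (π q), ?_⟩
    intro q
    have hne : ord q ≠ ord (π q) := fun h => h2 q (ord.injective h).symm
    show ord (π q) < ord (π (π q)) ↔ ¬ (ord q < ord (π q))
    rw [h1]
    constructor
    · intro h; exact not_lt.mpr h.le
    · intro h; exact lt_of_le_of_ne (not_lt.mp h) (Ne.symm hne)
  let E : (Q → Bool) → Q → Bool := fun w q => if T q then w q else !(w (π q))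
  let c : I → Q → ℝ := fun i q => if T q then a i q - a i (π q) else 0
  let πe : Q ≃ Q := ⟨π, π, h1, h1⟩
  have hsum : ∀ i w, ∑ q, a i q * rs (E w q) = ∑ q, c i q * rs (w q) := by
    intro i w
    have e1 : ∀ q, a i q * rs (E w q) = (if T q then a i q * rs (w q) else 0) +
        (if T q then 0 else - (a i q * rs (w (π q)))) := by
      intro q
      by_cases hq : T q
      · simp [E, hq]
      · simp [E, hq, rs_not]
    rw [sum_congr rfl fun q _ => e1 q, sum_add_distrib]
    have e2 : ∑ q, (if T q then (0:ℝ) else - (a i q * rs (w (π q)))) =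
        ∑ q, (if T q then - (a i (π q) * rs (w q)) else 0) := by
      rw [← Equiv.sum_comp πe]
      apply sum_congr rfl
      intro q _
      show (if T (π q) then (0:ℝ) else - (a i (π q) * rs (w (π (π q))))) = _
      rw [h1 q]
      by_cases hq : T q
      · have : ¬ T (π q) := by rw [hT]; simpa using hq
        simp [hq, this]
      · have : T (π q) := by rw [hT]; exact hq
        simp [hq, this]
    rw [e2, ← sum_add_distrib]
    apply sum_congr rfl
    intro q _
    by_cases hq : T q
    · simp only [c, hq, if_true]; ring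
    · simp [c, hq]
  have hc : ∀ i, ∑ q, (c i q)^2 ≤ 2 * s := by
    intro i
    have e1 : ∑ q, (c i q)^2 ≤ ∑ q, (if T q then 2 * (a i q)^2 + 2 * (a i (π q))^2 else 0) := by
      apply sum_le_sum
      intro q _
      by_cases hq : T q
      · simp only [c, hq, if_true]; nlinarith [sq_nonneg (a i q + a i (π q))]
      · simp [c, hq]
    have e2 : ∑ q, (if T q then 2 * (a i (π q))^2 else 0) =
        ∑ q, (if T q then 0 else 2 * (a i q)^2) := by
      rw [← Equiv.sum_comp πe]
      apply sum_congr rfl
      intro q _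
      show (if T (π q) then 2 * (a i (π (π q)))^2 else 0) = _
      rw [h1 q]
      by_cases hq : T q
      · have : ¬ T (π q) := by rw [hT]; simpa using hq
        simp [hq, this]
      · have : T (π q) := by rw [hT]; exact hq
        simp [hq, this]
    have e3 : ∑ q, (if T q then 2 * (a i q)^2 + 2 * (a i (π q))^2 else 0) =
        ∑ q, 2 * (a i q)^2 := by
      have : ∀ q, (if T q then 2 * (a i q)^2 + 2 * (a i (π q))^2 else 0) =
        (if T q then 2 * (a i q)^2 else 0) + (if T q then 2 * (a i (π q))^2 else 0) := by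
        intro q; split_ifs <;> simp
      rw [sum_congr rfl fun q _ => this q, sum_add_distrib, e2, ← sum_add_distrib]
      apply sum_congr rfl
      intro q _
      split_ifs <;> simp
    rw [e3, ← mul_sum] at e1
    linarith [ha i]
  let l : ℝ := t / (2*s)
  let F : (Q → Bool) → ℝ := fun w => ∑ i, (Real.exp (l * ∑ q, c i q * rs (w q)) +
    Real.exp ((-l) * ∑ q, c i q * rs (w q)))
  have hF : ∑ w, F w < ∑ w : Q → Bool, Real.exp (l * t) := by
    have e1 : ∑ w, F w ≤ ∑ i : I, 2 * (2 ^ (Fintype.card Q) * Real.exp (l^2 * s)) := by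
      show ∑ w, ∑ i, _ ≤ _
      rw [sum_comm]
      apply sum_le_sum
      intro i _
      rw [sum_add_distrib]
      have m1 := mgf (c i) l
      have m2 := mgf (c i) (-l)
      rw [neg_sq] at m2
      have m3 : Real.exp (l^2 * (∑ q, (c i q)^2) / 2) ≤ Real.exp (l^2 * s) := by
        apply Real.exp_le_exp.mpr
        nlinarith [hc i, sq_nonneg l]
      have m4 : (0:ℝ) < 2 ^ (Fintype.card Q) := by positivity
      nlinarith
    refine lt_of_le_of_lt e1 ?_
    have e2 : ∑ w : Q → Bool, Real.exp (l * t) = 2 ^ (Fintype.card Q) * Real.exp (l * t) := by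
      simp
    rw [e2, sum_const, card_univ, nsmul_eq_mul]
    have e3 : Real.exp (l^2 * s) = Real.exp (-(t^2 / (4*s))) * Real.exp (l * t) := by
      rw [← Real.exp_add]
      congr 1
      simp only [l]
      field_simp
      ring
    rw [e3]
    have m4 : (0:ℝ) < 2 ^ (Fintype.card Q) * Real.exp (l * t) := by positivity
    nlinarith
  obtain ⟨w, -, hw⟩ := Finset.exists_lt_of_sum_lt hF
  refine ⟨E w, ?_, ?_⟩
  · intro q
    by_cases hq : T q
    · have : ¬ T (π q) := by rw [hT]; simpa using hq
      simp [E, hq, this, h1]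
    · have : T (π q) := by rw [hT]; exact hq
      simp [E, hq, this]
  · intro i
    have hi : Real.exp (l * ∑ q, c i q * rs (w q)) +
        Real.exp ((-l) * ∑ q, c i q * rs (w q)) ≤ F w :=
      Finset.single_le_sum (f := fun i => Real.exp (l * ∑ q, c i q * rs (w q)) +
        Real.exp ((-l) * ∑ q, c i q * rs (w q))) (fun i _ => by positivity) (mem_univ i)
    have h5 : ∑ q, a i q * (if E w q = true then (1:ℝ) else -1) = ∑ q, c i q * rs (w q) := by
      rw [← hsum]; rfl
    have hl : 0 < l := by positivity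
    rw [h5, abs_le]
    constructor
    · have : Real.exp ((-l) * ∑ q, c i q * rs (w q)) < Real.exp (l * t) := by
        have := Real.exp_pos (l * ∑ q, c i q * rs (w q)); linarith
      rw [Real.exp_lt_exp] at this
      nlinarith
    · have : Real.exp (l * ∑ q, c i q * rs (w q)) < Real.exp (l * t) := by
        have := Real.exp_pos ((-l) * ∑ q, c i q * rs (w q)); linarith
      rw [Real.exp_lt_exp] at this
      nlinarith

end OddG
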