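import Pool.Agent.Lib.MP_e26f2a_co.Pairing
import Pool.Agent.Lib.MP_e26f2a_co.Collide
import Pool.Agent.Lib.MP_e26f2a_co.Signs
import Pool.Agent.Lib.MP_e26f2a_co.Numeric
import Pool.Agent.Lib.MP_e26f2a_co.PsFacts
import Pool.Agent.Lib.MP_e26f2a_co.ChiSym
import Pool.Agent.Lib.MP_e26f2a_co.DepFacts

set_option autoImplicit false

namespace OddG

open Finset

namespace EpEx

/-! ### sets -/
section sets
variable {m : ℕ}

theorem mem_co {V : Finset (Fin (2*m+1))} {p i : Fin (2*m+1)} :
    i ∈ co V p ↔ i ≠ p ∧ i ∉ V := by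
  simp [co, not_or]

theorem p_co (V : Finset (Fin (2*m+1))) (p : Fin (2*m+1)) : p ∉ co V p := by
  rw [mem_co]; simp

theorem co_co (V : Finset (Fin (2*m+1))) (p : Fin (2*m+1)) (hp : p ∉ V) :
    co (co V p) p = V := by
  ext i
  rw [mem_co, mem_co]
  constructor
  · rintro ⟨h1, h2⟩
    by_contra h3
    exact h2 ⟨h1, h3⟩
  · intro hi
    refine ⟨?_, fun h => h.2 hi⟩
    rintro rfl
    exact hp hi

theorem card_co (V : Finset (Fin (2*m+1))) (p : Fin (2*m+1)) (hV : V.card = m) (hp : p ∉ V) :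
    (co V p).card = m := by
  unfold co
  rw [card_sdiff_of_subset (subset_univ _), card_insert_of_notMem hp, hV]
  simp only [card_univ, Fintype.card_fin]
  omega

theorem mem_sw {V : Finset (Fin (2*m+1))} {y x i : Fin (2*m+1)} :
    i ∈ sw V y x ↔ i = x ∨ (i ≠ y ∧ i ∈ V) := by
  simp [sw]

theorem card_sw (V : Finset (Fin (2*m+1))) (p y x : Fin (2*m+1)) (hV : V.card = m)
    (hy : y ∈ V) (hx : x ∈ co V p) : (sw V y x).card = m := by
  rw [mem_co] at hx
  unfold sw
  rw [card_insert_of_notMem (fun h => hx.2 (mem_of_mem_erase h)), card_erase_of_mem hy, hV]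
  have : 0 < V.card := card_pos.2 ⟨y, hy⟩
  omega

theorem p_sw (V : Finset (Fin (2*m+1))) (p y x : Fin (2*m+1)) (hp : p ∉ V)
    (hx : x ∈ co V p) : p ∉ sw V y x := by
  rw [mem_co] at hx
  rw [mem_sw]
  rintro (h | h)
  · exact hx.1 h.symm
  · exact hp h.2

theorem co_sw (V : Finset (Fin (2*m+1))) (p y x : Fin (2*m+1)) (hp : p ∉ V)
    (hy : y ∈ V) (hx : x ∈ co V p) : co (sw V y x) p = sw (co V p) x y := by
  have hx' := hx
  rw [mem_co] at hx'
  have hyp : y ≠ p := fun h => hp (h ▸ hy)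
  ext i
  rw [mem_co, mem_sw, mem_sw, mem_co]
  by_cases h1 : i = y
  · subst h1
    simp only [true_or, iff_true]
    refine ⟨hyp, ?_⟩
    rintro (h | h)
    · exact hx'.2 (h ▸ hy)
    · exact h.1 rfl
  · by_cases h2 : i = x
    · subst h2
      simp [h1]
    · simp [h1, h2]

theorem mem_rvV {V : Finset (Fin (2*m+1))} {i : Fin (2*m+1)} : i ∈ rvV V ↔ Fin.rev i ∈ V := by
  unfold rvV
  rw [mem_image]
  constructor
  · rintro ⟨a, ha, rfl⟩
    rwa [Fin.rev_rev]
  · intro h
    exact ⟨Fin.rev i, h, Fin.rev_rev i⟩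

theorem rvV_rvV (V : Finset (Fin (2*m+1))) : rvV (rvV V) = V := by
  ext i; rw [mem_rvV, mem_rvV, Fin.rev_rev]

theorem card_rvV (V : Finset (Fin (2*m+1))) : (rvV V).card = V.card := by
  unfold rvV; exact card_image_of_injective _ Fin.rev_injective

theorem rvV_co (V : Finset (Fin (2*m+1))) (p : Fin (2*m+1)) :
    rvV (co V p) = co (rvV V) (Fin.rev p) := by
  ext i
  rw [mem_rvV, mem_co, mem_co, mem_rvV]
  refine and_congr_left fun _ => not_congr ?_
  exact Fin.rev_eq_iff

theorem rvV_tr (V : Finset (Fin (2*m+1))) (j : Fin (2*m+1)) :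
    rvV (V.image (· + j)) = (rvV V).image (· + (-j)) := by
  unfold rvV
  rw [image_image, image_image]
  congr 1
  ext i
  simp only [Function.comp]
  rw [Fin.rev_add, sub_eq_add_neg]

theorem orb_rvV (V V' : Finset (Fin (2*m+1))) (hV : V.card = m)
    (h : orb (rvV V) = orb (rvV V')) : orb V = orb V' := by
  obtain ⟨j, hj⟩ := orb_eq _ _ h
  have h2 := congrArg rvV hj
  rw [rvV_rvV, rvV_tr, rvV_rvV] at h2
  rw [h2, orb_rot V _ hV]

end sets

/-- squares of fibre sums -/
theorem sq_le {R F Q : Type} [DecidableEq F] [DecidableEq R] [Fintype Q] (emb : Q → F)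
    (hemb : Function.Injective emb) (S : Finset R) (f : R → F) (c : R → ℝ)
    (hc : ∀ r ∈ S, |c r| ≤ 1/2) :
    ∑ q : Q, (∑ r ∈ S, if f r = emb q then c r else 0)^2 ≤
      (1/4) * (((S ×ˢ S).filter (fun z => f z.1 = f z.2)).card : ℝ) := by
  classical
  have h1 : ∀ q : Q, (∑ r ∈ S, if f r = emb q then c r else 0)^2 =
      ∑ z ∈ S ×ˢ S, if f z.1 = emb q ∧ f z.2 = emb q then c z.1 * c z.2 else 0 := by
    intro q
    rw [sq, sum_mul_sum, sum_product]
    refine sum_congr rfl fun r _ => sum_congr rfl fun r' _ => ?_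
    by_cases h : f r = emb q <;> by_cases h' : f r' = emb q <;> simp [h, h']
  rw [sum_congr rfl (fun q _ => h1 q), sum_comm]
  have h2 : ∀ z ∈ S ×ˢ S, (∑ q : Q, if f z.1 = emb q ∧ f z.2 = emb q then c z.1 * c z.2 else 0) ≤
      if f z.1 = f z.2 then (1/4:ℝ) else 0 := by
    intro z hz
    rw [mem_product] at hz
    have hb : c z.1 * c z.2 ≤ 1/4 := by
      calc c z.1 * c z.2 ≤ |c z.1 * c z.2| := le_abs_self _
        _ = |c z.1| * |c z.2| := abs_mul _ _
        _ ≤ (1/2) * (1/2) := mul_le_mul (hc _ hz.1) (hc _ hz.2) (abs_nonneg _) (by norm_num)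
        _ = 1/4 := by norm_num
    by_cases h : f z.1 = f z.2
    · rw [if_pos h]
      by_cases hq : ∃ q, f z.1 = emb q
      · obtain ⟨q, hq⟩ := hq
        rw [sum_eq_single q]
        · rw [if_pos ⟨hq, h ▸ hq⟩]; exact hb
        · intro q' _ hne
          rw [if_neg]
          rintro ⟨h3, _⟩
          exact hne (hemb (h3.symm.trans hq))
        · intro h; exact absurd (mem_univ q) h
      · rw [sum_eq_zero]
        · norm_num
        · intro q _
          rw [if_neg]
          rintro ⟨h3, _⟩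
          exact hq ⟨q, h3⟩
    · rw [if_neg h, sum_eq_zero]
      intro q _
      rw [if_neg]
      rintro ⟨h3, h4⟩
      exact h (h3.trans h4.symm)
  refine (sum_le_sum h2).trans ?_
  rw [← sum_filter, sum_const, nsmul_eq_mul, mul_comm]

theorem th_b (m : ℕ) : 0 ≤ th m ∧ th m ≤ 1 := by
  have hm : (0:ℝ) < (m:ℝ) + 1 := by positivity
  have h3 : (d1 m : ℝ) ≤ (m:ℝ) + 1 := by
    have : d1 m ≤ m + 1 := by unfold d1; omega
    exact_mod_cast this
  unfold th
  refine ⟨by positivity, ?_⟩
  rw [div_le_one hm]; exact h3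

theorem alc_le {m : ℕ} (p : Fin (2*m+1)) (V : Finset (Fin (2*m+1))) : |alc p V| ≤ 1/2 := by
  obtain ⟨h1, h2⟩ := th_b m
  unfold alc
  rw [abs_le]
  split_ifs <;> constructor <;> linarith

section tie
variable {m : ℕ}

/-- the set whose sign enters the charge -/
def T (p : Fin (2*m+1)) (σ mir : Bool) (W : Finset (Fin (2*m+1))) : Finset (Fin (2*m+1)) :=
  if mir = true then rvV (if σ = true then W else co W p) else (if σ = true then W else co W p)

theorem card_T (p : Fin (2*m+1)) (σ mir : Bool) (W : Finset (Fin (2*m+1))) (hW : W.card = m)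
    (hp : p ∉ W) : (T p σ mir W).card = m := by
  unfold T
  split_ifs
  · rw [card_rvV, hW]
  · rw [card_rvV, card_co W p hW hp]
  · exact hW
  · exact card_co W p hW hp

theorem T_collide (V : Finset (Fin (2*m+1))) (p : Fin (2*m+1)) (σ mir : Bool) (hV : V.card = m)
    (hp : p ∉ V) :
    (((V ×ˢ co V p) ×ˢ (V ×ˢ co V p)).filter
      (fun q => orb (T p σ mir (sw V q.1.1 q.1.2)) = orb (T p σ mir (sw V q.2.1 q.2.2)))).card ≤
      9 * m^2 := by
  classical
  have step : (((V ×ˢ co V p) ×ˢ (V ×ˢ co V p)).filter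
      (fun q => orb (T p σ mir (sw V q.1.1 q.1.2)) = orb (T p σ mir (sw V q.2.1 q.2.2)))).card ≤
      (((V ×ˢ co V p) ×ˢ (V ×ˢ co V p)).filter
      (fun q => orb (T p σ false (sw V q.1.1 q.1.2)) =
        orb (T p σ false (sw V q.2.1 q.2.2)))).card := by
    refine card_le_card ?_
    intro q hq
    rw [mem_filter] at hq ⊢
    refine ⟨hq.1, ?_⟩
    obtain ⟨h1, h2⟩ := hq
    rw [mem_product, mem_product, mem_product] at h1
    cases mir
    · exact h2
    · have hc := card_T p σ false (sw V q.1.1 q.1.2) (card_sw V p _ _ hV h1.1.1 h1.1.2)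
        (p_sw V p _ _ hp h1.1.2)
      refine orb_rvV _ _ hc ?_
      simpa [T] using h2
  refine step.trans ?_
  cases σ
  · have hco : (co V p).card = m := card_co V p hV hp
    have key := collide (co V p) p hco (p_co V p)
    rw [co_co V p hp] at key
    refine le_trans (card_le_card_of_injOn
      (fun q : (Fin (2*m+1) × Fin (2*m+1)) × (Fin (2*m+1) × Fin (2*m+1)) =>
        ((q.1.2, q.1.1), (q.2.2, q.2.1))) ?_ ?_) key
    · intro q hq
      rw [mem_coe, mem_filter, mem_product, mem_product, mem_product] at hq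
      obtain ⟨⟨⟨h1, h2⟩, h3, h4⟩, h5⟩ := hq
      rw [mem_coe, mem_filter, mem_product, mem_product, mem_product]
      refine ⟨⟨⟨h2, h1⟩, h4, h3⟩, ?_⟩
      simp only [T, Bool.false_eq_true, if_false] at h5
      rw [co_sw V p _ _ hp h1 h2, co_sw V p _ _ hp h3 h4] at h5
      exact h5
    · rintro ⟨⟨a, b⟩, c, d⟩ _ ⟨⟨a', b'⟩, c', d'⟩ _ h
      simp only [Prod.mk.injEq] at h ⊢
      tauto
  · have key := collide V p hV hp
    simpa [T] using key

end tie

end EpEx

open EpEx in
theorem ep_exists (m : ℕ) (h0 : 60000 ≤ m) (hm : ¬ ∃ r : ℕ, m + 1 = 2 ^ r) :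
    ∃ ep : Finset (Fin (2*m+1)) → Bool, EpOK m (1/60) ep ∧
      EpOK m (1/60) (fun V => !ep (rvV V)) := by
  classical
  obtain ⟨π, hπ1, hπ2⟩ := pairing hm
  have hmR : (60000:ℝ) ≤ m := by exact_mod_cast h0
  have hmpos : (0:ℝ) < m := by linarith
  -- the type of the classes
  let Q : Type := {V : Finset (Fin (2*m+1)) // V.card = m ∧ orb V = V}
  let πQ : Q → Q := fun q => ⟨π q.1, (hπ1 q.1 q.2.1 q.2.2).1, (hπ1 q.1 q.2.1 q.2.2).2.1⟩
  have q1 : ∀ q : Q, πQ (πQ q) = q := fun q => Subtype.ext (hπ1 q.1 q.2.1 q.2.2).2.2.1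
  have q2 : ∀ q : Q, πQ q ≠ q := fun q h =>
    (hπ1 q.1 q.2.1 q.2.2).2.2.2 (congrArg Subtype.val h)
  let I : Type := Finset (Fin (2*m+1)) × Fin (2*m+1) × Bool × Bool
  let a : I → Q → ℝ := fun i q =>
    if i.1.card = m ∧ i.2.1 ∉ i.1 then
      ∑ r ∈ i.1 ×ˢ co i.1 i.2.1,
        if orb (T i.2.1 i.2.2.1 i.2.2.2 (sw i.1 r.1 r.2)) = q.1
          then alc i.2.1 (sw i.1 r.1 r.2) else 0
    else 0
  have ha : ∀ i, ∑ q, (a i q)^2 ≤ 9*(m:ℝ)^2/4 := by
    intro i
    by_cases hi : i.1.card = m ∧ i.2.1 ∉ i.1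
    · simp only [a, if_pos hi]
      refine (sq_le (fun q : Q => q.1) Subtype.val_injective (i.1 ×ˢ co i.1 i.2.1)
        (fun r => orb (T i.2.1 i.2.2.1 i.2.2.2 (sw i.1 r.1 r.2)))
        (fun r => alc i.2.1 (sw i.1 r.1 r.2)) (fun r _ => alc_le _ _)).trans ?_
      have key := T_collide i.1 i.2.1 i.2.2.1 i.2.2.2 hi.1 hi.2
      have key' : (((((i.1 ×ˢ co i.1 i.2.1) ×ˢ (i.1 ×ˢ co i.1 i.2.1)).filter
        (fun q => orb (T i.2.1 i.2.2.1 i.2.2.2 (sw i.1 q.1.1 q.1.2)) =
          orb (T i.2.1 i.2.2.1 i.2.2.2 (sw i.1 q.2.1 q.2.2)))).card : ℕ) : ℝ) ≤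
          9 * (m:ℝ)^2 := by exact_mod_cast key
      linarith
    · simp only [a, if_neg hi]
      simp only [ne_eq, OfNat.ofNat_ne_zero, not_false_eq_true, zero_pow, sum_const_zero]
      positivity
  have hcardI : (Fintype.card I : ℝ) = (2:ℝ)^(2*m+1) * (2*m+1) * 4 := by
    simp only [I, Fintype.card_prod, Fintype.card_finset, Fintype.card_fin, Fintype.card_bool]
    push_cast; ring
  obtain ⟨e, he1, he2⟩ := sign_exists πQ q1 q2 a (9*(m:ℝ)^2/4) ((m:ℝ)^2/61)
    (by positivity) (by positivity) ha (by rw [hcardI]; exact numeric m h0)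
  -- extend the sign function
  let E : Finset (Fin (2*m+1)) → Bool := fun W =>
    if h : W.card = m ∧ orb W = W then e ⟨W, h⟩ else true
  have hE : ∀ (W : Finset (Fin (2*m+1))) (h : W.card = m ∧ orb W = W), E W = e ⟨W, h⟩ := by
    intro W h; simp only [E, dif_pos h]
  have hEπ : ∀ W : Finset (Fin (2*m+1)), W.card = m → orb W = W → E (π W) = !E W := by
    intro W h1 h2
    rw [hE W ⟨h1, h2⟩, hE (π W) ⟨(hπ1 W h1 h2).1, (hπ1 W h1 h2).2.1⟩]
    exact he1 ⟨W, h1, h2⟩
  -- the estimate for the sums with signs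
  have core : ∀ (V : Finset (Fin (2*m+1))) (p : Fin (2*m+1)) (σ mir : Bool), V.card = m → p ∉ V →
      |∑ y ∈ V, ∑ x ∈ co V p, alc p (sw V y x) *
        (if E (orb (T p σ mir (sw V y x))) = true then (1:ℝ) else -1)| ≤ (m:ℝ)^2/61 := by
    intro V p σ mir hV hp
    have h := he2 (V, p, σ, mir)
    have hval : ∑ q, a (V, p, σ, mir) q * (if e q = true then (1:ℝ) else -1) =
        ∑ y ∈ V, ∑ x ∈ co V p, alc p (sw V y x) *
        (if E (orb (T p σ mir (sw V y x))) = true then (1:ℝ) else -1) := by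
      have hif : V.card = m ∧ p ∉ V := ⟨hV, hp⟩
      simp only [a, if_pos hif]
      rw [← sum_product (s := V) (t := co V p)
        (f := fun r => alc p (sw V r.1 r.2) *
          (if E (orb (T p σ mir (sw V r.1 r.2))) = true then (1:ℝ) else -1))]
      simp only [sum_mul]
      rw [sum_comm]
      refine sum_congr rfl fun r hr => ?_
      rw [mem_product] at hr
      have hc := card_T p σ mir (sw V r.1 r.2) (card_sw V p _ _ hV hr.1 hr.2)
        (p_sw V p _ _ hp hr.2)
      have ho : (orb (T p σ mir (sw V r.1 r.2))).card = m ∧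
          orb (orb (T p σ mir (sw V r.1 r.2))) = orb (T p σ mir (sw V r.1 r.2)) :=
        ⟨by rw [orb_card, hc], orb_orb _ hc⟩
      rw [sum_eq_single (⟨orb (T p σ mir (sw V r.1 r.2)), ho⟩ : Q)]
      · rw [if_pos rfl, hE _ ho]
      · intro q _ hne
        rw [if_neg, zero_mul]
        intro h; exact hne (Subtype.ext h.symm)
      · intro h; exact absurd (mem_univ _) h
    rw [← hval]; exact h
  -- counting
  have hcount : ((univ.powersetCard m).filter fun V => E (orb V) = true).card =
      ((univ.powersetCard m).filter fun V => E (orb V) = false).card := by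
    have fib : ∀ b : Bool, ((univ.powersetCard m).filter fun V => E (orb V) = b).card =
        ((univ.powersetCard m).filter
          fun W : Finset (Fin (2*m+1)) => orb W = W ∧ E W = b).card * (2*m+1) := by
      intro b
      rw [card_eq_sum_card_fiberwise (f := orb) (t := (univ.powersetCard m).filter
          fun W : Finset (Fin (2*m+1)) => orb W = W ∧ E W = b)]
      · rw [sum_const_nat (m := 2*m+1)]
        intro W hW
        rw [mem_filter, mem_powersetCard] at hW
        refine Eq.trans ?_ (orb_fiber W hW.1.2 hW.2.1)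
        congr 1
        ext V
        simp only [mem_filter]
        constructor
        · rintro ⟨⟨h1, _⟩, h2⟩; exact ⟨h1, h2⟩
        · rintro ⟨h1, h2⟩; exact ⟨⟨h1, by rw [h2]; exact hW.2.2⟩, h2⟩
      · intro V hV
        rw [mem_coe, mem_filter, mem_powersetCard] at hV
        rw [mem_coe, mem_filter, mem_powersetCard]
        exact ⟨⟨subset_univ _, by rw [orb_card, hV.1.2]⟩, orb_orb V hV.1.2, hV.2⟩
    rw [fib, fib]
    congr 1
    refine card_bij' (fun W _ => π W) (fun W _ => π W) ?_ ?_ ?_ ?_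
    · intro W hW
      rw [mem_filter, mem_powersetCard] at hW ⊢
      have := hπ1 W hW.1.2 hW.2.1
      refine ⟨⟨subset_univ _, this.1⟩, this.2.1, ?_⟩
      rw [hEπ W hW.1.2 hW.2.1, hW.2.2]; rfl
    · intro W hW
      rw [mem_filter, mem_powersetCard] at hW ⊢
      have := hπ1 W hW.1.2 hW.2.1
      refine ⟨⟨subset_univ _, this.1⟩, this.2.1, ?_⟩
      rw [hEπ W hW.1.2 hW.2.1, hW.2.2]; rfl
    · intro W hW
      rw [mem_filter, mem_powersetCard] at hW
      exact (hπ1 W hW.1.2 hW.2.1).2.2.1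
    · intro W hW
      rw [mem_filter, mem_powersetCard] at hW
      exact (hπ1 W hW.1.2 hW.2.1).2.2.1
  have hanti : ∀ V p, V.card = m → p ∉ V → chi V p = 1 - chi V p →
      E (orb (co V p)) = !E (orb V) := by
    intro V p hV hp hc
    rw [hπ2 V p hV hp hc]
    exact hEπ (orb V) (by rw [orb_card, hV]) (orb_orb V hV)
  have hanti' : ∀ V p, V.card = m → p ∉ V → chi V p = 1 - chi V p →
      (!E (orb (rvV (co V p)))) = !(!E (orb (rvV V))) := by
    intro V p hV hp hc
    have hp' : Fin.rev p ∉ rvV V := by rw [mem_rvV, Fin.rev_rev]; exact hp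
    have hV' : (rvV V).card = m := by rw [card_rvV, hV]
    have hc' : chi (rvV V) (Fin.rev p) = 1 - chi (rvV V) (Fin.rev p) := by
      rw [chi_rev V p hV hp, sub_sub_cancel]
      exact hc.symm
    rw [rvV_co, hanti (rvV V) (Fin.rev p) hV' hp' hc']
  have hfin : (m:ℝ)^2/61 + m ≤ 1/60 * (m:ℝ)^2 := by nlinarith
  refine ⟨fun V => E (orb V), ?_, ?_⟩
  · refine ⟨?_, hanti, hcount, ?_⟩
    · intro V j hV
      show E (orb (V.image (· + j))) = E (orb V)
      rw [orb_rot V j hV]
    · intro σ V p hV hp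
      have hk := kac_small V p hV hp
      have hc := core V p σ false hV hp
      have hsum : ∑ y ∈ V, ∑ x ∈ co V p, ps (fun V => E (orb V)) σ p (sw V y x) =
          ∑ y ∈ V, ∑ x ∈ co V p, alc p (sw V y x) *
            (if E (orb (T p σ false (sw V y x))) = true then (1:ℝ) else -1) +
          (if σ = true then 1 else -1) * ∑ y ∈ V, ∑ x ∈ co V p, kac p (sw V y x) := by
        rw [mul_sum, ← sum_add_distrib]
        refine sum_congr rfl fun y hy => ?_
        rw [mul_sum, ← sum_add_distrib]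
        refine sum_congr rfl fun x hx => ?_
        obtain ⟨e1, e2⟩ := ps_expand (fun V => E (orb V)) hanti (sw V y x) p
          (card_sw V p y x hV hy hx) (p_sw V p y x hp hx)
        cases σ
        · rw [e2]; simp only [T, Bool.false_eq_true, if_false]; ring
        · rw [e1]; simp only [T, Bool.false_eq_true, if_false, if_true]; ring
      rw [hsum]
      refine (abs_add_le _ _).trans ?_
      rw [abs_mul]
      have hs : |(if σ = true then (1:ℝ) else -1)| = 1 := by cases σ <;> simp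
      rw [hs, one_mul]
      linarith
  · refine ⟨?_, hanti', ?_, ?_⟩
    · intro V j hV
      show (!E (orb (rvV (V.image (· + j))))) = !E (orb (rvV V))
      rw [rvV_tr, orb_rot (rvV V) (-j) (by rw [card_rvV, hV])]
    · have hb : ∀ b : Bool, ((univ.powersetCard m).filter fun V => (!E (orb (rvV V))) = b).card =
          ((univ.powersetCard m).filter fun V => E (orb V) = !b).card := by
        intro b
        refine card_bij' (fun W _ => rvV W) (fun W _ => rvV W) ?_ ?_ ?_ ?_
        · intro W hW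
          rw [mem_filter, mem_powersetCard] at hW ⊢
          refine ⟨⟨subset_univ _, by rw [card_rvV, hW.1.2]⟩, ?_⟩
          rw [← hW.2, Bool.not_not]
        · intro W hW
          rw [mem_filter, mem_powersetCard] at hW ⊢
          refine ⟨⟨subset_univ _, by rw [card_rvV, hW.1.2]⟩, ?_⟩
          rw [rvV_rvV, hW.2, Bool.not_not]
        · intro W _; exact rvV_rvV W
        · intro W _; exact rvV_rvV W
      show ((univ.powersetCard m).filter fun V => (!E (orb (rvV V))) = true).card =
        ((univ.powersetCard m).filter fun V => (!E (orb (rvV V))) = false).card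
      rw [hb true, hb false]
      exact hcount.symm
    · intro σ V p hV hp
      have hk := kac_small V p hV hp
      have hc := core V p σ true hV hp
      have hsum : ∑ y ∈ V, ∑ x ∈ co V p, ps (fun V => !E (orb (rvV V))) σ p (sw V y x) =
          -(∑ y ∈ V, ∑ x ∈ co V p, alc p (sw V y x) *
            (if E (orb (T p σ true (sw V y x))) = true then (1:ℝ) else -1)) +
          (if σ = true then 1 else -1) * ∑ y ∈ V, ∑ x ∈ co V p, kac p (sw V y x) := by
        rw [mul_sum, ← sum_neg_distrib, ← sum_add_distrib]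
        refine sum_congr rfl fun y hy => ?_
        rw [mul_sum, ← sum_neg_distrib, ← sum_add_distrib]
        refine sum_congr rfl fun x hx => ?_
        obtain ⟨e1, e2⟩ := ps_expand (fun V => !E (orb (rvV V))) hanti' (sw V y x) p
          (card_sw V p y x hV hy hx) (p_sw V p y x hp hx)
        cases σ
        · rw [e2]; simp only [T, Bool.false_eq_true, if_false, if_true]
          cases E (orb (rvV (co (sw V y x) p))) <;> simp <;> ring
        · rw [e1]; simp only [T, if_true]
          cases E (orb (rvV (sw V y x))) <;> simp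
      rw [hsum]
      refine (abs_add_le _ _).trans ?_
      rw [abs_mul, abs_neg]
      have hs : |(if σ = true then (1:ℝ) else -1)| = 1 := by cases σ <;> simp
      rw [hs, one_mul]
      linarith

end OddG
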