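import Mathlib

/-!
# Rounding of fractional degree-constrained subgraphs of bipartite graphs
-/

set_option autoImplicit false

namespace OddG

open Finset

section Round

/-- a kernel vector supported on the fractional edges -/
theorem round_kernel {V E : Type} [Fintype V] [DecidableEq V] [Fintype E] [DecidableEq E]
    (src tgt : E → V) (s : V → Bool) (hs : ∀ e, s (src e) = true ∧ s (tgt e) = false)
    (F : Finset E) (hF : F.Nonempty)
    (hdeg : ∀ e ∈ F, ∀ v, (src e = v ∨ tgt e = v) →
      ∃ e' ∈ F, e' ≠ e ∧ (src e' = v ∨ tgt e' = v)) :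
    ∃ z : E → ℝ, (∀ e, e ∉ F → z e = 0) ∧ (∃ e, z e ≠ 0) ∧
      ∀ v, (∑ e, if src e = v then z e else 0) + (∑ e, if tgt e = v then z e else 0) = 0 := by
  classical
  let VF : Finset V := F.image src ∪ F.image tgt
  have hVF : ∀ v, v ∈ VF ↔ ∃ e ∈ F, src e = v ∨ tgt e = v := by
    intro v
    simp only [VF, Finset.mem_union, Finset.mem_image]
    constructor
    · rintro (⟨e, he, h⟩ | ⟨e, he, h⟩)
      · exact ⟨e, he, Or.inl h⟩
      · exact ⟨e, he, Or.inr h⟩
    · rintro ⟨e, he, h | h⟩
      · exact Or.inl ⟨e, he, h⟩
      · exact Or.inr ⟨e, he, h⟩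
  -- the number of vertices is at most the number of edges
  have hcard : VF.card ≤ F.card := by
    have h1 : VF.card * 2 ≤ F.card * 2 := by
      refine Finset.card_mul_le_card_mul (fun v e => src e = v ∨ tgt e = v) ?_ ?_
      · intro v hv
        obtain ⟨e, he, hev⟩ := (hVF v).1 hv
        obtain ⟨e', he', hne, hev'⟩ := hdeg e he v hev
        have h2 : ({e, e'} : Finset E) ⊆ Finset.bipartiteAbove (fun v e => src e = v ∨ tgt e = v) F v := by
          intro a ha
          rw [Finset.mem_insert, Finset.mem_singleton] at ha
          rw [Finset.mem_bipartiteAbove]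
          rcases ha with rfl | rfl
          · exact ⟨he, hev⟩
          · exact ⟨he', hev'⟩
        have h3 := Finset.card_le_card h2
        rwa [Finset.card_pair hne.symm] at h3
      · intro e he
        have h2 : Finset.bipartiteBelow (fun v e => src e = v ∨ tgt e = v) VF e ⊆
            ({src e, tgt e} : Finset V) := by
          intro v hv
          rw [Finset.mem_bipartiteBelow] at hv
          rw [Finset.mem_insert, Finset.mem_singleton]
          rcases hv.2 with h | h
          · exact Or.inl h.symm
          · exact Or.inr h.symm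
        exact (Finset.card_le_card h2).trans Finset.card_le_two
    omega
  let φ : (↥F → ℝ) →ₗ[ℝ] (↥VF → ℝ) :=
    { toFun := fun z v => (∑ e : ↥F, if src e.1 = v.1 then z e else 0) +
        (∑ e : ↥F, if tgt e.1 = v.1 then z e else 0)
      map_add' := by
        intro a b
        funext v
        simp only [Pi.add_apply]
        have h1 : ∀ (p : ↥F → Prop) [DecidablePred p], (∑ e : ↥F, if p e then a e + b e else 0) =
            (∑ e : ↥F, if p e then a e else 0) + ∑ e : ↥F, if p e then b e else 0 := by
          intro p _
          rw [← Finset.sum_add_distrib]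
          refine Finset.sum_congr rfl fun e _ => ?_
          split_ifs <;> simp
        rw [h1, h1]
        ring
      map_smul' := by
        intro c a
        funext v
        simp only [Pi.smul_apply, smul_eq_mul, RingHom.id_apply]
        have h1 : ∀ (p : ↥F → Prop) [DecidablePred p], (∑ e : ↥F, if p e then c * a e else 0) =
            c * ∑ e : ↥F, if p e then a e else 0 := by
          intro p _
          rw [Finset.mul_sum]
          refine Finset.sum_congr rfl fun e _ => ?_
          split_ifs <;> simp
        rw [h1, h1]
        ring }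
  have hφ : ∀ z v, φ z v = (∑ e : ↥F, if src e.1 = v.1 then z e else 0) +
        (∑ e : ↥F, if tgt e.1 = v.1 then z e else 0) := fun z v => rfl
  -- the image lies in a hyperplane
  have hhyp : ∀ z, ∑ v : ↥VF, (if s v.1 = true then φ z v else 0) =
      ∑ v : ↥VF, (if s v.1 = true then 0 else φ z v) := by
    intro z
    have hA : ∑ v : ↥VF, (if s v.1 = true then φ z v else 0) = ∑ e : ↥F, z e := by
      have h1 : ∀ v : ↥VF, (if s v.1 = true then φ z v else 0) =
          ∑ e : ↥F, if src e.1 = v.1 then z e else 0 := by
        intro v
        rw [hφ]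
        by_cases hv : s v.1 = true
        · rw [if_pos hv]
          have h2 : (∑ e : ↥F, if tgt e.1 = v.1 then z e else 0) = 0 := by
            refine Finset.sum_eq_zero fun e _ => if_neg ?_
            intro h
            have h3 := (hs e.1).2
            rw [h, hv] at h3
            exact Bool.noConfusion h3
          rw [h2, add_zero]
        · rw [if_neg hv]
          symm
          refine Finset.sum_eq_zero fun e _ => if_neg ?_
          intro h
          apply hv
          rw [← h]
          exact (hs e.1).1
      rw [Finset.sum_congr rfl fun v _ => h1 v, Finset.sum_comm]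
      refine Finset.sum_congr rfl fun e _ => ?_
      have h4 : src e.1 ∈ VF := (hVF _).2 ⟨e.1, e.2, Or.inl rfl⟩
      rw [Finset.sum_eq_single (⟨src e.1, h4⟩ : ↥VF)]
      · simp
      · intro v _ hv
        refine if_neg ?_
        intro h
        exact hv (Subtype.ext h.symm)
      · intro h
        exact absurd (Finset.mem_univ _) h
    have hB : ∑ v : ↥VF, (if s v.1 = true then 0 else φ z v) = ∑ e : ↥F, z e := by
      have h1 : ∀ v : ↥VF, (if s v.1 = true then 0 else φ z v) =
          ∑ e : ↥F, if tgt e.1 = v.1 then z e else 0 := by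
        intro v
        rw [hφ]
        by_cases hv : s v.1 = true
        · rw [if_pos hv]
          symm
          refine Finset.sum_eq_zero fun e _ => if_neg ?_
          intro h
          have h3 := (hs e.1).2
          rw [h, hv] at h3
          exact Bool.noConfusion h3
        · rw [if_neg hv]
          have h2 : (∑ e : ↥F, if src e.1 = v.1 then z e else 0) = 0 := by
            refine Finset.sum_eq_zero fun e _ => if_neg ?_
            intro h
            apply hv
            rw [← h]
            exact (hs e.1).1
          rw [h2, zero_add]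
      rw [Finset.sum_congr rfl fun v _ => h1 v, Finset.sum_comm]
      refine Finset.sum_congr rfl fun e _ => ?_
      have h4 : tgt e.1 ∈ VF := (hVF _).2 ⟨e.1, e.2, Or.inr rfl⟩
      rw [Finset.sum_eq_single (⟨tgt e.1, h4⟩ : ↥VF)]
      · simp
      · intro v _ hv
        refine if_neg ?_
        intro h
        exact hv (Subtype.ext h.symm)
      · intro h
        exact absurd (Finset.mem_univ _) h
    rw [hA, hB]
  have hninj : ¬ Function.Injective φ := by
    intro hinj
    have h1 := LinearMap.finrank_le_finrank_of_injective hinj
    simp only [Module.finrank_fintype_fun_eq_card, Fintype.card_coe] at h1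
    have h2 : Module.finrank ℝ (↥F → ℝ) = Module.finrank ℝ (↥VF → ℝ) := by
      simp only [Module.finrank_fintype_fun_eq_card, Fintype.card_coe]
      omega
    have hsurj : Function.Surjective φ :=
      (LinearMap.injective_iff_surjective_of_finrank_eq_finrank h2).1 hinj
    obtain ⟨e0, he0⟩ := hF
    have h4 : src e0 ∈ VF := (hVF _).2 ⟨e0, he0, Or.inl rfl⟩
    obtain ⟨z, hz⟩ := hsurj (Pi.single (⟨src e0, h4⟩ : ↥VF) 1)
    have h5 := hhyp z
    rw [hz] at h5
    have h6 : ∑ v : ↥VF, (if s v.1 = true then
        (Pi.single (⟨src e0, h4⟩ : ↥VF) (1:ℝ) : ↥VF → ℝ) v else 0) = 1 := by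
      rw [Finset.sum_eq_single (⟨src e0, h4⟩ : ↥VF)]
      · simp [(hs e0).1]
      · intro v _ hv
        rw [Pi.single_eq_of_ne hv]
        simp
      · intro h
        exact absurd (Finset.mem_univ _) h
    have h7 : ∑ v : ↥VF, (if s v.1 = true then 0 else
        (Pi.single (⟨src e0, h4⟩ : ↥VF) (1:ℝ) : ↥VF → ℝ) v) = 0 := by
      refine Finset.sum_eq_zero fun v _ => ?_
      by_cases hv : v = (⟨src e0, h4⟩ : ↥VF)
      · subst hv
        simp [(hs e0).1]
      · rw [Pi.single_eq_of_ne hv]
        simp
    rw [h6, h7] at h5
    exact one_ne_zero h5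
  -- a kernel vector
  have hker : ∃ z : ↥F → ℝ, z ≠ 0 ∧ φ z = 0 := by
    by_contra hno
    apply hninj
    rw [← LinearMap.ker_eq_bot, LinearMap.ker_eq_bot']
    intro z hz
    by_contra hz0
    exact hno ⟨z, hz0, hz⟩
  obtain ⟨z, hz0, hz⟩ := hker
  refine ⟨fun e => if h : e ∈ F then z ⟨e, h⟩ else 0, ?_, ?_, ?_⟩
  · intro e he
    simp [he]
  · have : ∃ e : ↥F, z e ≠ 0 := by
      by_contra hno
      apply hz0
      funext e
      by_contra h
      exact hno ⟨e, h⟩
    obtain ⟨⟨e, he⟩, h⟩ := this
    exact ⟨e, by simpa [he] using h⟩
  · intro v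
    have hsum : ∀ (p : E → Prop) [DecidablePred p],
        (∑ e, if p e then (if h : e ∈ F then z ⟨e, h⟩ else 0) else 0) =
        ∑ e : ↥F, if p e.1 then z e else 0 := by
      intro p _
      rw [← Finset.sum_subset (Finset.subset_univ F)]
      · rw [← Finset.sum_coe_sort F]
        refine Finset.sum_congr rfl fun e _ => ?_
        simp
      · intro e _ he
        simp [he]
    rw [hsum, hsum]
    by_cases hv : v ∈ VF
    · have := congrFun hz ⟨v, hv⟩
      exact this
    · have h1 : (∑ e : ↥F, if src e.1 = v then z e else 0) = 0 := by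
        refine Finset.sum_eq_zero fun e _ => if_neg ?_
        intro h
        exact hv ((hVF _).2 ⟨e.1, e.2, Or.inl h⟩)
      have h2 : (∑ e : ↥F, if tgt e.1 = v then z e else 0) = 0 := by
        refine Finset.sum_eq_zero fun e _ => if_neg ?_
        intro h
        exact hv ((hVF _).2 ⟨e.1, e.2, Or.inr h⟩)
      rw [h1, h2, add_zero]

/-- moving along a kernel vector until the boundary of the cube is reached -/
theorem round_move {E : Type} [Fintype E] [DecidableEq E] (x z : E → ℝ)
    (hx : ∀ e, 0 ≤ x e ∧ x e ≤ 1) (hz : ∃ e, z e ≠ 0)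
    (hzF : ∀ e, z e ≠ 0 → 0 < x e ∧ x e < 1) :
    ∃ t : ℝ, (∀ e, 0 ≤ x e + t * z e ∧ x e + t * z e ≤ 1) ∧
      ∃ e, (0 < x e ∧ x e < 1) ∧ (x e + t * z e = 0 ∨ x e + t * z e = 1) := by
  classical
  let r : E → ℝ := fun e => if 0 < z e then (1 - x e) / z e else x e / (- z e)
  obtain ⟨e1, he1⟩ := hz
  obtain ⟨e0, he0, hmin⟩ := Finset.exists_min_image (univ.filter fun e => z e ≠ 0) r
    ⟨e1, by simp [he1]⟩
  simp only [Finset.mem_filter, Finset.mem_univ, true_and] at he0 hmin
  have hrpos : ∀ e, z e ≠ 0 → 0 < r e := by
    intro e he
    obtain ⟨h0, h1⟩ := hzF e he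
    by_cases hpos : 0 < z e
    · simp only [r, hpos, if_true]
      exact div_pos (by linarith) hpos
    · have : z e < 0 := lt_of_le_of_ne (not_lt.1 hpos) he
      simp only [r, hpos, if_false]
      exact div_pos h0 (by linarith)
  refine ⟨r e0, ?_, e0, hzF e0 he0, ?_⟩
  · intro e
    by_cases he : z e = 0
    · rw [he, mul_zero, add_zero]
      exact hx e
    · have h1 := hmin e he
      have h0 := hrpos e0 he0
      obtain ⟨h2, h3⟩ := hzF e he
      by_cases hpos : 0 < z e
      · have h4 : r e * z e = 1 - x e := by
          simp only [r, hpos, if_true]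
          field_simp
        have h5 : r e0 * z e ≤ r e * z e := mul_le_mul_of_nonneg_right h1 hpos.le
        have h6 : 0 < r e0 * z e := mul_pos h0 hpos
        constructor <;> linarith
      · have hneg : z e < 0 := lt_of_le_of_ne (not_lt.1 hpos) he
        have h4 : r e * z e = - x e := by
          simp only [r, hpos, if_false]
          field_simp
        have h5 : r e * z e ≤ r e0 * z e := mul_le_mul_of_nonpos_right h1 hneg.le
        have h6 : r e0 * z e < 0 := mul_neg_of_pos_of_neg h0 hneg
        constructor <;> linarith
  · by_cases hpos : 0 < z e0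
    · right
      have h4 : r e0 * z e0 = 1 - x e0 := by
        simp only [r, hpos, if_true]
        field_simp
      linarith
    · left
      have hneg : z e0 < 0 := lt_of_le_of_ne (not_lt.1 hpos) he0
      have h4 : r e0 * z e0 = - x e0 := by
        simp only [r, hpos, if_false]
        field_simp
      linarith

theorem round_bip {V E : Type} [Fintype V] [DecidableEq V] [Fintype E]
    (src tgt : E → V) (s : V → Bool) (hs : ∀ e, s (src e) = true ∧ s (tgt e) = false)
    (x : E → ℝ) (hx : ∀ e, 0 ≤ x e ∧ x e ≤ 1) (b : V → ℕ)
    (hb : ∀ v, (∑ e, if src e = v then x e else 0) + (∑ e, if tgt e = v then x e else 0) = b v) :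
    ∃ y : E → Bool, ∀ v,
      (univ.filter fun e => y e = true ∧ (src e = v ∨ tgt e = v)).card = b v := by
  classical
  have hdisj : ∀ e v, ¬ (src e = v ∧ tgt e = v) := by
    rintro e v ⟨h1, h2⟩
    have h3 := hs e
    rw [h1, h2] at h3
    rw [h3.1] at h3
    exact Bool.noConfusion h3.2
  have hcomb : ∀ (w : E → ℝ) v, (∑ e, if src e = v then w e else 0) +
      (∑ e, if tgt e = v then w e else 0) = ∑ e, if (src e = v ∨ tgt e = v) then w e else 0 := by
    intro w v
    rw [← Finset.sum_add_distrib]
    refine Finset.sum_congr rfl fun e _ => ?_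
    have := hdisj e v
    by_cases h1 : src e = v <;> by_cases h2 : tgt e = v
    · exact absurd ⟨h1, h2⟩ this
    · simp [h1, h2]
    · simp [h1, h2]
    · simp [h1, h2]
  -- strong induction on the number of fractional edges
  suffices H : ∀ (n : ℕ) (x : E → ℝ), (∀ e, 0 ≤ x e ∧ x e ≤ 1) →
      (∀ v, (∑ e, if (src e = v ∨ tgt e = v) then x e else 0) = b v) →
      (univ.filter fun e => 0 < x e ∧ x e < 1).card = n →
      ∃ y : E → Bool, ∀ v,
      (univ.filter fun e => y e = true ∧ (src e = v ∨ tgt e = v)).card = b v from
    H _ x hx (fun v => by rw [← hcomb]; exact hb v) rfl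
  intro n
  induction n using Nat.strong_induction_on with
  | _ n ih =>
    intro x hx hb hn
    by_cases hF : (univ.filter fun e => 0 < x e ∧ x e < 1).Nonempty
    · -- fractional edges exist
      have hdeg : ∀ e ∈ (univ.filter fun e => 0 < x e ∧ x e < 1), ∀ v, (src e = v ∨ tgt e = v) →
          ∃ e' ∈ (univ.filter fun e => 0 < x e ∧ x e < 1), e' ≠ e ∧
            (src e' = v ∨ tgt e' = v) := by
        intro e he v hev
        by_contra hno
        simp only [Finset.mem_filter, Finset.mem_univ, true_and] at he
        have h1 := hb v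
        rw [← Finset.add_sum_erase _ _ (Finset.mem_univ e), if_pos hev] at h1
        -- all other terms are integers
        have h2 : ∃ k : ℤ, (∑ e' ∈ univ.erase e, if (src e' = v ∨ tgt e' = v) then x e' else 0) =
            (k : ℝ) := by
          have h3 : ∀ e' ∈ univ.erase e, ∃ k : ℤ,
              (if (src e' = v ∨ tgt e' = v) then x e' else 0) = (k : ℝ) := by
            intro e' he'
            by_cases h4 : src e' = v ∨ tgt e' = v
            · rw [if_pos h4]
              have h5 : ¬ (0 < x e' ∧ x e' < 1) := by
                intro h6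
                exact hno ⟨e', by simp [h6], Finset.ne_of_mem_erase he', h4⟩
              obtain ⟨h7, h8⟩ := hx e'
              rcases h7.eq_or_lt with h9 | h9
              · exact ⟨0, by simp [← h9]⟩
              · have h10 : x e' = 1 := by
                  by_contra h11
                  exact h5 ⟨h9, lt_of_le_of_ne h8 h11⟩
                exact ⟨1, by simp [h10]⟩
            · exact ⟨0, by simp [h4]⟩
          choose! k hk using h3
          refine ⟨∑ e' ∈ univ.erase e, k e', ?_⟩
          rw [Finset.sum_congr rfl hk]
          push_cast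
          rfl
        obtain ⟨k, hk⟩ := h2
        rw [hk] at h1
        have h3 : x e = (((b v : ℤ) - k : ℤ) : ℝ) := by
          push_cast
          linarith
        have h4 : (0 : ℝ) < (((b v : ℤ) - k : ℤ) : ℝ) := h3 ▸ he.1
        have h5 : (((b v : ℤ) - k : ℤ) : ℝ) < 1 := h3 ▸ he.2
        have h6 : (0 : ℤ) < (b v : ℤ) - k := by exact_mod_cast h4
        have h7 : (b v : ℤ) - k < 1 := by exact_mod_cast h5
        omega
      obtain ⟨z, hz1, hz2, hz3⟩ := round_kernel src tgt s hs _ hF hdeg
      have hzF : ∀ e, z e ≠ 0 → 0 < x e ∧ x e < 1 := by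
        intro e he
        by_contra h
        exact he (hz1 e (by simpa using h))
      obtain ⟨t, ht1, e0, he0, ht2⟩ := round_move x z hx hz2 hzF
      refine ih ((univ.filter fun e => 0 < x e + t * z e ∧ x e + t * z e < 1).card) ?_
        (fun e => x e + t * z e) ht1 ?_ rfl
      · rw [← hn]
        refine Finset.card_lt_card ?_
        rw [Finset.ssubset_iff_of_subset]
        · refine ⟨e0, by simp [he0], ?_⟩
          simp only [Finset.mem_filter, Finset.mem_univ, true_and, not_and, not_lt]
          intro h
          rcases ht2 with h1 | h1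
          · rw [h1] at h
            exact absurd h (lt_irrefl _)
          · exact h1.ge
        · intro e he
          simp only [Finset.mem_filter, Finset.mem_univ, true_and] at he ⊢
          by_cases hze : z e = 0
          · rw [hze, mul_zero, add_zero] at he
            exact he
          · exact hzF e hze
      · intro v
        have h1 := hz3 v
        rw [hcomb] at h1
        have h2 : (∑ e, if (src e = v ∨ tgt e = v) then x e + t * z e else 0) =
            (∑ e, if (src e = v ∨ tgt e = v) then x e else 0) +
            t * ∑ e, if (src e = v ∨ tgt e = v) then z e else 0 := by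
          rw [Finset.mul_sum, ← Finset.sum_add_distrib]
          refine Finset.sum_congr rfl fun e _ => ?_
          split_ifs <;> simp
        rw [h2, h1, mul_zero, add_zero]
        exact hb v
    · -- integral
      rw [Finset.not_nonempty_iff_eq_empty] at hF
      have hint : ∀ e, x e = 0 ∨ x e = 1 := by
        intro e
        by_contra h
        simp only [not_or] at h
        have : e ∈ (univ.filter fun e => 0 < x e ∧ x e < 1) := by
          simp only [Finset.mem_filter, Finset.mem_univ, true_and]
          exact ⟨lt_of_le_of_ne (hx e).1 (Ne.symm h.1), lt_of_le_of_ne (hx e).2 h.2⟩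
        rw [hF] at this
        exact absurd this (Finset.notMem_empty e)
      refine ⟨fun e => decide (x e = 1), fun v => ?_⟩
      have h1 := hb v
      have h2 : (∑ e, if (src e = v ∨ tgt e = v) then x e else 0) =
          (((univ.filter fun e => decide (x e = 1) = true ∧ (src e = v ∨ tgt e = v)).card : ℕ) : ℝ) := by
        rw [Finset.card_filter]
        push_cast
        refine Finset.sum_congr rfl fun e _ => ?_
        rcases hint e with h | h <;> by_cases h3 : (src e = v ∨ tgt e = v) <;> simp [h, h3]
      rw [h2] at h1
      exact_mod_cast h1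

end Round

end OddG
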