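import Pool.Agent.Lib.MP_e26f2a_co.LinkDefs
import Pool.Agent.Lib.MP_e26f2a_co.DepFacts
import Pool.Agent.Lib.MP_e26f2a_co.Dual
import Pool.Agent.Lib.MP_e26f2a_co.Round
import Pool.Agent.Lib.MP_e26f2a_co.Konig

set_option autoImplicit false

/-! The colouring of one half: split the true graph into two bipartite regular parts. -/

namespace OddG

open Finset

namespace HalfC

variable {m : ℕ}

/-- true darts -/
def T (L : Finset (X (2*m+1)) → X (2*m+1) → Bool) (A : Finset (X (2*m+1))) (x : X (2*m+1)) :
    Prop := A.card = 2*m+1 ∧ x ∉ A ∧ L A x = true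

/-- not a tie -/
def nt (A : Finset (X (2*m+1))) (x : X (2*m+1)) : Prop :=
  (Lam A).Nonempty ∧ (Lam (N A x)).Nonempty

/-- sign function of the first part (`b = false`) and of the second part (`b = true`) -/
noncomputable def sP (ep : Finset (Fin (2*m+1)) → Bool) (b : Bool) (A : Finset (X (2*m+1))) :
    Bool := open Classical in if (Lam A).Nonempty then fs A else xor b (ep (Fs A))

/-- vertices with a true tie -/
def tie (L : Finset (X (2*m+1)) → X (2*m+1) → Bool) (A : Finset (X (2*m+1))) : Prop :=
  (Lam A).card = 1 ∧ (∃ p ∈ Lam A, L A (dl A p) = true)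

section

variable {S : Finset (ZMod 6)} {D : Finset (Fin (2*m+1)) → Fin (2*m+1) → Bool}
  {L : Finset (X (2*m+1)) → X (2*m+1) → Bool}

theorem T_symm (hL : Good m S D L) {A : Finset (X (2*m+1))} {x : X (2*m+1)} (h : T L A x) :
    T L (N A x) x :=
  ⟨card_N A x h.1 h.2.1, not_mem_N A x, by rw [hL.symm A x h.1 h.2.1]; exact h.2.2⟩

theorem nt_symm {A : Finset (X (2*m+1))} {x : X (2*m+1)} (hx : x ∉ A) :
    nt (N A x) x ↔ nt A x := by
  unfold nt
  rw [N_N A x hx]
  exact and_comm

theorem tie_cases {A : Finset (X (2*m+1))} {x : X (2*m+1)} (hx : x ∉ A)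
    (h1 : (Lam A).Nonempty) (h2 : ¬ (Lam (N A x)).Nonempty) :
    ∃ p, Lam A = {p} ∧ x = dl A p := by
  rcases cases_notMem A x hx with rfl | ⟨i, hi, rfl⟩ | ⟨i, hi, b, rfl⟩
  · rw [Lam_N_none] at h2; exact absurd h1 h2
  · refine ⟨i, ?_, rfl⟩
    rw [Lam_dl A i hi, Finset.not_nonempty_iff_eq_empty] at h2
    rw [← Finset.insert_erase hi, h2]
    rfl
  · rw [Lam_ins A i hi b] at h2
    exact absurd (Finset.insert_nonempty _ _) h2

theorem lam_ne {A : Finset (X (2*m+1))} {x : X (2*m+1)} (hA : A.card = 2*m+1) (hx : x ∉ A)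
    (h1 : ¬ (Lam A).Nonempty) : ∃ i ∈ Es A, ∃ b, x = some (i, b) := by
  rw [Finset.not_nonempty_iff_eq_empty] at h1
  rcases cases_notMem A x hx with rfl | ⟨i, hi, rfl⟩ | h
  · exact absurd ((none_iff A hA).2 (by rw [h1]; simp)) hx
  · rw [h1] at hi; exact absurd hi (Finset.notMem_empty _)
  · exact h

theorem lam_ne' {A : Finset (X (2*m+1))} {x : X (2*m+1)} (hA : A.card = 2*m+1) (hx : x ∉ A)
    (h1 : ¬ (Lam A).Nonempty) : (Lam (N A x)).Nonempty := by
  obtain ⟨i, hi, b, rfl⟩ := lam_ne hA hx h1
  rw [Lam_ins A i hi b]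
  exact Finset.insert_nonempty _ _

open scoped Classical in
theorem tie_count (hL : Good m S D L) {A : Finset (X (2*m+1))} (hA : A.card = 2*m+1)
    (h : (Lam A).Nonempty) :
    (univ.filter fun x => T L A x ∧ ¬ nt A x).card = if tie L A then 1 else 0 := by
  split_ifs with ht
  · obtain ⟨h1, p, hp, hl⟩ := ht
    have h2 : Lam A = {p} := by
      obtain ⟨q, hq⟩ := Finset.card_eq_one.1 h1
      rw [hq] at hp ⊢
      rw [Finset.mem_singleton.1 hp]
    have h3 : (univ.filter fun x => T L A x ∧ ¬ nt A x) = {dl A p} := by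
      ext x
      rw [Finset.mem_filter, Finset.mem_singleton]
      constructor
      · rintro ⟨-, hT, hn⟩
        obtain ⟨q, hq, rfl⟩ := tie_cases hT.2.1 h (fun h' => hn ⟨h, h'⟩)
        rw [h2] at hq
        rw [Finset.singleton_injective hq]
      · rintro rfl
        refine ⟨Finset.mem_univ _, ⟨hA, dl_notMem A p hp, hl⟩, fun hn => ?_⟩
        have := hn.2
        rw [Lam_dl A p hp, h2] at this
        simp at this
    rw [h3, Finset.card_singleton]
  · rw [Finset.card_eq_zero, Finset.filter_eq_empty_iff]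
    rintro x - ⟨hT, hn⟩
    obtain ⟨q, hq, rfl⟩ := tie_cases hT.2.1 h (fun h' => hn ⟨h, h'⟩)
    exact ht ⟨by rw [hq]; simp, q, by rw [hq]; simp, hT.2.2⟩

open scoped Classical in
theorem true_count (hL : Good m S D L) {A : Finset (X (2*m+1))} (hA : A.card = 2*m+1) :
    (univ.filter fun x => T L A x).card = m + 1 := by
  rw [← hL.reg A hA]
  congr 1
  ext x
  simp only [Finset.mem_filter, Finset.mem_univ, true_and, T, hA]

open scoped Classical in
theorem deg_count (hL : Good m S D L) {A : Finset (X (2*m+1))} (hA : A.card = 2*m+1)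
    (h : (Lam A).Nonempty) :
    (univ.filter fun x => T L A x ∧ nt A x).card + (if tie L A then 1 else 0) = m + 1 := by
  rw [← tie_count hL hA h, ← true_count hL hA, ← Finset.card_union_of_disjoint]
  · congr 1
    ext x
    simp only [Finset.mem_union, Finset.mem_filter, Finset.mem_univ, true_and]
    tauto
  · rw [Finset.disjoint_left]
    intro x h1 h2
    rw [Finset.mem_filter] at h1 h2
    exact h2.2.2 h1.2.2

/-- the edges: true darts, no ties, from the side with first sign `true` -/
def E (L : Finset (X (2*m+1)) → X (2*m+1) → Bool) : Type :=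
  {e : Finset (X (2*m+1)) × X (2*m+1) // (T L e.1 e.2 ∧ nt e.1 e.2) ∧ fs e.1 = true}

noncomputable instance : Fintype (E L) := by
  classical
  unfold E
  infer_instance

/-- source -/
def src (e : E L) : Finset (X (2*m+1)) := e.1.1
/-- target -/
def tgt (e : E L) : Finset (X (2*m+1)) := N e.1.1 e.1.2

theorem fs_tgt (hL : Good m S D L) (e : E L) : fs (tgt e) = false := by
  obtain ⟨⟨A, x⟩, ⟨hT, hn⟩, hf⟩ := e
  have := hL.cut A x hT.1 hT.2.1 hT.2.2 hn.1 hn.2
  dsimp only at hf
  rw [hf] at this
  simpa [tgt] using this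

theorem enr_eq (hL : Good m S D L) (g : Finset (X (2*m+1)) → ℝ) :
    enr L g = 2 * ∑ e : E L, |g (src e) - g (tgt e)| := by
  classical
  have h1 : enr L g = ∑ e ∈ univ.filter (fun e : Finset (X (2*m+1)) × X (2*m+1) =>
      T L e.1 e.2 ∧ nt e.1 e.2), |g e.1 - g (N e.1 e.2)| := by
    unfold enr
    rw [Finset.sum_filter, ← Finset.univ_product_univ, Finset.sum_product]
    have h2 : ∀ A : Finset (X (2*m+1)), (∑ x : X (2*m+1), if T L A x ∧ nt A x then
        |g A - g (N A x)| else 0) = if A.card = 2*m+1 then (∑ x : X (2*m+1),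
        if x ∉ A ∧ L A x = true ∧ (Lam A).Nonempty ∧ (Lam (N A x)).Nonempty then
        |g A - g (N A x)| else 0) else 0 := by
      intro A
      split_ifs with hA
      · refine Finset.sum_congr rfl fun x _ => ?_
        have : (T L A x ∧ nt A x) ↔ (x ∉ A ∧ L A x = true ∧ (Lam A).Nonempty ∧
            (Lam (N A x)).Nonempty) := by
          unfold T nt; tauto
        simp only [this]
      · refine Finset.sum_eq_zero fun x _ => ?_
        rw [if_neg]
        rintro ⟨h, -⟩
        exact hA h.1
    rw [Finset.sum_congr rfl (fun A _ => h2 A), ← Finset.sum_filter]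
    refine Finset.sum_congr ?_ fun _ _ => rfl
    ext A
    simp [Finset.mem_powersetCard]
  have h2 : ∑ e : E L, |g (src e) - g (tgt e)| = ∑ e ∈ (univ.filter
      (fun e : Finset (X (2*m+1)) × X (2*m+1) => T L e.1 e.2 ∧ nt e.1 e.2)).filter
      (fun e => fs e.1 = true), |g e.1 - g (N e.1 e.2)| := by
    rw [Finset.sum_subtype ((univ.filter
      (fun e : Finset (X (2*m+1)) × X (2*m+1) => T L e.1 e.2 ∧ nt e.1 e.2)).filter
      (fun e => fs e.1 = true)) (p := fun e => (T L e.1 e.2 ∧ nt e.1 e.2) ∧ fs e.1 = true)]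
    · rfl
    · intro x
      simp only [Finset.mem_filter, Finset.mem_univ, true_and]
  have h3 : ∑ e ∈ (univ.filter
      (fun e : Finset (X (2*m+1)) × X (2*m+1) => T L e.1 e.2 ∧ nt e.1 e.2)).filter
      (fun e => ¬ fs e.1 = true), |g e.1 - g (N e.1 e.2)| = ∑ e : E L, |g (src e) - g (tgt e)| := by
    rw [h2]
    refine Finset.sum_bij' (fun e _ => (N e.1 e.2, e.2)) (fun e _ => (N e.1 e.2, e.2)) ?_ ?_ ?_ ?_ ?_
    · rintro ⟨A, x⟩ h
      simp only [Finset.mem_filter, Finset.mem_univ, true_and] at h ⊢
      obtain ⟨⟨hT, hn⟩, hf⟩ := h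
      have := hL.cut A x hT.1 hT.2.1 hT.2.2 hn.1 hn.2
      refine ⟨⟨T_symm hL hT, (nt_symm hT.2.1).2 hn⟩, ?_⟩
      cases h4 : fs (N A x) <;> cases h5 : fs A <;> simp_all
    · rintro ⟨A, x⟩ h
      simp only [Finset.mem_filter, Finset.mem_univ, true_and] at h ⊢
      obtain ⟨⟨hT, hn⟩, hf⟩ := h
      have := hL.cut A x hT.1 hT.2.1 hT.2.2 hn.1 hn.2
      refine ⟨⟨T_symm hL hT, (nt_symm hT.2.1).2 hn⟩, ?_⟩
      cases h4 : fs (N A x) <;> cases h5 : fs A <;> simp_all
    · rintro ⟨A, x⟩ h
      simp only [Finset.mem_filter, Finset.mem_univ, true_and] at h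
      dsimp only
      rw [N_N A x h.1.1.2.1]
    · rintro ⟨A, x⟩ h
      simp only [Finset.mem_filter, Finset.mem_univ, true_and] at h
      dsimp only
      rw [N_N A x h.1.1.2.1]
    · rintro ⟨A, x⟩ h
      simp only [Finset.mem_filter, Finset.mem_univ, true_and] at h
      dsimp only
      rw [N_N A x h.1.1.2.1]
      exact abs_sub_comm _ _
  rw [h1, ← Finset.sum_filter_add_sum_filter_not _ (fun e => fs e.1 = true), h3, ← h2]
  ring

/-- the chosen darts -/
def yy (y : E L → Bool) (A : Finset (X (2*m+1))) (x : X (2*m+1)) : Prop :=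
  ∃ e : E L, y e = true ∧ e.1.2 = x ∧ (src e = A ∨ tgt e = A)

theorem yy_symm (hL : Good m S D L) (y : E L → Bool) {A : Finset (X (2*m+1))} {x : X (2*m+1)}
    (h : yy y A x) : yy y (N A x) x := by
  obtain ⟨e, h1, h2, h3⟩ := h
  refine ⟨e, h1, h2, ?_⟩
  rcases h3 with h3 | h3
  · right; rw [← h3, ← h2]; rfl
  · left
    rw [← h3, ← h2]
    exact (N_N _ _ e.2.1.1.2.1).symm

theorem src_of (hL : Good m S D L) (e : E L) {A : Finset (X (2*m+1))} (h : tgt e = A) :
    src e = N A e.1.2 := by
  rw [← h]
  exact (N_N _ _ e.2.1.1.2.1).symm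

open scoped Classical in
theorem edge_card (hL : Good m S D L) (y : E L → Bool) (A : Finset (X (2*m+1))) :
    (univ.filter fun e : E L => y e = true ∧ (src e = A ∨ tgt e = A)).card =
      (univ.filter fun x => (T L A x ∧ nt A x) ∧ yy y A x).card := by
  refine Finset.card_bij (fun e _ => e.1.2) ?_ ?_ ?_
  · intro e he
    rw [Finset.mem_filter] at he ⊢
    refine ⟨Finset.mem_univ _, ?_, e, he.2.1, rfl, he.2.2⟩
    rcases he.2.2 with h | h
    · rw [← h]; exact e.2.1
    · rw [← h]; exact ⟨T_symm hL e.2.1.1, (nt_symm e.2.1.1.2.1).2 e.2.1.2⟩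
  · intro e he e' he' hx
    rw [Finset.mem_filter] at he he'
    have hs : src e = src e' := by
      rcases he.2.2 with h | h <;> rcases he'.2.2 with h' | h'
      · rw [h, h']
      · have h1 : fs (src e) = true := e.2.2
        have h2 := fs_tgt hL e'
        rw [h] at h1; rw [h', h1] at h2; exact absurd h2 (by simp)
      · have h1 : fs (src e') = true := e'.2.2
        have h2 := fs_tgt hL e
        rw [h'] at h1; rw [h, h1] at h2; exact absurd h2 (by simp)
      · rw [src_of hL e h, src_of hL e' h', hx]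
    exact Subtype.ext (Prod.ext hs hx)
  · intro x hx
    rw [Finset.mem_filter] at hx
    obtain ⟨-, -, e, h1, h2, h3⟩ := hx
    exact ⟨e, by rw [Finset.mem_filter]; exact ⟨Finset.mem_univ _, h1, h3⟩, h2⟩

theorem exists_edge (hL : Good m S D L) {A : Finset (X (2*m+1))} {x : X (2*m+1)} (hT : T L A x)
    (hn : nt A x) : ∃ e : E L, e.1.2 = x ∧ (src e = A ∨ tgt e = A) := by
  have hc := hL.cut A x hT.1 hT.2.1 hT.2.2 hn.1 hn.2
  cases hf : fs A
  · refine ⟨⟨(N A x, x), ⟨T_symm hL hT, (nt_symm hT.2.1).2 hn⟩, ?_⟩, rfl, Or.inr ?_⟩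
    · rw [hf] at hc
      simpa using hc
    · exact N_N A x hT.2.1
  · exact ⟨⟨(A, x), ⟨hT, hn⟩, hf⟩, rfl, Or.inl rfl⟩

open scoped Classical in
theorem edge_card' (hL : Good m S D L) (A : Finset (X (2*m+1))) :
    (univ.filter fun e : E L => src e = A).card + (univ.filter fun e : E L => tgt e = A).card =
      (univ.filter fun x => T L A x ∧ nt A x).card := by
  have h1 := edge_card hL (fun _ => true) A
  rw [← Finset.card_union_of_disjoint]
  · have e1 : (univ.filter fun e : E L => src e = A) ∪ (univ.filter fun e : E L => tgt e = A) =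
        univ.filter fun e : E L => (fun _ => true) e = true ∧ (src e = A ∨ tgt e = A) := by
      ext e
      simp only [Finset.mem_union, Finset.mem_filter, Finset.mem_univ, true_and]
    rw [e1, h1]
    congr 1
    ext x
    simp only [Finset.mem_filter, Finset.mem_univ, true_and, and_iff_left_iff_imp]
    intro h
    obtain ⟨e, he⟩ := exists_edge hL h.1 h.2
    exact ⟨e, rfl, he.1, he.2⟩
  · rw [Finset.disjoint_left]
    intro e h1 h2
    rw [Finset.mem_filter] at h1 h2
    have h3 : fs (src e) = true := e.2.2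
    have h4 := fs_tgt hL e
    rw [h1.2] at h3; rw [h2.2, h3] at h4
    exact absurd h4 (by simp)

/-- required degree of the first part along edges which are not ties -/
noncomputable def bb (L : Finset (X (2*m+1)) → X (2*m+1) → Bool)
    (ep : Finset (Fin (2*m+1)) → Bool) (A : Finset (X (2*m+1))) : ℕ :=
  open Classical in
  if A.card = 2*m+1 ∧ (Lam A).Nonempty then
    d1 m - (if tie L A ∧ ep (Es A) ≠ fs A then 1 else 0) else 0

theorem d1_pos : 1 ≤ d1 m := by unfold d1; omega

theorem d1_le : d1 m ≤ m + 1 := by unfold d1; omega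

theorem th_mul : th m * ((m : ℝ) + 1) = d1 m := by
  unfold th
  have : (0 : ℝ) < (m : ℝ) + 1 := by positivity
  field_simp

theorem th_bd : 1/2 ≤ th m ∧ th m ≤ 1 := by
  have hm : (0:ℝ) < (m:ℝ) + 1 := by positivity
  have h1 : ((m:ℝ) + 1) ≤ 2 * (d1 m : ℝ) := by
    have : m + 1 ≤ 2 * d1 m := by unfold d1; omega
    exact_mod_cast this
  have h3 : (d1 m : ℝ) ≤ (m:ℝ) + 1 := by
    have : d1 m ≤ m + 1 := by unfold d1; omega
    exact_mod_cast this
  unfold th
  refine ⟨?_, ?_⟩
  · rw [div_le_div_iff₀ (by norm_num) hm]; linarith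
  · rw [div_le_one hm]; exact h3

open scoped Classical in
/-- the choice of the edges of the first part -/
theorem exists_y (hL : Good m S D L) (ep : Finset (Fin (2*m+1)) → Bool)
    (hmain : ∀ g : Finset (X (2*m+1)) → ℝ,
      ∑ A ∈ univ.powersetCard (2*m+1), psv L ep A * g A ≤ (1 - th m)/2 * enr L g) :
    ∃ y : E L → Bool, ∀ A,
      (univ.filter fun e => y e = true ∧ (src e = A ∨ tgt e = A)).card = bb L ep A := by
  obtain ⟨hth1, hth2⟩ := th_bd (m := m)
  obtain ⟨f, hf1, hf2⟩ := dual_flow (src (L := L)) (tgt (L := L))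
    (fun A => if A.card = 2*m+1 then psv L ep A else 0) (1 - th m) (by linarith) (by
      intro g
      have h1 := hmain g
      rw [enr_eq hL g] at h1
      have h2 : ∑ v : Finset (X (2*m+1)), (if v.card = 2*m+1 then psv L ep v else 0) * g v =
          ∑ A ∈ univ.powersetCard (2*m+1), psv L ep A * g A := by
        have h3 : ∀ v : Finset (X (2*m+1)), (if v.card = 2*m+1 then psv L ep v else 0) * g v =
            if v.card = 2*m+1 then psv L ep v * g v else 0 := by
          intro v; split_ifs <;> simp
        rw [Finset.sum_congr rfl (fun v _ => h3 v), ← Finset.sum_filter]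
        refine Finset.sum_congr ?_ fun _ _ => rfl
        ext A
        simp [Finset.mem_powersetCard]
      rw [h2]
      refine h1.trans (le_of_eq ?_)
      ring)
  refine round_bip src tgt fs (fun e => ⟨e.2.2, fs_tgt hL e⟩) (fun e => th m + f e)
    (fun e => ?_) (bb L ep) fun A => ?_
  · have := abs_le.1 (hf1 e)
    constructor <;> linarith
  · have hsum : ∀ (P : E L → Prop) [DecidablePred P], (∑ e, if P e then th m + f e else 0) =
        th m * ((univ.filter P).card : ℝ) + ∑ e, if P e then f e else 0 := by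
      intro P _
      rw [Finset.card_filter, Nat.cast_sum, Finset.mul_sum, ← Finset.sum_add_distrib]
      refine Finset.sum_congr rfl fun e _ => ?_
      split_ifs <;> simp
    rw [hsum, hsum]
    have hc := edge_card' hL A
    have hc' : ((univ.filter fun e : E L => src e = A).card : ℝ) +
        ((univ.filter fun e : E L => tgt e = A).card : ℝ) =
        ((univ.filter fun x => T L A x ∧ nt A x).card : ℝ) := by exact_mod_cast hc
    have hv := hf2 A
    by_cases hA : A.card = 2*m+1 ∧ (Lam A).Nonempty
    · have hd := deg_count hL hA.1 hA.2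
      have hd' : ((univ.filter fun x => T L A x ∧ nt A x).card : ℝ) +
          (if tie L A then 1 else 0) = (m : ℝ) + 1 := by
        have := congrArg (fun n : ℕ => (n : ℝ)) hd
        push_cast at this
        exact this
      rw [if_pos hA.1] at hv
      have hb : ((bb L ep A : ℕ) : ℝ) = (d1 m : ℝ) -
          (if tie L A ∧ ep (Es A) ≠ fs A then 1 else 0) := by
        unfold bb
        rw [if_pos hA, Nat.cast_sub]
        · push_cast; rfl
        · have := d1_pos (m := m)
          split_ifs <;> omega
      rw [hb]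
      have hth := th_mul (m := m)
      cases hfs : fs A
      · have h0 : ∀ e : E L, src e ≠ A := by
          intro e he
          have h3 : fs (src e) = true := e.2.2
          rw [he, hfs] at h3; exact absurd h3 (by simp)
        have h1 : (∑ e : E L, if src e = A then f e else 0) = 0 :=
          Finset.sum_eq_zero fun e _ => if_neg (h0 e)
        rw [h1] at hv ⊢
        have h2 : (∑ e : E L, if tgt e = A then f e else 0) = - psv L ep A := by linarith
        rw [h2]
        have h3 : psv L ep A = if tie L A then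
            -(th m - (if ep (Es A) ≠ fs A then 1 else 0)) else 0 := by
          unfold psv
          rw [hfs]
          by_cases ht : tie L A
          · rw [if_pos ht, if_pos (show (Lam A).card = 1 ∧ _ from ht)]
            by_cases he : ep (Es A) = false <;> simp [he]
          · rw [if_neg ht, if_neg (show ¬ ((Lam A).card = 1 ∧ _) from ht)]
        rw [h3, hfs]
        by_cases ht : tie L A
        · simp only [ht, if_true, true_and] at hd' ⊢
          have : th m * ((univ.filter fun e : E L => src e = A).card : ℝ) +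
            th m * ((univ.filter fun e : E L => tgt e = A).card : ℝ) =
            th m * ((m : ℝ) + 1) - th m := by
            rw [← mul_add, hc', ← hd']; ring
          linarith
        · simp only [ht, if_false, false_and] at hd' ⊢
          have : th m * ((univ.filter fun e : E L => src e = A).card : ℝ) +
            th m * ((univ.filter fun e : E L => tgt e = A).card : ℝ) =
            th m * ((m : ℝ) + 1) := by
            rw [← mul_add, hc', ← hd']; ring
          linarith
      · have h0 : ∀ e : E L, tgt e ≠ A := by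
          intro e he
          have h3 := fs_tgt hL e
          rw [he, hfs] at h3; exact absurd h3 (by simp)
        have h1 : (∑ e : E L, if tgt e = A then f e else 0) = 0 :=
          Finset.sum_eq_zero fun e _ => if_neg (h0 e)
        rw [h1] at hv ⊢
        have h2 : (∑ e : E L, if src e = A then f e else 0) = psv L ep A := by linarith
        rw [h2]
        have h3 : psv L ep A = if tie L A then
            (th m - (if ep (Es A) ≠ fs A then 1 else 0)) else 0 := by
          unfold psv
          rw [hfs]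
          by_cases ht : tie L A
          · rw [if_pos ht, if_pos (show (Lam A).card = 1 ∧ _ from ht)]
            by_cases he : ep (Es A) = true <;> simp [he]
          · rw [if_neg ht, if_neg (show ¬ ((Lam A).card = 1 ∧ _) from ht)]
        rw [h3, hfs]
        by_cases ht : tie L A
        · simp only [ht, if_true, true_and] at hd' ⊢
          have : th m * ((univ.filter fun e : E L => src e = A).card : ℝ) +
            th m * ((univ.filter fun e : E L => tgt e = A).card : ℝ) =
            th m * ((m : ℝ) + 1) - th m := by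
            rw [← mul_add, hc', ← hd']; ring
          linarith
        · simp only [ht, if_false, false_and] at hd' ⊢
          have : th m * ((univ.filter fun e : E L => src e = A).card : ℝ) +
            th m * ((univ.filter fun e : E L => tgt e = A).card : ℝ) =
            th m * ((m : ℝ) + 1) := by
            rw [← mul_add, hc', ← hd']; ring
          linarith
    · have hb : bb L ep A = 0 := by unfold bb; rw [if_neg hA]
      have h0 : ∀ e : E L, src e ≠ A ∧ tgt e ≠ A := by
        intro e
        refine ⟨fun he => hA ?_, fun he => hA ?_⟩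
        · rw [← he]; exact ⟨e.2.1.1.1, e.2.1.2.1⟩
        · rw [← he]; exact ⟨(T_symm hL e.2.1.1).1, e.2.1.2.2⟩
      have h1 : (∑ e : E L, if tgt e = A then f e else 0) = 0 :=
        Finset.sum_eq_zero fun e _ => if_neg (h0 e).2
      have h2 : (∑ e : E L, if src e = A then f e else 0) = 0 :=
        Finset.sum_eq_zero fun e _ => if_neg (h0 e).1
      have h3 : (univ.filter fun e : E L => src e = A).card = 0 := by
        rw [Finset.card_eq_zero, Finset.filter_eq_empty_iff]
        exact fun e _ => (h0 e).1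
      have h4 : (univ.filter fun e : E L => tgt e = A).card = 0 := by
        rw [Finset.card_eq_zero, Finset.filter_eq_empty_iff]
        exact fun e _ => (h0 e).2
      rw [h1, h2, h3, h4, hb]
      simp

/-- darts of the first part -/
def PP (L : Finset (X (2*m+1)) → X (2*m+1) → Bool) (ep : Finset (Fin (2*m+1)) → Bool)
    (y : E L → Bool) (A : Finset (X (2*m+1))) (x : X (2*m+1)) : Prop :=
  T L A x ∧ ((nt A x ∧ yy y A x) ∨ (¬ nt A x ∧ sP ep false A ≠ sP ep false (N A x)))

theorem PP_symm (hL : Good m S D L) (ep : Finset (Fin (2*m+1)) → Bool) (y : E L → Bool)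
    {A : Finset (X (2*m+1))} {x : X (2*m+1)} (h : PP L ep y A x) : PP L ep y (N A x) x := by
  obtain ⟨h1, h2⟩ := h
  refine ⟨T_symm hL h1, ?_⟩
  rw [nt_symm h1.2.1, N_N A x h1.2.1]
  rcases h2 with ⟨h2, h3⟩ | ⟨h2, h3⟩
  · exact Or.inl ⟨h2, yy_symm hL y h3⟩
  · exact Or.inr ⟨h2, h3.symm⟩

theorem sP_ne (hL : Good m S D L) (ep : Finset (Fin (2*m+1)) → Bool) (b : Bool)
    {A : Finset (X (2*m+1))} {x : X (2*m+1)} (h : T L A x) (hn : nt A x) :
    sP ep b (N A x) ≠ sP ep b A := by
  unfold sP
  rw [if_pos hn.1, if_pos hn.2]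
  exact hL.cut A x h.1 h.2.1 h.2.2 hn.1 hn.2

theorem sP_tie (ep : Finset (Fin (2*m+1)) → Bool)
    {A : Finset (X (2*m+1))} {x : X (2*m+1)} (h : T L A x) (hn : ¬ nt A x)
    (he : sP ep false A = sP ep false (N A x)) : sP ep true (N A x) ≠ sP ep true A := by
  unfold sP at he ⊢
  by_cases h1 : (Lam A).Nonempty
  · have h2 : ¬ (Lam (N A x)).Nonempty := fun h2 => hn ⟨h1, h2⟩
    rw [if_pos h1, if_neg h2] at he ⊢
    rw [he]
    simp
  · have h2 := lam_ne' h.1 h.2.1 h1
    rw [if_neg h1, if_pos h2] at he ⊢
    rw [← he]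
    simp

open scoped Classical in
theorem PP_deg1 (hL : Good m S D L) (ep : Finset (Fin (2*m+1)) → Bool) (y : E L → Bool)
    (hy : ∀ A, (univ.filter fun e => y e = true ∧ (src e = A ∨ tgt e = A)).card = bb L ep A)
    {A : Finset (X (2*m+1))} (hA : A.card = 2*m+1) (h : (Lam A).Nonempty) :
    (univ.filter (PP L ep y A)).card = d1 m := by
  have h1 := hy A
  rw [edge_card hL] at h1
  have h2 : (univ.filter fun x => T L A x ∧ ¬ nt A x ∧ sP ep false A ≠ sP ep false (N A x)).card =
      if tie L A ∧ ep (Es A) ≠ fs A then 1 else 0 := by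
    by_cases ht : tie L A
    · obtain ⟨h1, p, hp, hl⟩ := id ht
      have h2 : Lam A = {p} := by
        obtain ⟨q, hq⟩ := Finset.card_eq_one.1 h1
        rw [hq] at hp ⊢
        rw [Finset.mem_singleton.1 hp]
      have h3 : ¬ (Lam (N A (dl A p))).Nonempty := by
        rw [Lam_dl A p hp, h2]; simp
      have h4 : sP ep false A = fs A := if_pos h
      have h5 : sP ep false (N A (dl A p)) = ep (Es A) := by
        unfold sP
        rw [if_neg h3, Fs_dl A p hp]; simp
      have h6 : (univ.filter fun x => T L A x ∧ ¬ nt A x ∧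
          sP ep false A ≠ sP ep false (N A x)) = if ep (Es A) ≠ fs A then {dl A p} else ∅ := by
        ext x
        rw [Finset.mem_filter]
        constructor
        · rintro ⟨-, hT, hn, hs⟩
          obtain ⟨q, hq, rfl⟩ := tie_cases hT.2.1 h (fun h' => hn ⟨h, h'⟩)
          rw [h2] at hq
          rw [← Finset.singleton_injective hq] at hs ⊢
          rw [h4, h5] at hs
          rw [if_pos hs.symm]; simp
        · intro hx
          split_ifs at hx with h7
          · rw [Finset.mem_singleton.1 hx]
            refine ⟨Finset.mem_univ _, ⟨hA, dl_notMem A p hp, hl⟩, fun hn => h3 hn.2, ?_⟩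
            rw [h4, h5]; exact h7.symm
          · exact absurd hx (Finset.notMem_empty _)
      rw [h6]
      split_ifs with h7 h8 h8
      · simp
      · exact absurd ⟨ht, h7⟩ h8
      · exact absurd h8.2 h7
      · simp
    · rw [if_neg (fun h => ht h.1), Finset.card_eq_zero, Finset.filter_eq_empty_iff]
      rintro x - ⟨hT, hn, -⟩
      obtain ⟨q, hq, rfl⟩ := tie_cases hT.2.1 h (fun h' => hn ⟨h, h'⟩)
      exact ht ⟨by rw [hq]; simp, q, by rw [hq]; simp, hT.2.2⟩
  have h3 : (univ.filter (PP L ep y A)) = (univ.filter fun x => (T L A x ∧ nt A x) ∧ yy y A x) ∪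
      (univ.filter fun x => T L A x ∧ ¬ nt A x ∧ sP ep false A ≠ sP ep false (N A x)) := by
    ext x
    simp only [Finset.mem_union, Finset.mem_filter, Finset.mem_univ, true_and, PP]
    tauto
  rw [h3, Finset.card_union_of_disjoint, h1, h2]
  · unfold bb
    rw [if_pos ⟨hA, h⟩]
    have := d1_pos (m := m)
    split_ifs <;> omega
  · rw [Finset.disjoint_left]
    intro x h1 h2
    rw [Finset.mem_filter] at h1 h2
    exact h2.2.2.1 h1.2.1.2

/-- labels of the ties at a vertex without letters -/
theorem q0_label (hL : Good m S D L) {A : Finset (X (2*m+1))} (hA : A.card = 2*m+1)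
    (h : ¬ (Lam A).Nonempty) {i : Fin (2*m+1)} (hi : i ∈ Es A) (b : Bool) :
    L A (some (i, b)) = D (if b = false then Fs A else co (Fs A) i) i ∧
      fs (N A (some (i, b))) = !b := by
  have hx := mem_E A i hi b
  have h0 : Lam A = ∅ := Finset.not_nonempty_iff_eq_empty.1 h
  have h1 : Lam (N A (some (i, b))) = {i} := by rw [Lam_ins A i hi b, h0]; rfl
  have h2 := hL.tie _ i (card_N A _ hA hx) h1
  rw [dl_ins A i hi b, hL.symm A _ hA hx, sg_ins A i hi b, Es_ins A i hi b, Fs_ins A i hi b] at h2
  have h3 : (Es A).erase i = co (Fs A) i := by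
    ext j
    have h4 := trich A j
    have h5 : j ∉ Lam A := by rw [h0]; exact Finset.notMem_empty _
    have h6 : j ∈ Es A → j ∉ Fs A := Es_not_Fs A j
    simp only [co, Finset.mem_erase, Finset.mem_sdiff, Finset.mem_univ, true_and,
      Finset.mem_insert]
    tauto
  refine ⟨?_, ?_⟩
  · rw [h2, h3]
    cases b <;> simp
  · unfold fs
    simp only [h1, Finset.singleton_nonempty, Finset.min'_singleton, dite_true]
    exact sg_ins A i hi b

end

section

variable {S : Finset (ZMod 6)} {L : Finset (X (2*m+1)) → X (2*m+1) → Bool}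

open scoped Classical in
theorem PP_deg0 {ep : Finset (Fin (2*m+1)) → Bool} {δ : ℝ}
    (hep : EpOK m δ ep) (hL : Good m S (Dep ep) L) (y : E L → Bool)
    {A : Finset (X (2*m+1))} (hA : A.card = 2*m+1) (h : ¬ (Lam A).Nonempty) :
    (univ.filter (PP L ep y A)).card = d1 m := by
  have h0 : Lam A = ∅ := Finset.not_nonempty_iff_eq_empty.1 h
  have hnone : none ∈ A := (none_iff A hA).2 (by rw [h0]; simp)
  have hF : (Fs A).card = m := by
    have := card_A A
    rw [hA, h0, if_pos hnone] at this
    simp at this; omega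
  have hE : Es A = univ \ Fs A := by
    ext j
    have h4 := trich A j
    have h5 : j ∉ Lam A := by rw [h0]; exact Finset.notMem_empty _
    have h6 : j ∈ Es A → j ∉ Fs A := Es_not_Fs A j
    simp only [Finset.mem_sdiff, Finset.mem_univ, true_and]
    tauto
  have h1 : (univ.filter (PP L ep y A)) = ((univ \ Fs A).filter fun i =>
      Dep ep (if ep (Fs A) = false then Fs A else co (Fs A) i) i = true).image
      (fun i => some (i, ep (Fs A))) := by
    ext x
    rw [Finset.mem_filter, Finset.mem_image]
    have hsA : sP ep false A = ep (Fs A) := by unfold sP; rw [if_neg h]; simp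
    constructor
    · rintro ⟨-, hT, hx⟩
      obtain ⟨i, hi, b, rfl⟩ := lam_ne hT.1 hT.2.1 h
      have hx' : sP ep false A ≠ sP ep false (N A (some (i, b))) := by
        rcases hx with hx | hx
        · exact absurd hx.1.1 h
        · exact hx.2
      obtain ⟨h2, h3⟩ := q0_label hL hA h hi b
      have h4 : sP ep false (N A (some (i, b))) = !b := by
        unfold sP; rw [if_pos (lam_ne' hT.1 hT.2.1 h)]; exact h3
      rw [hsA, h4] at hx'
      have h5 : ep (Fs A) = b := by
        cases b <;> cases h6 : ep (Fs A) <;> simp_all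
      refine ⟨i, ?_, by rw [h5]⟩
      rw [Finset.mem_filter]
      refine ⟨hE ▸ hi, ?_⟩
      rw [h5, ← h2]
      exact hT.2.2
    · rintro ⟨i, hi, rfl⟩
      rw [Finset.mem_filter] at hi
      have hi' : i ∈ Es A := by rw [hE]; exact hi.1
      obtain ⟨h2, h3⟩ := q0_label hL hA h hi' (ep (Fs A))
      have hx := mem_E A i hi' (ep (Fs A))
      refine ⟨Finset.mem_univ _, ⟨hA, hx, ?_⟩, Or.inr ⟨fun hn => h hn.1, ?_⟩⟩
      · rw [h2]; exact hi.2
      · rw [hsA]
        unfold sP
        rw [if_pos (lam_ne' hA hx h), h3]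
        cases ep (Fs A) <;> simp
  rw [h1, Finset.card_image_of_injective]
  · have hc := cnt_plus ep (Fs A) hF
    cases he : ep (Fs A)
    · rw [he] at hc
      simp only [if_true]
      simpa using hc
    · rw [he] at hc
      have h2 : ((univ \ Fs A).filter fun i =>
          Dep ep (if true = false then Fs A else co (Fs A) i) i = true) =
          (univ \ Fs A).filter fun i => ¬ Dep ep (Fs A) i = true := by
        refine Finset.filter_congr fun i hi => ?_
        have hi' : i ∉ Fs A := (Finset.mem_sdiff.1 hi).2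
        rw [if_neg (by simp), Dep_co ep hep.anti (Fs A) i hF hi']
        cases Dep ep (Fs A) i <;> simp
      rw [h2]
      have h3 := Finset.card_filter_add_card_filter_not (s := univ \ Fs A)
        (fun i => Dep ep (Fs A) i = true)
      rw [hc, Finset.card_sdiff_of_subset (Finset.subset_univ _), hF] at h3
      simp only [if_true, Finset.card_univ, Fintype.card_fin] at h3
      have := d1_le (m := m)
      omega
  · intro i j hij
    simpa using hij

end

end HalfC

/-- the colouring of one half -/
theorem half_colour {m : ℕ} (S : Finset (ZMod 6)) (ep : Finset (Fin (2*m+1)) → Bool) {δ : ℝ}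
    (hep : EpOK m δ ep)
    (L : Finset (X (2*m+1)) → X (2*m+1) → Bool) (hL : Good m S (Dep ep) L)
    (hmain : ∀ g : Finset (X (2*m+1)) → ℝ,
      ∑ A ∈ univ.powersetCard (2*m+1), psv L ep A * g A ≤ (1 - th m)/2 * enr L g) :
    ∃ col : Finset (X (2*m+1)) → X (2*m+1) → ℕ,
      (∀ A x, A.card = 2*m+1 → x ∉ A → L A x = true → col A x < m+1) ∧
      (∀ A x, A.card = 2*m+1 → x ∉ A → L A x = true → col (N A x) x = col A x) ∧
      (∀ A x y, A.card = 2*m+1 → x ∉ A → y ∉ A → L A x = true → L A y = true → x ≠ y →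
        col A x ≠ col A y) := by
  classical
  obtain ⟨y, hy⟩ := HalfC.exists_y hL ep hmain
  have hdeg : ∀ A : Finset (X (2*m+1)), A.card = 2*m+1 →
      (univ.filter (HalfC.PP L ep y A)).card = d1 m := by
    intro A hA
    by_cases h : (Lam A).Nonempty
    · exact HalfC.PP_deg1 hL ep y (fun A => by convert hy A) hA h
    · exact HalfC.PP_deg0 hep hL y hA h
  have hdeg' : ∀ A : Finset (X (2*m+1)), A.card = 2*m+1 →
      (univ.filter fun x => HalfC.T L A x ∧ ¬ HalfC.PP L ep y A x).card = m + 1 - d1 m := by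
    intro A hA
    have h1 := hdeg A hA
    have h2 := HalfC.true_count hL hA
    have h3 : (univ.filter fun x => HalfC.T L A x) = (univ.filter (HalfC.PP L ep y A)) ∪
        (univ.filter fun x => HalfC.T L A x ∧ ¬ HalfC.PP L ep y A x) := by
      ext x
      simp only [Finset.mem_union, Finset.mem_filter, Finset.mem_univ, true_and]
      constructor
      · intro h; by_cases h' : HalfC.PP L ep y A x
        · exact Or.inl h'
        · exact Or.inr ⟨h, h'⟩
      · rintro (h | h)
        · exact h.1
        · exact h.1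
    rw [h3, Finset.card_union_of_disjoint, h1] at h2
    · omega
    · rw [Finset.disjoint_left]
      intro x h1 h2
      rw [Finset.mem_filter] at h1 h2
      exact h2.2.2 h1.2
  obtain ⟨c1, a1, a2, a3⟩ := konig_dart (d1 m) (N (n := 2*m+1)) (fun A => A.card = 2*m+1)
    (HalfC.PP L ep y) (HalfC.sP ep false) (fun A x h => h.1.1)
    (fun A x h => HalfC.PP_symm hL ep y h) (fun A x h => N_N A x h.1.2.1) (fun A x h => by
      rcases h.2 with h2 | h2
      · exact HalfC.sP_ne hL ep false h.1 h2.1
      · exact h2.2.symm) hdeg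
  obtain ⟨c2, b1, b2, b3⟩ := konig_dart (m + 1 - d1 m) (N (n := 2*m+1))
    (fun A => A.card = 2*m+1)
    (fun A x => HalfC.T L A x ∧ ¬ HalfC.PP L ep y A x) (HalfC.sP ep true) (fun A x h => h.1.1)
    (fun A x h => ⟨HalfC.T_symm hL h.1, fun h' => h.2 (by
      have := HalfC.PP_symm hL ep y h'
      rwa [N_N A x h.1.2.1] at this)⟩) (fun A x h => N_N A x h.1.2.1) (fun A x h => by
      by_cases hn : HalfC.nt A x
      · exact HalfC.sP_ne hL ep true h.1 hn
      · refine HalfC.sP_tie ep h.1 hn ?_
        by_contra hne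
        exact h.2 ⟨h.1, Or.inr ⟨hn, hne⟩⟩) hdeg'
  have hd := HalfC.d1_le (m := m)
  refine ⟨fun A x => if HalfC.PP L ep y A x then c1 A x else d1 m + c2 A x, ?_, ?_, ?_⟩
  · intro A x hA hx hl
    dsimp only
    split_ifs with h
    · have := a1 A x h; omega
    · have := b1 A x ⟨⟨hA, hx, hl⟩, h⟩; omega
  · intro A x hA hx hl
    dsimp only
    have hiff : HalfC.PP L ep y (N A x) x ↔ HalfC.PP L ep y A x := by
      refine ⟨fun h => ?_, HalfC.PP_symm hL ep y⟩
      have := HalfC.PP_symm hL ep y h
      rwa [N_N A x hx] at this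
    by_cases h : HalfC.PP L ep y A x
    · rw [if_pos h, if_pos (hiff.2 h)]
      exact a2 A x h
    · rw [if_neg h, if_neg (fun h' => h (hiff.1 h'))]
      rw [b2 A x ⟨⟨hA, hx, hl⟩, h⟩]
  · intro A x z hA hx hz hlx hlz hxz
    dsimp only
    split_ifs with h h' h'
    · exact a3 A x z h h' hxz
    · have := a1 A x h; omega
    · have := a1 A z h'; omega
    · have := b3 A x z ⟨⟨hA, hx, hlx⟩, h⟩ ⟨⟨hA, hz, hlz⟩, h'⟩ hxz
      omega

end OddG
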