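import Pool.Agent.Lib.MP_e26f2a_co.JohnsonL1

set_option autoImplicit false

/-!
# MP_e26f2a_co: piece E22, Poincare inequality with charges
-/

namespace OddG

open Finset

section swap

variable {α : Type} [DecidableEq α]

/-- exchanging the two ends of the arcs -/
theorem sum_arc_swap (Z : Finset α) (m : ℕ) (F : Finset α → Finset α → ℝ) :
    ∑ V ∈ Z.powersetCard m, ∑ y ∈ V, ∑ x ∈ Z \ V, F V (insert x (V.erase y)) =
      ∑ V ∈ Z.powersetCard m, ∑ y ∈ V, ∑ x ∈ Z \ V, F (insert x (V.erase y)) V := by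
  have conv : ∀ h : Finset α → α → α → ℝ,
      ∑ V ∈ Z.powersetCard m, ∑ y ∈ V, ∑ x ∈ Z \ V, h V y x =
      ∑ t ∈ (Z.powersetCard m ×ˢ (Z ×ˢ Z)).filter (fun t => t.2.1 ∈ t.1 ∧ t.2.2 ∉ t.1),
        h t.1 t.2.1 t.2.2 := by
    intro h
    rw [sum_filter, sum_product]
    refine sum_congr rfl fun V hV => ?_
    rw [sum_product]
    have hVZ := (mem_powersetCard.mp hV).1
    have e1 : ∑ y ∈ V, ∑ x ∈ Z \ V, h V y x =
        ∑ y ∈ Z, if y ∈ V then ∑ x ∈ Z \ V, h V y x else 0 := by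
      rw [← sum_filter, filter_mem_eq_inter, inter_eq_right.mpr hVZ]
    rw [e1]
    refine sum_congr rfl fun y _ => ?_
    by_cases hy : y ∈ V
    · simp only [hy, if_true, true_and]
      rw [← sum_filter]
      refine sum_congr ?_ fun _ _ => rfl
      ext x
      rw [mem_sdiff, mem_filter]
    · simp [hy]
  rw [conv (fun V y x => F V (insert x (V.erase y))),
    conv (fun V y x => F (insert x (V.erase y)) V)]
  have key : ∀ V : Finset α, ∀ y x : α, V ∈ Z.powersetCard m → y ∈ V → x ∈ Z → x ∉ V →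
      insert x (V.erase y) ∈ Z.powersetCard m ∧ x ∈ insert x (V.erase y) ∧
      y ∉ insert x (V.erase y) ∧ insert y ((insert x (V.erase y)).erase x) = V := by
    intro V y x hV hy hxZ hx
    rw [mem_powersetCard] at hV
    have hxy : x ≠ y := fun e => hx (e ▸ hy)
    have hxV : x ∉ V.erase y := fun h => hx (mem_of_mem_erase h)
    refine ⟨?_, mem_insert_self _ _, ?_, ?_⟩
    · rw [mem_powersetCard]
      refine ⟨?_, ?_⟩
      · intro z hz
        rw [mem_insert] at hz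
        rcases hz with rfl | hz
        · exact hxZ
        · exact hV.1 (mem_of_mem_erase hz)
      · rw [card_insert_of_notMem hxV, card_erase_of_mem hy]
        have := card_pos.mpr ⟨y, hy⟩
        omega
    · rw [mem_insert, mem_erase]
      rintro (h | ⟨h, _⟩)
      · exact hxy h.symm
      · exact h rfl
    · rw [erase_insert hxV, insert_erase hy]
  refine sum_bij' (fun t _ => (insert t.2.2 (t.1.erase t.2.1), t.2.2, t.2.1))
    (fun t _ => (insert t.2.2 (t.1.erase t.2.1), t.2.2, t.2.1)) ?_ ?_ ?_ ?_ ?_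
  · rintro ⟨V, y, x⟩ ht
    simp only [mem_filter, mem_product] at ht ⊢
    obtain ⟨⟨hV, hyZ, hxZ⟩, hy, hx⟩ := ht
    obtain ⟨k1, k2, k3, -⟩ := key V y x hV hy hxZ hx
    exact ⟨⟨k1, hxZ, hyZ⟩, k2, k3⟩
  · rintro ⟨V, y, x⟩ ht
    simp only [mem_filter, mem_product] at ht ⊢
    obtain ⟨⟨hV, hyZ, hxZ⟩, hy, hx⟩ := ht
    obtain ⟨k1, k2, k3, -⟩ := key V y x hV hy hxZ hx
    exact ⟨⟨k1, hxZ, hyZ⟩, k2, k3⟩
  · rintro ⟨V, y, x⟩ ht
    simp only [mem_filter, mem_product] at ht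
    obtain ⟨⟨hV, hyZ, hxZ⟩, hy, hx⟩ := ht
    obtain ⟨-, -, -, k4⟩ := key V y x hV hy hxZ hx
    simp only [k4]
  · rintro ⟨V, y, x⟩ ht
    simp only [mem_filter, mem_product] at ht
    obtain ⟨⟨hV, hyZ, hxZ⟩, hy, hx⟩ := ht
    obtain ⟨-, -, -, k4⟩ := key V y x hV hy hxZ hx
    simp only [k4]
  · rintro ⟨V, y, x⟩ ht
    simp only [mem_filter, mem_product] at ht
    obtain ⟨⟨hV, hyZ, hxZ⟩, hy, hx⟩ := ht
    obtain ⟨-, -, -, k4⟩ := key V y x hV hy hxZ hx
    simp only [k4]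

end swap

theorem johnson_poinc {α : Type} [DecidableEq α] (Z : Finset α) (m : ℕ) (hm : 1 ≤ m)
    (hZ : Z.card = 2*m) (g ψ : Finset α → ℝ) (a b : ℝ) (ha : 0 ≤ a) (hb : 0 ≤ b)
    (hsum : ∑ V ∈ Z.powersetCard m, ψ V = 0) (h1 : ∀ V ∈ Z.powersetCard m, |ψ V| ≤ a)
    (h2 : ∀ V ∈ Z.powersetCard m,
      |∑ y ∈ V, ∑ x ∈ Z \ V, ψ (insert x (V.erase y))| ≤ b * (m:ℝ)^2) :
    ∑ V ∈ Z.powersetCard m, ψ V * g V ≤ (a/(m:ℝ)^2 + b/m) *
      ∑ V ∈ Z.powersetCard m, ∑ y ∈ V, ∑ x ∈ Z \ V, |g V - g (insert x (V.erase y))| := by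
  classical
  set P := Z.powersetCard m with hP
  have hm0 : (0 : ℝ) < m := by exact_mod_cast hm
  have hPcard : P.card = (2 * m).choose m := by rw [hP, card_powersetCard, hZ]
  have hN0 : (0 : ℝ) < (P.card : ℝ) := by
    rw [hPcard]
    exact_mod_cast Nat.choose_pos (by omega)
  have hmem : ∀ V ∈ P, V.card = m := fun V hV => (mem_powersetCard.mp hV).2
  have hco : ∀ V ∈ P, (Z \ V).card = m := by
    intro V hV
    rw [card_sdiff_of_subset (mem_powersetCard.mp hV).1, hZ, hmem V hV]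
    omega
  have hconst : ∀ h : Finset α → ℝ, ∑ V ∈ P, ∑ y ∈ V, ∑ x ∈ Z \ V, h V =
      (m : ℝ) ^ 2 * ∑ V ∈ P, h V := by
    intro h
    rw [mul_sum]
    refine sum_congr rfl fun V hV => ?_
    simp only [sum_const, nsmul_eq_mul]
    rw [hmem V hV, hco V hV]
    ring
  set Y := ∑ V ∈ P, ∑ y ∈ V, ∑ x ∈ Z \ V, |g V - g (insert x (V.erase y))| with hY
  set B : Finset α → ℝ := fun V => ∑ y ∈ V, ∑ x ∈ Z \ V, ψ (insert x (V.erase y)) with hB
  have hY0 : 0 ≤ Y := sum_nonneg fun _ _ => sum_nonneg fun _ _ => sum_nonneg fun _ _ => abs_nonneg _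
  -- first part
  have s1 : ∑ V ∈ P, ∑ y ∈ V, ∑ x ∈ Z \ V, ψ V * (g V - g (insert x (V.erase y))) ≤ a * Y := by
    rw [hY, mul_sum]
    refine sum_le_sum fun V hV => ?_
    rw [mul_sum]
    refine sum_le_sum fun y _ => ?_
    rw [mul_sum]
    refine sum_le_sum fun x _ => ?_
    calc ψ V * (g V - g (insert x (V.erase y))) ≤ |ψ V * (g V - g (insert x (V.erase y)))| :=
          le_abs_self _
      _ = |ψ V| * |g V - g (insert x (V.erase y))| := abs_mul _ _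
      _ ≤ _ := mul_le_mul_of_nonneg_right (h1 V hV) (abs_nonneg _)
  -- second part
  have s2 : ∑ V ∈ P, ∑ y ∈ V, ∑ x ∈ Z \ V, ψ V * g (insert x (V.erase y)) =
      ∑ V ∈ P, B V * g V := by
    have := sum_arc_swap Z m (fun U W => ψ U * g W)
    rw [← hP] at this
    rw [this]
    refine sum_congr rfl fun V _ => ?_
    rw [hB]
    simp only [sum_mul]
  have s3 : ∑ V ∈ P, B V = 0 := by
    have := sum_arc_swap Z m (fun U _ => ψ U)
    rw [← hP] at this
    rw [hB]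
    simp only
    rw [← this, hconst, hsum, mul_zero]
  have s4 : (P.card : ℝ) * ∑ V ∈ P, B V * g V = ∑ V ∈ P, ∑ W ∈ P, B V * (g V - g W) := by
    have e1 : ∑ V ∈ P, ∑ W ∈ P, B V * (g V - g W) =
        ∑ V ∈ P, ((P.card : ℝ) * (B V * g V) - B V * ∑ W ∈ P, g W) := by
      refine sum_congr rfl fun V _ => ?_
      simp only [mul_sub]
      rw [sum_sub_distrib, sum_const, nsmul_eq_mul, mul_sum]
    rw [e1, sum_sub_distrib, ← mul_sum, ← sum_mul, s3]
    ring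
  have s5 : ∑ V ∈ P, ∑ W ∈ P, B V * (g V - g W) ≤
      b * (m : ℝ) ^ 2 * ∑ V ∈ P, ∑ W ∈ P, |g V - g W| := by
    rw [mul_sum]
    refine sum_le_sum fun V hV => ?_
    rw [mul_sum]
    refine sum_le_sum fun W _ => ?_
    calc B V * (g V - g W) ≤ |B V * (g V - g W)| := le_abs_self _
      _ = |B V| * |g V - g W| := abs_mul _ _
      _ ≤ _ := mul_le_mul_of_nonneg_right (h2 V hV) (abs_nonneg _)
  have s6 := johnson_l1 Z m hm hZ g
  rw [← hP, ← hY, ← hPcard] at s6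
  have s7 : (P.card : ℝ) * ∑ V ∈ P, B V * g V ≤ (P.card : ℝ) * (b * m * Y) := by
    rw [s4]
    refine s5.trans ?_
    calc b * (m : ℝ) ^ 2 * ∑ V ∈ P, ∑ W ∈ P, |g V - g W| ≤
          b * (m : ℝ) ^ 2 * ((P.card : ℝ) / m * Y) :=
          mul_le_mul_of_nonneg_left s6 (by positivity)
      _ = _ := by field_simp
  have s8 : ∑ V ∈ P, B V * g V ≤ b * m * Y := le_of_mul_le_mul_left s7 hN0
  have s9 : (m : ℝ) ^ 2 * ∑ V ∈ P, ψ V * g V =
      ∑ V ∈ P, ∑ y ∈ V, ∑ x ∈ Z \ V, ψ V * (g V - g (insert x (V.erase y))) +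
      ∑ V ∈ P, ∑ y ∈ V, ∑ x ∈ Z \ V, ψ V * g (insert x (V.erase y)) := by
    rw [← hconst (fun V => ψ V * g V)]
    simp only [← sum_add_distrib]
    refine sum_congr rfl fun V _ => sum_congr rfl fun y _ => sum_congr rfl fun x _ => ?_
    ring
  have s10 : (m : ℝ) ^ 2 * ∑ V ∈ P, ψ V * g V ≤ (m : ℝ) ^ 2 * ((a/(m:ℝ)^2 + b/m) * Y) := by
    rw [s9, s2]
    have e : (m : ℝ) ^ 2 * ((a/(m:ℝ)^2 + b/m) * Y) = a * Y + b * m * Y := by
      field_simp
    rw [e]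
    exact add_le_add s1 s8
  exact le_of_mul_le_mul_left s10 (by positivity)

end OddG
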