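import Pool.Agent.Lib.MP_e26f2a_co.LabGood

set_option autoImplicit false

namespace OddG

open Finset

namespace LabMirror

variable {n : ℕ}

theorem rvx_rvx (x : X n) : rvx (rvx x) = x := by
  rcases x with _ | ⟨i, b⟩ <;> simp [rvx]

theorem mem_rvA (A : Finset (X n)) (x : X n) : rvx x ∈ rvA A ↔ x ∈ A := by
  unfold rvA; rw [mem_image]
  constructor
  · rintro ⟨y, hy, h⟩
    have := congrArg rvx h
    rw [rvx_rvx, rvx_rvx] at this; rw [← this]; exact hy
  · intro h; exact ⟨x, h, rfl⟩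

theorem mem_rvA' (A : Finset (X n)) (x : X n) : x ∈ rvA A ↔ rvx x ∈ A := by
  have := mem_rvA A (rvx x)
  rwa [rvx_rvx] at this

theorem rvA_N (A : Finset (X n)) (x : X n) : rvA (N A x) = N (rvA A) (rvx x) := by
  ext y
  rw [mem_rvA', mem_N, mem_N, mem_rvA']
  constructor
  · rintro ⟨h3, h4⟩; refine ⟨?_, h4⟩; rintro rfl; exact h3 (rvx_rvx x)
  · rintro ⟨h3, h4⟩; refine ⟨?_, h4⟩; rintro rfl; exact h3 (by rw [rvx_rvx])

theorem card_rvA (A : Finset (X n)) : (rvA A).card = A.card := by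
  unfold rvA
  refine card_image_of_injective _ ?_
  intro x y h
  have := congrArg rvx h
  rwa [rvx_rvx, rvx_rvx] at this

theorem mem_some (A : Finset (X n)) (i : Fin n) (b : Bool) :
    some (i, b) ∈ rvA A ↔ some (Fin.rev i, b) ∈ A := by
  rw [mem_rvA']; rfl

theorem mem_rvV (V : Finset (Fin n)) (i : Fin n) : i ∈ rvV V ↔ Fin.rev i ∈ V := by
  unfold rvV; rw [mem_image]
  constructor
  · rintro ⟨j, hj, rfl⟩; rw [Fin.rev_rev]; exact hj
  · intro h; exact ⟨Fin.rev i, h, Fin.rev_rev i⟩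

theorem Lam_rv (A : Finset (X n)) : Lam (rvA A) = rvV (Lam A) := by
  ext i; rw [mem_rvV, mem_Lam, mem_Lam, mem_some, mem_some]

theorem Es_rv (A : Finset (X n)) : Es (rvA A) = rvV (Es A) := by
  ext i; rw [mem_rvV, mem_Es, mem_Es, mem_some, mem_some]

theorem Fs_rv (A : Finset (X n)) : Fs (rvA A) = rvV (Fs A) := by
  ext i; rw [mem_rvV, mem_Fs, mem_Fs, mem_some, mem_some]

theorem sg_rv (A : Finset (X n)) (i : Fin n) : sg (rvA A) (Fin.rev i) = sg A i := by
  unfold sg; rw [decide_eq_decide, mem_some, Fin.rev_rev]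

theorem dl_rv (A : Finset (X n)) (i : Fin n) : rvx (dl A i) = dl (rvA A) (Fin.rev i) := by
  unfold dl; rw [sg_rv]; rfl

theorem rvV_ne {V : Finset (Fin n)} (h : V.Nonempty) : (rvV V).Nonempty := h.image _

theorem max_rv (V : Finset (Fin n)) (h : V.Nonempty) (h' : (rvV V).Nonempty) :
    (rvV V).max' h' = Fin.rev (V.min' h) := by
  apply le_antisymm
  · apply Finset.max'_le
    intro i hi
    rw [mem_rvV] at hi
    have := Finset.min'_le V _ hi
    rw [← Fin.rev_le_rev, Fin.rev_rev] at this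
    exact this
  · apply Finset.le_max'
    rw [mem_rvV, Fin.rev_rev]
    exact Finset.min'_mem V h

theorem fs_rv (A : Finset (X n)) : ls (rvA A) = fs A := by
  unfold ls fs
  by_cases h : (Lam A).Nonempty
  · have h' : (Lam (rvA A)).Nonempty := by rw [Lam_rv]; exact rvV_ne h
    rw [dif_pos h, dif_pos h']
    have h2 : (Lam (rvA A)).max' h' = Fin.rev ((Lam A).min' h) := by
      have := max_rv (Lam A) h (rvV_ne h)
      rw [← this]
      congr 1
      exact Lam_rv A
    rw [h2, sg_rv]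
  · have h' : ¬ (Lam (rvA A)).Nonempty := by
      rintro ⟨i, hi⟩
      rw [Lam_rv, mem_rvV] at hi
      exact h ⟨_, hi⟩
    rw [dif_neg h, dif_neg h']

theorem rv_two (i j : Fin n) : rvV {i, j} = {Fin.rev j, Fin.rev i} := by
  unfold rvV; rw [Finset.image_insert, Finset.image_singleton, Finset.pair_comm]

theorem rv_three (i j k : Fin n) : rvV {i, j, k} = {Fin.rev k, Fin.rev j, Fin.rev i} := by
  unfold rvV; rw [Finset.image_insert, Finset.image_insert, Finset.image_singleton]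
  ext l; simp only [Finset.mem_insert, Finset.mem_singleton]; tauto

theorem sum_rv {m : ℕ} (i j k : Fin (2*m+1)) :
    ((((Fin.rev k : Fin (2*m+1)) : ℕ) + ((Fin.rev j : Fin (2*m+1)) : ℕ) +
      ((Fin.rev i : Fin (2*m+1)) : ℕ) : ℕ) : ZMod 6) =
    - (((i : ℕ) + (j : ℕ) + (k : ℕ) : ℕ) : ZMod 6) := by
  rw [eq_neg_iff_add_eq_zero, ← Nat.cast_add]
  have hi := i.2
  have hj := j.2
  have hk := k.2
  have : ((Fin.rev k : Fin (2*m+1)) : ℕ) + ((Fin.rev j : Fin (2*m+1)) : ℕ) +
      ((Fin.rev i : Fin (2*m+1)) : ℕ) + ((i : ℕ) + (j : ℕ) + (k : ℕ)) = 6 * m := by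
    rw [Fin.val_rev, Fin.val_rev, Fin.val_rev]
    omega
  rw [this, Nat.cast_mul]
  have h6 : ((6 : ℕ) : ZMod 6) = 0 := by decide
  rw [h6, zero_mul]

theorem b1 (a b : Bool) : (!decide (b ≠ a)) = decide (a = b) := by revert a b; decide
theorem b2 (a b : Bool) : (!decide (b = a)) = decide (a ≠ b) := by revert a b; decide

theorem b3 (a b c : Bool) (P Q : Prop) [Decidable P] [Decidable Q] (h : P ↔ ¬ Q) :
    (!(xor (decide (c ≠ b)) (decide (c = a ∧ Q)))) = xor (decide (a ≠ b)) (decide (a = c ∧ P)) := by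
  by_cases hQ : Q
  · have hP : ¬ P := fun h1 => (h.1 h1) hQ
    simp only [hQ, hP, and_true, and_false]
    revert a b c; decide
  · have hP : P := h.2 hQ
    simp only [hQ, hP, and_true, and_false]
    revert a b c; decide

theorem b4 (a b c : Bool) (P Q : Prop) [Decidable P] [Decidable Q] (h : P ↔ ¬ Q) :
    (!(xor (decide (b = a)) (decide (c = a ∧ Q)))) = xor (decide (b = c)) (decide (a = c ∧ P)) := by
  by_cases hQ : Q
  · have hP : ¬ P := fun h1 => (h.1 h1) hQ
    simp only [hQ, hP, and_true, and_false]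
    revert a b c; decide
  · have hP : P := h.2 hQ
    simp only [hQ, hP, and_true, and_false]
    revert a b c; decide

end LabMirror

open LabMirror

theorem good_mirror {m : ℕ} (S S' : Finset (ZMod 6))
    (D D' : Finset (Fin (2*m+1)) → Fin (2*m+1) → Bool)
    (hD : ∀ V p, V.card = m → p ∉ V → D (co V p) p = !D V p)
    (hS : ∀ s, s ∈ S' ↔ -s ∉ S)
    (hD' : ∀ V p, V.card = m → p ∉ V → D' V p = !D (rvV V) (Fin.rev p)) :
    Good m S' D' (fun A x => !lab S D (rvA A) (rvx x)) := by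
  classical
  have G := good_lab S D hD
  have hc : ∀ A : Finset (X (2*m+1)), A.card = 2*m+1 → (rvA A).card = 2*m+1 := fun A hA => by
    rw [card_rvA, hA]
  refine ⟨?_, ?_, ?_, ?_, ?_, ?_, ?_, ?_, ?_, ?_⟩
  · intro A x hA hx
    show (!lab S D (rvA (N A x)) (rvx x)) = !lab S D (rvA A) (rvx x)
    rw [rvA_N, G.symm (rvA A) (rvx x) (hc A hA) (by rwa [mem_rvA])]
  · intro A hA
    have h1 := G.reg (rvA A) (hc A hA)
    have h2 : (univ.filter fun x => x ∉ rvA A ∧ lab S D (rvA A) x = true).card =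
        (univ.filter fun x => x ∉ A ∧ lab S D (rvA A) (rvx x) = true).card := by
      refine Finset.card_bij' (fun x _ => rvx x) (fun x _ => rvx x) ?_ ?_ ?_ ?_
      · intro x hx
        rw [Finset.mem_filter] at hx ⊢
        refine ⟨Finset.mem_univ _, ?_, ?_⟩
        · have := hx.2.1
          rwa [mem_rvA'] at this
        · rw [rvx_rvx]; exact hx.2.2
      · intro x hx
        rw [Finset.mem_filter] at hx ⊢
        exact ⟨Finset.mem_univ _, by rw [mem_rvA]; exact hx.2.1, hx.2.2⟩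
      · intro x _; exact rvx_rvx x
      · intro x _; exact rvx_rvx x
    have h3 : (univ.filter fun x => x ∉ A).card = 2*m+2 := by
      have : (univ.filter fun x => x ∉ A) = Aᶜ := by ext; simp
      rw [this, Finset.card_compl, hA]
      simp only [X, Fintype.card_option, Fintype.card_prod, Fintype.card_fin, Fintype.card_bool]
      omega
    have h4 := Finset.card_filter_add_card_filter_not (s := univ.filter fun x : X (2*m+1) => x ∉ A)
      (fun x => lab S D (rvA A) (rvx x) = true)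
    rw [Finset.filter_filter, Finset.filter_filter, h3, ← h2, h1] at h4
    have h5 : (univ.filter fun x => x ∉ A ∧ (!lab S D (rvA A) (rvx x)) = true) =
        (univ.filter fun x => x ∉ A ∧ ¬ lab S D (rvA A) (rvx x) = true) := by
      ext x; simp
    show (univ.filter fun x => x ∉ A ∧ (!lab S D (rvA A) (rvx x)) = true).card = m + 1
    rw [h5]
    omega
  · intro A x hA hx hl h1 h2
    have hl' : lab S D (rvA A) (rvx x) = false := by
      have : (!lab S D (rvA A) (rvx x)) = true := hl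
      simpa using this
    have h3 := lab_cut2 S D (rvA A) (rvx x) (hc A hA) (by rwa [mem_rvA]) hl'
      (by rw [Lam_rv]; exact rvV_ne h1) (by rw [← rvA_N, Lam_rv]; exact rvV_ne h2)
    rwa [← rvA_N, fs_rv, fs_rv] at h3
  · intro A p hA hL
    show (!lab S D (rvA A) (rvx (dl A p))) = _
    have hL' : Lam (rvA A) = {Fin.rev p} := by
      rw [Lam_rv, hL]; unfold rvV; rw [Finset.image_singleton]
    rw [dl_rv, G.tie (rvA A) (Fin.rev p) (hc A hA) hL', sg_rv, Es_rv, Fs_rv]
    have hn := card_n A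
    have hE := card_Es A hA
    have hne := none_iff A hA
    have hcL : (Lam A).card = 1 := by rw [hL]; rfl
    have h2 : none ∉ A := by rw [hne, hcL]; decide
    rw [if_neg h2] at hE
    have hpL : p ∈ Lam A := by rw [hL]; simp
    by_cases hs : sg A p = true
    · rw [if_pos hs, if_pos hs, hD' (Es A) p (by omega) (Lam_not_Es A p hpL)]
    · rw [if_neg hs, if_neg hs, hD' (Fs A) p (by omega) (Lam_not_Fs A p hpL)]
  · intro A i j hA hL hij
    show (!lab S D (rvA A) (rvx (dl A i))) = _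
    have hL' : Lam (rvA A) = {Fin.rev j, Fin.rev i} := by rw [Lam_rv, hL, rv_two]
    rw [dl_rv, G.d2b (rvA A) (Fin.rev j) (Fin.rev i) (hc A hA) hL' (Fin.rev_lt_rev.2 hij),
      sg_rv, sg_rv]
    exact b1 _ _
  · intro A i j hA hL hij
    show (!lab S D (rvA A) (rvx (dl A j))) = _
    have hL' : Lam (rvA A) = {Fin.rev j, Fin.rev i} := by rw [Lam_rv, hL, rv_two]
    rw [dl_rv, G.d2a (rvA A) (Fin.rev j) (Fin.rev i) (hc A hA) hL' (Fin.rev_lt_rev.2 hij),
      sg_rv, sg_rv]
    exact b2 _ _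
  · intro A i j k hA hL hij hjk
    show (!lab S D (rvA A) (rvx (dl A i))) = _
    have hL' : Lam (rvA A) = {Fin.rev k, Fin.rev j, Fin.rev i} := by rw [Lam_rv, hL, rv_three]
    rw [dl_rv, G.d3c (rvA A) (Fin.rev k) (Fin.rev j) (Fin.rev i) (hc A hA) hL'
      (Fin.rev_lt_rev.2 hjk) (Fin.rev_lt_rev.2 hij), sg_rv, sg_rv]
    exact b1 _ _
  · intro A i j k hA hL hij hjk
    show (!lab S D (rvA A) (rvx (dl A j))) = _
    have hL' : Lam (rvA A) = {Fin.rev k, Fin.rev j, Fin.rev i} := by rw [Lam_rv, hL, rv_three]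
    rw [dl_rv, G.d3b (rvA A) (Fin.rev k) (Fin.rev j) (Fin.rev i) (hc A hA) hL'
      (Fin.rev_lt_rev.2 hjk) (Fin.rev_lt_rev.2 hij), sg_rv, sg_rv, sg_rv, sum_rv]
    exact b3 _ _ _ _ _ (hS _)
  · intro A i j k hA hL hij hjk
    show (!lab S D (rvA A) (rvx (dl A k))) = _
    have hL' : Lam (rvA A) = {Fin.rev k, Fin.rev j, Fin.rev i} := by rw [Lam_rv, hL, rv_three]
    rw [dl_rv, G.d3a (rvA A) (Fin.rev k) (Fin.rev j) (Fin.rev i) (hc A hA) hL'
      (Fin.rev_lt_rev.2 hjk) (Fin.rev_lt_rev.2 hij), sg_rv, sg_rv]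
    exact b2 _ _
  · intro A i j k hA hL hij hjk
    show (!lab S D (rvA A) none) = _
    have hL' : Lam (rvA A) = {Fin.rev k, Fin.rev j, Fin.rev i} := by rw [Lam_rv, hL, rv_three]
    rw [G.d3z (rvA A) (Fin.rev k) (Fin.rev j) (Fin.rev i) (hc A hA) hL'
      (Fin.rev_lt_rev.2 hjk) (Fin.rev_lt_rev.2 hij), sg_rv, sg_rv, sg_rv, sum_rv]
    exact b4 _ _ _ _ _ (hS _)

end OddG
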