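import Pool.Agent.Lib.MP_e26f2a_co.LinkLab

set_option autoImplicit false

namespace OddG

open Finset

namespace LS
open Uv LG LL

variable {m : ℕ}

/-- arcs `(p, σ, V, y, x)` -/
abbrev AT (m : ℕ) := Fin (2*m+1) × Bool × Finset (Fin (2*m+1)) × Fin (2*m+1) × Fin (2*m+1)

def ok (S : Finset (ZMod 6)) (a : AT m) : Prop :=
  a.2.2.1.card = m ∧ a.1 ∉ a.2.2.1 ∧ a.2.2.2.1 ∈ a.2.2.1 ∧ a.2.2.2.2 ∈ co a.2.2.1 a.1 ∧
    al S a.1 a.2.2.2.2 a.2.2.2.1

instance (S : Finset (ZMod 6)) (a : AT m) : Decidable (ok S a) := by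
  unfold ok; infer_instance

def Arcs (m : ℕ) (S : Finset (ZMod 6)) : Finset (AT m) := univ.filter (ok S)

theorem mem_Arcs (S : Finset (ZMod 6)) (a : AT m) : a ∈ Arcs m S ↔ ok S a := by
  simp [Arcs]

theorem sum_arcs (S : Finset (ZMod 6)) (F : AT m → ℝ) :
    ∑ p : Fin (2*m+1), ∑ σ : Bool, ∑ V ∈ (univ.erase p).powersetCard m, ∑ y ∈ V,
      ∑ x ∈ co V p, (if al S p x y then F (p, σ, V, y, x) else 0) = ∑ a ∈ Arcs m S, F a := by
  unfold Arcs
  rw [sum_filter, Fintype.sum_prod_type]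
  refine sum_congr rfl fun p _ => ?_
  rw [Fintype.sum_prod_type]
  refine sum_congr rfl fun σ _ => ?_
  rw [Fintype.sum_prod_type]
  rw [← Finset.sum_subset (Finset.subset_univ ((univ.erase p).powersetCard m))]
  · refine sum_congr rfl fun V hV => ?_
    rw [mem_powersetCard] at hV
    have hp : p ∉ V := fun h => by simpa using hV.1 h
    rw [Fintype.sum_prod_type]
    rw [← Finset.sum_subset (Finset.subset_univ V)]
    · refine sum_congr rfl fun y hy => ?_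
      rw [← Finset.sum_subset (Finset.subset_univ (co V p))]
      · refine sum_congr rfl fun x hx => ?_
        have : ok S (p, σ, V, y, x) ↔ al S p x y :=
          ⟨fun h => h.2.2.2.2, fun h => ⟨hV.2, hp, hy, hx, h⟩⟩
        simp only [this]
      · intro x _ hx
        rw [if_neg]
        exact fun h => hx h.2.2.2.1
    · intro y _ hy
      apply sum_eq_zero
      intro x _
      rw [if_neg]
      exact fun h => hy h.2.2.1
  · intro V _ hV
    apply sum_eq_zero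
    intro q _
    rw [if_neg]
    intro h
    apply hV
    rw [mem_powersetCard]
    refine ⟨fun i hi => ?_, h.1⟩
    rw [mem_erase]
    exact ⟨fun e => h.2.1 (e ▸ hi), mem_univ _⟩

theorem sw_facts (p : Fin (2*m+1)) (V : Finset (Fin (2*m+1))) (y x : Fin (2*m+1))
    (hV : V.card = m) (hp : p ∉ V) (hy : y ∈ V) (hx : x ∈ co V p) :
    (sw V y x).card = m ∧ p ∉ sw V y x ∧ x ∈ sw V y x ∧ y ∈ co (sw V y x) p ∧
      sw (sw V y x) x y = V := by
  have hx' := (mem_co V p x).1 hx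
  have hxy : x ≠ y := fun h => hx'.2 (h ▸ hy)
  have hyp : y ≠ p := fun h => hp (h ▸ hy)
  refine ⟨?_, ?_, mem_insert_self _ _, ?_, ?_⟩
  · unfold sw
    rw [card_insert_of_notMem, card_erase_of_mem hy, hV]
    · have : 0 < V.card := card_pos.mpr ⟨y, hy⟩
      omega
    · intro h; exact hx'.2 (mem_of_mem_erase h)
  · unfold sw
    rw [mem_insert, mem_erase]
    rintro (h | h)
    · exact hx'.1 h.symm
    · exact hp h.2
  · rw [mem_co]; refine ⟨hyp, ?_⟩
    unfold sw; rw [mem_insert, mem_erase]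
    rintro (h | h)
    · exact hxy h.symm
    · exact h.1 rfl
  · unfold sw
    rw [erase_insert, insert_erase hy]
    intro h; exact hx'.2 (mem_of_mem_erase h)

theorem al_comm {S : Finset (ZMod 6)} {p x y : Fin (2*m+1)} (h : al S p x y) : al S p y x := by
  rcases h with h | h | h
  · exact Or.inr (Or.inl h)
  · exact Or.inl h
  · right; right
    have e : ((p : ℕ) + (y : ℕ) + (x : ℕ)) = ((p : ℕ) + (x : ℕ) + (y : ℕ)) := by ring
    rw [e]; exact h

/-- the reversed arc -/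
def rv (a : AT m) : AT m :=
  (a.1, fl a.1 a.2.2.2.2 a.2.2.2.1 a.2.1, sw a.2.2.1 a.2.2.2.1 a.2.2.2.2, a.2.2.2.2, a.2.2.2.1)

theorem rv_ok {S : Finset (ZMod 6)} {a : AT m} (h : ok S a) : ok S (rv a) := by
  obtain ⟨h1, h2, h3, h4, h5⟩ := h
  obtain ⟨e1, e2, e3, e4, e5⟩ := sw_facts a.1 a.2.2.1 a.2.2.2.1 a.2.2.2.2 h1 h2 h3 h4
  exact ⟨e1, e2, e3, e4, al_comm h5⟩

theorem rv_rv {S : Finset (ZMod 6)} {a : AT m} (h : ok S a) : rv (rv a) = a := by
  obtain ⟨h1, h2, h3, h4, h5⟩ := h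
  obtain ⟨e1, e2, e3, e4, e5⟩ := sw_facts a.1 a.2.2.1 a.2.2.2.1 a.2.2.2.2 h1 h2 h3 h4
  obtain ⟨p, σ, V, y, x⟩ := a
  unfold rv
  simp only [Prod.mk.injEq, and_true, true_and]
  refine ⟨?_, e5⟩
  unfold fl
  by_cases hc : p < x ∧ p < y
  · rw [if_pos hc, if_pos ⟨hc.2, hc.1⟩, Bool.not_not]
  · rw [if_neg hc, if_neg (fun h => hc ⟨h.2, h.1⟩)]

theorem sum_rv (S : Finset (ZMod 6)) (F : AT m → ℝ) :
    ∑ a ∈ Arcs m S, F (rv a) = ∑ a ∈ Arcs m S, F a := by
  refine Finset.sum_nbij' rv rv ?_ ?_ ?_ ?_ ?_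
  · intro a ha; rw [mem_Arcs] at ha ⊢; exact rv_ok ha
  · intro a ha; rw [mem_Arcs] at ha ⊢; exact rv_ok ha
  · intro a ha; rw [mem_Arcs] at ha; exact rv_rv ha
  · intro a ha; rw [mem_Arcs] at ha; exact rv_rv ha
  · intro a ha; rfl

def U (a : AT m) : Finset (X (2*m+1)) := uv a.1 a.2.1 a.2.2.1
def B (a : AT m) : Finset (X (2*m+1)) := Bv a.1 a.2.1 a.2.2.1 a.2.2.2.1 a.2.2.2.2
def C (a : AT m) : Finset (X (2*m+1)) := Cv a.1 a.2.1 a.2.2.1 a.2.2.2.1 a.2.2.2.2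
def y1 (a : AT m) : X (2*m+1) := x1 a.1 a.2.1 a.2.2.2.1 a.2.2.2.2
def y2 (a : AT m) : X (2*m+1) := x2 a.1 a.2.1 a.2.2.2.1 a.2.2.2.2
def lo (a : AT m) : Prop := a.1 < a.2.2.2.2 ∧ a.1 < a.2.2.2.1

instance (a : AT m) : Decidable (lo a) := by unfold lo; infer_instance

/-- weight of a dart -/
noncomputable def wt (g : Finset (X (2*m+1)) → ℝ) (t : Finset (X (2*m+1)) × X (2*m+1)) : ℝ :=
  |g t.1 - g (N t.1 t.2)|

theorem wt_nonneg (g : Finset (X (2*m+1)) → ℝ) (t : Finset (X (2*m+1)) × X (2*m+1)) :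
    0 ≤ wt g t := abs_nonneg _

/-- darts of the energy -/
def DD (L : Finset (X (2*m+1)) → X (2*m+1) → Bool) : Finset (Finset (X (2*m+1)) × X (2*m+1)) :=
  univ.filter fun t => t.1.card = 2*m+1 ∧ t.2 ∉ t.1 ∧ L t.1 t.2 = true ∧ (Lam t.1).Nonempty ∧
    (Lam (N t.1 t.2)).Nonempty

/-- darts of a given type -/
def DT (L : Finset (X (2*m+1)) → X (2*m+1) → Bool) (i j : ℕ) :
    Finset (Finset (X (2*m+1)) × X (2*m+1)) :=
  (DD L).filter fun t => (Lam t.1).card = i ∧ (Lam (N t.1 t.2)).card = j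

theorem enr_eq (L : Finset (X (2*m+1)) → X (2*m+1) → Bool) (g : Finset (X (2*m+1)) → ℝ) :
    enr L g = ∑ t ∈ DD L, wt g t := by
  unfold enr DD
  rw [sum_filter, Fintype.sum_prod_type]
  rw [← Finset.sum_subset (Finset.subset_univ ((univ : Finset (X (2*m+1))).powersetCard (2*m+1)))]
  · refine sum_congr rfl fun A hA => ?_
    rw [mem_powersetCard] at hA
    refine sum_congr rfl fun x _ => ?_
    have : (A.card = 2*m+1 ∧ x ∉ A ∧ L A x = true ∧ (Lam A).Nonempty ∧ (Lam (N A x)).Nonempty) ↔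
        (x ∉ A ∧ L A x = true ∧ (Lam A).Nonempty ∧ (Lam (N A x)).Nonempty) :=
      ⟨fun h => h.2, fun h => ⟨hA.2, h⟩⟩
    simp only [this]
    rfl
  · intro A _ hA
    apply sum_eq_zero
    intro x _
    rw [if_neg]
    intro h
    apply hA
    rw [mem_powersetCard]
    exact ⟨subset_univ _, h.1⟩

theorem sum_DT_symm {S : Finset (ZMod 6)} {D : Finset (Fin (2*m+1)) → Fin (2*m+1) → Bool}
    (L : Finset (X (2*m+1)) → X (2*m+1) → Bool) (hL : Good m S D L)
    (g : Finset (X (2*m+1)) → ℝ) (i j : ℕ) :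
    ∑ t ∈ DT L i j, wt g t = ∑ t ∈ DT L j i, wt g t := by
  have key : ∀ i j, ∀ t ∈ DT L i j, (N t.1 t.2, t.2) ∈ DT L j i := by
    intro i j t ht
    unfold DT DD at ht ⊢
    simp only [mem_filter, mem_univ, true_and] at ht ⊢
    obtain ⟨⟨h1, h2, h3, h4, h5⟩, h6, h7⟩ := ht
    refine ⟨⟨card_N _ _ h1 h2, not_mem_N _ _, ?_, h5, ?_⟩, h7, ?_⟩
    · rw [hL.symm _ _ h1 h2, h3]
    · rw [N_N _ _ h2]; exact h4
    · rw [N_N _ _ h2]; exact h6
  have key2 : ∀ i j, ∀ t ∈ DT L i j, (N (N t.1 t.2) t.2, t.2) = t := by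
    intro i j t ht
    unfold DT DD at ht
    simp only [mem_filter, mem_univ, true_and] at ht
    obtain ⟨⟨h1, h2, h3, h4, h5⟩, h6, h7⟩ := ht
    rw [N_N _ _ h2]
  refine Finset.sum_nbij' (fun t => (N t.1 t.2, t.2)) (fun t => (N t.1 t.2, t.2))
    (key i j) (key j i) (key2 i j) (key2 j i) ?_
  intro t ht
  have h := key2 i j t ht
  unfold wt
  simp only
  have h' : N (N t.1 t.2) t.2 = t.1 := congrArg Prod.fst h
  rw [h', abs_sub_comm]

theorem enr_ge {S : Finset (ZMod 6)} {D : Finset (Fin (2*m+1)) → Fin (2*m+1) → Bool}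
    (L : Finset (X (2*m+1)) → X (2*m+1) → Bool) (hL : Good m S D L)
    (g : Finset (X (2*m+1)) → ℝ) :
    2 * ∑ t ∈ DT L 1 2, wt g t + 2 * ∑ t ∈ DT L 2 3, wt g t + ∑ t ∈ DT L 3 3, wt g t ≤
      enr L g := by
  have h1 : ∑ t ∈ DT L 1 2, wt g t + ∑ t ∈ DT L 2 1, wt g t + ∑ t ∈ DT L 2 3, wt g t +
      ∑ t ∈ DT L 3 2, wt g t + ∑ t ∈ DT L 3 3, wt g t ≤ enr L g := by
    rw [enr_eq]
    unfold DT
    simp only [sum_filter (s := DD L)]
    rw [← sum_add_distrib, ← sum_add_distrib, ← sum_add_distrib, ← sum_add_distrib]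
    apply sum_le_sum
    intro t _
    have hw := wt_nonneg g t
    generalize (Lam t.1).card = a
    generalize (Lam (N t.1 t.2)).card = b
    by_cases q1 : a = 1 ∧ b = 2
    · obtain ⟨rfl, rfl⟩ := q1; simp
    by_cases q2 : a = 2 ∧ b = 1
    · obtain ⟨rfl, rfl⟩ := q2; simp
    by_cases q3 : a = 2 ∧ b = 3
    · obtain ⟨rfl, rfl⟩ := q3; simp
    by_cases q4 : a = 3 ∧ b = 2
    · obtain ⟨rfl, rfl⟩ := q4; simp
    by_cases q5 : a = 3 ∧ b = 3
    · obtain ⟨rfl, rfl⟩ := q5; simp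
    rw [if_neg q1, if_neg q2, if_neg q3, if_neg q4, if_neg q5]
    simpa using hw
  rw [sum_DT_symm L hL g 2 1, sum_DT_symm L hL g 3 2] at h1
  linarith

end LS

open Uv LG LL LS in
theorem link_energy {m : ℕ} (hm : 1 ≤ m) (S : Finset (ZMod 6))
    (D : Finset (Fin (2*m+1)) → Fin (2*m+1) → Bool)
    (L : Finset (X (2*m+1)) → X (2*m+1) → Bool) (hL : Good m S D L)
    (g : Finset (X (2*m+1)) → ℝ) :
    ∑ p : Fin (2*m+1), ∑ σ : Bool, ∑ V ∈ (univ.erase p).powersetCard m, ∑ y ∈ V,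
      ∑ x ∈ co V p,
      (if al S p x y then |g (uv p σ V) - g (uv p (fl p x y σ) (sw V y x))| else 0) ≤
    m * enr L g := by
  classical
  refine (le_of_eq (sum_arcs S (fun a => |g (U a) - g (U (rv a))|))).trans ?_
  -- pointwise triangle inequality
  have hpt : ∀ a ∈ Arcs m S, |g (U a) - g (U (rv a))| ≤ wt g (U a, y1 a) + wt g (B a, y2 a) +
      (if lo a then wt g (C a, none) else 0) + wt g (B (rv a), y2 (rv a)) +
      wt g (U (rv a), y1 (rv a)) := by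
    intro a ha
    rw [mem_Arcs] at ha
    obtain ⟨h1, h2, h3, h4, h5⟩ := ha
    have hrev := link_rev a.1 a.2.1 a.2.2.1 a.2.2.2.1 a.2.2.2.2 h1 h2 h3 h4
    have e1 : wt g (U a, y1 a) = |g (U a) - g (B a)| := rfl
    have e2 : wt g (B a, y2 a) = |g (B a) - g (C a)| := rfl
    have e3 : wt g (U (rv a), y1 (rv a)) = |g (U (rv a)) - g (B (rv a))| := rfl
    have e4 : wt g (B (rv a), y2 (rv a)) = |g (B (rv a)) - g (C (rv a))| := rfl
    have e5 : |g (C a) - g (C (rv a))| = (if lo a then wt g (C a, none) else 0) := by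
      have : C (rv a) = if lo a then N (C a) none else C a := hrev
      rw [this]
      split_ifs
      · rfl
      · simp
    rw [e1, e2, e3, e4, ← e5]
    have t1 := abs_sub_le (g (U a)) (g (B a)) (g (U (rv a)))
    have t2 := abs_sub_le (g (B a)) (g (C a)) (g (U (rv a)))
    have t3 := abs_sub_le (g (C a)) (g (C (rv a))) (g (U (rv a)))
    have t4 := abs_sub_le (g (C (rv a))) (g (B (rv a))) (g (U (rv a)))
    rw [abs_sub_comm (g (C (rv a))) (g (B (rv a)))] at t4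
    rw [abs_sub_comm (g (B (rv a))) (g (U (rv a)))] at t4
    linarith
  have hsum : ∑ a ∈ Arcs m S, |g (U a) - g (U (rv a))| ≤
      2 * ∑ a ∈ Arcs m S, wt g (U a, y1 a) + 2 * ∑ a ∈ Arcs m S, wt g (B a, y2 a) +
      ∑ a ∈ Arcs m S, (if lo a then wt g (C a, none) else 0) := by
    refine (sum_le_sum hpt).trans ?_
    simp only [sum_add_distrib]
    rw [sum_rv S (fun a => wt g (B a, y2 a)), sum_rv S (fun a => wt g (U a, y1 a))]
    linarith
  refine hsum.trans ?_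
  -- labels
  have hlab : ∀ a ∈ Arcs m S, (U a, y1 a) ∈ DT L 1 2 ∧ (B a, y2 a) ∈ DT L 2 3 ∧
      (lo a → (C a, none) ∈ DT L 3 3) := by
    intro a ha
    rw [mem_Arcs] at ha
    obtain ⟨h1, h2, h3, h4, h5⟩ := ha
    obtain ⟨l1, l2, l3⟩ := link_labels S D L hL a.1 a.2.1 a.2.2.1 a.2.2.2.1 a.2.2.2.2 h1 h2 h3 h4 h5
    obtain ⟨u1, u2, u3, u4, u5, u6⟩ := uv_facts a.1 a.2.1 a.2.2.1 h1 h2
    obtain ⟨b1, b2, b3, b4, b5, b6, b7, b8, b9⟩ :=
      Bv_facts a.1 a.2.1 a.2.2.1 a.2.2.2.1 a.2.2.2.2 h1 h2 h3 h4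
    obtain ⟨c1, c2, c3, c4, c5, c6, c7, c8, c9, c10, c11, c12, c13⟩ :=
      Cv_facts a.1 a.2.1 a.2.2.1 a.2.2.2.1 a.2.2.2.2 h1 h2 h3 h4
    have k1 : (Lam (U a)).card = 1 := by
      show (Lam (uv a.1 a.2.1 a.2.2.1)).card = 1
      rw [u2, card_singleton]
    have k2 : (Lam (B a)).card = 2 := by
      show (Lam (Bv a.1 a.2.1 a.2.2.1 a.2.2.2.1 a.2.2.2.2)).card = 2
      rw [b3, card_pair b4]
    have k3 : (Lam (C a)).card = 3 := by
      show (Lam (Cv a.1 a.2.1 a.2.2.1 a.2.2.2.1 a.2.2.2.2)).card = 3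
      rw [c4, card_insert_of_notMem, card_pair c7]
      simp only [mem_insert, mem_singleton, not_or]
      exact ⟨c5, c6⟩
    have n1 : (Lam (U a)).Nonempty := card_pos.mp (by omega)
    have n2 : (Lam (B a)).Nonempty := card_pos.mp (by omega)
    have n3 : (Lam (C a)).Nonempty := card_pos.mp (by omega)
    unfold DT DD
    simp only [mem_filter, mem_univ, true_and]
    refine ⟨⟨⟨u1, b1, l1, n1, n2⟩, k1, k2⟩, ⟨⟨b2, c1, l2, n2, n3⟩, k2, k3⟩, ?_⟩
    intro hlo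
    refine ⟨⟨c2, c3, l3 hlo, n3, ?_⟩, k3, ?_⟩
    · rw [Lam_N_none]; exact n3
    · rw [Lam_N_none]; exact k3
  -- the first sum
  have hS1 : ∑ a ∈ Arcs m S, wt g (U a, y1 a) ≤ m * ∑ t ∈ DT L 1 2, wt g t := by
    rw [← Finset.sum_fiberwise_of_maps_to (s := Arcs m S) (t := DT L 1 2)
      (g := fun a => (U a, y1 a)) (fun a ha => (hlab a ha).1), mul_sum]
    apply sum_le_sum
    intro t _
    have hcard : ((Arcs m S).filter fun a => (U a, y1 a) = t).card ≤ m := by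
      by_cases hne : ((Arcs m S).filter fun a => (U a, y1 a) = t).Nonempty
      · obtain ⟨a0, ha0⟩ := hne
        rw [mem_filter, mem_Arcs] at ha0
        obtain ⟨⟨h1, h2, h3, h4, h5⟩, h0⟩ := ha0
        have hF : (Fs t.1).card = m := by
          rw [← h0]
          show (Fs (uv a0.1 a0.2.1 a0.2.2.1)).card = m
          rw [(uv_facts a0.1 a0.2.1 a0.2.2.1 h1 h2).2.2.2.2.2]
          split_ifs
          · exact card_co _ _ h1 h2
          · exact h1
        refine le_trans ?_ (le_of_eq hF)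
        refine Finset.card_le_card_of_injOn (fun a => jpos a.2.1 a.2.2.2.1 a.2.2.2.2) ?_ ?_
        · intro a ha
          rw [mem_coe, mem_filter, mem_Arcs] at ha
          obtain ⟨⟨k1, k2, k3, k4, k5⟩, k0⟩ := ha
          rw [mem_coe, ← k0]
          exact jpos_mem a.1 a.2.1 a.2.2.1 a.2.2.2.1 a.2.2.2.2 k1 k2 k3 k4
        · intro a ha b hb hab
          rw [mem_coe, mem_filter, mem_Arcs] at ha hb
          obtain ⟨⟨k1, k2, k3, k4, k5⟩, k0⟩ := ha
          obtain ⟨⟨l1, l2, l3, l4, l5⟩, l0⟩ := hb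
          have he := k0.trans l0.symm
          obtain ⟨q1, q2, q3, q4, q5⟩ := link_inj1 a.1 a.2.1 a.2.2.1 a.2.2.2.1 a.2.2.2.2
            k1 k2 k3 k4 b.1 b.2.1 b.2.2.1 b.2.2.2.1 b.2.2.2.2 l1 l2 l3 l4
            (congrArg Prod.fst he) (congrArg Prod.snd he) hab
          obtain ⟨p, σ, V, y, x⟩ := a
          obtain ⟨p', σ', V', y', x'⟩ := b
          simp only at q1 q2 q3 q4 q5
          subst q1 q2 q3 q4 q5
          rfl
      · rw [not_nonempty_iff_eq_empty] at hne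
        rw [hne]; simp
    calc ∑ a ∈ (Arcs m S).filter (fun a => (U a, y1 a) = t), wt g (U a, y1 a)
        = ∑ a ∈ (Arcs m S).filter (fun a => (U a, y1 a) = t), wt g t := by
          apply sum_congr rfl
          intro a ha
          rw [(mem_filter.1 ha).2]
      _ = (((Arcs m S).filter fun a => (U a, y1 a) = t).card : ℝ) * wt g t := by
          rw [sum_const, nsmul_eq_mul]
      _ ≤ m * wt g t := by
          apply mul_le_mul_of_nonneg_right _ (wt_nonneg g t)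
          exact_mod_cast hcard
  -- the second sum
  have hS2 : ∑ a ∈ Arcs m S, wt g (B a, y2 a) ≤ ∑ t ∈ DT L 2 3, wt g t := by
    have hinj : Set.InjOn (fun a : AT m => (B a, y2 a)) (Arcs m S : Set (AT m)) := by
      intro a ha b hb hab
      rw [mem_coe, mem_Arcs] at ha hb
      obtain ⟨k1, k2, k3, k4, k5⟩ := ha
      obtain ⟨l1, l2, l3, l4, l5⟩ := hb
      obtain ⟨q1, q2, q3, q4, q5⟩ := link_inj2 S D L hL a.1 a.2.1 a.2.2.1 a.2.2.2.1 a.2.2.2.2
        k1 k2 k3 k4 k5 b.1 b.2.1 b.2.2.1 b.2.2.2.1 b.2.2.2.2 l1 l2 l3 l4 l5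
        (congrArg Prod.fst hab) (congrArg Prod.snd hab)
      obtain ⟨p, σ, V, y, x⟩ := a
      obtain ⟨p', σ', V', y', x'⟩ := b
      simp only at q1 q2 q3 q4 q5
      subst q1 q2 q3 q4 q5
      rfl
    have : ∑ a ∈ Arcs m S, wt g (B a, y2 a) =
        ∑ t ∈ (Arcs m S).image (fun a : AT m => (B a, y2 a)), wt g t := by
      rw [Finset.sum_image hinj]
    rw [this]
    apply sum_le_sum_of_subset_of_nonneg
    · intro t ht
      rw [mem_image] at ht
      obtain ⟨a, ha, rfl⟩ := ht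
      exact (hlab a ha).2.1
    · intro t _ _; exact wt_nonneg g t
  -- the third sum
  have hS3 : ∑ a ∈ Arcs m S, (if lo a then wt g (C a, none) else 0) ≤
      ∑ t ∈ DT L 3 3, wt g t := by
    rw [← sum_filter]
    have hinj : Set.InjOn (fun a : AT m => (C a, (none : X (2*m+1))))
        ((Arcs m S).filter lo : Set (AT m)) := by
      intro a ha b hb hab
      rw [mem_coe, mem_filter, mem_Arcs] at ha hb
      obtain ⟨⟨k1, k2, k3, k4, k5⟩, k6⟩ := ha
      obtain ⟨⟨l1, l2, l3, l4, l5⟩, l6⟩ := hb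
      obtain ⟨q1, q2, q3, q4, q5⟩ := link_inj3 a.1 a.2.1 a.2.2.1 a.2.2.2.1 a.2.2.2.2
        k1 k2 k3 k4 k6 b.1 b.2.1 b.2.2.1 b.2.2.2.1 b.2.2.2.2 l1 l2 l3 l4 l6
        (congrArg Prod.fst hab)
      obtain ⟨p, σ, V, y, x⟩ := a
      obtain ⟨p', σ', V', y', x'⟩ := b
      simp only at q1 q2 q3 q4 q5
      subst q1 q2 q3 q4 q5
      rfl
    have : ∑ a ∈ (Arcs m S).filter lo, wt g (C a, none) =
        ∑ t ∈ ((Arcs m S).filter lo).image (fun a : AT m => (C a, (none : X (2*m+1)))),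
          wt g t := by
      rw [Finset.sum_image hinj]
    rw [this]
    apply sum_le_sum_of_subset_of_nonneg
    · intro t ht
      rw [mem_image] at ht
      obtain ⟨a, ha, rfl⟩ := ht
      rw [mem_filter] at ha
      exact (hlab a ha.1).2.2 ha.2
    · intro t _ _; exact wt_nonneg g t
  have hE := enr_ge L hL g
  have hmR : (1:ℝ) ≤ m := by exact_mod_cast hm
  have p1 : 0 ≤ ∑ t ∈ DT L 1 2, wt g t := sum_nonneg fun t _ => wt_nonneg g t
  have p2 : 0 ≤ ∑ t ∈ DT L 2 3, wt g t := sum_nonneg fun t _ => wt_nonneg g t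
  have p3 : 0 ≤ ∑ t ∈ DT L 3 3, wt g t := sum_nonneg fun t _ => wt_nonneg g t
  calc 2 * ∑ a ∈ Arcs m S, wt g (U a, y1 a) + 2 * ∑ a ∈ Arcs m S, wt g (B a, y2 a) +
      ∑ a ∈ Arcs m S, (if lo a then wt g (C a, none) else 0)
      ≤ 2 * (m * ∑ t ∈ DT L 1 2, wt g t) + 2 * ∑ t ∈ DT L 2 3, wt g t +
        ∑ t ∈ DT L 3 3, wt g t := by linarith
    _ ≤ m * (2 * ∑ t ∈ DT L 1 2, wt g t + 2 * ∑ t ∈ DT L 2 3, wt g t +
        ∑ t ∈ DT L 3 3, wt g t) := by nlinarith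
    _ ≤ m * enr L g := by
        apply mul_le_mul_of_nonneg_left hE; linarith

end OddG
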