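import Pool.Agent.Lib.MP_e26f2a_co.LinkDefs

set_option autoImplicit false

namespace OddG

open Finset

namespace Uv

variable {m : ℕ}

theorem mem_co (V : Finset (Fin (2*m+1))) (p i : Fin (2*m+1)) :
    i ∈ co V p ↔ i ≠ p ∧ i ∉ V := by
  simp [co]

theorem card_co (V : Finset (Fin (2*m+1))) (p : Fin (2*m+1)) (hV : V.card = m) (hp : p ∉ V) :
    (co V p).card = m := by
  unfold co
  rw [Finset.card_univ_sdiff, Finset.card_insert_of_notMem hp, hV, Fintype.card_fin]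
  omega

theorem mem_W1 (p : Fin (2*m+1)) (σ : Bool) (F : Finset (Fin (2*m+1))) (i : Fin (2*m+1))
    (b : Bool) : (some (i, b) : X (2*m+1)) ∈ W1 p σ F ↔ (i = p ∧ b = σ) ∨ i ∈ F := by
  unfold W1
  simp only [mem_filter, mem_univ, true_and, Option.some.injEq, Prod.mk.injEq]
  constructor
  · rintro (h | ⟨j, hj, c, h1, h2⟩)
    · exact Or.inl h
    · exact Or.inr (h1 ▸ hj)
  · rintro (h | h)
    · exact Or.inl h
    · exact Or.inr ⟨i, h, b, rfl, rfl⟩

theorem none_W1 (p : Fin (2*m+1)) (σ : Bool) (F : Finset (Fin (2*m+1))) :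
    (none : X (2*m+1)) ∉ W1 p σ F := by
  unfold W1; simp

theorem Lam_W1 (p : Fin (2*m+1)) (σ : Bool) (F : Finset (Fin (2*m+1))) (hp : p ∉ F) :
    Lam (W1 p σ F) = {p} := by
  ext i
  rw [mem_Lam, mem_W1, mem_W1, mem_singleton]
  by_cases h : i = p
  · subst h; cases σ <;> simp [hp]
  · simp [h]

theorem sg_W1 (p : Fin (2*m+1)) (σ : Bool) (F : Finset (Fin (2*m+1))) (hp : p ∉ F) :
    sg (W1 p σ F) p = σ := by
  cases σ
  · rw [sg_eq_false, mem_W1]; simp [hp]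
  · rw [sg_eq, mem_W1]; simp

theorem Es_W1 (p : Fin (2*m+1)) (σ : Bool) (F : Finset (Fin (2*m+1))) :
    Es (W1 p σ F) = co F p := by
  ext i
  rw [mem_Es, mem_W1, mem_W1, mem_co]
  by_cases h : i = p
  · subst h; cases σ <;> simp
  · simp [h]

theorem Fs_W1 (p : Fin (2*m+1)) (σ : Bool) (F : Finset (Fin (2*m+1))) (hp : p ∉ F) :
    Fs (W1 p σ F) = F := by
  ext i
  rw [mem_Fs, mem_W1, mem_W1]
  by_cases h : i = p
  · subst h; cases σ <;> simp [hp]
  · simp [h]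

theorem co_co (V : Finset (Fin (2*m+1))) (p : Fin (2*m+1)) (hp : p ∉ V) :
    co (co V p) p = V := by
  ext i
  rw [mem_co, mem_co]
  constructor
  · rintro ⟨h1, h2⟩; by_contra h3; exact h2 ⟨h1, h3⟩
  · intro h; exact ⟨fun e => hp (e ▸ h), fun h2 => h2.2 h⟩

theorem card_W1 (p : Fin (2*m+1)) (σ : Bool) (F : Finset (Fin (2*m+1))) (hp : p ∉ F)
    (hF : F.card = m) : (W1 p σ F).card = 2*m+1 := by
  rw [card_A, Lam_W1 p σ F hp, Fs_W1 p σ F hp, if_neg (none_W1 p σ F), hF]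
  simp

end Uv

open Uv in
theorem uv_facts {m : ℕ} (p : Fin (2*m+1)) (σ : Bool) (V : Finset (Fin (2*m+1)))
    (hV : V.card = m) (hp : p ∉ V) :
    (uv p σ V).card = 2*m+1 ∧ Lam (uv p σ V) = {p} ∧ sg (uv p σ V) p = σ ∧
    none ∉ uv p σ V ∧ Es (uv p σ V) = (if σ = true then V else co V p) ∧
    Fs (uv p σ V) = (if σ = true then co V p else V) := by
  have hpc : p ∉ co V p := by rw [mem_co]; simp
  cases σ
  · simp only [uv, Bool.false_eq_true, if_false]
    exact ⟨card_W1 p false V hp hV, Lam_W1 p false V hp, sg_W1 p false V hp, none_W1 _ _ _,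
      Es_W1 _ _ _, Fs_W1 _ _ _ hp⟩
  · simp only [uv, if_true]
    refine ⟨card_W1 p true _ hpc (card_co V p hV hp), Lam_W1 p true _ hpc, sg_W1 p true _ hpc,
      none_W1 _ _ _, ?_, Fs_W1 _ _ _ hpc⟩
    rw [Es_W1, co_co V p hp]

end OddG
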