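import Pool.Agent.Lib.MP_e26f2a_co.LinkDefs
import Pool.Agent.Lib.MP_e26f2a_co.UvFacts

set_option autoImplicit false

namespace OddG

open Finset

/-- charge of the vertex `uv p σ V` -/
theorem psv_uv {m : ℕ} {S : Finset (ZMod 6)} {ep : Finset (Fin (2*m+1)) → Bool}
    {L : Finset (X (2*m+1)) → X (2*m+1) → Bool} (hL : Good m S (Dep ep) L)
    (p : Fin (2*m+1)) (σ : Bool) (V : Finset (Fin (2*m+1)))
    (hV : V.card = m) (hp : p ∉ V) : psv L ep (uv p σ V) = ps ep σ p V := by
  obtain ⟨h1, h2, h3, h4, h5, h6⟩ := uv_facts p σ V hV hp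
  have h7 := hL.tie _ p h1 h2
  have h8 : (if sg (uv p σ V) p = true then Es (uv p σ V) else Fs (uv p σ V)) = V := by
    rw [h3, h5, h6]
    cases σ <;> simp
  rw [h8] at h7
  have h9 : fs (uv p σ V) = σ := by
    unfold fs
    simp only [h2, Finset.singleton_nonempty, Finset.min'_singleton, dite_true]
    exact h3
  have h10 : ((Lam (uv p σ V)).card = 1 ∧ (∃ q ∈ Lam (uv p σ V),
      L (uv p σ V) (dl (uv p σ V) q) = true)) ↔ Dep ep V p = true := by
    rw [h2]
    simp only [Finset.card_singleton, Finset.mem_singleton, exists_eq_left, true_and, h7]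
  unfold psv ps
  by_cases hD : Dep ep V p = true
  · rw [if_pos (h10.2 hD), if_pos hD, h9, h5]
    cases σ
    · simp only [Bool.false_eq_true, if_false]
      cases ep (co V p) <;> simp
    · simp only [if_true]
      cases ep V <;> simp
  · rw [if_neg (fun h => hD (h10.1 h)), if_neg hD]

/-- every vertex with one letter is a vertex `uv p σ V` -/
theorem exists_uv {m : ℕ} {A : Finset (X (2*m+1))} (hA : A.card = 2*m+1)
    (h : (Lam A).card = 1) : ∃ p σ V, V.card = m ∧ p ∉ V ∧ uv p σ V = A := by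
  obtain ⟨p, hp⟩ := Finset.card_eq_one.1 h
  have hn : none ∉ A := by
    rw [none_iff A hA, h]; simp
  have h1 := card_Es A hA
  have h2 := card_n A
  rw [if_neg hn] at h1
  rw [h] at h2
  have hpE : p ∉ Es A := Lam_not_Es A p (by rw [hp]; simp)
  have hpF : p ∉ Fs A := Lam_not_Fs A p (by rw [hp]; simp)
  have hco : ∀ q, q ∈ Lam A ↔ q = p := fun q => by rw [hp]; simp
  have hEF : co (Es A) p = Fs A := by
    ext q
    have h3 := trich A q
    have h4 := Es_not_Fs A q
    have h5 := hco q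
    simp only [co, Finset.mem_sdiff, Finset.mem_univ, true_and, Finset.mem_insert]
    constructor
    · intro h6; tauto
    · intro h6 h7
      rcases h7 with rfl | h7
      · exact hpF h6
      · exact h4 h7 h6
  have key : ∀ σ V, sg A p = σ → (V = if σ = true then Es A else Fs A) → V.card = m → p ∉ V →
      uv p σ V = A := by
    intro σ V hs hV hc hpV
    obtain ⟨g1, g2, g3, g4, g5, g6⟩ := uv_facts p σ V hc hpV
    refine ext_A _ _ ⟨fun h => absurd h g4, fun h => absurd h hn⟩ (by rw [g2, hp]) ?_ ?_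
    · intro i hi
      rw [g2, Finset.mem_singleton] at hi
      rw [hi, g3, hs]
    · rw [g6]
      cases σ
      · rw [hV]; simp
      · rw [hV]; simpa using hEF
  refine ⟨p, sg A p, if sg A p = true then Es A else Fs A, ?_, ?_, key _ _ rfl rfl ?_ ?_⟩
  · split_ifs <;> omega
  · split_ifs
    · exact hpE
    · exact hpF
  · split_ifs <;> omega
  · split_ifs
    · exact hpE
    · exact hpF

/-- reindexing of the charges -/
theorem reindex {m : ℕ} (S : Finset (ZMod 6)) (ep : Finset (Fin (2*m+1)) → Bool)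
    (L : Finset (X (2*m+1)) → X (2*m+1) → Bool) (hL : Good m S (Dep ep) L)
    (g : Finset (X (2*m+1)) → ℝ) :
    ∑ A ∈ univ.powersetCard (2*m+1), psv L ep A * g A =
      ∑ p : Fin (2*m+1), ∑ σ : Bool, ∑ V ∈ (univ.erase p).powersetCard m,
        ps ep σ p V * g (uv p σ V) := by
  classical
  have hmem : ∀ (p : Fin (2*m+1)) V, V ∈ (univ.erase p).powersetCard m ↔ V.card = m ∧ p ∉ V := by
    intro p V
    rw [Finset.mem_powersetCard]
    constructor
    · rintro ⟨h1, h2⟩
      exact ⟨h2, fun h => by simpa using h1 h⟩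
    · rintro ⟨h1, h2⟩
      refine ⟨fun x hx => ?_, h1⟩
      rw [Finset.mem_erase]
      refine ⟨?_, Finset.mem_univ _⟩
      rintro rfl
      exact h2 hx
  set I : Finset (Fin (2*m+1) × Bool × Finset (Fin (2*m+1))) :=
    univ.filter fun q => q.2.2.card = m ∧ q.1 ∉ q.2.2 with hI
  have h1 : ∑ p : Fin (2*m+1), ∑ σ : Bool, ∑ V ∈ (univ.erase p).powersetCard m,
        ps ep σ p V * g (uv p σ V) = ∑ q ∈ I, psv L ep (uv q.1 q.2.1 q.2.2) *
          g (uv q.1 q.2.1 q.2.2) := by
    rw [hI, Finset.sum_filter, Fintype.sum_prod_type]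
    refine Finset.sum_congr rfl fun p _ => ?_
    rw [Fintype.sum_prod_type]
    refine Finset.sum_congr rfl fun σ _ => ?_
    rw [← Finset.sum_filter]
    refine Finset.sum_congr ?_ fun V hV => ?_
    · ext V
      rw [hmem, Finset.mem_filter]
      simp
    · have hV' : V.card = m ∧ p ∉ V := by simpa using hV
      rw [psv_uv hL p σ V hV'.1 hV'.2]
  have hinj : Set.InjOn (fun q : Fin (2*m+1) × Bool × Finset (Fin (2*m+1)) =>
      uv q.1 q.2.1 q.2.2) (I : Set (Fin (2*m+1) × Bool × Finset (Fin (2*m+1)))) := by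
    rintro ⟨p, σ, V⟩ hq ⟨p', σ', V'⟩ hq' he
    rw [hI, Finset.mem_coe, Finset.mem_filter] at hq hq'
    obtain ⟨-, hV, hp⟩ := hq
    obtain ⟨-, hV', hp'⟩ := hq'
    dsimp only at hV hp hV' hp' he
    obtain ⟨a1, a2, a3, a4, a5, a6⟩ := uv_facts p σ V hV hp
    obtain ⟨b1, b2, b3, b4, b5, b6⟩ := uv_facts p' σ' V' hV' hp'
    rw [he] at a2 a3 a5 a6
    have e1 : p' = p := Finset.singleton_injective (b2.symm.trans a2)
    subst e1
    have e2 : σ' = σ := b3.symm.trans a3
    subst e2
    have e3 : V' = V := by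
      rw [b5] at a5; rw [b6] at a6
      cases σ' <;> simp_all
    rw [e3]
  rw [h1, ← Finset.sum_image (f := fun A => psv L ep A * g A) hinj]
  symm
  refine Finset.sum_subset ?_ ?_
  · intro A hA
    rw [Finset.mem_image] at hA
    obtain ⟨⟨p, σ, V⟩, hq, rfl⟩ := hA
    rw [hI, Finset.mem_filter] at hq
    rw [Finset.mem_powersetCard]
    exact ⟨Finset.subset_univ _, (uv_facts p σ V hq.2.1 hq.2.2).1⟩
  · intro A hA hA'
    rw [Finset.mem_powersetCard] at hA
    have h2 : ¬ (Lam A).card = 1 := by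
      intro h
      obtain ⟨p, σ, V, hV, hp, rfl⟩ := exists_uv hA.2 h
      apply hA'
      rw [Finset.mem_image]
      exact ⟨(p, σ, V), by rw [hI, Finset.mem_filter]; exact ⟨Finset.mem_univ _, hV, hp⟩, rfl⟩
    unfold psv
    rw [if_neg (fun h => h2 h.1), zero_mul]

end OddG
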