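import Pool.Agent.Lib.MP_e26f2a_co.Helpers

set_option autoImplicit false

/-!
# MP_e26f2a_co: piece E24, rerouting through helpers
-/

namespace OddG

open Finset

section arcs

variable {m : ℕ}

theorem fl_comm (p x y : Fin (2*m+1)) (σ : Bool) : fl p x y σ = fl p y x σ := by
  unfold fl
  by_cases h : p < x ∧ p < y
  · rw [if_pos h, if_pos ⟨h.2, h.1⟩]
  · rw [if_neg h, if_neg (fun h' => h ⟨h'.2, h'.1⟩)]

theorem fl_fl (p x y : Fin (2*m+1)) (σ : Bool) : fl p x y (fl p x y σ) = σ := by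
  unfold fl
  by_cases h : p < x ∧ p < y
  · rw [if_pos h, if_pos h, Bool.not_not]
  · rw [if_neg h, if_neg h]

theorem mem_co (V : Finset (Fin (2*m+1))) (p x : Fin (2*m+1)) : x ∈ co V p ↔ x ≠ p ∧ x ∉ V := by
  unfold co
  rw [mem_sdiff, mem_insert, not_or]
  simp

theorem mem_P (V : Finset (Fin (2*m+1))) (p : Fin (2*m+1)) :
    V ∈ (univ.erase p).powersetCard m ↔ p ∉ V ∧ V.card = m := by
  rw [mem_powersetCard]
  constructor
  · rintro ⟨h1, h2⟩
    exact ⟨fun h => by simpa using h1 h, h2⟩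
  · rintro ⟨h1, h2⟩
    refine ⟨?_, h2⟩
    intro z hz
    rw [mem_erase]
    exact ⟨fun e => h1 (e ▸ hz), mem_univ _⟩

theorem card_co (V : Finset (Fin (2*m+1))) (p : Fin (2*m+1)) (hp : p ∉ V) (hV : V.card = m) :
    (co V p).card = m := by
  unfold co
  rw [card_univ_sdiff, card_insert_of_notMem hp, hV, Fintype.card_fin]
  omega

theorem sw_facts (V : Finset (Fin (2*m+1))) (p y x : Fin (2*m+1)) (hp : p ∉ V)
    (hV : V.card = m) (hy : y ∈ V) (hx : x ∉ V) (hxp : x ≠ p) :
    p ∉ sw V y x ∧ (sw V y x).card = m ∧ x ∈ sw V y x ∧ y ∉ sw V y x ∧ sw (sw V y x) x y = V := by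
  unfold sw
  have hxy : x ≠ y := fun e => hx (e ▸ hy)
  have hxV : x ∉ V.erase y := fun h => hx (mem_of_mem_erase h)
  refine ⟨?_, ?_, mem_insert_self _ _, ?_, ?_⟩
  · rw [mem_insert, not_or]
    exact ⟨hxp.symm, fun h => hp (mem_of_mem_erase h)⟩
  · rw [card_insert_of_notMem hxV, card_erase_of_mem hy]
    have := card_pos.mpr ⟨y, hy⟩
    omega
  · rw [mem_insert, mem_erase]
    rintro (h | ⟨h, _⟩)
    · exact hxy h.symm
    · exact h rfl
  · rw [erase_insert hxV, insert_erase hy]

/-- the sum over all arcs of all sheets -/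
noncomputable def arcSum (p : Fin (2*m+1))
    (Φ : Bool → Finset (Fin (2*m+1)) → Fin (2*m+1) → Fin (2*m+1) → ℝ) : ℝ :=
  ∑ σ : Bool, ∑ V ∈ (univ.erase p).powersetCard m, ∑ y ∈ V, ∑ x ∈ co V p, Φ σ V y x

theorem arcSum_congr (p : Fin (2*m+1))
    (Φ Ψ : Bool → Finset (Fin (2*m+1)) → Fin (2*m+1) → Fin (2*m+1) → ℝ)
    (h : ∀ σ V y x, p ∉ V → V.card = m → y ∈ V → x ∉ V → x ≠ p → Φ σ V y x = Ψ σ V y x) :
    arcSum p Φ = arcSum p Ψ := by
  unfold arcSum
  refine sum_congr rfl fun σ _ => sum_congr rfl fun V hV => sum_congr rfl fun y hy =>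
    sum_congr rfl fun x hx => ?_
  rw [mem_P] at hV
  rw [mem_co] at hx
  exact h σ V y x hV.1 hV.2 hy hx.2 hx.1

theorem arcSum_le (p : Fin (2*m+1))
    (Φ Ψ : Bool → Finset (Fin (2*m+1)) → Fin (2*m+1) → Fin (2*m+1) → ℝ)
    (h : ∀ σ V y x, p ∉ V → V.card = m → y ∈ V → x ∉ V → x ≠ p → Φ σ V y x ≤ Ψ σ V y x) :
    arcSum p Φ ≤ arcSum p Ψ := by
  unfold arcSum
  refine sum_le_sum fun σ _ => sum_le_sum fun V hV => sum_le_sum fun y hy =>
    sum_le_sum fun x hx => ?_
  rw [mem_P] at hV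
  rw [mem_co] at hx
  exact h σ V y x hV.1 hV.2 hy hx.2 hx.1

theorem arcSum_add (p : Fin (2*m+1))
    (Φ Ψ : Bool → Finset (Fin (2*m+1)) → Fin (2*m+1) → Fin (2*m+1) → ℝ) :
    arcSum p (fun σ V y x => Φ σ V y x + Ψ σ V y x) = arcSum p Φ + arcSum p Ψ := by
  unfold arcSum
  simp only [sum_add_distrib]

theorem arcSum_smul (p : Fin (2*m+1)) (c : ℝ)
    (Φ : Bool → Finset (Fin (2*m+1)) → Fin (2*m+1) → Fin (2*m+1) → ℝ) :
    arcSum p (fun σ V y x => c * Φ σ V y x) = c * arcSum p Φ := by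
  unfold arcSum
  simp only [mul_sum]

/-- reversing the arcs -/
theorem arcSum_rev (p : Fin (2*m+1))
    (Φ : Bool → Finset (Fin (2*m+1)) → Fin (2*m+1) → Fin (2*m+1) → ℝ) :
    arcSum p (fun σ V y x => Φ (fl p x y σ) (sw V y x) x y) = arcSum p Φ := by
  have conv : ∀ h : Bool → Finset (Fin (2*m+1)) → Fin (2*m+1) → Fin (2*m+1) → ℝ,
      arcSum p h = ∑ t ∈ (univ : Finset (Bool × Finset (Fin (2*m+1)) × Fin (2*m+1) ×
        Fin (2*m+1))).filter (fun t => (p ∉ t.2.1 ∧ t.2.1.card = m) ∧ t.2.2.1 ∈ t.2.1 ∧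
          t.2.2.2 ≠ p ∧ t.2.2.2 ∉ t.2.1), h t.1 t.2.1 t.2.2.1 t.2.2.2 := by
    intro h
    unfold arcSum
    rw [sum_filter, ← univ_product_univ, sum_product]
    refine sum_congr rfl fun σ _ => ?_
    rw [← univ_product_univ, sum_product]
    have e1 : (univ.erase p).powersetCard m =
        (univ : Finset (Finset (Fin (2*m+1)))).filter (fun V => p ∉ V ∧ V.card = m) := by
      ext V
      rw [mem_P, mem_filter]
      simp
    rw [e1, sum_filter]
    refine sum_congr rfl fun V _ => ?_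
    rw [← univ_product_univ, sum_product]
    by_cases hV : p ∉ V ∧ V.card = m
    · rw [if_pos hV]
      simp only [hV, not_false_eq_true, and_self, true_and]
      have e2 : V = (univ : Finset (Fin (2*m+1))).filter (fun y => y ∈ V) := by
        ext y; simp
      conv_lhs => rw [e2, sum_filter]
      rw [← e2]
      refine sum_congr rfl fun y _ => ?_
      by_cases hy : y ∈ V
      · simp only [hy, if_true, true_and]
        rw [← sum_filter]
        refine sum_congr ?_ fun _ _ => rfl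
        ext x
        rw [mem_co, mem_filter]
        simp
      · simp [hy]
    · rw [if_neg hV]
      symm
      refine sum_eq_zero fun y _ => sum_eq_zero fun x _ => ?_
      rw [if_neg]
      intro h
      exact hV h.1
  rw [conv, conv]
  refine sum_bij' (fun t _ => (fl p t.2.2.2 t.2.2.1 t.1, sw t.2.1 t.2.2.1 t.2.2.2, t.2.2.2, t.2.2.1))
    (fun t _ => (fl p t.2.2.2 t.2.2.1 t.1, sw t.2.1 t.2.2.1 t.2.2.2, t.2.2.2, t.2.2.1))
    ?_ ?_ ?_ ?_ ?_
  · rintro ⟨σ, V, y, x⟩ ht
    simp only [mem_filter, mem_univ, true_and] at ht ⊢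
    obtain ⟨⟨hp, hV⟩, hy, hxp, hx⟩ := ht
    obtain ⟨k1, k2, k3, k4, -⟩ := sw_facts V p y x hp hV hy hx hxp
    exact ⟨⟨k1, k2⟩, k3, fun e => hp (e ▸ hy), k4⟩
  · rintro ⟨σ, V, y, x⟩ ht
    simp only [mem_filter, mem_univ, true_and] at ht ⊢
    obtain ⟨⟨hp, hV⟩, hy, hxp, hx⟩ := ht
    obtain ⟨k1, k2, k3, k4, -⟩ := sw_facts V p y x hp hV hy hx hxp
    exact ⟨⟨k1, k2⟩, k3, fun e => hp (e ▸ hy), k4⟩
  · rintro ⟨σ, V, y, x⟩ ht
    simp only [mem_filter, mem_univ, true_and] at ht
    obtain ⟨⟨hp, hV⟩, hy, hxp, hx⟩ := ht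
    obtain ⟨-, -, -, -, k5⟩ := sw_facts V p y x hp hV hy hx hxp
    simp only [k5]
    rw [fl_comm p y x, fl_fl]
  · rintro ⟨σ, V, y, x⟩ ht
    simp only [mem_filter, mem_univ, true_and] at ht
    obtain ⟨⟨hp, hV⟩, hy, hxp, hx⟩ := ht
    obtain ⟨-, -, -, -, k5⟩ := sw_facts V p y x hp hV hy hx hxp
    simp only [k5]
    rw [fl_comm p y x, fl_fl]
  · rintro ⟨σ, V, y, x⟩ ht
    rfl

theorem sum_erase_count {ι : Type} [DecidableEq ι] (C : Finset ι) (F : ι → ℝ) :
    ∑ x ∈ C, ∑ z ∈ C.erase x, F z = ((C.card : ℝ) - 1) * ∑ z ∈ C, F z := by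
  have h : ∀ x ∈ C, ∑ z ∈ C.erase x, F z = (∑ z ∈ C, F z) - F x := by
    intro x hx
    rw [← add_sum_erase C F hx]
    ring
  rw [sum_congr rfl h, sum_sub_distrib, sum_const, nsmul_eq_mul]
  ring

/-- role 1: the second end of the arc is a helper -/
theorem arcSum_role1 (p : Fin (2*m+1))
    (D : Bool → Finset (Fin (2*m+1)) → Fin (2*m+1) → Fin (2*m+1) → ℝ) :
    arcSum p (fun σ V y x => ∑ z ∈ (co V p).erase x, D σ V y z) = ((m : ℝ) - 1) * arcSum p D := by
  unfold arcSum
  rw [mul_sum]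
  refine sum_congr rfl fun σ _ => ?_
  rw [mul_sum]
  refine sum_congr rfl fun V hV => ?_
  rw [mem_P] at hV
  rw [mul_sum]
  refine sum_congr rfl fun y _ => ?_
  rw [sum_erase_count, card_co V p hV.1 hV.2]

/-- role 3: the first end of the arc is a helper -/
theorem arcSum_role3 (p : Fin (2*m+1))
    (D : Bool → Finset (Fin (2*m+1)) → Fin (2*m+1) → Fin (2*m+1) → ℝ) :
    arcSum p (fun σ V y x => ∑ z ∈ V.erase y, D σ V z x) = ((m : ℝ) - 1) * arcSum p D := by
  unfold arcSum
  rw [mul_sum]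
  refine sum_congr rfl fun σ _ => ?_
  rw [mul_sum]
  refine sum_congr rfl fun V hV => ?_
  rw [mem_P] at hV
  have e1 : ∑ y ∈ V, ∑ x ∈ co V p, ∑ z ∈ V.erase y, D σ V z x =
      ∑ y ∈ V, ∑ z ∈ V.erase y, ∑ x ∈ co V p, D σ V z x := by
    refine sum_congr rfl fun y _ => ?_
    rw [sum_comm]
  rw [e1, sum_erase_count V (fun z => ∑ x ∈ co V p, D σ V z x), hV.2]

/-- role 2 -/
theorem arcSum_role2 (p : Fin (2*m+1))
    (D : Bool → Finset (Fin (2*m+1)) → Fin (2*m+1) → Fin (2*m+1) → ℝ) :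
    arcSum p (fun σ V y x => ∑ z ∈ (co V p).erase x, D (fl p z y σ) (sw V y z) z x) =
      ((m : ℝ) - 1) * arcSum p D := by
  -- exchange the names of `x` and `z`
  have e1 : arcSum p (fun σ V y x => ∑ z ∈ (co V p).erase x, D (fl p z y σ) (sw V y z) z x) =
      arcSum p (fun σ V y x => ∑ z ∈ (co V p).erase x, D (fl p x y σ) (sw V y x) x z) := by
    unfold arcSum
    refine sum_congr rfl fun σ _ => sum_congr rfl fun V _ => sum_congr rfl fun y _ => ?_
    rw [sum_comm' (t' := co V p) (s' := fun x => (co V p).erase x)]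
    intro x z
    rw [mem_erase, mem_erase]
    constructor
    · rintro ⟨h1, h2, h3⟩
      exact ⟨⟨h2.symm, h1⟩, h3⟩
    · rintro ⟨⟨h1, h2⟩, h3⟩
      exact ⟨h2, h1.symm, h3⟩
  rw [e1]
  have e2 : arcSum p (fun σ V y x => ∑ z ∈ (co V p).erase x, D (fl p x y σ) (sw V y x) x z) =
      arcSum p (fun σ V y x => (fun σ' V' y' x' => ∑ z ∈ (co V' p).erase x', D σ' V' y' z)
        (fl p x y σ) (sw V y x) x y) := by
    apply arcSum_congr
    intro σ V y x hp hV hy hx hxp
    refine sum_congr ?_ fun _ _ => rfl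
    ext z
    rw [mem_erase, mem_erase, mem_co, mem_co]
    unfold sw
    rw [mem_insert, mem_erase]
    constructor
    · rintro ⟨h1, h2, h3⟩
      refine ⟨fun e => h3 (e ▸ hy), h2, ?_⟩
      rintro (h | ⟨_, h⟩)
      · exact h1 h
      · exact h3 h
    · rintro ⟨h1, h2, h3⟩
      push Not at h3
      exact ⟨h3.1, h2, h3.2 h1⟩
  rw [e2, arcSum_rev p (fun σ' V' y' x' => ∑ z ∈ (co V' p).erase x', D σ' V' y' z),
    arcSum_role1]

/-- role 4 -/
theorem arcSum_role4 (p : Fin (2*m+1))
    (D : Bool → Finset (Fin (2*m+1)) → Fin (2*m+1) → Fin (2*m+1) → ℝ) :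
    arcSum p (fun σ V y x => ∑ z ∈ V.erase y, D (fl p x z σ) (sw V z x) y z) =
      ((m : ℝ) - 1) * arcSum p D := by
  have e1 : arcSum p (fun σ V y x => ∑ z ∈ V.erase y, D (fl p x z σ) (sw V z x) y z) =
      arcSum p (fun σ V y x => ∑ z ∈ V.erase y, D (fl p x y σ) (sw V y x) z y) := by
    unfold arcSum
    refine sum_congr rfl fun σ _ => sum_congr rfl fun V _ => ?_
    have s1 : ∑ y ∈ V, ∑ x ∈ co V p, ∑ z ∈ V.erase y, D (fl p x z σ) (sw V z x) y z =
        ∑ y ∈ V, ∑ z ∈ V.erase y, ∑ x ∈ co V p, D (fl p x z σ) (sw V z x) y z :=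
      sum_congr rfl fun y _ => sum_comm
    have s2 : ∑ y ∈ V, ∑ x ∈ co V p, ∑ z ∈ V.erase y, D (fl p x y σ) (sw V y x) z y =
        ∑ y ∈ V, ∑ z ∈ V.erase y, ∑ x ∈ co V p, D (fl p x y σ) (sw V y x) z y :=
      sum_congr rfl fun y _ => sum_comm
    rw [s1, s2]
    rw [sum_comm' (t' := V) (s' := fun y => V.erase y)]
    intro y z
    rw [mem_erase, mem_erase]
    constructor
    · rintro ⟨h1, h2, h3⟩
      exact ⟨⟨h2.symm, h1⟩, h3⟩
    · rintro ⟨⟨h1, h2⟩, h3⟩
      exact ⟨h2, h1.symm, h3⟩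
  rw [e1]
  have e2 : arcSum p (fun σ V y x => ∑ z ∈ V.erase y, D (fl p x y σ) (sw V y x) z y) =
      arcSum p (fun σ V y x => (fun σ' V' y' x' => ∑ z ∈ V'.erase y', D σ' V' z x')
        (fl p x y σ) (sw V y x) x y) := by
    apply arcSum_congr
    intro σ V y x hp hV hy hx hxp
    refine sum_congr ?_ fun _ _ => rfl
    unfold sw
    rw [erase_insert (fun h => hx (mem_of_mem_erase h))]
  rw [e2, arcSum_rev p (fun σ' V' y' x' => ∑ z ∈ V'.erase y', D σ' V' z x'), arcSum_role3]

end arcs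

theorem reroute {m : ℕ} (hm : 131 ≤ m) (S : Finset (ZMod 6)) (hS : GS S) (p : Fin (2*m+1))
    (G : Bool → Finset (Fin (2*m+1)) → ℝ) :
    ∑ σ : Bool, ∑ V ∈ (univ.erase p).powersetCard m, ∑ y ∈ V, ∑ x ∈ co V p,
      |G σ V - G σ (sw V y x)| ≤
    14 * ∑ σ : Bool, ∑ V ∈ (univ.erase p).powersetCard m, ∑ y ∈ V, ∑ x ∈ co V p,
      (if al S p x y then |G σ V - G (fl p x y σ) (sw V y x)| else 0) := by
  set D : Bool → Finset (Fin (2*m+1)) → Fin (2*m+1) → Fin (2*m+1) → ℝ := fun σ V y x =>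
    if al S p x y then |G σ V - G (fl p x y σ) (sw V y x)| else 0 with hD
  have hD0 : ∀ σ V y x, 0 ≤ D σ V y x := by
    intro σ V y x
    rw [hD]
    simp only
    split_ifs
    · exact abs_nonneg _
    · exact le_rfl
  change arcSum p (fun σ V y x => |G σ V - G σ (sw V y x)|) ≤ 14 * arcSum p D
  have hm0 : (131 : ℝ) ≤ m := by exact_mod_cast hm
  have hA0 : 0 ≤ arcSum p D := by
    unfold arcSum
    exact sum_nonneg fun σ _ => sum_nonneg fun V _ => sum_nonneg fun y _ =>
      sum_nonneg fun x _ => hD0 σ V y x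
  -- the pointwise inequality
  have point : ∀ σ V y x, p ∉ V → V.card = m → y ∈ V → x ∉ V → x ≠ p →
      ((m : ℝ) - 11) * |G σ V - G σ (sw V y x)| ≤ 3 * (
        (∑ z ∈ (co V p).erase x, D σ V y z +
          ∑ z ∈ (co V p).erase x, D (fl p z y σ) (sw V y z) z x) +
        (∑ z ∈ V.erase y, D σ V z x + ∑ z ∈ V.erase y, D (fl p x z σ) (sw V z x) y z)) +
        ((m : ℝ) - 11) * D σ V y x := by
    intro σ V y x hp hV hy hx hxp
    have hyp : y ≠ p := fun e => hp (e ▸ hy)
    have hxy : x ≠ y := fun e => hx (e ▸ hy)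
    have r1 : 0 ≤ ∑ z ∈ (co V p).erase x, D σ V y z := sum_nonneg fun z _ => hD0 _ _ _ _
    have r2 : 0 ≤ ∑ z ∈ (co V p).erase x, D (fl p z y σ) (sw V y z) z x :=
      sum_nonneg fun z _ => hD0 _ _ _ _
    have r3 : 0 ≤ ∑ z ∈ V.erase y, D σ V z x := sum_nonneg fun z _ => hD0 _ _ _ _
    have r4 : 0 ≤ ∑ z ∈ V.erase y, D (fl p x z σ) (sw V z x) y z :=
      sum_nonneg fun z _ => hD0 _ _ _ _
    by_cases hcr : (x < p ∧ p < y) ∨ (y < p ∧ p < x)
    · -- crossing
      have hal : al S p x y := by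
        unfold al
        rcases hcr with h | h
        · exact Or.inl h
        · exact Or.inr (Or.inl h)
      have hfl : fl p x y σ = σ := by
        unfold fl
        rw [if_neg]
        rintro ⟨h1, h2⟩
        rcases hcr with h | h
        · exact lt_asymm h.1 h1
        · exact lt_asymm h.1 h2
      have e : D σ V y x = |G σ V - G σ (sw V y x)| := by
        rw [hD]
        simp only
        rw [if_pos hal, hfl]
      rw [e]
      have : 0 ≤ ((m : ℝ) - 11) := by linarith
      linarith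
    · -- same side
      have hside : p < x ↔ p < y := by
        push Not at hcr
        constructor
        · intro h
          rcases lt_or_gt_of_ne hyp with h1 | h1
          · exact absurd h (not_lt.mpr (hcr.2 h1))
          · exact h1
        · intro h
          rcases lt_or_gt_of_ne hxp with h1 | h1
          · exact absurd h (not_lt.mpr (hcr.1 h1))
          · exact h1
      have hH := helper_count S hS p x y
      set Hs := univ.filter fun z : Fin (2*m+1) => z ≠ p ∧ z ≠ x ∧ z ≠ y ∧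
        (((p : ℕ) + (x : ℕ) + (z : ℕ) : ℕ) : ZMod 6) ∈ S ∧
        (((p : ℕ) + (y : ℕ) + (z : ℕ) : ℕ) : ZMod 6) ∈ S with hHs
      have hmemH : ∀ z ∈ Hs, z ≠ p ∧ z ≠ x ∧ z ≠ y ∧
          (((p : ℕ) + (x : ℕ) + (z : ℕ) : ℕ) : ZMod 6) ∈ S ∧
          (((p : ℕ) + (y : ℕ) + (z : ℕ) : ℕ) : ZMod 6) ∈ S := by
        intro z hz
        rw [hHs, mem_filter] at hz
        exact hz.2
      -- helpers outside of `V`
      have t1 : ∀ z ∈ Hs, z ∉ V → |G σ V - G σ (sw V y x)| ≤
          D σ V y z + D (fl p z y σ) (sw V y z) z x := by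
        intro z hz hzV
        obtain ⟨h1, h2, h3, h4, h5⟩ := hmemH z hz
        have a1 : al S p z y := by
          unfold al
          right; right
          rw [show (p : ℕ) + (z : ℕ) + (y : ℕ) = p + y + z by ring]
          exact h5
        have a2 : al S p x z := Or.inr (Or.inr h4)
        have f2 : fl p x z (fl p z y σ) = σ := by
          unfold fl
          by_cases hz' : p < z ∧ p < y
          · rw [if_pos hz', if_pos ⟨hside.mpr hz'.2, hz'.1⟩, Bool.not_not]
          · rw [if_neg hz', if_neg (fun h => hz' ⟨h.2, hside.mp h.1⟩)]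
        have s2 : sw (sw V y z) z x = sw V y x := by
          unfold sw
          rw [erase_insert (fun h => hzV (mem_of_mem_erase h))]
        have e1 : D σ V y z = |G σ V - G (fl p z y σ) (sw V y z)| := by
          rw [hD]; simp only; rw [if_pos a1]
        have e2 : D (fl p z y σ) (sw V y z) z x =
            |G (fl p z y σ) (sw V y z) - G σ (sw V y x)| := by
          rw [hD]; simp only; rw [if_pos a2, f2, s2]
        rw [e1, e2]
        exact abs_sub_le _ _ _
      -- helpers inside of `V`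
      have t2 : ∀ z ∈ Hs, z ∈ V → |G σ V - G σ (sw V y x)| ≤
          D σ V z x + D (fl p x z σ) (sw V z x) y z := by
        intro z hz hzV
        obtain ⟨h1, h2, h3, h4, h5⟩ := hmemH z hz
        have a1 : al S p x z := Or.inr (Or.inr h4)
        have a2 : al S p z y := by
          unfold al
          right; right
          rw [show (p : ℕ) + (z : ℕ) + (y : ℕ) = p + y + z by ring]
          exact h5
        have f2 : fl p z y (fl p x z σ) = σ := by
          unfold fl
          by_cases hz' : p < x ∧ p < z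
          · rw [if_pos hz', if_pos ⟨hz'.2, hside.mp hz'.1⟩, Bool.not_not]
          · rw [if_neg hz', if_neg (fun h => hz' ⟨hside.mpr h.2, h.1⟩)]
        have s2 : sw (sw V z x) y z = sw V y x := by
          unfold sw
          ext w
          rw [mem_insert, mem_erase, mem_insert, mem_erase, mem_insert, mem_erase]
          constructor
          · rintro (h | ⟨h, h' | ⟨h'', h'⟩⟩)
            · subst h
              exact Or.inr ⟨h3, hzV⟩
            · exact Or.inl h'
            · exact Or.inr ⟨h, h'⟩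
          · rintro (h | ⟨h, h'⟩)
            · subst h
              exact Or.inr ⟨hxy, Or.inl rfl⟩
            · by_cases hwz : w = z
              · exact Or.inl hwz
              · exact Or.inr ⟨h, Or.inr ⟨hwz, h'⟩⟩
        have e1 : D σ V z x = |G σ V - G (fl p x z σ) (sw V z x)| := by
          rw [hD]; simp only; rw [if_pos a1]
        have e2 : D (fl p x z σ) (sw V z x) y z =
            |G (fl p x z σ) (sw V z x) - G σ (sw V y x)| := by
          rw [hD]; simp only; rw [if_pos a2, f2, s2]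
        rw [e1, e2]
        exact abs_sub_le _ _ _
      -- sum over the helpers
      have u1 : (Hs.card : ℝ) * |G σ V - G σ (sw V y x)| ≤
          (∑ z ∈ (co V p).erase x, D σ V y z +
            ∑ z ∈ (co V p).erase x, D (fl p z y σ) (sw V y z) z x) +
          (∑ z ∈ V.erase y, D σ V z x + ∑ z ∈ V.erase y, D (fl p x z σ) (sw V z x) y z) := by
        have v1 : (Hs.card : ℝ) * |G σ V - G σ (sw V y x)| =
            ∑ z ∈ Hs.filter (fun z => z ∉ V), |G σ V - G σ (sw V y x)| +
            ∑ z ∈ Hs.filter (fun z => ¬ z ∉ V), |G σ V - G σ (sw V y x)| := by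
          rw [sum_filter_add_sum_filter_not, sum_const, nsmul_eq_mul]
        rw [v1, ← sum_add_distrib, ← sum_add_distrib]
        apply add_le_add
        · calc ∑ z ∈ Hs.filter (fun z => z ∉ V), |G σ V - G σ (sw V y x)| ≤
              ∑ z ∈ Hs.filter (fun z => z ∉ V),
                (D σ V y z + D (fl p z y σ) (sw V y z) z x) := by
                refine sum_le_sum fun z hz => ?_
                rw [mem_filter] at hz
                exact t1 z hz.1 hz.2
            _ ≤ _ := by
                refine sum_le_sum_of_subset_of_nonneg ?_ fun z _ _ => add_nonneg (hD0 _ _ _ _)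
                  (hD0 _ _ _ _)
                intro z hz
                rw [mem_filter] at hz
                obtain ⟨h1, h2, h3, -, -⟩ := hmemH z hz.1
                rw [mem_erase, mem_co]
                exact ⟨h2, h1, hz.2⟩
        · calc ∑ z ∈ Hs.filter (fun z => ¬ z ∉ V), |G σ V - G σ (sw V y x)| ≤
              ∑ z ∈ Hs.filter (fun z => ¬ z ∉ V),
                (D σ V z x + D (fl p x z σ) (sw V z x) y z) := by
                refine sum_le_sum fun z hz => ?_
                rw [mem_filter, not_not] at hz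
                exact t2 z hz.1 hz.2
            _ ≤ _ := by
                refine sum_le_sum_of_subset_of_nonneg ?_ fun z _ _ => add_nonneg (hD0 _ _ _ _)
                  (hD0 _ _ _ _)
                intro z hz
                rw [mem_filter, not_not] at hz
                obtain ⟨h1, h2, h3, -, -⟩ := hmemH z hz.1
                rw [mem_erase]
                exact ⟨h3, hz.2⟩
      have u2 : ((m : ℝ) - 11) * |G σ V - G σ (sw V y x)| ≤
          3 * ((Hs.card : ℝ) * |G σ V - G σ (sw V y x)|) := by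
        have := mul_le_mul_of_nonneg_right hH (abs_nonneg (G σ V - G σ (sw V y x)))
        linarith
      have u3 : 0 ≤ ((m : ℝ) - 11) * D σ V y x := mul_nonneg (by linarith) (hD0 _ _ _ _)
      linarith
  have total := arcSum_le p _ _ point
  rw [arcSum_smul, arcSum_add, arcSum_smul, arcSum_smul, arcSum_add, arcSum_add, arcSum_add,
    arcSum_role1, arcSum_role2, arcSum_role3, arcSum_role4] at total
  set X := arcSum p (fun σ V y x => |G σ V - G σ (sw V y x)|)
  set A := arcSum p D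
  have h1 : ((m : ℝ) - 11) * X ≤ ((m : ℝ) - 11) * (14 * A) := by
    have : 0 ≤ ((m : ℝ) - 131) * A := mul_nonneg (by linarith) hA0
    linarith
  exact le_of_mul_le_mul_left h1 (by linarith)

end OddG
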