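import Pool.Agent.Lib.MP_e26f2a_co.LinkDefs

set_option autoImplicit false

namespace OddG

open Finset

theorem card_X (m k : ℕ) (hk : k = 2*(m+1)) :
    Fintype.card (X (2*m+1)) = Fintype.card (Fin (2*k-1)) := by
  simp only [X, Fintype.card_option, Fintype.card_prod, Fintype.card_fin, Fintype.card_bool]
  omega

/-- two disjoint vertices: the unique element outside both -/
theorem out_elem {m : ℕ} (A B : Finset (X (2*m+1))) (hA : A.card = 2*m+1) (hB : B.card = 2*m+1)
    (hAB : Disjoint A B) : ∃ x, univ \ (A ∪ B) = {x} ∧ x ∉ A ∧ B = N A x := by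
  have h1 : (univ \ (A ∪ B)).card = 1 := by
    rw [Finset.card_sdiff_of_subset (Finset.subset_univ _), Finset.card_union_of_disjoint hAB, hA,
      hB, Finset.card_univ]
    simp only [X, Fintype.card_option, Fintype.card_prod, Fintype.card_fin, Fintype.card_bool]
    omega
  obtain ⟨x, hx⟩ := Finset.card_eq_one.1 h1
  have h2 : ∀ y, (y ∉ A ∧ y ∉ B) ↔ y = x := by
    intro y
    have : y ∈ univ \ (A ∪ B) ↔ y ∈ ({x} : Finset (X (2*m+1))) := by rw [hx]
    simpa [Finset.mem_sdiff, Finset.mem_union, not_or] using this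
  refine ⟨x, hx, ((h2 x).2 rfl).1, ?_⟩
  ext y
  rw [mem_N]
  constructor
  · intro hy
    refine ⟨?_, fun h => Finset.disjoint_left.1 hAB h hy⟩
    rintro rfl
    exact ((h2 y).2 rfl).2 hy
  · rintro ⟨h3, h4⟩
    by_contra h5
    exact h3 ((h2 y).1 ⟨h4, h5⟩)

/-- transfer to the frozen shape -/
theorem transfer (m : ℕ) (col : Finset (X (2*m+1)) → X (2*m+1) → ℕ)
    (h1 : ∀ A x, A.card = 2*m+1 → x ∉ A → col A x < 2*(m+1))
    (h2 : ∀ A x, A.card = 2*m+1 → x ∉ A → col (N A x) x = col A x)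
    (h3 : ∀ A x y, A.card = 2*m+1 → x ∉ A → y ∉ A → x ≠ y → col A x ≠ col A y)
    (k : ℕ) (hk : k = 2*(m+1)) :
    ∃ c : Finset (Fin (2 * k - 1)) → Finset (Fin (2 * k - 1)) → Fin k,
        (∀ s t : Finset (Fin (2 * k - 1)),
            s.card = k - 1 → t.card = k - 1 → Disjoint s t → c s t = c t s) ∧
        (∀ s t u : Finset (Fin (2 * k - 1)),
            s.card = k - 1 → t.card = k - 1 → u.card = k - 1 →
            Disjoint s t → Disjoint s u → t ≠ u → c s t ≠ c s u) := by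
  classical
  have hpos : 0 < k := by omega
  let e : Fin (2*k-1) ≃ X (2*m+1) := (Fintype.equivOfCardEq (card_X m k hk)).symm
  let P : Finset (Fin (2*k-1)) → Finset (X (2*m+1)) := fun s => s.map e.toEmbedding
  have hcard : ∀ s : Finset (Fin (2*k-1)), s.card = k - 1 → (P s).card = 2*m+1 := by
    intro s hs
    show (s.map e.toEmbedding).card = 2*m+1
    rw [Finset.card_map, hs]; omega
  have hdis : ∀ s t : Finset (Fin (2*k-1)), Disjoint s t → Disjoint (P s) (P t) :=
    fun s t h => (Finset.disjoint_map _).2 h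
  have hval : ∀ s t : Finset (Fin (2*k-1)), s.card = k - 1 → t.card = k - 1 → Disjoint s t →
      ∃ x, x ∉ P s ∧ P t = N (P s) x ∧
        ∀ f : X (2*m+1) → ℕ, ∑ y ∈ univ \ (P s ∪ P t), f y = f x := by
    intro s t hs ht hst
    obtain ⟨x, hx1, hx2, hx3⟩ := out_elem (P s) (P t) (hcard s hs) (hcard t ht) (hdis s t hst)
    exact ⟨x, hx2, hx3, fun f => by rw [hx1, Finset.sum_singleton]⟩
  refine ⟨fun s t => ⟨(∑ x ∈ univ \ (P s ∪ P t), col (P s) x) % k, Nat.mod_lt _ hpos⟩, ?_, ?_⟩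
  · intro s t hs ht hst
    apply Fin.ext
    show (∑ x ∈ univ \ (P s ∪ P t), col (P s) x) % k = (∑ x ∈ univ \ (P t ∪ P s), col (P t) x) % k
    obtain ⟨x, hx1, hx2, hx3⟩ := hval s t hs ht hst
    rw [Finset.union_comm (P t) (P s), hx3, hx3, hx2, h2 (P s) x (hcard s hs) hx1]
  · intro s t u hs ht hu hst hsu htu he
    have he' := congrArg Fin.val he
    have he2 : (∑ x ∈ univ \ (P s ∪ P t), col (P s) x) % k =
      (∑ x ∈ univ \ (P s ∪ P u), col (P s) x) % k := he'
    obtain ⟨x, hx1, hx2, hx3⟩ := hval s t hs ht hst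
    obtain ⟨y, hy1, hy2, hy3⟩ := hval s u hs hu hsu
    have hxy : x ≠ y := by
      rintro rfl
      apply htu
      have h4 : P t = P u := by rw [hx2, hy2]
      exact Finset.map_injective _ h4
    have b1 := h1 (P s) x (hcard s hs) hx1
    have b2 := h1 (P s) y (hcard s hs) hy1
    rw [hx3, hy3, Nat.mod_eq_of_lt (by omega), Nat.mod_eq_of_lt (by omega)] at he2
    exact h3 (P s) x y (hcard s hs) hx1 hy1 hxy he2

end OddG
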