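import Pool.Agent.Lib.MP_e26f2a_co.Orb
import Pool.Agent.Lib.MP_e26f2a_co.DepFacts

set_option autoImplicit false

namespace OddG

open Finset

namespace ZS

variable {m : ℕ}

theorem mem_co {V : Finset (Fin (2*m+1))} {p i : Fin (2*m+1)} :
    i ∈ co V p ↔ i ≠ p ∧ i ∉ V := by
  simp [co, not_or]

theorem card_co (V : Finset (Fin (2*m+1))) (p : Fin (2*m+1)) (hV : V.card = m) (hp : p ∉ V) :
    (co V p).card = m := by
  unfold co
  rw [card_sdiff_of_subset (subset_univ _), card_insert_of_notMem hp, hV]
  simp only [card_univ, Fintype.card_fin]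
  omega

theorem co_co (V : Finset (Fin (2*m+1))) (p : Fin (2*m+1)) (hp : p ∉ V) :
    co (co V p) p = V := by
  ext i
  rw [mem_co, mem_co]
  constructor
  · rintro ⟨h1, h2⟩
    by_contra h3
    exact h2 ⟨h1, h3⟩
  · intro hi
    refine ⟨?_, fun h => h.2 hi⟩
    rintro rfl
    exact hp hi

theorem p_co (V : Finset (Fin (2*m+1))) (p : Fin (2*m+1)) : p ∉ co V p := by
  rw [mem_co]; simp

theorem p_tr (V : Finset (Fin (2*m+1))) (p j : Fin (2*m+1)) (hp : p ∉ V) :
    p + j ∉ V.image (· + j) := by
  rw [mem_image]
  rintro ⟨a, ha, h⟩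
  exact hp (add_right_cancel h ▸ ha)

theorem co_tr (V : Finset (Fin (2*m+1))) (p j : Fin (2*m+1)) :
    co (V.image (· + j)) (p + j) = (co V p).image (· + j) := by
  ext i
  rw [mem_co, mem_image, mem_image]
  constructor
  · rintro ⟨h1, h2⟩
    refine ⟨i - j, ?_, sub_add_cancel i j⟩
    rw [mem_co]
    refine ⟨fun h => h1 (by rw [← h, sub_add_cancel]), fun h => h2 ⟨i - j, h, sub_add_cancel i j⟩⟩
  · rintro ⟨a, ha, rfl⟩
    rw [mem_co] at ha
    refine ⟨fun h => ha.1 (add_right_cancel h), ?_⟩
    rintro ⟨b, hb, h⟩
    exact ha.2 (add_right_cancel h ▸ hb)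

theorem mem_pc {V : Finset (Fin (2*m+1))} {p : Fin (2*m+1)} :
    V ∈ (univ.erase p).powersetCard m ↔ p ∉ V ∧ V.card = m := by
  rw [mem_powersetCard]
  refine and_congr_left fun _ => ?_
  constructor
  · intro h hp
    have := h hp
    simp at this
  · intro h i hi
    rw [mem_erase]
    exact ⟨fun e => h (e ▸ hi), mem_univ _⟩

/-- a sum of signs vanishes by balance -/
theorem bal_sum {δ : ℝ} (ep : Finset (Fin (2*m+1)) → Bool) (h : EpOK m δ ep) (c : ℝ) :
    ∑ V ∈ univ.powersetCard m, (if ep V = true then c else -c) = 0 := by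
  rw [sum_ite, sum_const, sum_const]
  have h1 : ((univ.powersetCard m).filter fun V : Finset (Fin (2*m+1)) => ¬ ep V = true) =
      (univ.powersetCard m).filter fun V => ep V = false := by
    refine filter_congr fun V _ => ?_
    cases ep V <;> simp
  rw [h1, h.bal, smul_neg, add_neg_cancel]

theorem cnt_minus (ep : Finset (Fin (2*m+1)) → Bool) (V : Finset (Fin (2*m+1)))
    (hV : V.card = m) :
    ((univ \ V).filter fun p => Dep ep V p = false).card =
      if ep V = true then d1 m else m + 1 - d1 m := by
  have h1 := cnt_plus ep V hV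
  have h2 := card_filter_add_card_filter_not (s := univ \ V) (fun p => Dep ep V p = true)
  have h3 : ((univ \ V).filter fun p => ¬ Dep ep V p = true) =
      (univ \ V).filter fun p => Dep ep V p = false := by
    refine filter_congr fun p _ => ?_
    cases Dep ep V p <;> simp
  rw [h3, h1, card_sdiff_of_subset (subset_univ _), hV, card_univ, Fintype.card_fin] at h2
  have h4 : d1 m ≤ m + 1 := by unfold d1; omega
  split_ifs at h2 ⊢ <;> omega

end ZS

open ZS

theorem zero_sum {m : ℕ} {δ : ℝ} (ep : Finset (Fin (2*m+1)) → Bool) (h : EpOK m δ ep) (σ : Bool)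
    (p : Fin (2*m+1)) : ∑ V ∈ (univ.erase p).powersetCard m, ps ep σ p V = 0 := by
  classical
  -- rotation invariance
  have hrot : ∀ j : Fin (2*m+1), ∑ V ∈ (univ.erase p).powersetCard m, ps ep σ p V =
      ∑ V ∈ (univ.erase (p + j)).powersetCard m, ps ep σ (p + j) V := by
    intro j
    refine sum_bij' (fun V _ => V.image (· + j)) (fun V _ => V.image (· + (-j))) ?_ ?_ ?_ ?_ ?_
    · intro V hV
      rw [mem_pc] at hV ⊢
      exact ⟨p_tr V p j hV.1, by rw [card_image_of_injective _ (add_left_injective j), hV.2]⟩
    · intro V hV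
      rw [mem_pc] at hV ⊢
      refine ⟨?_, by rw [card_image_of_injective _ (add_left_injective _), hV.2]⟩
      have := p_tr V (p + j) (-j) hV.1
      rwa [add_neg_cancel_right] at this
    · intro V _
      rw [OrbAux.tr_tr, add_neg_cancel, OrbAux.tr_zero]
    · intro V _
      rw [OrbAux.tr_tr, neg_add_cancel, OrbAux.tr_zero]
    · intro V hV
      rw [mem_pc] at hV
      unfold ps
      rw [Dep_rot ep h.rot V p j hV.2, h.rot V j hV.2, co_tr,
        h.rot _ j (card_co V p hV.2 hV.1)]
  -- sum over all `p`
  have htot : ∑ q : Fin (2*m+1), ∑ V ∈ (univ.erase q).powersetCard m, ps ep σ q V = 0 := by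
    have hth : th m * ((m:ℝ) + 1) = d1 m := by
      unfold th; field_simp
    have hd : d1 m ≤ m + 1 := by unfold d1; omega
    have hdR : ((m + 1 - d1 m : ℕ) : ℝ) = (m:ℝ) + 1 - d1 m := by
      rw [Nat.cast_sub hd]; push_cast; ring
    have hc1 : ((m + 1 - d1 m : ℕ) : ℝ) * th m = (d1 m : ℝ) * (1 - th m) := by
      rw [hdR, ← hth]; ring
    cases σ
    · -- reindex by complements
      have hre : ∀ q : Fin (2*m+1), ∑ V ∈ (univ.erase q).powersetCard m, ps ep false q V =
          ∑ V ∈ (univ.erase q).powersetCard m,
            (if Dep ep V q = false then -(th m - (if ep V = true then 1 else 0)) else 0) := by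
        intro q
        refine sum_bij' (fun V _ => co V q) (fun V _ => co V q) ?_ ?_ ?_ ?_ ?_
        · intro V hV
          rw [mem_pc] at hV ⊢
          exact ⟨p_co V q, card_co V q hV.2 hV.1⟩
        · intro V hV
          rw [mem_pc] at hV ⊢
          exact ⟨p_co V q, card_co V q hV.2 hV.1⟩
        · intro V hV
          rw [mem_pc] at hV
          exact co_co V q hV.1
        · intro V hV
          rw [mem_pc] at hV
          exact co_co V q hV.1
        · intro V hV
          rw [mem_pc] at hV
          rw [Dep_co ep h.anti V q hV.2 hV.1]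
          unfold ps
          cases Dep ep V q <;> simp
      rw [sum_congr rfl (fun q _ => hre q)]
      rw [sum_comm' (t' := univ.powersetCard m) (s' := fun V => univ \ V)]
      · refine Eq.trans ?_ (bal_sum ep h ((d1 m : ℝ) * (1 - th m)))
        refine sum_congr rfl fun V hV => ?_
        rw [mem_powersetCard] at hV
        rw [← sum_filter, sum_const, cnt_minus ep V hV.2, nsmul_eq_mul]
        cases ep V
        · simp only [Bool.false_eq_true, if_false]
          rw [← hc1]; ring
        · simp only [if_true]
          ring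
      · intro q V
        rw [mem_pc, mem_powersetCard, mem_sdiff]
        simp
    · rw [sum_comm' (t' := univ.powersetCard m) (s' := fun V => univ \ V)]
      · refine Eq.trans ?_ (bal_sum ep h ((d1 m : ℝ) * (1 - th m)))
        refine sum_congr rfl fun V hV => ?_
        rw [mem_powersetCard] at hV
        unfold ps
        simp only [if_true]
        rw [← sum_filter, sum_const, cnt_plus ep V hV.2, nsmul_eq_mul]
        cases ep V
        · simp only [Bool.false_eq_true, if_false, if_true]
          ring
        · simp only [if_true, Bool.true_eq_false, if_false]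
          rw [← hc1]; ring
      · intro q V
        rw [mem_pc, mem_powersetCard, mem_sdiff]
        simp
  have hall : ∀ q : Fin (2*m+1), ∑ V ∈ (univ.erase q).powersetCard m, ps ep σ q V =
      ∑ V ∈ (univ.erase p).powersetCard m, ps ep σ p V := by
    intro q
    have := hrot (q - p)
    rw [add_sub_cancel] at this
    exact this.symm
  rw [sum_congr rfl (fun q _ => hall q), sum_const, card_univ, Fintype.card_fin,
    nsmul_eq_mul] at htot
  have hne : ((2*m+1 : ℕ) : ℝ) ≠ 0 := by positivity
  exact (mul_eq_zero.1 htot).resolve_left hne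

end OddG
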