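import Pool.Agent.Lib.MP_e26f2a_co.LinkDefs
import Pool.Agent.Lib.MP_e26f2a_co.EpExists
import Pool.Agent.Lib.MP_e26f2a_co.HalfColour
import Pool.Agent.Lib.MP_e26f2a_co.LabMirror
import Pool.Agent.Lib.MP_e26f2a_co.LinkSum
import Pool.Agent.Lib.MP_e26f2a_co.Reroute
import Pool.Agent.Lib.MP_e26f2a_co.JohnsonP
import Pool.Agent.Lib.MP_e26f2a_co.ZeroSum
import Pool.Agent.Lib.MP_e26f2a_co.Reindex
import Pool.Agent.Lib.MP_e26f2a_co.Transfer
import Pool.Agent.Lib.MP_e26f2a_co.PsFacts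

set_option autoImplicit false

/-! ### assembly -/
namespace OddG
open Finset

theorem co_eq {m : ℕ} (V : Finset (Fin (2*m+1))) (p : Fin (2*m+1)) :
    (univ.erase p) \ V = co V p := by
  ext i; simp only [co, mem_sdiff, mem_erase, mem_univ, mem_insert, not_or, and_true, true_and]

theorem th_bounds (m : ℕ) : 1/2 ≤ th m ∧ th m ≤ 1 ∧ (m:ℝ)/(2*((m:ℝ)+1)) ≤ 1 - th m := by
  have hm : (0:ℝ) < (m:ℝ) + 1 := by positivity
  have h1 : ((m:ℝ) + 1) ≤ 2 * (d1 m : ℝ) := by
    have : m + 1 ≤ 2 * d1 m := by unfold d1; omega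
    exact_mod_cast this
  have h2 : 2 * (d1 m : ℝ) ≤ (m:ℝ) + 2 := by
    have : 2 * d1 m ≤ m + 2 := by unfold d1; omega
    exact_mod_cast this
  have h3 : (d1 m : ℝ) ≤ (m:ℝ) + 1 := by
    have : d1 m ≤ m + 1 := by unfold d1; omega
    exact_mod_cast this
  unfold th
  refine ⟨?_, ?_, ?_⟩
  · rw [div_le_div_iff₀ (by norm_num) hm]; linarith
  · rw [div_le_one hm]; exact h3
  · rw [le_sub_iff_add_le, div_add_div _ _ (by positivity) (by positivity), div_le_one (by positivity)]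
    nlinarith

theorem main_ineq {m : ℕ} (hm : 60000 ≤ m) (S : Finset (ZMod 6)) (hS : GS S)
    (ep : Finset (Fin (2*m+1)) → Bool) (hep : EpOK m (1/60) ep)
    (L : Finset (X (2*m+1)) → X (2*m+1) → Bool) (hL : Good m S (Dep ep) L)
    (g : Finset (X (2*m+1)) → ℝ) :
    ∑ A ∈ univ.powersetCard (2*m+1), psv L ep A * g A ≤ (1 - th m)/2 * enr L g := by
  classical
  have hm1 : 1 ≤ m := by omega
  have hmR : (60000:ℝ) ≤ m := by exact_mod_cast hm
  have hmpos : (0:ℝ) < m := by linarith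
  rw [reindex S ep L hL g]
  have hJ : ∀ (p : Fin (2*m+1)) (σ : Bool), ∑ V ∈ (univ.erase p).powersetCard m,
      ps ep σ p V * g (uv p σ V) ≤ (1/(m:ℝ)^2 + (1/60)/m) *
      ∑ V ∈ (univ.erase p).powersetCard m, ∑ y ∈ V, ∑ x ∈ co V p,
        |g (uv p σ V) - g (uv p σ (sw V y x))| := by
    intro p σ
    have hZ : (univ.erase p : Finset (Fin (2*m+1))).card = 2*m := by
      rw [card_erase_of_mem (mem_univ p)]; simp
    have := johnson_poinc (univ.erase p) m hm1 hZ (fun V => g (uv p σ V)) (fun V => ps ep σ p V)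
      1 (1/60) (by norm_num) (by norm_num) (zero_sum ep hep σ p)
      (fun V _ => ps_le ep σ p V) (by
        intro V hV
        rw [mem_powersetCard] at hV
        rw [co_eq]
        have hp : p ∉ V := fun h => by simpa using hV.1 h
        exact hep.small σ V p hV.2 hp)
    simp only [co_eq] at this
    exact this
  have hR : ∀ p : Fin (2*m+1), _ := fun p =>
    reroute (by omega : 131 ≤ m) S hS p (fun σ V => g (uv p σ V))
  have hLk := link_energy hm1 S (Dep ep) L hL g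
  have hc : (0:ℝ) ≤ 1/(m:ℝ)^2 + (1/60)/m := by positivity
  have hen : 0 ≤ enr L g := by
    unfold enr
    refine sum_nonneg fun A _ => sum_nonneg fun x _ => ?_
    split_ifs <;> positivity
  calc ∑ p : Fin (2*m+1), ∑ σ : Bool, ∑ V ∈ (univ.erase p).powersetCard m,
        ps ep σ p V * g (uv p σ V)
      ≤ ∑ p : Fin (2*m+1), ∑ σ : Bool, (1/(m:ℝ)^2 + (1/60)/m) *
          ∑ V ∈ (univ.erase p).powersetCard m, ∑ y ∈ V, ∑ x ∈ co V p,
          |g (uv p σ V) - g (uv p σ (sw V y x))| :=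
        sum_le_sum fun p _ => sum_le_sum fun σ _ => hJ p σ
    _ = (1/(m:ℝ)^2 + (1/60)/m) * ∑ p : Fin (2*m+1), ∑ σ : Bool,
          ∑ V ∈ (univ.erase p).powersetCard m, ∑ y ∈ V, ∑ x ∈ co V p,
          |g (uv p σ V) - g (uv p σ (sw V y x))| := by
        simp only [mul_sum]
    _ ≤ (1/(m:ℝ)^2 + (1/60)/m) * ∑ p : Fin (2*m+1), 14 * ∑ σ : Bool,
          ∑ V ∈ (univ.erase p).powersetCard m, ∑ y ∈ V, ∑ x ∈ co V p,
          (if al S p x y then |g (uv p σ V) - g (uv p (fl p x y σ) (sw V y x))| else 0) := by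
        apply mul_le_mul_of_nonneg_left _ hc
        exact sum_le_sum fun p _ => hR p
    _ = (1/(m:ℝ)^2 + (1/60)/m) * (14 * ∑ p : Fin (2*m+1), ∑ σ : Bool,
          ∑ V ∈ (univ.erase p).powersetCard m, ∑ y ∈ V, ∑ x ∈ co V p,
          (if al S p x y then |g (uv p σ V) - g (uv p (fl p x y σ) (sw V y x))| else 0)) := by
        rw [← mul_sum]
    _ ≤ (1/(m:ℝ)^2 + (1/60)/m) * (14 * (m * enr L g)) := by
        apply mul_le_mul_of_nonneg_left _ hc
        exact mul_le_mul_of_nonneg_left hLk (by norm_num)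
    _ = (14 * (1/(m:ℝ) + 1/60)) * enr L g := by
        field_simp
    _ ≤ (1 - th m)/2 * enr L g := by
        apply mul_le_mul_of_nonneg_right _ hen
        have h1 := (th_bounds m).2.2
        have h2 : (1:ℝ)/m ≤ 1/60000 := one_div_le_one_div_of_le (by norm_num) hmR
        have h3 : (0.49:ℝ) ≤ (m:ℝ)/(2*((m:ℝ)+1)) := by
          rw [le_div_iff₀ (by positivity)]; linarith
        linarith

def S0 : Finset (ZMod 6) := {0, 1, 3}
def S1 : Finset (ZMod 6) := {1, 2, 4}

theorem GS0 : GS S0 := by unfold GS S0; decide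
theorem GS1 : GS S1 := by unfold GS S1; decide
theorem S01 : ∀ s : ZMod 6, s ∈ S1 ↔ -s ∉ S0 := by unfold S0 S1; decide

theorem rvx_rvx {n : ℕ} (x : X n) : rvx (rvx x) = x := by
  rcases x with _ | ⟨i, b⟩ <;> simp [rvx]

theorem mem_rvA {n : ℕ} (A : Finset (X n)) (x : X n) : rvx x ∈ rvA A ↔ x ∈ A := by
  unfold rvA; rw [mem_image]
  constructor
  · rintro ⟨y, hy, h⟩
    have := congrArg rvx h
    rw [rvx_rvx, rvx_rvx] at this; rw [← this]; exact hy
  · intro h; exact ⟨x, h, rfl⟩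

theorem rvA_rvA {n : ℕ} (A : Finset (X n)) : rvA (rvA A) = A := by
  ext x
  have h1 := mem_rvA (rvA A) (rvx x)
  rw [rvx_rvx, mem_rvA] at h1
  exact h1

theorem rvA_N {n : ℕ} (A : Finset (X n)) (x : X n) : rvA (N A x) = N (rvA A) (rvx x) := by
  ext y
  have h1 := mem_rvA (N A x) (rvx y)
  rw [rvx_rvx] at h1
  rw [h1, mem_N, mem_N]
  have h2 := mem_rvA A (rvx y)
  rw [rvx_rvx] at h2
  rw [h2]
  constructor
  · rintro ⟨h3, h4⟩; refine ⟨?_, h4⟩; rintro rfl; exact h3 (rvx_rvx x)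
  · rintro ⟨h3, h4⟩; refine ⟨?_, h4⟩; rintro rfl; exact h3 (by rw [rvx_rvx])

theorem card_rvA {n : ℕ} (A : Finset (X n)) : (rvA A).card = A.card := by
  unfold rvA
  refine card_image_of_injective _ ?_
  intro x y h
  have := congrArg rvx h
  rwa [rvx_rvx, rvx_rvx] at this

theorem even_large (m : ℕ) (h0 : 60000 ≤ m) (hm : ¬ ∃ r : ℕ, m + 1 = 2 ^ r) :
    ∃ col : Finset (X (2*m+1)) → X (2*m+1) → ℕ,
      (∀ A x, A.card = 2*m+1 → x ∉ A → col A x < 2*(m+1)) ∧
      (∀ A x, A.card = 2*m+1 → x ∉ A → col (N A x) x = col A x) ∧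
      (∀ A x y, A.card = 2*m+1 → x ∉ A → y ∉ A → x ≠ y → col A x ≠ col A y) := by
  classical
  obtain ⟨ep, h1, h2⟩ := ep_exists m h0 hm
  have hD : ∀ V p, V.card = m → p ∉ V → Dep ep (co V p) p = !Dep ep V p :=
    fun V p hV hp => Dep_co ep h1.anti V p hV hp
  have G1 := good_lab S0 (Dep ep) hD
  have G2 := good_mirror S0 S1 (Dep ep) (Dep (fun V => !ep (rvV V))) hD S01
    (fun V p hV hp => Dep_rev ep V p hV hp)
  obtain ⟨c1, a1, a2, a3⟩ := half_colour S0 ep h1 _ G1
    (fun g => main_ineq h0 S0 GS0 ep h1 _ G1 g)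
  obtain ⟨c2, b1, b2, b3⟩ := half_colour S1 _ h2 _ G2
    (fun g => main_ineq h0 S1 GS1 _ h2 _ G2 g)
  have key : ∀ A x, A.card = 2*m+1 → x ∉ A → lab S0 (Dep ep) A x = false →
      (rvA A).card = 2*m+1 ∧ rvx x ∉ rvA A ∧
      (!lab S0 (Dep ep) (rvA (rvA A)) (rvx (rvx x))) = true := by
    intro A x hA hx hl
    refine ⟨by rw [card_rvA, hA], by rwa [mem_rvA], ?_⟩
    rw [rvA_rvA, rvx_rvx, hl]; rfl
  refine ⟨fun A x => if lab S0 (Dep ep) A x = true then c1 A x else
    (m+1) + c2 (rvA A) (rvx x), ?_, ?_, ?_⟩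
  · intro A x hA hx
    dsimp only
    split_ifs with h
    · have := a1 A x hA hx h; omega
    · have h' : lab S0 (Dep ep) A x = false := by simpa using h
      obtain ⟨k1, k2, k3⟩ := key A x hA hx h'
      have := b1 (rvA A) (rvx x) k1 k2 k3
      omega
  · intro A x hA hx
    have hs := G1.symm A x hA hx
    dsimp only
    rw [hs]
    split_ifs with h
    · exact a2 A x hA hx h
    · have h' : lab S0 (Dep ep) A x = false := by simpa using h
      obtain ⟨k1, k2, k3⟩ := key A x hA hx h'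
      have := b2 (rvA A) (rvx x) k1 k2 k3
      rw [rvA_N, this]
  · intro A x y hA hx hy hxy
    dsimp only
    split_ifs with h h' h'
    · exact a3 A x y hA hx hy h h' hxy
    · have := a1 A x hA hx h; omega
    · have := a1 A y hA hy h'; omega
    · have e1 : lab S0 (Dep ep) A x = false := by simpa using h
      have e2 : lab S0 (Dep ep) A y = false := by simpa using h'
      obtain ⟨k1, k2, k3⟩ := key A x hA hx e1
      obtain ⟨_, k2', k3'⟩ := key A y hA hy e2
      have hne : rvx x ≠ rvx y := by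
        intro h; apply hxy; have := congrArg rvx h; rwa [rvx_rvx, rvx_rvx] at this
      have := b3 (rvA A) (rvx x) (rvx y) k1 k2 k2' k3 k3' hne
      omega

/-- For every even `k ≥ 120002` which is not a power of two the odd graph `O_k` has a proper
edge colouring with `k` colours. -/
theorem final (k : ℕ) (hk : 120002 ≤ k) (hev : Even k) (hpow : ¬ ∃ n : ℕ, k = 2 ^ n) :
    ∃ c : Finset (Fin (2 * k - 1)) → Finset (Fin (2 * k - 1)) → Fin k,
        (∀ s t : Finset (Fin (2 * k - 1)),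
            s.card = k - 1 → t.card = k - 1 → Disjoint s t → c s t = c t s) ∧
        (∀ s t u : Finset (Fin (2 * k - 1)),
            s.card = k - 1 → t.card = k - 1 → u.card = k - 1 →
            Disjoint s t → Disjoint s u → t ≠ u → c s t ≠ c s u) := by
  obtain ⟨h, hh⟩ := hev
  obtain ⟨m, rfl⟩ : ∃ m, h = m + 1 := ⟨h - 1, by omega⟩
  have hm : ¬ ∃ r : ℕ, m + 1 = 2 ^ r := by
    rintro ⟨r, hr⟩
    exact hpow ⟨r + 1, by rw [pow_succ, ← hr]; omega⟩
  obtain ⟨col, h1, h2, h3⟩ := even_large m (by omega) hm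
  exact transfer m col h1 h2 h3 k (by omega)

end OddG
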