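import Pool.Agent.Lib.MP_e26f2a_co.LinkDefs

set_option autoImplicit false

/-!
# MP_e26f2a_co: piece E23, the number of helpers
-/

namespace OddG

open Finset

/-- many numbers in a residue class modulo six -/
theorem class_count {m : ℕ} (c : ZMod 6) :
    (2 * m + 1) / 6 ≤ (univ.filter fun z : Fin (2*m+1) => ((z : ℕ) : ZMod 6) = c).card := by
  have hc : c.val < 6 := ZMod.val_lt c
  have hlt : ∀ t ∈ range ((2 * m + 1) / 6), c.val + 6 * t < 2 * m + 1 := by
    intro t ht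
    rw [mem_range] at ht
    omega
  have key : (range ((2 * m + 1) / 6)).card ≤
      (univ.filter fun z : Fin (2*m+1) => ((z : ℕ) : ZMod 6) = c).card := by
    apply card_le_card_of_injOn
      (fun t => if h : c.val + 6 * t < 2 * m + 1 then (⟨c.val + 6 * t, h⟩ : Fin (2*m+1)) else 0)
    · intro t ht
      have h := hlt t ht
      rw [mem_coe, mem_filter]
      refine ⟨mem_univ _, ?_⟩
      simp only
      rw [dif_pos h]
      push_cast
      rw [ZMod.natCast_zmod_val]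
      have : (6 : ZMod 6) = 0 := by decide
      rw [this]
      ring
    · intro t ht s hs hts
      have h1 := hlt t ht
      have h2 := hlt s hs
      simp only at hts
      rw [dif_pos h1, dif_pos h2] at hts
      have := congrArg Fin.val hts
      simp only at this
      omega
  rwa [card_range] at key

theorem helper_count {m : ℕ} (S : Finset (ZMod 6)) (hS : GS S) (p x y : Fin (2*m+1)) :
    (m : ℝ) - 11 ≤ 3 * ((univ.filter fun z : Fin (2*m+1) => z ≠ p ∧ z ≠ x ∧ z ≠ y ∧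
      (((p : ℕ) + (x : ℕ) + (z : ℕ) : ℕ) : ZMod 6) ∈ S ∧
      (((p : ℕ) + (y : ℕ) + (z : ℕ) : ℕ) : ZMod 6) ∈ S).card : ℝ) := by
  obtain ⟨s, hs, hsd⟩ := hS (((y : ℕ) : ZMod 6) - ((x : ℕ) : ZMod 6))
  set c : ZMod 6 := s - ((p : ℕ) : ZMod 6) - ((x : ℕ) : ZMod 6) with hc
  have h1 := class_count (m := m) c
  set T := univ.filter fun z : Fin (2*m+1) => ((z : ℕ) : ZMod 6) = c with hT
  have hsub : T \ {p, x, y} ⊆ univ.filter fun z : Fin (2*m+1) => z ≠ p ∧ z ≠ x ∧ z ≠ y ∧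
      (((p : ℕ) + (x : ℕ) + (z : ℕ) : ℕ) : ZMod 6) ∈ S ∧
      (((p : ℕ) + (y : ℕ) + (z : ℕ) : ℕ) : ZMod 6) ∈ S := by
    intro z hz
    rw [mem_sdiff, hT, mem_filter] at hz
    obtain ⟨⟨-, hz1⟩, hz2⟩ := hz
    simp only [mem_insert, mem_singleton, not_or] at hz2
    rw [mem_filter]
    refine ⟨mem_univ _, hz2.1, hz2.2.1, hz2.2.2, ?_, ?_⟩
    · push_cast
      rw [hz1, hc]
      have : ((p : ℕ) : ZMod 6) + ((x : ℕ) : ZMod 6) +
          (s - ((p : ℕ) : ZMod 6) - ((x : ℕ) : ZMod 6)) = s := by ring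
      rw [this]
      exact hs
    · push_cast
      rw [hz1, hc]
      have : ((p : ℕ) : ZMod 6) + ((y : ℕ) : ZMod 6) +
          (s - ((p : ℕ) : ZMod 6) - ((x : ℕ) : ZMod 6)) =
          s + (((y : ℕ) : ZMod 6) - ((x : ℕ) : ZMod 6)) := by ring
      rw [this]
      exact hsd
  have h2 := card_le_card hsub
  have h3 : T.card ≤ (T \ {p, x, y}).card + 3 := by
    have e1 := card_le_card (show T ⊆ (T \ {p, x, y}) ∪ {p, x, y} by
      intro z hz
      rw [mem_union, mem_sdiff]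
      by_cases h : z ∈ ({p, x, y} : Finset (Fin (2*m+1)))
      · exact Or.inr h
      · exact Or.inl ⟨hz, h⟩)
    have e2 := card_union_le (T \ {p, x, y}) {p, x, y}
    have e3 : ({p, x, y} : Finset (Fin (2*m+1))).card ≤ 3 := card_le_three
    omega
  set H := (univ.filter fun z : Fin (2*m+1) => z ≠ p ∧ z ≠ x ∧ z ≠ y ∧
      (((p : ℕ) + (x : ℕ) + (z : ℕ) : ℕ) : ZMod 6) ∈ S ∧
      (((p : ℕ) + (y : ℕ) + (z : ℕ) : ℕ) : ZMod 6) ∈ S).card with hH
  have h4 : m ≤ 3 * H + 11 := by omega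
  have h5 : (m : ℝ) ≤ 3 * (H : ℝ) + 11 := by exact_mod_cast h4
  linarith

end OddG
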