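import Mathlib

set_option autoImplicit false

/-!
# MP_e26f2a_co: piece E21, the `L1` Poincare inequality of the middle Johnson graph
-/

namespace OddG

open Finset

section perm

variable {β : Type} [Fintype β] [DecidableEq β]

/-- the averaged distance -/
noncomputable def Fav (g : Finset β → ℝ) (A B : Finset β) : ℝ :=
  ∑ τ : Equiv.Perm β, |g (A.map τ.toEmbedding) - g (B.map τ.toEmbedding)|

theorem Fav_inv (g : Finset β → ℝ) (A B : Finset β) (σ : Equiv.Perm β) :
    Fav g (A.map σ.toEmbedding) (B.map σ.toEmbedding) = Fav g A B := by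
  unfold Fav
  refine Fintype.sum_equiv (Equiv.mulRight σ) _ _ ?_
  intro τ
  have h : ∀ C : Finset β, (C.map σ.toEmbedding).map τ.toEmbedding =
      C.map (Equiv.mulRight σ τ).toEmbedding := by
    intro C
    rw [Finset.map_map]
    rfl
  rw [h, h]

theorem Fav_comm (g : Finset β → ℝ) (A B : Finset β) : Fav g A B = Fav g B A := by
  unfold Fav
  refine Finset.sum_congr rfl fun τ _ => abs_sub_comm _ _

theorem Fav_tri (g : Finset β → ℝ) (A B C : Finset β) : Fav g A C ≤ Fav g A B + Fav g B C := by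
  unfold Fav
  rw [← Finset.sum_add_distrib]
  exact Finset.sum_le_sum fun τ _ => abs_sub_le _ _ _

theorem Fav_self (g : Finset β → ℝ) (A : Finset β) : Fav g A A = 0 := by
  unfold Fav
  simp

theorem Fav_nonneg (g : Finset β → ℝ) (A B : Finset β) : 0 ≤ Fav g A B :=
  Finset.sum_nonneg fun _ _ => abs_nonneg _

theorem sum_perm (m : ℕ) (τ : Equiv.Perm β) (h : Finset β → ℝ) :
    ∑ V ∈ (univ : Finset β).powersetCard m, h (V.map τ.toEmbedding) =
      ∑ V ∈ (univ : Finset β).powersetCard m, h V := by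
  refine Finset.sum_bij' (fun V _ => V.map τ.toEmbedding) (fun V _ => V.map τ.symm.toEmbedding)
    ?_ ?_ ?_ ?_ ?_
  · intro V hV
    rw [mem_powersetCard] at hV ⊢
    exact ⟨subset_univ _, by rw [card_map]; exact hV.2⟩
  · intro V hV
    rw [mem_powersetCard] at hV ⊢
    exact ⟨subset_univ _, by rw [card_map]; exact hV.2⟩
  · intro V _
    ext z
    simp
  · intro V _
    ext z
    simp
  · intro V _
    rfl

theorem swap_fix (V : Finset β) (a b : β) (h : a ∈ V ↔ b ∈ V) :
    V.map (Equiv.swap a b).toEmbedding = V := by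
  ext z
  rw [mem_map_equiv, Equiv.symm_swap]
  rcases eq_or_ne z a with rfl | h1
  · rw [Equiv.swap_apply_left]; exact h.symm
  · rcases eq_or_ne z b with rfl | h2
    · rw [Equiv.swap_apply_right]; exact h
    · rw [Equiv.swap_apply_of_ne_of_ne h1 h2]

/-- all arcs at `V` have the same averaged length -/
theorem Fav_arc (g : Finset β → ℝ) (V : Finset β) {y y₁ x x₁ : β} (hy : y ∈ V) (hy₁ : y₁ ∈ V)
    (hx : x ∉ V) (hx₁ : x₁ ∉ V) :
    Fav g V (insert x (V.erase y)) = Fav g V (insert x₁ (V.erase y₁)) := by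
  have h1 : Fav g V (insert x (V.erase y)) = Fav g V (insert x₁ (V.erase y)) := by
    rw [← Fav_inv g V (insert x (V.erase y)) (Equiv.swap x x₁),
      swap_fix V x x₁ (iff_of_false hx hx₁)]
    congr 1
    ext z
    rw [mem_map_equiv, Equiv.symm_swap, mem_insert, mem_insert, mem_erase, mem_erase]
    rcases eq_or_ne z x with rfl | h1
    · rw [Equiv.swap_apply_left]
      constructor
      · rintro (h | ⟨_, h⟩)
        · exact Or.inl h.symm
        · exact absurd h hx₁
      · rintro (h | ⟨_, h⟩)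
        · exact Or.inl h.symm
        · exact absurd h hx
    · rcases eq_or_ne z x₁ with rfl | h2
      · rw [Equiv.swap_apply_right]
        constructor
        · intro _; exact Or.inl rfl
        · intro _; exact Or.inl rfl
      · rw [Equiv.swap_apply_of_ne_of_ne h1 h2]
        constructor
        · rintro (h | h)
          · exact absurd h h1
          · exact Or.inr h
        · rintro (h | h)
          · exact absurd h h2
          · exact Or.inr h
  have h2 : Fav g V (insert x₁ (V.erase y)) = Fav g V (insert x₁ (V.erase y₁)) := by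
    rw [← Fav_inv g V (insert x₁ (V.erase y)) (Equiv.swap y y₁),
      swap_fix V y y₁ (iff_of_true hy hy₁)]
    congr 1
    ext z
    have hxy : x₁ ≠ y := fun h => hx₁ (h ▸ hy)
    have hxy₁ : x₁ ≠ y₁ := fun h => hx₁ (h ▸ hy₁)
    rw [mem_map_equiv, Equiv.symm_swap, mem_insert, mem_insert, mem_erase, mem_erase]
    rcases eq_or_ne z y with rfl | h1
    · rw [Equiv.swap_apply_left]
      constructor
      · rintro (h | ⟨h, _⟩)
        · exact absurd h.symm hxy₁
        · exact Or.inr ⟨h.symm, hy⟩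
      · rintro (h | ⟨h, _⟩)
        · exact absurd h.symm hxy
        · exact Or.inr ⟨h.symm, hy₁⟩
    · rcases eq_or_ne z y₁ with rfl | h2
      · rw [Equiv.swap_apply_right]
        constructor
        · rintro (h | ⟨h, _⟩)
          · exact absurd h.symm hxy
          · exact absurd rfl h
        · rintro (h | ⟨h, _⟩)
          · exact absurd h.symm hxy₁
          · exact absurd rfl h
      · rw [Equiv.swap_apply_of_ne_of_ne h1 h2]
        constructor
        · rintro (h | ⟨_, h⟩)
          · exact Or.inl h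
          · exact Or.inr ⟨h2, h⟩
        · rintro (h | ⟨_, h⟩)
          · exact Or.inl h
          · exact Or.inr ⟨h1, h⟩
  rw [h1, h2]

/-- `S` is the common averaged length of the arcs at `V` -/
def ArcVal (g : Finset β → ℝ) (S : ℝ) (V : Finset β) : Prop :=
  ∀ y ∈ V, ∀ x, x ∉ V → Fav g V (insert x (V.erase y)) = S

theorem ArcVal.next {g : Finset β → ℝ} {S : ℝ} {V : Finset β} (h : ArcVal g S V) {y x : β}
    (hy : y ∈ V) (hx : x ∉ V) : ArcVal g S (insert x (V.erase y)) := by
  intro y' hy' x' hx'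
  have hxy : x ≠ y := fun e => hx (e ▸ hy)
  have e1 : y ∉ insert x (V.erase y) := by
    rw [mem_insert, mem_erase]
    rintro (h | ⟨h, _⟩)
    · exact hxy h.symm
    · exact h rfl
  rw [Fav_arc g (insert x (V.erase y)) hy' (mem_insert_self x _) hx' e1]
  have e2 : insert y ((insert x (V.erase y)).erase x) = V := by
    rw [erase_insert (fun h => hx (mem_of_mem_erase h)), insert_erase hy]
  rw [e2, Fav_comm]
  exact h y hy x hx

theorem Fav_path {g : Finset β → ℝ} {S : ℝ} (j : ℕ) : ∀ V W : Finset β, V.card = W.card →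
    (V \ W).card = j → ArcVal g S V → Fav g V W ≤ j * S ∧ ArcVal g S W := by
  induction j with
  | zero =>
    intro V W hc hj hV
    rw [card_eq_zero, sdiff_eq_empty_iff_subset] at hj
    have : V = W := eq_of_subset_of_card_le hj hc.ge
    subst this
    rw [Fav_self]
    simp [hV]
  | succ j ih =>
    intro V W hc hj hV
    have h1 : (V \ W).Nonempty := by
      rw [← card_pos]; omega
    have h2 : (W \ V).Nonempty := by
      rw [← card_pos]
      have e1 := card_sdiff_add_card_inter V W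
      have e2 := card_sdiff_add_card_inter W V
      rw [inter_comm] at e2
      omega
    obtain ⟨y, hy⟩ := h1
    obtain ⟨x, hx⟩ := h2
    rw [mem_sdiff] at hy hx
    have hxV : x ∉ V.erase y := fun h => hx.2 (mem_of_mem_erase h)
    have hcard : (insert x (V.erase y)).card = V.card := by
      rw [card_insert_of_notMem hxV, card_erase_of_mem hy.1]
      have := card_pos.mpr ⟨y, hy.1⟩
      omega
    have hd : (insert x (V.erase y) \ W).card = j := by
      have e : insert x (V.erase y) \ W = (V \ W).erase y := by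
        ext z
        rw [mem_sdiff, mem_insert, mem_erase, mem_erase, mem_sdiff]
        constructor
        · rintro ⟨h | h, hw⟩
          · exact absurd (h ▸ hx.1) hw
          · exact ⟨h.1, h.2, hw⟩
        · rintro ⟨h, hv, hw⟩
          exact ⟨Or.inr ⟨h, hv⟩, hw⟩
      rw [e, card_erase_of_mem (mem_sdiff.mpr hy)]
      omega
    obtain ⟨i1, i2⟩ := ih (insert x (V.erase y)) W (by rw [hcard, hc]) hd (hV.next hy.1 hx.2)
    refine ⟨?_, i2⟩
    have t := Fav_tri g V (insert x (V.erase y)) W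
    rw [hV y hy.1 x hx.2] at t
    push_cast
    linarith

theorem johnson_l1_univ (m : ℕ) (hm : 1 ≤ m) (hZ : Fintype.card β = 2 * m)
    (g : Finset β → ℝ) :
    ∑ V ∈ (univ : Finset β).powersetCard m, ∑ W ∈ (univ : Finset β).powersetCard m, |g V - g W| ≤
      (((2*m).choose m : ℕ) : ℝ) / m *
        ∑ V ∈ (univ : Finset β).powersetCard m, ∑ y ∈ V, ∑ x ∈ univ \ V,
          |g V - g (insert x (V.erase y))| := by
  classical
  set P := (univ : Finset β).powersetCard m with hP
  have hPcard : P.card = (2 * m).choose m := by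
    rw [hP, card_powersetCard, card_univ, hZ]
  have hmem : ∀ V ∈ P, V.card = m := fun V hV => (mem_powersetCard.mp hV).2
  have hco : ∀ V ∈ P, (univ \ V).card = m := by
    intro V hV
    rw [card_univ_sdiff, hZ, hmem V hV]
    omega
  have hPne : P.Nonempty := by
    rw [← card_pos, hPcard]
    exact Nat.choose_pos (by omega)
  obtain ⟨V₀, hV₀⟩ := hPne
  obtain ⟨y₀, hy₀⟩ : V₀.Nonempty := by rw [← card_pos, hmem V₀ hV₀]; omega
  obtain ⟨x₀, hx₀⟩ : (univ \ V₀).Nonempty := by rw [← card_pos, hco V₀ hV₀]; omega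
  rw [mem_sdiff] at hx₀
  set S := Fav g V₀ (insert x₀ (V₀.erase y₀)) with hS
  have hS0 : 0 ≤ S := Fav_nonneg _ _ _
  have hA₀ : ArcVal g S V₀ := fun y hy x hx => Fav_arc g V₀ hy hy₀ hx hx₀.2
  have hA : ∀ V ∈ P, ArcVal g S V := by
    intro V hV
    exact (Fav_path _ V₀ V (by rw [hmem V₀ hV₀, hmem V hV]) rfl hA₀).2
  have hF : ∀ V ∈ P, ∀ W ∈ P, Fav g V W ≤ m * S := by
    intro V hV W hW
    have h1 := (Fav_path _ V W (by rw [hmem V hV, hmem W hW]) rfl (hA V hV)).1
    refine h1.trans (mul_le_mul_of_nonneg_right ?_ hS0)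
    have h2 := card_le_card (sdiff_subset : V \ W ⊆ V)
    rw [hmem V hV] at h2
    exact_mod_cast h2
  set G : ℝ := (Fintype.card (Equiv.Perm β) : ℝ) with hG
  have hG0 : 0 < G := by
    rw [hG]
    exact_mod_cast Fintype.card_pos
  -- the averaged left-hand side
  have hL : ∑ V ∈ P, ∑ W ∈ P, Fav g V W = G * ∑ V ∈ P, ∑ W ∈ P, |g V - g W| := by
    have e1 : ∑ V ∈ P, ∑ W ∈ P, Fav g V W = ∑ τ : Equiv.Perm β, ∑ V ∈ P, ∑ W ∈ P,
        |g (V.map τ.toEmbedding) - g (W.map τ.toEmbedding)| := by
      unfold Fav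
      symm
      rw [Finset.sum_comm]
      refine sum_congr rfl fun V _ => ?_
      rw [Finset.sum_comm]
    rw [e1]
    have e2 : ∀ τ : Equiv.Perm β, ∑ V ∈ P, ∑ W ∈ P,
        |g (V.map τ.toEmbedding) - g (W.map τ.toEmbedding)| = ∑ V ∈ P, ∑ W ∈ P, |g V - g W| := by
      intro τ
      have e3 : ∀ V : Finset β, ∑ W ∈ P, |g V - g (W.map τ.toEmbedding)| =
          ∑ W ∈ P, |g V - g W| := fun V => sum_perm m τ (fun W => |g V - g W|)
      simp only [e3]
      exact sum_perm m τ (fun V => ∑ W ∈ P, |g V - g W|)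
    simp only [e2, sum_const, nsmul_eq_mul]
    rw [hG, card_univ]
  have hR : ∑ V ∈ P, ∑ y ∈ V, ∑ x ∈ univ \ V, Fav g V (insert x (V.erase y)) =
      G * ∑ V ∈ P, ∑ y ∈ V, ∑ x ∈ univ \ V, |g V - g (insert x (V.erase y))| := by
    have e1 : ∑ V ∈ P, ∑ y ∈ V, ∑ x ∈ univ \ V, Fav g V (insert x (V.erase y)) =
        ∑ τ : Equiv.Perm β, ∑ V ∈ P, ∑ y ∈ V, ∑ x ∈ univ \ V,
          |g (V.map τ.toEmbedding) - g ((insert x (V.erase y)).map τ.toEmbedding)| := by
      unfold Fav
      symm
      rw [Finset.sum_comm]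
      refine sum_congr rfl fun V _ => ?_
      rw [Finset.sum_comm]
      refine sum_congr rfl fun y _ => ?_
      rw [Finset.sum_comm]
    rw [e1]
    have e2 : ∀ τ : Equiv.Perm β, ∑ V ∈ P, ∑ y ∈ V, ∑ x ∈ univ \ V,
          |g (V.map τ.toEmbedding) - g ((insert x (V.erase y)).map τ.toEmbedding)| =
        ∑ V ∈ P, ∑ y ∈ V, ∑ x ∈ univ \ V, |g V - g (insert x (V.erase y))| := by
      intro τ
      rw [← sum_perm m τ (fun V => ∑ y ∈ V, ∑ x ∈ univ \ V, |g V - g (insert x (V.erase y))|)]
      refine sum_congr rfl fun V _ => ?_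
      rw [sum_map]
      refine sum_congr rfl fun y _ => ?_
      have e3 : univ \ V.map τ.toEmbedding = (univ \ V).map τ.toEmbedding := by
        ext z; simp
      rw [e3, sum_map]
      refine sum_congr rfl fun x _ => ?_
      rw [map_insert, map_erase]
    simp only [e2, sum_const, nsmul_eq_mul]
    rw [hG, card_univ]
  -- evaluate the averaged right-hand side
  have hR2 : ∑ V ∈ P, ∑ y ∈ V, ∑ x ∈ univ \ V, Fav g V (insert x (V.erase y)) =
      (P.card : ℝ) * (m * (m * S)) := by
    have e1 : ∀ V ∈ P, ∑ y ∈ V, ∑ x ∈ univ \ V, Fav g V (insert x (V.erase y)) =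
        m * (m * S) := by
      intro V hV
      have e2 : ∀ y ∈ V, ∑ x ∈ univ \ V, Fav g V (insert x (V.erase y)) = m * S := by
        intro y hy
        rw [sum_congr rfl fun x hx => hA V hV y hy x (mem_sdiff.mp hx).2, sum_const, hco V hV,
          nsmul_eq_mul]
      rw [sum_congr rfl e2, sum_const, hmem V hV, nsmul_eq_mul]
    rw [sum_congr rfl e1, sum_const, nsmul_eq_mul]
  have hL2 : ∑ V ∈ P, ∑ W ∈ P, Fav g V W ≤ (P.card : ℝ) * ((P.card : ℝ) * (m * S)) := by
    calc ∑ V ∈ P, ∑ W ∈ P, Fav g V W ≤ ∑ V ∈ P, ∑ W ∈ P, (m * S : ℝ) :=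
          sum_le_sum fun V hV => sum_le_sum fun W hW => hF V hV W hW
      _ = _ := by simp only [sum_const, nsmul_eq_mul]
  rw [hL] at hL2
  rw [hR] at hR2
  set X := ∑ V ∈ P, ∑ W ∈ P, |g V - g W|
  set Y := ∑ V ∈ P, ∑ y ∈ V, ∑ x ∈ univ \ V, |g V - g (insert x (V.erase y))|
  have hm0 : (0 : ℝ) < m := by exact_mod_cast hm
  rw [← hPcard, div_mul_eq_mul_div, le_div_iff₀ hm0]
  have h1 : G * (X * m) ≤ G * ((P.card : ℝ) * Y) := by
    calc G * (X * m) = (G * X) * m := by ring
      _ ≤ ((P.card : ℝ) * ((P.card : ℝ) * (m * S))) * m :=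
          mul_le_mul_of_nonneg_right hL2 hm0.le
      _ = (P.card : ℝ) * ((P.card : ℝ) * (m * (m * S))) := by ring
      _ = (P.card : ℝ) * (G * Y) := by rw [← hR2]
      _ = _ := by ring
  exact le_of_mul_le_mul_left h1 hG0

end perm

theorem johnson_l1 {α : Type} [DecidableEq α] (Z : Finset α) (m : ℕ) (hm : 1 ≤ m)
    (hZ : Z.card = 2*m) (g : Finset α → ℝ) :
    ∑ V ∈ Z.powersetCard m, ∑ W ∈ Z.powersetCard m, |g V - g W| ≤
      (((2*m).choose m : ℕ) : ℝ) / m *
        ∑ V ∈ Z.powersetCard m, ∑ y ∈ V, ∑ x ∈ Z \ V, |g V - g (insert x (V.erase y))| := by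
  classical
  set f : {z // z ∈ Z} ↪ α := Function.Embedding.subtype (fun z => z ∈ Z) with hf
  have hZf : Z = (univ : Finset {z // z ∈ Z}).map f := by
    ext z
    simp [hf]
  have hcard : Fintype.card {z // z ∈ Z} = 2 * m := by
    rw [Fintype.card_coe, hZ]
  have key := johnson_l1_univ (β := {z // z ∈ Z}) m hm hcard (fun A => g (A.map f))
  have hP : Z.powersetCard m =
      ((univ : Finset {z // z ∈ Z}).powersetCard m).map (mapEmbedding f).toEmbedding := by
    conv_lhs => rw [hZf]
    rw [powersetCard_map]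
  rw [hP]
  simp only [sum_map]
  have e : ∀ V : Finset {z // z ∈ Z}, (mapEmbedding f).toEmbedding V = V.map f := fun V => rfl
  simp only [e]
  refine key.trans (le_of_eq ?_)
  congr 1
  refine sum_congr rfl fun V _ => ?_
  rw [sum_map]
  refine sum_congr rfl fun y _ => ?_
  have e3 : Z \ V.map f = (univ \ V).map f := by
    ext z
    simp only [mem_sdiff, mem_map, mem_univ, true_and, hf, Function.Embedding.subtype_apply,
      Subtype.exists, exists_and_right, exists_eq_right]
    constructor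
    · rintro ⟨h1, h2⟩
      exact ⟨h1, fun h => h2 ⟨h1, h⟩⟩
    · rintro ⟨h1, h2⟩
      exact ⟨h1, fun ⟨_, h⟩ => h2 h⟩
  rw [e3, sum_map]
  refine sum_congr rfl fun x _ => ?_
  rw [map_insert, map_erase]

end OddG
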