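import Pool.Agent.Lib.MP_e26f2a_co.LinkDefs

set_option autoImplicit false

namespace OddG

open Finset

namespace LabBasic

variable {n : ℕ}

theorem nx_spec (Λ : Finset (Fin n)) (i : Fin n) (h : (Λ.filter (i < ·)).Nonempty) :
    nx Λ i ∈ Λ ∧ i < nx Λ i ∧ ∀ j ∈ Λ, i < j → nx Λ i ≤ j := by
  unfold nx mn
  rw [dif_pos h]
  have h1 := Finset.mem_filter.1 (Finset.min'_mem _ h)
  refine ⟨h1.1, h1.2, fun j hj hij => Finset.min'_le _ _ (Finset.mem_filter.2 ⟨hj, hij⟩)⟩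

theorem pv_spec (Λ : Finset (Fin n)) (i : Fin n) (h : (Λ.filter (· < i)).Nonempty) :
    pv Λ i ∈ Λ ∧ pv Λ i < i ∧ ∀ j ∈ Λ, j < i → j ≤ pv Λ i := by
  unfold pv mx
  rw [dif_pos h]
  have h1 := Finset.mem_filter.1 (Finset.max'_mem _ h)
  refine ⟨h1.1, h1.2, fun j hj hij => Finset.le_max' _ _ (Finset.mem_filter.2 ⟨hj, hij⟩)⟩

theorem nx_mem (Λ : Finset (Fin n)) (i : Fin n) (hi : i ∈ Λ) : nx Λ i ∈ Λ := by
  by_cases h : (Λ.filter (i < ·)).Nonempty
  · exact (nx_spec Λ i h).1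
  · unfold nx mn; rw [dif_neg h]; exact hi

theorem pv_mem (Λ : Finset (Fin n)) (i : Fin n) (hi : i ∈ Λ) : pv Λ i ∈ Λ := by
  by_cases h : (Λ.filter (· < i)).Nonempty
  · exact (pv_spec Λ i h).1
  · unfold pv mx; rw [dif_neg h]; exact hi

theorem op2_congr (S : Finset (ZMod 6)) (Λ : Finset (Fin n)) (s s' : Fin n → Bool)
    (h : ∀ i ∈ Λ, rk Λ i ≠ 1 → s i = s' i) : op2 S Λ s = op2 S Λ s' := by
  unfold op2
  rw [decide_eq_decide]
  refine and_congr_right fun _ => and_congr_left fun _ => ?_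
  refine forall_congr' fun i => forall_congr' fun hi => forall_congr' fun j =>
    forall_congr' fun hj => forall_congr' fun h0 => forall_congr' fun h2 => ?_
  rw [h i hi (by omega), h j hj (by omega)]

theorem neg_eq (a b : Bool) : (!a) = (!b) ↔ a = b := by revert a b; decide

theorem flip_eq (a b c d : Bool) (h : a ≠ b) : xor (decide (a = c)) d ≠ xor (decide (b = c)) d := by
  revert a b c d; decide

theorem flip_ne (a b c d : Bool) (h : a ≠ b) : xor (decide (c ≠ a)) d ≠ xor (decide (c ≠ b)) d := by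
  revert a b c d; decide

theorem op2_neg (S : Finset (ZMod 6)) (Λ : Finset (Fin n)) (s : Fin n → Bool) :
    op2 S Λ (fun j => !s j) = op2 S Λ s := by
  unfold op2
  rw [decide_eq_decide]
  refine and_congr_right fun _ => and_congr_left fun _ => ?_
  refine forall_congr' fun i => forall_congr' fun hi => forall_congr' fun j =>
    forall_congr' fun hj => forall_congr' fun h0 => forall_congr' fun h2 => ?_
  exact neg_eq _ _

/-- in the second branch there is a smaller element -/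
theorem small_of (Λ : Finset (Fin n)) (h : 2 ≤ Λ.card) (i : Fin n) (_hi : i ∈ Λ)
    (hb : ¬ (rk Λ i % 2 = 0 ∧ (Λ.filter (i < ·)).Nonempty)) : (Λ.filter (· < i)).Nonempty := by
  by_contra hno
  rw [Finset.not_nonempty_iff_eq_empty] at hno
  have h1 : rk Λ i = 0 := by unfold rk; rw [hno]; rfl
  apply hb
  refine ⟨by rw [h1], ?_⟩
  obtain ⟨j, hj, hji⟩ := Finset.exists_mem_ne (show 1 < Λ.card by omega) i
  refine ⟨j, Finset.mem_filter.2 ⟨hj, ?_⟩⟩
  rcases lt_or_gt_of_ne hji with h2 | h2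
  · have : j ∈ Λ.filter (· < i) := Finset.mem_filter.2 ⟨hj, h2⟩
    rw [hno] at this
    exact absurd this (Finset.notMem_empty _)
  · exact h2

end LabBasic

open LabBasic

section B
variable {n : ℕ}

theorem cdf_flip (S : Finset (ZMod 6)) (Λ : Finset (Fin n)) (s s' : Fin n → Bool)
    (h : 2 ≤ Λ.card) (i : Fin n) (hi : i ∈ Λ) (h1 : ∀ j ∈ Λ, j ≠ i → s j = s' j)
    (h2 : s i ≠ s' i) : cdf S Λ s i ≠ cdf S Λ s' i := by
  have h3 : (op2 S Λ s && decide (rk Λ i = 1)) = (op2 S Λ s' && decide (rk Λ i = 1)) := by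
    by_cases hr : rk Λ i = 1
    · rw [op2_congr S Λ s s' fun j hj hj1 => h1 j hj (by rintro rfl; exact hj1 hr)]
    · simp [hr]
  unfold cdf
  rw [h3]
  by_cases hb : rk Λ i % 2 = 0 ∧ (Λ.filter (i < ·)).Nonempty
  · rw [if_pos hb, if_pos hb]
    obtain ⟨a1, a2, _⟩ := nx_spec Λ i hb.2
    rw [h1 _ a1 a2.ne']
    exact flip_eq _ _ _ _ h2
  · rw [if_neg hb, if_neg hb]
    obtain ⟨a1, a2, _⟩ := pv_spec Λ i (small_of Λ h i hi hb)
    rw [h1 _ a1 a2.ne]
    exact flip_ne _ _ _ _ h2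

theorem cdf_neg (S : Finset (ZMod 6)) (Λ : Finset (Fin n)) (s : Fin n → Bool) (i : Fin n) :
    cdf S Λ (fun j => !s j) i = cdf S Λ s i := by
  unfold cdf
  rw [op2_neg]
  congr 1
  by_cases hb : rk Λ i % 2 = 0 ∧ (Λ.filter (i < ·)).Nonempty
  · rw [if_pos hb, if_pos hb, decide_eq_decide]
    exact neg_eq _ _
  · rw [if_neg hb, if_neg hb, decide_eq_decide]
    exact not_congr (neg_eq _ _)

theorem czf_neg (S : Finset (ZMod 6)) (Λ : Finset (Fin n)) (s : Fin n → Bool) :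
    czf S Λ (fun j => !s j) = czf S Λ s := by
  unfold czf
  rw [op2_neg]
  congr 1
  rw [decide_eq_decide]
  refine forall_congr' fun i => forall_congr' fun hi => forall_congr' fun h0 => ?_
  exact neg_eq _ _

theorem cdf_congr (S : Finset (ZMod 6)) (Λ : Finset (Fin n)) (s s' : Fin n → Bool) (i : Fin n)
    (hi : i ∈ Λ) (h : ∀ j ∈ Λ, s j = s' j) : cdf S Λ s i = cdf S Λ s' i := by
  unfold cdf
  rw [op2_congr S Λ s s' fun j hj _ => h j hj, h i hi, h _ (nx_mem Λ i hi), h _ (pv_mem Λ i hi)]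

theorem czf_congr (S : Finset (ZMod 6)) (Λ : Finset (Fin n)) (s s' : Fin n → Bool)
    (h : ∀ j ∈ Λ, s j = s' j) : czf S Λ s = czf S Λ s' := by
  unfold czf
  rw [op2_congr S Λ s s' fun j hj _ => h j hj]
  congr 1
  rw [decide_eq_decide]
  refine forall_congr' fun i => forall_congr' fun hi => forall_congr' fun h0 => ?_
  rw [h i hi, h _ (pv_mem Λ i hi)]

theorem cdf_min (S : Finset (ZMod 6)) (Λ : Finset (Fin n)) (s : Fin n → Bool) (h : 2 ≤ Λ.card)
    (i : Fin n) (hi : i ∈ Λ) (hmin : ∀ j ∈ Λ, i ≤ j) :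
    cdf S Λ s i = decide (s i = s (nx Λ i)) ∧ nx Λ i ∈ Λ ∧ i < nx Λ i ∧
      ∀ j ∈ Λ, i < j → nx Λ i ≤ j := by
  have h1 : rk Λ i = 0 := by
    unfold rk
    rw [Finset.card_eq_zero, Finset.filter_eq_empty_iff]
    intro j hj
    exact not_lt.2 (hmin j hj)
  have h2 : (Λ.filter (i < ·)).Nonempty := by
    obtain ⟨j, hj, hji⟩ := Finset.exists_mem_ne (show 1 < Λ.card by omega) i
    exact ⟨j, Finset.mem_filter.2 ⟨hj, lt_of_le_of_ne (hmin j hj) hji.symm⟩⟩
  refine ⟨?_, nx_spec Λ i h2⟩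
  unfold cdf
  rw [if_pos ⟨by rw [h1], h2⟩, h1]
  simp

theorem cdf_max (S : Finset (ZMod 6)) (Λ : Finset (Fin n)) (s : Fin n → Bool) (h : 2 ≤ Λ.card)
    (i : Fin n) (hi : i ∈ Λ) (hmax : ∀ j ∈ Λ, j ≤ i) :
    cdf S Λ s i = decide (s (pv Λ i) ≠ s i) ∧ pv Λ i ∈ Λ ∧ pv Λ i < i ∧
      ∀ j ∈ Λ, j < i → j ≤ pv Λ i := by
  have h1 : rk Λ i = Λ.card - 1 := by
    unfold rk
    rw [← Finset.card_erase_of_mem hi]
    congr 1
    ext j
    rw [Finset.mem_filter, Finset.mem_erase]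
    constructor
    · rintro ⟨a, b⟩; exact ⟨b.ne, a⟩
    · rintro ⟨a, b⟩; exact ⟨b, lt_of_le_of_ne (hmax j b) a⟩
  have h2 : ¬ (Λ.filter (i < ·)).Nonempty := by
    rw [Finset.not_nonempty_iff_eq_empty, Finset.filter_eq_empty_iff]
    intro j hj
    exact not_lt.2 (hmax j hj)
  have hb : ¬ (rk Λ i % 2 = 0 ∧ (Λ.filter (i < ·)).Nonempty) := fun hc => h2 hc.2
  refine ⟨?_, pv_spec Λ i (small_of Λ h i hi hb)⟩
  have h3 : (op2 S Λ s && decide (rk Λ i = 1)) = false := by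
    by_cases hr : rk Λ i = 1
    · have hc : Λ.card ≠ 3 := by omega
      unfold op2
      simp [hc]
    · simp [hr]
  unfold cdf
  rw [if_neg hb, h3]
  simp

end B

end OddG
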