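import Pool.Agent.Lib.MP_e26f2a_co.LinkDefs

set_option autoImplicit false

namespace OddG

open Finset

namespace LabCount

variable {n : ℕ}

/-- the increasing enumeration of the positions -/
def e (Λ : Finset (Fin n)) : Fin Λ.card ↪o Fin n := Λ.orderEmbOfFin rfl

theorem e_mem (Λ : Finset (Fin n)) (k : Fin Λ.card) : e Λ k ∈ Λ := Finset.orderEmbOfFin_mem _ _ _

theorem map_e (Λ : Finset (Fin n)) : Finset.map (e Λ).toEmbedding univ = Λ :=
  Finset.map_orderEmbOfFin_univ Λ rfl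

theorem exists_e (Λ : Finset (Fin n)) {i : Fin n} (hi : i ∈ Λ) : ∃ k, e Λ k = i := by
  rw [← map_e Λ] at hi
  obtain ⟨k, _, hk⟩ := Finset.mem_map.1 hi
  exact ⟨k, hk⟩

theorem rk_e (Λ : Finset (Fin n)) (k : Fin Λ.card) : rk Λ (e Λ k) = k := by
  unfold rk
  have h1 : Λ.filter (· < e Λ k) = (univ.filter (· < k)).map (e Λ).toEmbedding := by
    ext i
    simp only [Finset.mem_filter, Finset.mem_map, Finset.mem_univ, true_and]
    constructor
    · rintro ⟨h1, h2⟩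
      obtain ⟨j, rfl⟩ := exists_e Λ h1
      exact ⟨j, (e Λ).lt_iff_lt.1 h2, rfl⟩
    · rintro ⟨j, hj, rfl⟩
      exact ⟨e_mem Λ j, (e Λ).lt_iff_lt.2 hj⟩
  rw [h1, Finset.card_map]
  have h2 : univ.filter (· < k) = Finset.Iio k := by ext; simp
  rw [h2, Fin.card_Iio]

theorem ne_e (Λ : Finset (Fin n)) (k : Fin Λ.card) :
    (Λ.filter (e Λ k < ·)).Nonempty ↔ k.val + 1 < Λ.card := by
  constructor
  · rintro ⟨i, hi⟩
    rw [Finset.mem_filter] at hi
    obtain ⟨j, rfl⟩ := exists_e Λ hi.1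
    have := (e Λ).lt_iff_lt.1 hi.2
    have h2 := j.2
    have h3 : k.val < j.val := this
    omega
  · intro h
    exact ⟨e Λ ⟨k.val + 1, h⟩, Finset.mem_filter.2 ⟨e_mem Λ _, (e Λ).lt_iff_lt.2
      (show k.val < k.val + 1 by omega)⟩⟩

theorem nx_e (Λ : Finset (Fin n)) (k : ℕ) (h : k + 1 < Λ.card) :
    nx Λ (e Λ ⟨k, by omega⟩) = e Λ ⟨k + 1, h⟩ := by
  have h1 : (Λ.filter (e Λ ⟨k, by omega⟩ < ·)).Nonempty := (ne_e Λ ⟨k, by omega⟩).2 h
  unfold nx mn
  rw [dif_pos h1]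
  apply le_antisymm
  · apply Finset.min'_le
    exact Finset.mem_filter.2 ⟨e_mem Λ _, (e Λ).lt_iff_lt.2 (show k < k + 1 by omega)⟩
  · apply Finset.le_min'
    intro i hi
    rw [Finset.mem_filter] at hi
    obtain ⟨j, rfl⟩ := exists_e Λ hi.1
    have h2 : k < j.val := (e Λ).lt_iff_lt.1 hi.2
    exact (e Λ).le_iff_le.2 (show k + 1 ≤ j.val by omega)

theorem pv_e (Λ : Finset (Fin n)) (k : ℕ) (h : k + 1 < Λ.card) :
    pv Λ (e Λ ⟨k + 1, h⟩) = e Λ ⟨k, by omega⟩ := by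
  have h1 : (Λ.filter (· < e Λ ⟨k + 1, h⟩)).Nonempty :=
    ⟨e Λ ⟨k, by omega⟩, Finset.mem_filter.2 ⟨e_mem Λ _, (e Λ).lt_iff_lt.2
      (show k < k + 1 by omega)⟩⟩
  unfold pv mx
  rw [dif_pos h1]
  apply le_antisymm
  · apply Finset.max'_le
    intro i hi
    rw [Finset.mem_filter] at hi
    obtain ⟨j, rfl⟩ := exists_e Λ hi.1
    have h2 : j.val < k + 1 := (e Λ).lt_iff_lt.1 hi.2
    exact (e Λ).le_iff_le.2 (show j.val ≤ k by omega)
  · apply Finset.le_max'
    exact Finset.mem_filter.2 ⟨e_mem Λ _, (e Λ).lt_iff_lt.2 (show k < k + 1 by omega)⟩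

/-- the base label -/
def c0 (Λ : Finset (Fin n)) (s : Fin n → Bool) (i : Fin n) : Bool :=
  if rk Λ i % 2 = 0 ∧ (Λ.filter (i < ·)).Nonempty then decide (s i = s (nx Λ i))
       else decide (s (pv Λ i) ≠ s i)

/-- the sign sequence -/
def t (Λ : Finset (Fin n)) (s : Fin n → Bool) (k : ℕ) : Bool :=
  if h : k < Λ.card then s (e Λ ⟨k, h⟩) else true

theorem t_eq (Λ : Finset (Fin n)) (s : Fin n → Bool) (k : ℕ) (h : k < Λ.card) :
    t Λ s k = s (e Λ ⟨k, h⟩) := by simp [t, h]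

theorem c0_even (Λ : Finset (Fin n)) (s : Fin n → Bool) (k : ℕ) (h : k + 1 < Λ.card)
    (hk : k % 2 = 0) : c0 Λ s (e Λ ⟨k, by omega⟩) = decide (t Λ s k = t Λ s (k + 1)) := by
  unfold c0
  rw [if_pos ⟨by rw [rk_e]; exact hk, (ne_e Λ _).2 h⟩, nx_e Λ k h, t_eq, t_eq]

theorem c0_odd (Λ : Finset (Fin n)) (s : Fin n → Bool) (k : ℕ) (h : k + 1 < Λ.card)
    (hk : k % 2 = 0) : c0 Λ s (e Λ ⟨k + 1, h⟩) = decide (t Λ s k ≠ t Λ s (k + 1)) := by
  unfold c0
  rw [if_neg, pv_e Λ k h, t_eq, t_eq]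
  rintro ⟨h1, _⟩
  rw [rk_e] at h1
  have : (k + 1) % 2 = 0 := h1
  omega

theorem c0_last (Λ : Finset (Fin n)) (s : Fin n → Bool) (k : ℕ) (h : k + 2 = Λ.card) :
    c0 Λ s (e Λ ⟨k + 1, by omega⟩) = decide (t Λ s k ≠ t Λ s (k + 1)) := by
  unfold c0
  rw [if_neg, pv_e Λ k (by omega), t_eq, t_eq]
  rintro ⟨_, h1⟩
  rw [ne_e] at h1
  have : k + 1 + 1 < Λ.card := h1
  omega

/-- the base label of the special edge -/
def z0 (Λ : Finset (Fin n)) (s : Fin n → Bool) : Bool :=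
  decide (∀ i ∈ Λ, rk Λ i + 1 = Λ.card → s (pv Λ i) = s i)

theorem z0_eq (Λ : Finset (Fin n)) (s : Fin n → Bool) (k : ℕ) (h : k + 2 = Λ.card) :
    z0 Λ s = decide (t Λ s k = t Λ s (k + 1)) := by
  unfold z0
  rw [decide_eq_decide]
  constructor
  · intro h1
    have h2 := h1 (e Λ ⟨k + 1, by omega⟩) (e_mem Λ _) (by rw [rk_e]; exact h)
    rwa [pv_e Λ k (by omega), ← t_eq Λ s k (by omega), ← t_eq Λ s (k + 1) (by omega)] at h2
  · intro h1 i hi h2
    obtain ⟨j, rfl⟩ := exists_e Λ hi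
    rw [rk_e] at h2
    have hj : j = ⟨k + 1, by omega⟩ := by
      apply Fin.ext
      show j.val = k + 1
      omega
    rw [hj, pv_e Λ k (by omega), ← t_eq Λ s k (by omega), ← t_eq Λ s (k + 1) (by omega)]
    exact h1

theorem sum_e (Λ : Finset (Fin n)) (f : Fin n → ℕ) :
    ∑ i ∈ Λ, f i = ∑ k ∈ Finset.range Λ.card, (if h : k < Λ.card then f (e Λ ⟨k, h⟩) else 0) := by
  rw [← Fin.sum_univ_eq_sum_range (fun k => if h : k < Λ.card then f (e Λ ⟨k, h⟩) else 0)]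
  conv_lhs => rw [← map_e Λ]
  rw [Finset.sum_map]
  refine Finset.sum_congr rfl fun k _ => ?_
  rw [dif_pos k.2]
  rfl

theorem sum_pairs (g : ℕ → ℕ) (m : ℕ) (h : ∀ j < m, g (2 * j) + g (2 * j + 1) = 1) :
    ∑ k ∈ Finset.range (2 * m), g k = m := by
  induction m with
  | zero => simp
  | succ m ih =>
    rw [show 2 * (m + 1) = 2 * m + 1 + 1 by ring, Finset.sum_range_succ, Finset.sum_range_succ,
      ih fun j hj => h j (by omega)]
    have := h m (by omega)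
    omega

theorem count0 (Λ : Finset (Fin n)) (s : Fin n → Bool) (h : 2 ≤ Λ.card) :
    (∑ i ∈ Λ, if c0 Λ s i = true then 1 else 0) +
      (if Λ.card % 2 = 1 ∧ z0 Λ s = true then 1 else 0) = (Λ.card + 1) / 2 := by
  rw [sum_e Λ (fun i => if c0 Λ s i = true then 1 else 0)]
  have hpair : ∀ j, 2 * j + 1 < Λ.card →
      (if h : 2 * j < Λ.card then (if c0 Λ s (e Λ ⟨2 * j, h⟩) = true then 1 else 0) else 0) +
      (if h : 2 * j + 1 < Λ.card then (if c0 Λ s (e Λ ⟨2 * j + 1, h⟩) = true then 1 else 0)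
        else 0) = 1 := by
    intro j hj
    rw [dif_pos (by omega : 2 * j < Λ.card), dif_pos hj,
      c0_even Λ s (2 * j) hj (by omega), c0_odd Λ s (2 * j) hj (by omega)]
    by_cases h1 : t Λ s (2 * j) = t Λ s (2 * j + 1) <;> simp [h1]
  rcases Nat.even_or_odd' Λ.card with ⟨m, hm | hm⟩
  · have h1 : ∑ k ∈ Finset.range Λ.card, (if h : k < Λ.card then
        (if c0 Λ s (e Λ ⟨k, h⟩) = true then 1 else 0) else 0) = m := by
      conv_lhs => rw [show Finset.range Λ.card = Finset.range (2 * m) by rw [hm]]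
      exact sum_pairs _ m fun j hj => hpair j (by omega)
    rw [h1, if_neg (by omega)]
    omega
  · have h1 : ∑ k ∈ Finset.range (2 * m), (if h : k < Λ.card then
        (if c0 Λ s (e Λ ⟨k, h⟩) = true then 1 else 0) else 0) = m :=
      sum_pairs _ m fun j hj => hpair j (by omega)
    have h2 : Finset.range Λ.card = Finset.range (2 * m + 1) := by rw [hm]
    rw [h2, Finset.sum_range_succ, h1, dif_pos (by omega : 2 * m < Λ.card)]
    obtain ⟨k, rfl⟩ : ∃ k, m = k + 1 := ⟨m - 1, by omega⟩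
    have h3 : (⟨2 * (k + 1), by omega⟩ : Fin Λ.card) = ⟨2 * k + 1 + 1, by omega⟩ := by
      apply Fin.ext; show 2 * (k + 1) = 2 * k + 1 + 1; ring
    have h5 : (Λ.card + 1) / 2 = k + 2 := by omega
    have h6 : Λ.card % 2 = 1 := by omega
    rw [h3, c0_last Λ s (2 * k + 1) (by omega), z0_eq Λ s (2 * k + 1) (by omega), h5]
    simp only [h6, true_and]
    by_cases h4 : t Λ s (2 * k + 1) = t Λ s (2 * k + 1 + 1)
    · simp [h4]
    · simp [h4]

end LabCount

open LabCount in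
theorem cdf_count {n : ℕ} (S : Finset (ZMod 6)) (Λ : Finset (Fin n)) (s : Fin n → Bool)
    (h : 2 ≤ Λ.card) :
    (Λ.filter (fun i => cdf S Λ s i = true)).card +
      (if Λ.card % 2 = 1 ∧ czf S Λ s = true then 1 else 0) = (Λ.card + 1) / 2 := by
  have hc : ∀ i, cdf S Λ s i = xor (c0 Λ s i) (op2 S Λ s && decide (rk Λ i = 1)) := fun _ => rfl
  have hz : czf S Λ s = xor (z0 Λ s) (op2 S Λ s) := rfl
  rw [Finset.card_filter]
  by_cases ho : op2 S Λ s = true
  swap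
  · have ho' : op2 S Λ s = false := by simpa using ho
    have h1 : ∀ i, cdf S Λ s i = c0 Λ s i := fun i => by rw [hc, ho']; simp
    have h2 : czf S Λ s = z0 Λ s := by rw [hz, ho']; simp
    simp only [h1, h2]
    exact count0 Λ s h
  · have ho2 := ho
    unfold op2 at ho2
    rw [decide_eq_true_eq] at ho2
    obtain ⟨h3, h02, _⟩ := ho2
    have hs : t Λ s 0 = t Λ s 2 := by
      rw [t_eq Λ s 0 (by omega), t_eq Λ s 2 (by omega)]
      exact h02 _ (e_mem Λ _) _ (e_mem Λ _) (by rw [rk_e]) (by rw [rk_e])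
    rw [sum_e Λ (fun i => if cdf S Λ s i = true then 1 else 0)]
    have hr : Finset.range Λ.card = Finset.range 3 := by rw [h3]
    rw [hr, Finset.sum_range_succ, Finset.sum_range_succ, Finset.sum_range_succ,
      Finset.sum_range_zero, dif_pos (by omega : 0 < Λ.card), dif_pos (by omega : 1 < Λ.card),
      dif_pos (by omega : 2 < Λ.card), hc, hc, hc, hz, ho, rk_e, rk_e, rk_e]
    have e0 := c0_even Λ s 0 (by omega) rfl
    have e1 := c0_odd Λ s 0 (by omega) rfl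
    have e2 := c0_last Λ s 1 (by omega)
    have ez := z0_eq Λ s 1 (by omega)
    simp only [Nat.zero_add, Nat.reduceAdd] at e0 e1 e2 ez
    rw [e0, e1, e2, ez, hs]
    have h5 : (Λ.card + 1) / 2 = 2 := by omega
    have h6 : Λ.card % 2 = 1 := by omega
    rw [h5]
    simp only [h6, true_and]
    cases t Λ s 1 <;> cases t Λ s 2 <;> simp

end OddG
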