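import Pool.Agent.Lib.MP_e26f2a_co.LabBasic

set_option autoImplicit false

namespace OddG

open Finset

namespace LabExpl

variable {n : ℕ}

open LabBasic

theorem nx_eq (Λ : Finset (Fin n)) (i j : Fin n) (hj : j ∈ Λ) (hij : i < j)
    (h : ∀ l ∈ Λ, i < l → j ≤ l) : nx Λ i = j := by
  obtain ⟨a1, a2, a3⟩ := nx_spec Λ i ⟨j, Finset.mem_filter.2 ⟨hj, hij⟩⟩
  exact le_antisymm (a3 j hj hij) (h _ a1 a2)

theorem pv_eq (Λ : Finset (Fin n)) (i j : Fin n) (hj : j ∈ Λ) (hij : j < i)
    (h : ∀ l ∈ Λ, l < i → l ≤ j) : pv Λ i = j := by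
  obtain ⟨a1, a2, a3⟩ := pv_spec Λ i ⟨j, Finset.mem_filter.2 ⟨hj, hij⟩⟩
  exact le_antisymm (h _ a1 a2) (a3 j hj hij)

theorem op2_card (S : Finset (ZMod 6)) (Λ : Finset (Fin n)) (s : Fin n → Bool)
    (h : Λ.card ≠ 3) : op2 S Λ s = false := by
  unfold op2
  simp [h]

end LabExpl

open LabBasic LabExpl

section B
variable {n : ℕ}

theorem cdf_two (S : Finset (ZMod 6)) (s : Fin n → Bool) (i j : Fin n) (h : i < j) :
    cdf S {i, j} s i = decide (s i = s j) ∧ cdf S {i, j} s j = decide (s i ≠ s j) := by
  have hc : ({i, j} : Finset (Fin n)).card = 2 := Finset.card_pair h.ne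
  have h1 := cdf_min S {i, j} s (by rw [hc]) i (by simp) (by
    intro l hl; simp only [Finset.mem_insert, Finset.mem_singleton] at hl
    rcases hl with rfl | rfl
    · exact le_rfl
    · exact h.le)
  have h2 := cdf_max S {i, j} s (by rw [hc]) j (by simp) (by
    intro l hl; simp only [Finset.mem_insert, Finset.mem_singleton] at hl
    rcases hl with rfl | rfl
    · exact h.le
    · exact le_rfl)
  have e1 : nx {i, j} i = j := nx_eq _ _ _ (by simp) h (by
    intro l hl hil; simp only [Finset.mem_insert, Finset.mem_singleton] at hl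
    rcases hl with rfl | rfl
    · exact absurd hil (lt_irrefl _)
    · exact le_rfl)
  have e2 : pv {i, j} j = i := pv_eq _ _ _ (by simp) h (by
    intro l hl hil; simp only [Finset.mem_insert, Finset.mem_singleton] at hl
    rcases hl with rfl | rfl
    · exact le_rfl
    · exact absurd hil (lt_irrefl _))
  rw [h1.1, h2.1, e1, e2]
  exact ⟨rfl, rfl⟩

theorem cdf_three (S : Finset (ZMod 6)) (s : Fin n → Bool) (i j k : Fin n) (h : i < j)
    (h' : j < k) :
    cdf S {i, j, k} s i = decide (s i = s j) ∧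
    cdf S {i, j, k} s j = xor (decide (s i ≠ s j))
      (decide (s i = s k ∧ (((i : ℕ) + (j : ℕ) + (k : ℕ) : ℕ) : ZMod 6) ∈ S)) ∧
    cdf S {i, j, k} s k = decide (s j ≠ s k) ∧
    czf S {i, j, k} s = xor (decide (s j = s k))
      (decide (s i = s k ∧ (((i : ℕ) + (j : ℕ) + (k : ℕ) : ℕ) : ZMod 6) ∈ S)) := by
  have hik : i < k := h.trans h'
  have hc : ({i, j, k} : Finset (Fin n)).card = 3 := by
    rw [Finset.card_insert_of_notMem, Finset.card_pair h'.ne]
    simp only [Finset.mem_insert, Finset.mem_singleton, not_or]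
    exact ⟨h.ne, hik.ne⟩
  have hmem : ∀ l, l ∈ ({i, j, k} : Finset (Fin n)) ↔ l = i ∨ l = j ∨ l = k := by
    intro l; simp only [Finset.mem_insert, Finset.mem_singleton]
  have fi : ({i, j, k} : Finset (Fin n)).filter (· < i) = ∅ := by
    ext l
    rw [Finset.mem_filter, hmem]
    simp only [Finset.notMem_empty, iff_false, not_and, not_lt]
    rintro (rfl | rfl | rfl)
    · exact le_rfl
    · exact h.le
    · exact hik.le
  have fj : ({i, j, k} : Finset (Fin n)).filter (· < j) = {i} := by
    ext l
    rw [Finset.mem_filter, hmem, Finset.mem_singleton]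
    constructor
    · rintro ⟨rfl | rfl | rfl, h2⟩
      · rfl
      · exact absurd h2 (lt_irrefl _)
      · exact absurd h2 (not_lt.2 h'.le)
    · rintro rfl; exact ⟨Or.inl rfl, h⟩
  have fk : ({i, j, k} : Finset (Fin n)).filter (· < k) = {i, j} := by
    ext l
    rw [Finset.mem_filter, hmem, Finset.mem_insert, Finset.mem_singleton]
    constructor
    · rintro ⟨rfl | rfl | rfl, h2⟩
      · exact Or.inl rfl
      · exact Or.inr rfl
      · exact absurd h2 (lt_irrefl _)
    · rintro (rfl | rfl)
      · exact ⟨Or.inl rfl, hik⟩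
      · exact ⟨Or.inr (Or.inl rfl), h'⟩
  have ri : rk {i, j, k} i = 0 := by unfold rk; rw [fi]; rfl
  have rj : rk {i, j, k} j = 1 := by unfold rk; rw [fj]; rfl
  have rk' : rk {i, j, k} k = 2 := by unfold rk; rw [fk]; exact Finset.card_pair h.ne
  have e1 : nx {i, j, k} i = j := nx_eq _ _ _ (by simp) h (by
    intro l hl hil; rw [hmem] at hl
    rcases hl with rfl | rfl | rfl
    · exact absurd hil (lt_irrefl _)
    · exact le_rfl
    · exact h'.le)
  have e2 : pv {i, j, k} j = i := pv_eq _ _ _ (by simp) h (by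
    intro l hl hil; rw [hmem] at hl
    rcases hl with rfl | rfl | rfl
    · exact le_rfl
    · exact absurd hil (lt_irrefl _)
    · exact absurd hil (not_lt.2 h'.le))
  have e3 : pv {i, j, k} k = j := pv_eq _ _ _ (by simp) h' (by
    intro l hl hil; rw [hmem] at hl
    rcases hl with rfl | rfl | rfl
    · exact h.le
    · exact le_rfl
    · exact absurd hil (lt_irrefl _))
  have hsum : (∑ l ∈ ({i, j, k} : Finset (Fin n)), (l : ℕ)) = (i : ℕ) + (j : ℕ) + (k : ℕ) := by
    rw [Finset.sum_insert, Finset.sum_pair h'.ne]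
    · ring
    · simp only [Finset.mem_insert, Finset.mem_singleton, not_or]
      exact ⟨h.ne, hik.ne⟩
  have hop : op2 S {i, j, k} s =
      decide (s i = s k ∧ (((i : ℕ) + (j : ℕ) + (k : ℕ) : ℕ) : ZMod 6) ∈ S) := by
    unfold op2
    rw [decide_eq_decide, hsum]
    constructor
    · rintro ⟨_, h2, h3⟩
      exact ⟨h2 i (by simp) k (by simp) ri rk', h3⟩
    · rintro ⟨h2, h3⟩
      refine ⟨hc, ?_, h3⟩
      intro a ha b hb h0 h22
      have ea : a = i := by
        rw [hmem] at ha
        rcases ha with rfl | rfl | rfl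
        · rfl
        · omega
        · omega
      have eb : b = k := by
        rw [hmem] at hb
        rcases hb with rfl | rfl | rfl
        · omega
        · omega
        · rfl
      rw [ea, eb]; exact h2
  have h1 := cdf_min S {i, j, k} s (by rw [hc]; omega) i (by simp) (by
    intro l hl; rw [hmem] at hl
    rcases hl with rfl | rfl | rfl
    · exact le_rfl
    · exact h.le
    · exact hik.le)
  have h2 := cdf_max S {i, j, k} s (by rw [hc]; omega) k (by simp) (by
    intro l hl; rw [hmem] at hl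
    rcases hl with rfl | rfl | rfl
    · exact hik.le
    · exact h'.le
    · exact le_rfl)
  refine ⟨?_, ?_, ?_, ?_⟩
  · rw [h1.1, e1]
  · unfold cdf
    rw [if_neg, e2, rj, hop]
    · simp
    · rw [rj]; rintro ⟨h3, _⟩; omega
  · rw [h2.1, e3]
  · unfold czf
    rw [hop]
    congr 1
    rw [decide_eq_decide]
    constructor
    · intro h3
      have := h3 k (by simp) (by rw [rk', hc])
      rwa [e3] at this
    · intro h3 a ha hr
      have ea : a = k := by
        rw [hmem] at ha
        rcases ha with rfl | rfl | rfl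
        · rw [ri, hc] at hr; omega
        · rw [rj, hc] at hr; omega
        · rfl
      rw [ea, e3]; exact h3

end B

end OddG
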