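import Pool.Agent.Lib.MP_e26f2a_co.LabBasic
import Pool.Agent.Lib.MP_e26f2a_co.LabCount

set_option autoImplicit false

namespace OddG

open Finset

namespace LabReg

theorem bsum (a b : Bool) (h : a ≠ b) :
    (if a = true then 1 else 0) + (if b = true then 1 else 0) = 1 := by
  revert a b; decide

theorem nsum (a : Bool) : (if (!a) = true then 1 else 0) + (if a = true then 1 else 0) = 1 := by
  revert a; decide

variable {m : ℕ}

/-- the two insertions at an empty pair have different labels -/
theorem es_ne (S : Finset (ZMod 6)) (D : Finset (Fin (2*m+1)) → Fin (2*m+1) → Bool)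
    (hD : ∀ V p, V.card = m → p ∉ V → D (co V p) p = !D V p)
    (A : Finset (X (2*m+1))) (hA : A.card = 2*m+1) (i : Fin (2*m+1)) (hi : i ∈ Es A) :
    cA S D (N A (some (i, true))) i ≠ cA S D (N A (some (i, false))) i := by
  have hL : ∀ b, Lam (N A (some (i, b))) = insert i (Lam A) := fun b => Lam_ins A i hi b
  have hiL : i ∉ Lam A := fun h => Lam_not_Es A i h hi
  have hc : (insert i (Lam A)).card = (Lam A).card + 1 := Finset.card_insert_of_notMem hiL
  by_cases hq : (Lam A).card = 0
  · have h0 : Lam A = ∅ := Finset.card_eq_zero.1 hq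
    have hL0 : ∀ b, Lam (N A (some (i, b))) = {i} := by
      intro b; rw [hL, h0]; rfl
    have h1 : (Fs A).card = m := by
      have a1 := card_n A
      have a2 := card_Es A hA
      have a3 : none ∈ A := by
        rw [none_iff A hA, hq]; exact Even.zero
      rw [if_pos a3] at a2
      omega
    have hF : i ∉ Fs A := Es_not_Fs A i hi
    have key : ∀ b, cA S D (N A (some (i, b))) i =
        D (if sg (N A (some (i, b))) i = true then Es (N A (some (i, b)))
          else Fs (N A (some (i, b)))) i := by
      intro b
      unfold cA tD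
      rw [if_pos (by rw [hL0]; rfl), hL0]
      simp
    have e1 : cA S D (N A (some (i, false))) i = D (Fs A) i := by
      rw [key, sg_ins A i hi, Es_ins A i hi]; simp
    have e2 : cA S D (N A (some (i, true))) i = D (co (Fs A) i) i := by
      rw [key, sg_ins A i hi, Fs_ins A i hi]
      have : (Es A).erase i = co (Fs A) i := by
        ext j
        unfold co
        rw [Finset.mem_erase, Finset.mem_sdiff, Finset.mem_insert, not_or]
        constructor
        · rintro ⟨a, b⟩
          exact ⟨Finset.mem_univ _, a, Es_not_Fs A j b⟩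
        · rintro ⟨_, a, b⟩
          refine ⟨a, ?_⟩
          rcases trich A j with h | h | h
          · rw [h0] at h; exact absurd h (Finset.notMem_empty _)
          · exact h
          · exact absurd h b
      simp [this]
    rw [e1, e2, hD (Fs A) i h1 hF]
    cases D (Fs A) i <;> simp
  · have key : ∀ b, cA S D (N A (some (i, b))) i =
        cdf S (insert i (Lam A)) (sg (N A (some (i, b)))) i := by
      intro b
      unfold cA
      rw [if_neg (by rw [hL, hc]; omega), hL]
    rw [key, key]
    refine cdf_flip S (insert i (Lam A)) _ _ (by omega) i (Finset.mem_insert_self _ _) ?_ ?_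
    · intro j _ hj
      rw [sg_N A _ j, sg_N A _ j]
      · intro h; simp only [Option.some.injEq, Prod.mk.injEq] at h; exact hj h.1.symm
      · intro h; simp only [Option.some.injEq, Prod.mk.injEq] at h; exact hj h.1.symm
    · rw [sg_ins A i hi, sg_ins A i hi]; simp

theorem lab_letter (S : Finset (ZMod 6)) (D : Finset (Fin (2*m+1)) → Fin (2*m+1) → Bool)
    (A : Finset (X (2*m+1))) (i : Fin (2*m+1)) (hi : i ∈ Lam A) (b : Bool) :
    (some (i, b) ∉ A ∧ lab S D A (some (i, b)) = true) ↔ (b = !sg A i ∧ cA S D A i = true) := by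
  rw [mem_letter A i hi]
  have h2 : (some (i, !b) : X (2*m+1)) ∈ A ↔ (!b) = sg A i := mem_letter A i hi (!b)
  constructor
  · rintro ⟨h1, h3⟩
    have h4 : b = !sg A i := by
      cases b <;> cases h5 : sg A i <;> simp_all
    refine ⟨h4, ?_⟩
    have h5 : (some (i, !b) : X (2*m+1)) ∈ A := by rw [h2, h4]; simp
    simp only [lab] at h3
    rwa [if_pos h5] at h3
  · rintro ⟨h4, h3⟩
    have h5 : (some (i, !b) : X (2*m+1)) ∈ A := by rw [h2, h4]; simp
    refine ⟨by rw [h4]; cases sg A i <;> simp, ?_⟩
    simp only [lab]
    rw [if_pos h5]; exact h3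

theorem lab_E (S : Finset (ZMod 6)) (D : Finset (Fin (2*m+1)) → Fin (2*m+1) → Bool)
    (A : Finset (X (2*m+1))) (i : Fin (2*m+1)) (hi : i ∈ Es A) (b : Bool) :
    (some (i, b) ∉ A ∧ lab S D A (some (i, b)) = true) ↔
      cA S D (N A (some (i, b))) i = true := by
  have h1 := mem_E A i hi b
  have h2 := mem_E A i hi (!b)
  simp only [lab]
  rw [if_neg h2]
  exact ⟨fun h => h.2, fun h => ⟨h1, h⟩⟩

end LabReg

open LabReg

theorem lab_reg {m : ℕ} (S : Finset (ZMod 6)) (D : Finset (Fin (2*m+1)) → Fin (2*m+1) → Bool)
    (hD : ∀ V p, V.card = m → p ∉ V → D (co V p) p = !D V p)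
    (A : Finset (X (2*m+1))) (hA : A.card = 2*m+1) :
    (univ.filter fun x => x ∉ A ∧ lab S D A x = true).card = m+1 := by
  classical
  rw [Finset.card_filter, Fintype.sum_option, Fintype.sum_prod_type]
  have hpt : ∀ i : Fin (2*m+1), (∑ b : Bool, (if (some (i, b) : X (2*m+1)) ∉ A ∧
      lab S D A (some (i, b)) = true then 1 else 0)) =
      (if i ∈ Es A then 1 else 0) + (if i ∈ Lam A then (if cA S D A i = true then 1 else 0)
        else 0) := by
    intro i
    rw [Fintype.sum_bool]
    rcases trich A i with h | h | h
    · have h' : i ∉ Es A := Lam_not_Es A i h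
      rw [if_neg h', if_pos h]
      simp only [lab_letter S D A i h]
      cases sg A i <;> by_cases hc : cA S D A i = true <;> simp [hc]
    · have h' : i ∉ Lam A := fun h1 => Lam_not_Es A i h1 h
      rw [if_pos h, if_neg h']
      simp only [lab_E S D A i h]
      exact bsum _ _ (es_ne S D hD A hA i h)
    · have h' : i ∉ Lam A := fun h1 => Lam_not_Fs A i h1 h
      have h'' : i ∉ Es A := fun h1 => Es_not_Fs A i h1 h
      rw [if_neg h', if_neg h'']
      have h1 := mem_F A i h true
      have h2 := mem_F A i h false
      simp [h1, h2]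
  rw [Finset.sum_congr rfl (fun i _ => hpt i), Finset.sum_add_distrib, Finset.sum_ite_mem,
    Finset.sum_ite_mem, Finset.univ_inter, Finset.univ_inter, Finset.sum_const, smul_eq_mul,
    mul_one]
  have hn := card_n A
  have hE := card_Es A hA
  have hne := none_iff A hA
  rcases Nat.lt_or_ge (Lam A).card 2 with hq | hq
  · rcases Nat.eq_zero_or_pos (Lam A).card with h0 | h0
    · have h1 : none ∈ A := by rw [hne, h0]; exact Even.zero
      have h2 : Lam A = ∅ := Finset.card_eq_zero.1 h0
      rw [if_pos h1] at hE
      rw [if_neg (fun h => h.1 h1), h2, Finset.sum_empty]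
      omega
    · have h1 : (Lam A).card = 1 := by omega
      have h2 : none ∉ A := by rw [hne, h1]; decide
      rw [if_neg h2] at hE
      obtain ⟨p, hp⟩ := Finset.card_eq_one.1 h1
      have h3 : lab S D A none = !(tD D A) := by
        simp only [lab]; rw [if_pos h1]
      have h4 : cA S D A p = tD D A := by
        unfold cA; rw [if_pos h1]
      rw [h3, hp, Finset.sum_singleton, h4]
      have h5 := nsum (tD D A)
      simp only [h2, not_false_eq_true, true_and]
      omega
  · have h1 : ∀ i, cA S D A i = cdf S (Lam A) (sg A) i := by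
      intro i; unfold cA; rw [if_neg (by omega)]
    have h2 := cdf_count S (Lam A) (sg A) hq
    rw [Finset.card_filter] at h2
    simp only [h1]
    have h3 : lab S D A none = czf S (Lam A) (sg A) := by
      simp only [lab]; rw [if_neg (by omega)]
    rw [h3]
    have h4 : (none ∉ A ∧ czf S (Lam A) (sg A) = true) ↔
        ((Lam A).card % 2 = 1 ∧ czf S (Lam A) (sg A) = true) := by
      rw [hne, Nat.not_even_iff]
    rw [if_congr h4 rfl rfl]
    by_cases h5 : none ∈ A
    · rw [if_pos h5] at hE
      rw [hne, Nat.even_iff] at h5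
      omega
    · rw [if_neg h5] at hE
      rw [hne, Nat.not_even_iff] at h5
      omega

end OddG
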