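import Pool.Agent.Lib.MP_e26f2a_co.LabBasic

set_option autoImplicit false

namespace OddG

open Finset

namespace LabSymm

variable {n : ℕ}

theorem fs_eq (A : Finset (X n)) (i : Fin n) (hi : i ∈ Lam A) (h : ∀ j ∈ Lam A, i ≤ j) :
    fs A = sg A i := by
  have hn : (Lam A).Nonempty := ⟨i, hi⟩
  unfold fs
  rw [dif_pos hn]
  congr 1
  exact le_antisymm (Finset.min'_le _ _ hi) (h _ (Finset.min'_mem _ _))

theorem ls_eq (A : Finset (X n)) (i : Fin n) (hi : i ∈ Lam A) (h : ∀ j ∈ Lam A, j ≤ i) :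
    ls A = sg A i := by
  have hn : (Lam A).Nonempty := ⟨i, hi⟩
  unfold ls
  rw [dif_pos hn]
  congr 1
  exact le_antisymm (h _ (Finset.max'_mem _ _)) (Finset.le_max' _ _ hi)

theorem sg_dl_ne (A : Finset (X n)) (i j : Fin n) (h : j ≠ i) :
    sg (N A (dl A i)) j = !sg A j := by
  apply sg_N
  unfold dl
  intro e
  simp only [Option.some.injEq, Prod.mk.injEq] at e
  exact h e.1.symm

/-- the label at the deletion side -/
theorem lab_dl (S : Finset (ZMod 6)) (D : Finset (Fin n) → Fin n → Bool) (A : Finset (X n))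
    (i : Fin n) (hi : i ∈ Lam A) : lab S D A (dl A i) = cA S D A i := by
  have h : (some (i, !(!sg A i)) : X n) ∈ A := by
    rw [mem_letter A i hi]; simp
  unfold dl lab
  simp only
  rw [if_pos h]

/-- the label at the insertion side -/
theorem lab_ins (S : Finset (ZMod 6)) (D : Finset (Fin n) → Fin n → Bool) (A : Finset (X n))
    (i : Fin n) (hi : i ∈ Es A) (b : Bool) :
    lab S D A (some (i, b)) = cA S D (N A (some (i, b))) i := by
  have h : (some (i, !b) : X n) ∉ A := mem_E A i hi _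
  unfold lab
  simp only
  rw [if_neg h]

theorem cut_dl (S : Finset (ZMod 6)) (D : Finset (Fin n) → Fin n → Bool) (A : Finset (X n))
    (i : Fin n) (hi : i ∈ Lam A) (hl : cA S D A i = true) (h2 : (Lam (N A (dl A i))).Nonempty) :
    fs (N A (dl A i)) ≠ fs A := by
  have hL := Lam_dl A i hi
  have hc : 2 ≤ (Lam A).card := by
    rw [hL] at h2
    have := Finset.card_pos.2 h2
    rw [Finset.card_erase_of_mem hi] at this
    omega
  have hcA : cdf S (Lam A) (sg A) i = true := by
    have : (Lam A).card ≠ 1 := by omega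
    unfold cA at hl
    rwa [if_neg this] at hl
  have hne : (Lam A).Nonempty := ⟨i, hi⟩
  set μ := (Lam A).min' hne with hμ
  have hμm : μ ∈ Lam A := Finset.min'_mem _ _
  have hμl : ∀ j ∈ Lam A, μ ≤ j := fun j hj => Finset.min'_le _ _ hj
  rw [fs_eq A μ hμm hμl]
  by_cases h : μ = i
  · rw [h] at hμl ⊢
    obtain ⟨a1, a2, a3, a4⟩ := cdf_min S (Lam A) (sg A) hc i hi hμl
    rw [hcA] at a1
    have a5 : sg A i = sg A (nx (Lam A) i) := by simpa using a1.symm
    rw [fs_eq (N A (dl A i)) (nx (Lam A) i) (by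
        rw [hL, Finset.mem_erase]; exact ⟨a3.ne', a2⟩) (by
        intro j hj
        rw [hL, Finset.mem_erase] at hj
        exact a4 j hj.2 (lt_of_le_of_ne (hμl j hj.2) (Ne.symm hj.1))),
      sg_dl_ne A i _ a3.ne', ← a5]
    simp
  · rw [fs_eq (N A (dl A i)) μ (by rw [hL, Finset.mem_erase]; exact ⟨h, hμm⟩) (by
        intro j hj
        rw [hL, Finset.mem_erase] at hj
        exact hμl j hj.2), sg_dl_ne A i _ h]
    simp

theorem cut2_dl (S : Finset (ZMod 6)) (D : Finset (Fin n) → Fin n → Bool) (A : Finset (X n))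
    (i : Fin n) (hi : i ∈ Lam A) (hl : cA S D A i = false) (h2 : (Lam (N A (dl A i))).Nonempty) :
    ls (N A (dl A i)) ≠ ls A := by
  have hL := Lam_dl A i hi
  have hc : 2 ≤ (Lam A).card := by
    rw [hL] at h2
    have := Finset.card_pos.2 h2
    rw [Finset.card_erase_of_mem hi] at this
    omega
  have hcA : cdf S (Lam A) (sg A) i = false := by
    have : (Lam A).card ≠ 1 := by omega
    unfold cA at hl
    rwa [if_neg this] at hl
  have hne : (Lam A).Nonempty := ⟨i, hi⟩
  set μ := (Lam A).max' hne with hμ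
  have hμm : μ ∈ Lam A := Finset.max'_mem _ _
  have hμl : ∀ j ∈ Lam A, j ≤ μ := fun j hj => Finset.le_max' _ _ hj
  rw [ls_eq A μ hμm hμl]
  by_cases h : μ = i
  · rw [h] at hμl ⊢
    obtain ⟨a1, a2, a3, a4⟩ := cdf_max S (Lam A) (sg A) hc i hi hμl
    rw [hcA] at a1
    have a5 : sg A (pv (Lam A) i) = sg A i := by simpa using a1.symm
    rw [ls_eq (N A (dl A i)) (pv (Lam A) i) (by
        rw [hL, Finset.mem_erase]; exact ⟨a3.ne, a2⟩) (by
        intro j hj
        rw [hL, Finset.mem_erase] at hj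
        exact a4 j hj.2 (lt_of_le_of_ne (hμl j hj.2) hj.1)),
      sg_dl_ne A i _ a3.ne, a5]
    simp
  · rw [ls_eq (N A (dl A i)) μ (by rw [hL, Finset.mem_erase]; exact ⟨h, hμm⟩) (by
        intro j hj
        rw [hL, Finset.mem_erase] at hj
        exact hμl j hj.2), sg_dl_ne A i _ h]
    simp

theorem fs_none (A : Finset (X n)) (h : (Lam A).Nonempty) : fs (N A none) ≠ fs A := by
  have hμm : (Lam A).min' h ∈ Lam A := Finset.min'_mem _ _
  have hμl : ∀ j ∈ Lam A, (Lam A).min' h ≤ j := fun j hj => Finset.min'_le _ _ hj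
  rw [fs_eq A _ hμm hμl, fs_eq (N A none) ((Lam A).min' h) (by rw [Lam_N_none]; exact hμm)
    (by rw [Lam_N_none]; exact hμl), sg_N_none]
  simp

theorem ls_none (A : Finset (X n)) (h : (Lam A).Nonempty) : ls (N A none) ≠ ls A := by
  have hμm : (Lam A).max' h ∈ Lam A := Finset.max'_mem _ _
  have hμl : ∀ j ∈ Lam A, j ≤ (Lam A).max' h := fun j hj => Finset.le_max' _ _ hj
  rw [ls_eq A _ hμm hμl, ls_eq (N A none) ((Lam A).max' h) (by rw [Lam_N_none]; exact hμm)
    (by rw [Lam_N_none]; exact hμl), sg_N_none]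
  simp

theorem tD_none (D : Finset (Fin n) → Fin n → Bool) (A : Finset (X n)) :
    tD D (N A none) = tD D A := by
  unfold tD
  rw [decide_eq_decide, Lam_N_none, Es_N_none, Fs_N_none]
  refine exists_congr fun p => and_congr_right fun _ => ?_
  rw [sg_N_none]
  cases sg A p <;> simp

end LabSymm

open LabSymm

theorem lab_symm {m : ℕ} (S : Finset (ZMod 6)) (D : Finset (Fin (2*m+1)) → Fin (2*m+1) → Bool)
    (A : Finset (X (2*m+1))) (x : X (2*m+1)) (hA : A.card = 2*m+1) (hx : x ∉ A) :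
    lab S D (N A x) x = lab S D A x := by
  have _ := hA
  rcases cases_notMem A x hx with rfl | ⟨i, hi, rfl⟩ | ⟨i, hi, b, rfl⟩
  · have h1 : (sg (N A none)) = fun j => !sg A j := funext fun j => sg_N_none A j
    unfold lab
    simp only
    rw [Lam_N_none, tD_none, h1, czf_neg]
  · rw [lab_dl S D A i hi]
    have h : (some (i, !(!sg A i)) : X (2*m+1)) ∉ N A (dl A i) := by
      rw [mem_N]
      rintro ⟨_, h2⟩
      exact h2 (by rw [mem_letter A i hi]; simp)
    have e : lab S D (N A (dl A i)) (dl A i) = cA S D (N (N A (dl A i)) (dl A i)) i := by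
      conv_lhs => unfold lab dl
      simp only
      unfold dl at h
      rw [if_neg h]
      rfl
    rw [e, N_N A _ (dl_notMem A i hi)]
  · rw [lab_ins S D A i hi b]
    have h1 : i ∈ Lam (N A (some (i, b))) := by
      rw [Lam_ins A i hi b]; exact Finset.mem_insert_self _ _
    have h2 := lab_dl S D (N A (some (i, b))) i h1
    rw [dl_ins A i hi b] at h2
    exact h2

theorem lab_cut {m : ℕ} (S : Finset (ZMod 6)) (D : Finset (Fin (2*m+1)) → Fin (2*m+1) → Bool)
    (A : Finset (X (2*m+1))) (x : X (2*m+1)) (hA : A.card = 2*m+1) (hx : x ∉ A)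
    (hl : lab S D A x = true) (h1 : (Lam A).Nonempty) (h2 : (Lam (N A x)).Nonempty) :
    fs (N A x) ≠ fs A := by
  have _ := hA
  rcases cases_notMem A x hx with rfl | ⟨i, hi, rfl⟩ | ⟨i, hi, b, rfl⟩
  · exact fs_none A h1
  · rw [lab_dl S D A i hi] at hl
    exact cut_dl S D A i hi hl h2
  · rw [lab_ins S D A i hi b] at hl
    have h3 : i ∈ Lam (N A (some (i, b))) := by
      rw [Lam_ins A i hi b]; exact Finset.mem_insert_self _ _
    have h4 := cut_dl S D (N A (some (i, b))) i h3 hl (by rw [N_dl_ins A i hi b]; exact h1)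
    rw [N_dl_ins A i hi b] at h4
    exact h4.symm

theorem lab_cut2 {m : ℕ} (S : Finset (ZMod 6)) (D : Finset (Fin (2*m+1)) → Fin (2*m+1) → Bool)
    (A : Finset (X (2*m+1))) (x : X (2*m+1)) (hA : A.card = 2*m+1) (hx : x ∉ A)
    (hl : lab S D A x = false) (h1 : (Lam A).Nonempty) (h2 : (Lam (N A x)).Nonempty) :
    ls (N A x) ≠ ls A := by
  have _ := hA
  rcases cases_notMem A x hx with rfl | ⟨i, hi, rfl⟩ | ⟨i, hi, b, rfl⟩
  · exact ls_none A h1
  · rw [lab_dl S D A i hi] at hl
    exact cut2_dl S D A i hi hl h2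
  · rw [lab_ins S D A i hi b] at hl
    have h3 : i ∈ Lam (N A (some (i, b))) := by
      rw [Lam_ins A i hi b]; exact Finset.mem_insert_self _ _
    have h4 := cut2_dl S D (N A (some (i, b))) i h3 hl (by rw [N_dl_ins A i hi b]; exact h1)
    rw [N_dl_ins A i hi b] at h4
    exact h4.symm

end OddG
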