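import Pool.Agent.Lib.MP_e26f2a_co.LabExpl
import Pool.Agent.Lib.MP_e26f2a_co.LabReg
import Pool.Agent.Lib.MP_e26f2a_co.LabSymm

set_option autoImplicit false

namespace OddG

open Finset

namespace LabGood

variable {m : ℕ}

theorem lab_dl (S : Finset (ZMod 6)) (D : Finset (Fin (2*m+1)) → Fin (2*m+1) → Bool)
    (A : Finset (X (2*m+1))) (i : Fin (2*m+1)) (hi : i ∈ Lam A) :
    lab S D A (dl A i) = cA S D A i := by
  unfold dl
  have h5 : (some (i, !(!sg A i)) : X (2*m+1)) ∈ A := by
    rw [mem_letter A i hi]; simp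
  simp only [lab]
  rw [if_pos h5]

theorem cA_of (S : Finset (ZMod 6)) (D : Finset (Fin (2*m+1)) → Fin (2*m+1) → Bool)
    (A : Finset (X (2*m+1))) (i : Fin (2*m+1)) (h : (Lam A).card ≠ 1) :
    cA S D A i = cdf S (Lam A) (sg A) i := by
  unfold cA; rw [if_neg h]

theorem card3 {n : ℕ} {i j k : Fin n} (h : i < j) (h' : j < k) :
    ({i, j, k} : Finset (Fin n)).card = 3 := by
  rw [Finset.card_insert_of_notMem, Finset.card_pair h'.ne]
  simp only [Finset.mem_insert, Finset.mem_singleton, not_or]
  exact ⟨h.ne, (h.trans h').ne⟩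

end LabGood

open LabGood

theorem good_lab {m : ℕ} (S : Finset (ZMod 6)) (D : Finset (Fin (2*m+1)) → Fin (2*m+1) → Bool)
    (hD : ∀ V p, V.card = m → p ∉ V → D (co V p) p = !D V p) : Good m S D (lab S D) where
  symm := fun A x hA hx => lab_symm S D A x hA hx
  reg := fun A hA => lab_reg S D hD A hA
  cut := fun A x hA hx hl h1 h2 => lab_cut S D A x hA hx hl h1 h2
  tie := by
    intro A p _ hL
    rw [lab_dl S D A p (by rw [hL]; simp)]
    unfold cA tD
    rw [if_pos (by rw [hL]; rfl), hL]
    simp
  d2a := by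
    intro A i j _ hL hij
    have hc : (Lam A).card = 2 := by rw [hL]; exact Finset.card_pair hij.ne
    rw [lab_dl S D A i (by rw [hL]; simp), cA_of S D A i (by omega), hL]
    exact (cdf_two S (sg A) i j hij).1
  d2b := by
    intro A i j _ hL hij
    have hc : (Lam A).card = 2 := by rw [hL]; exact Finset.card_pair hij.ne
    rw [lab_dl S D A j (by rw [hL]; simp), cA_of S D A j (by omega), hL]
    exact (cdf_two S (sg A) i j hij).2
  d3a := by
    intro A i j k _ hL hij hjk
    have hc : (Lam A).card = 3 := by rw [hL]; exact card3 hij hjk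
    rw [lab_dl S D A i (by rw [hL]; simp), cA_of S D A i (by omega), hL]
    exact (cdf_three S (sg A) i j k hij hjk).1
  d3b := by
    intro A i j k _ hL hij hjk
    have hc : (Lam A).card = 3 := by rw [hL]; exact card3 hij hjk
    rw [lab_dl S D A j (by rw [hL]; simp), cA_of S D A j (by omega), hL]
    exact (cdf_three S (sg A) i j k hij hjk).2.1
  d3c := by
    intro A i j k _ hL hij hjk
    have hc : (Lam A).card = 3 := by rw [hL]; exact card3 hij hjk
    rw [lab_dl S D A k (by rw [hL]; simp), cA_of S D A k (by omega), hL]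
    exact (cdf_three S (sg A) i j k hij hjk).2.2.1
  d3z := by
    intro A i j k _ hL hij hjk
    have hc : (Lam A).card = 3 := by rw [hL]; exact card3 hij hjk
    have h1 : lab S D A none = czf S (Lam A) (sg A) := by
      simp only [lab]; rw [if_neg (by omega)]
    rw [h1, hL]
    exact (cdf_three S (sg A) i j k hij hjk).2.2.2

end OddG
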