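import Pool.Agent.Lib.MP_e26f2a_co.OrbDefs

set_option autoImplicit false

namespace OddG

open Finset

/-- position of the arc `(y, x)` which is empty at the vertex `uv p σ V` -/
def dpos {m : ℕ} (σ : Bool) (y x : Fin (2*m+1)) : Fin (2*m+1) := if σ = true then y else x
/-- position of the arc `(y, x)` which is full at the vertex `uv p σ V` -/
def jpos {m : ℕ} (σ : Bool) (y x : Fin (2*m+1)) : Fin (2*m+1) := if σ = true then x else y
/-- sign of the middle vertex at `d` -/
def sdf {m : ℕ} (p d : Fin (2*m+1)) (σ : Bool) : Bool := if d < p then σ else !σ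
/-- sign of the middle vertex at `j` -/
def sjf {m : ℕ} (p d j : Fin (2*m+1)) (σ : Bool) : Bool :=
  if j < p then σ else if p < d ∧ d < j then σ else !σ

/-- first missing element of the link of the arc -/
def x1 {m : ℕ} (p : Fin (2*m+1)) (σ : Bool) (y x : Fin (2*m+1)) : X (2*m+1) :=
  some (dpos σ y x, sdf p (dpos σ y x) σ)
/-- second missing element of the link of the arc -/
def x2 {m : ℕ} (p : Fin (2*m+1)) (σ : Bool) (y x : Fin (2*m+1)) : X (2*m+1) :=
  some (jpos σ y x, !(sjf p (dpos σ y x) (jpos σ y x) σ))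

/-- second vertex of the link (two letters) -/
def Bv {m : ℕ} (p : Fin (2*m+1)) (σ : Bool) (V : Finset (Fin (2*m+1))) (y x : Fin (2*m+1)) :
    Finset (X (2*m+1)) := N (uv p σ V) (x1 p σ y x)
/-- third vertex of the link (three letters) -/
def Cv {m : ℕ} (p : Fin (2*m+1)) (σ : Bool) (V : Finset (Fin (2*m+1))) (y x : Fin (2*m+1)) :
    Finset (X (2*m+1)) := N (Bv p σ V y x) (x2 p σ y x)

end OddG
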