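import Pool.Agent.Lib.MP_e26f2a_co.UvFacts

set_option autoImplicit false

namespace OddG

open Finset

namespace LG
open Uv

variable {m : ℕ}

theorem ins3 {α : Type} [DecidableEq α] (a b c : α) : insert a ({b, c} : Finset α) = {b, c, a} := by
  ext i; simp only [mem_insert, mem_singleton]; tauto

theorem dpos_mem (p : Fin (2*m+1)) (σ : Bool) (V : Finset (Fin (2*m+1)))
    (y x : Fin (2*m+1)) (hV : V.card = m) (hp : p ∉ V) (hy : y ∈ V) (hx : x ∈ co V p) :
    dpos σ y x ∈ Es (uv p σ V) := by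
  rw [(uv_facts p σ V hV hp).2.2.2.2.1]
  cases σ <;> simp [dpos, hy, hx]

theorem jpos_mem (p : Fin (2*m+1)) (σ : Bool) (V : Finset (Fin (2*m+1)))
    (y x : Fin (2*m+1)) (hV : V.card = m) (hp : p ∉ V) (hy : y ∈ V) (hx : x ∈ co V p) :
    jpos σ y x ∈ Fs (uv p σ V) := by
  rw [(uv_facts p σ V hV hp).2.2.2.2.2]
  cases σ <;> simp [jpos, hy, hx]

end LG

open Uv LG in
/-- data of the second vertex -/
theorem Bv_facts {m : ℕ} (p : Fin (2*m+1)) (σ : Bool) (V : Finset (Fin (2*m+1)))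
    (y x : Fin (2*m+1)) (hV : V.card = m) (hp : p ∉ V) (hy : y ∈ V) (hx : x ∈ co V p) :
    x1 p σ y x ∉ uv p σ V ∧ (Bv p σ V y x).card = 2*m+1 ∧
    Lam (Bv p σ V y x) = {p, dpos σ y x} ∧ p ≠ dpos σ y x ∧
    sg (Bv p σ V y x) p = !σ ∧
    sg (Bv p σ V y x) (dpos σ y x) = !(sdf p (dpos σ y x) σ) ∧
    dl (Bv p σ V y x) (dpos σ y x) = x1 p σ y x ∧
    Es (Bv p σ V y x) = Fs (uv p σ V) ∧
    Fs (Bv p σ V y x) = (Es (uv p σ V)).erase (dpos σ y x) := by
  obtain ⟨u1, u2, u3, u4, u5, u6⟩ := uv_facts p σ V hV hp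
  have hd := dpos_mem p σ V y x hV hp hy hx
  have hn : x1 p σ y x ∉ uv p σ V := mem_E _ _ hd _
  have hpd : p ≠ dpos σ y x := by
    intro h
    have : p ∈ Lam (uv p σ V) := by rw [u2]; simp
    have h' := hd
    rw [← h] at h'
    exact Lam_not_Es _ _ this h'
  refine ⟨hn, card_N _ _ u1 hn, ?_, hpd, ?_, ?_, ?_, ?_, ?_⟩
  · unfold Bv x1; rw [Lam_ins _ _ hd, u2]
    exact Finset.pair_comm _ _
  · unfold Bv x1
    rw [sg_N, u3]
    intro h; simp only [Option.some.injEq, Prod.mk.injEq] at h; exact hpd h.1.symm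
  · unfold Bv x1; rw [sg_ins _ _ hd]
  · unfold Bv x1; rw [dl_ins _ _ hd]
  · unfold Bv x1; rw [Es_ins _ _ hd]
  · unfold Bv x1; rw [Fs_ins _ _ hd]

open Uv LG in
/-- data of the third vertex -/
theorem Cv_facts {m : ℕ} (p : Fin (2*m+1)) (σ : Bool) (V : Finset (Fin (2*m+1)))
    (y x : Fin (2*m+1)) (hV : V.card = m) (hp : p ∉ V) (hy : y ∈ V) (hx : x ∈ co V p) :
    x2 p σ y x ∉ Bv p σ V y x ∧ (Cv p σ V y x).card = 2*m+1 ∧ none ∉ Cv p σ V y x ∧
    Lam (Cv p σ V y x) = {p, dpos σ y x, jpos σ y x} ∧ p ≠ dpos σ y x ∧ p ≠ jpos σ y x ∧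
    dpos σ y x ≠ jpos σ y x ∧
    sg (Cv p σ V y x) p = σ ∧
    sg (Cv p σ V y x) (dpos σ y x) = sdf p (dpos σ y x) σ ∧
    sg (Cv p σ V y x) (jpos σ y x) = sjf p (dpos σ y x) (jpos σ y x) σ ∧
    dl (Cv p σ V y x) (jpos σ y x) = x2 p σ y x ∧
    Es (Cv p σ V y x) = (Es (uv p σ V)).erase (dpos σ y x) ∧
    Fs (Cv p σ V y x) = (Fs (uv p σ V)).erase (jpos σ y x) := by
  obtain ⟨u1, u2, u3, u4, u5, u6⟩ := uv_facts p σ V hV hp
  obtain ⟨b1, b2, b3, b4, b5, b6, b7, b8, b9⟩ := Bv_facts p σ V y x hV hp hy hx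
  have hj : jpos σ y x ∈ Es (Bv p σ V y x) := by
    rw [b8]; exact jpos_mem p σ V y x hV hp hy hx
  have hn : x2 p σ y x ∉ Bv p σ V y x := mem_E _ _ hj _
  have hpj : p ≠ jpos σ y x := by
    intro h
    have : p ∈ Lam (Bv p σ V y x) := by rw [b3]; simp
    have h' := hj
    rw [← h] at h'
    exact Lam_not_Es _ _ this h'
  have hdj : dpos σ y x ≠ jpos σ y x := by
    intro h
    have : dpos σ y x ∈ Lam (Bv p σ V y x) := by rw [b3]; simp
    exact Lam_not_Es _ _ this (by rw [h]; exact hj)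
  have hc : (Cv p σ V y x).card = 2*m+1 := card_N _ _ b2 hn
  have hL : Lam (Cv p σ V y x) = {p, dpos σ y x, jpos σ y x} := by
    unfold Cv x2; rw [Lam_ins _ _ hj, b3]
    exact ins3 _ _ _
  refine ⟨hn, hc, ?_, hL, b4, hpj, hdj, ?_, ?_, ?_, ?_, ?_, ?_⟩
  · rw [none_iff _ hc, hL]
    rw [card_insert_of_notMem, card_insert_of_notMem, card_singleton]
    · decide
    · simpa using hdj
    · simp only [mem_insert, mem_singleton, not_or]; exact ⟨b4, hpj⟩
  · unfold Cv x2
    rw [sg_N, b5]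
    · simp
    · intro h; simp only [Option.some.injEq, Prod.mk.injEq] at h; exact hpj h.1.symm
  · unfold Cv x2
    rw [sg_N, b6]
    · simp
    · intro h; simp only [Option.some.injEq, Prod.mk.injEq] at h; exact hdj h.1.symm
  · unfold Cv x2; rw [sg_ins _ _ hj]; simp
  · unfold Cv x2; rw [dl_ins _ _ hj]
  · unfold Cv x2; rw [Es_ins _ _ hj, b9]
  · unfold Cv x2; rw [Fs_ins _ _ hj, b8]

open Uv LG in
/-- the reversed arc has the reversed link -/
theorem link_rev {m : ℕ} (p : Fin (2*m+1)) (σ : Bool) (V : Finset (Fin (2*m+1)))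
    (y x : Fin (2*m+1)) (hV : V.card = m) (hp : p ∉ V) (hy : y ∈ V) (hx : x ∈ co V p) :
    Cv p (fl p x y σ) (sw V y x) x y =
      if p < x ∧ p < y then N (Cv p σ V y x) none else Cv p σ V y x := by
  obtain ⟨c1, c2, c3, c4, c5, c6, c7, c8, c9, c10, c11, c12, c13⟩ :=
    Cv_facts p σ V y x hV hp hy hx
  have hx' := (mem_co V p x).1 hx
  have hxy : x ≠ y := fun h => hx'.2 (h ▸ hy)
  have hyp : y ≠ p := fun h => hp (h ▸ hy)
  have hV' : (sw V y x).card = m := by
    unfold sw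
    rw [card_insert_of_notMem, card_erase_of_mem hy, hV]
    · have : 0 < V.card := card_pos.mpr ⟨y, hy⟩
      omega
    · intro h; exact hx'.2 (mem_of_mem_erase h)
  have hp' : p ∉ sw V y x := by
    unfold sw
    rw [mem_insert, mem_erase]
    rintro (h | h)
    · exact hx'.1 h.symm
    · exact hp h.2
  have hy2 : x ∈ sw V y x := mem_insert_self _ _
  have hx2 : y ∈ co (sw V y x) p := by
    rw [mem_co]; refine ⟨hyp, ?_⟩
    unfold sw; rw [mem_insert, mem_erase]
    rintro (h | h)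
    · exact hxy h.symm
    · exact h.1 rfl
  obtain ⟨e1, e2, e3, e4, e5, e6, e7, e8, e9, e10, e11, e12, e13⟩ :=
    Cv_facts p (fl p x y σ) (sw V y x) x y hV' hp' hy2 hx2
  obtain ⟨u1, u2, u3, u4, u5, u6⟩ := uv_facts p σ V hV hp
  obtain ⟨w1, w2, w3, w4, w5, w6⟩ := uv_facts p (fl p x y σ) (sw V y x) hV' hp'
  by_cases hc : p < x ∧ p < y
  · rw [if_pos hc]
    have hfl : fl p x y σ = !σ := by unfold fl; rw [if_pos hc]
    clear e1 e2 e5 e6 e7 e11 e12 w1 w2 w3 w4 w5
    rw [hfl] at e3 e4 e8 e9 e10 e13 w6 ⊢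
    have hd : dpos (!σ) x y = dpos σ y x := by cases σ <;> simp [dpos]
    have hj : jpos (!σ) x y = jpos σ y x := by cases σ <;> simp [jpos]
    rw [hd] at e4 e9
    rw [hj] at e4 e10 e13
    rw [hd] at e10
    have hpd : p < dpos σ y x := by cases σ <;> simp [dpos, hc.1, hc.2]
    have hpj : p < jpos σ y x := by cases σ <;> simp [jpos, hc.1, hc.2]
    apply ext_A
    · exact ⟨fun h => absurd h e3, fun h => absurd h (not_mem_N _ _)⟩
    · rw [e4, Lam_N_none, c4]
    · intro i hi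
      rw [e4] at hi
      simp only [mem_insert, mem_singleton] at hi
      rw [sg_N_none]
      rcases hi with rfl | rfl | rfl
      · rw [e8, c8]
      · rw [e9, c9]
        have hlt : ¬ dpos σ y x < p := not_lt.mpr hpd.le
        unfold sdf
        rw [if_neg hlt, if_neg hlt]
      · rw [e10, c10]
        have hlt : ¬ jpos σ y x < p := not_lt.mpr hpj.le
        unfold sjf
        rw [if_neg hlt, if_neg hlt]
        by_cases hq : p < dpos σ y x ∧ dpos σ y x < jpos σ y x
        · rw [if_pos hq, if_pos hq]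
        · rw [if_neg hq, if_neg hq]
    · rw [e13, Fs_N_none, c12, w6, u5]
      ext i
      cases σ
      · simp only [Bool.not_false, if_true, Bool.false_eq_true, if_false, jpos, dpos, mem_erase,
          mem_co, sw, mem_insert, not_or, not_and, not_not, ne_eq]
        constructor
        · rintro ⟨h1, h2, h3, h4⟩
          exact ⟨h3, h2, fun h5 => h1 (by by_contra h6; exact h4 h6 h5)⟩
        · rintro ⟨h1, h2, h3⟩
          exact ⟨fun h => h3 (h ▸ hy), h2, h1, fun _ => h3⟩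
      · simp only [Bool.not_true, if_true, Bool.false_eq_true, if_false, jpos, dpos, mem_erase,
          sw, mem_insert, ne_eq]
        constructor
        · rintro ⟨h1, h2 | h2⟩
          · exact absurd h2 h1
          · exact h2
        · rintro ⟨h1, h2⟩
          exact ⟨fun h => hx'.2 (h ▸ h2), Or.inr ⟨h1, h2⟩⟩
  · rw [if_neg hc]
    have hfl : fl p x y σ = σ := by unfold fl; rw [if_neg hc]
    clear e1 e2 e5 e6 e7 e11 e12 w1 w2 w3 w4 w5
    rw [hfl] at e3 e4 e8 e9 e10 e13 w6 ⊢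
    have hd : dpos σ x y = jpos σ y x := by cases σ <;> simp [dpos, jpos]
    have hj : jpos σ x y = dpos σ y x := by cases σ <;> simp [dpos, jpos]
    rw [hd] at e4 e9 e10
    rw [hj] at e4 e10 e13
    have hdj : ¬ (p < dpos σ y x ∧ p < jpos σ y x) := by
      intro h; apply hc
      cases σ
      · exact h
      · exact ⟨h.2, h.1⟩
    apply ext_A
    · exact ⟨fun h => absurd h e3, fun h => absurd h c3⟩
    · rw [e4, c4, Finset.pair_comm (jpos σ y x) (dpos σ y x)]
    · intro i hi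
      rw [e4] at hi
      simp only [mem_insert, mem_singleton] at hi
      rcases hi with rfl | rfl | rfl
      · rw [e8, c8]
      · rw [e9, c10]
        unfold sdf sjf
        have : ¬ (p < dpos σ y x ∧ dpos σ y x < jpos σ y x) :=
          fun h => hdj ⟨h.1, h.1.trans h.2⟩
        rw [if_neg this]
      · rw [e10, c9]
        unfold sdf sjf
        have : ¬ (p < jpos σ y x ∧ jpos σ y x < dpos σ y x) :=
          fun h => hdj ⟨h.1.trans h.2, h.1⟩
        rw [if_neg this]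
    · rw [e13, c13, w6, u6]
      ext i
      cases σ
      · simp only [Bool.false_eq_true, if_false, jpos, dpos, mem_erase,
          sw, mem_insert, ne_eq]
        constructor
        · rintro ⟨h1, h2 | h2⟩
          · exact absurd h2 h1
          · exact h2
        · rintro ⟨h1, h2⟩
          exact ⟨fun h => hx'.2 (h ▸ h2), Or.inr ⟨h1, h2⟩⟩
      · simp only [if_true, jpos, dpos, mem_erase,
          mem_co, sw, mem_insert, not_or, not_and, not_not, ne_eq]
        constructor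
        · rintro ⟨h1, h2, h3, h4⟩
          exact ⟨h3, h2, fun h5 => h1 (by by_contra h6; exact h4 h6 h5)⟩
        · rintro ⟨h1, h2, h3⟩
          exact ⟨fun h => h3 (h ▸ hy), h2, h1, fun _ => h3⟩

end OddG
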