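import Pool.Agent.Lib.MP_e26f2a_co.LinkGeo

set_option autoImplicit false

namespace OddG

open Finset

namespace LL
open Uv LG

variable {m : ℕ}

theorem al_of_same {S : Finset (ZMod 6)} {p x y : Fin (2*m+1)} (h : al S p x y)
    (h1 : ¬ (x < p ∧ p < y)) (h2 : ¬ (y < p ∧ p < x)) :
    (((p : ℕ) + (x : ℕ) + (y : ℕ) : ℕ) : ZMod 6) ∈ S := by
  rcases h with h | h | h
  · exact absurd h h1
  · exact absurd h h2
  · exact h

/-- the sum of the three positions -/
theorem al_dj {S : Finset (ZMod 6)} {p x y : Fin (2*m+1)} (σ : Bool) (h : al S p x y)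
    (h1 : ¬ (dpos σ y x < p ∧ p < jpos σ y x)) (h2 : ¬ (jpos σ y x < p ∧ p < dpos σ y x)) :
    (((p : ℕ) + (dpos σ y x : ℕ) + (jpos σ y x : ℕ) : ℕ) : ZMod 6) ∈ S := by
  cases σ
  · exact al_of_same h h1 h2
  · have := al_of_same h h2 h1
    have e : ((p : ℕ) + (dpos true y x : ℕ) + (jpos true y x : ℕ)) =
      ((p : ℕ) + (x : ℕ) + (y : ℕ)) := by
      show (p : ℕ) + (y : ℕ) + (x : ℕ) = (p : ℕ) + (x : ℕ) + (y : ℕ)
      ring
    rw [e]; exact this

theorem lab1 (S : Finset (ZMod 6))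
    (D : Finset (Fin (2*m+1)) → Fin (2*m+1) → Bool)
    (L : Finset (X (2*m+1)) → X (2*m+1) → Bool) (hL : Good m S D L)
    (p : Fin (2*m+1)) (σ : Bool) (V : Finset (Fin (2*m+1)))
    (y x : Fin (2*m+1)) (hV : V.card = m) (hp : p ∉ V) (hy : y ∈ V) (hx : x ∈ co V p) :
    L (uv p σ V) (x1 p σ y x) = true := by
  obtain ⟨b1, b2, b3, b4, b5, b6, b7, b8, b9⟩ := Bv_facts p σ V y x hV hp hy hx
  have u1 := (uv_facts p σ V hV hp).1
  rw [← hL.symm _ _ u1 b1]
  show L (Bv p σ V y x) (x1 p σ y x) = true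
  rw [← b7]
  rcases lt_or_gt_of_ne b4 with h | h
  · rw [hL.d2b _ p _ b2 b3 h, b5, b6]
    unfold sdf
    rw [if_neg (not_lt.mpr h.le)]
    cases σ <;> rfl
  · have b3' : Lam (Bv p σ V y x) = {dpos σ y x, p} := by rw [b3]; exact Finset.pair_comm _ _
    rw [hL.d2a _ _ p b2 b3' h, b5, b6]
    unfold sdf
    rw [if_pos h]
    cases σ <;> rfl

theorem perm1 {α : Type} [DecidableEq α] (a b c : α) : ({a, b, c} : Finset α) = {a, c, b} := by
  ext i; simp only [mem_insert, mem_singleton]; tauto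
theorem perm2 {α : Type} [DecidableEq α] (a b c : α) : ({a, b, c} : Finset α) = {b, a, c} := by
  ext i; simp only [mem_insert, mem_singleton]; tauto
theorem perm3 {α : Type} [DecidableEq α] (a b c : α) : ({a, b, c} : Finset α) = {b, c, a} := by
  ext i; simp only [mem_insert, mem_singleton]; tauto
theorem perm4 {α : Type} [DecidableEq α] (a b c : α) : ({a, b, c} : Finset α) = {c, a, b} := by
  ext i; simp only [mem_insert, mem_singleton]; tauto
theorem perm5 {α : Type} [DecidableEq α] (a b c : α) : ({a, b, c} : Finset α) = {c, b, a} := by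
  ext i; simp only [mem_insert, mem_singleton]; tauto

/-- label of the deletion of `j` and of the special edge at a vertex with three letters -/
theorem lab2 (S : Finset (ZMod 6))
    (D : Finset (Fin (2*m+1)) → Fin (2*m+1) → Bool)
    (L : Finset (X (2*m+1)) → X (2*m+1) → Bool) (hL : Good m S D L)
    (C : Finset (X (2*m+1))) (hC : C.card = 2*m+1) (p d j : Fin (2*m+1)) (σ : Bool)
    (hLam : Lam C = {p, d, j}) (hpd : p ≠ d) (hpj : p ≠ j) (hdj : d ≠ j)
    (hp : sg C p = σ) (hd : sg C d = sdf p d σ) (hj : sg C j = sjf p d j σ)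
    (hS : ¬ (d < p ∧ p < j) → ¬ (j < p ∧ p < d) →
      (((p : ℕ) + (d : ℕ) + (j : ℕ) : ℕ) : ZMod 6) ∈ S) :
    L C (dl C j) = true ∧ (p < d ∧ p < j → L C none = true) := by
  have s1 : d < p → sg C d = σ := by
    intro h; rw [hd]; unfold sdf; rw [if_pos h]
  have s2 : p < d → sg C d = !σ := by
    intro h; rw [hd]; unfold sdf; rw [if_neg (not_lt.mpr h.le)]
  have s3 : j < p → sg C j = σ := by
    intro h; rw [hj]; unfold sjf; rw [if_pos h]
  have s4 : p < j → p < d → d < j → sg C j = σ := by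
    intro h1 h2 h3; rw [hj]; unfold sjf; rw [if_neg (not_lt.mpr h1.le), if_pos ⟨h2, h3⟩]
  have s5 : p < j → ¬ (p < d ∧ d < j) → sg C j = !σ := by
    intro h1 h2; rw [hj]; unfold sjf; rw [if_neg (not_lt.mpr h1.le), if_neg h2]
  rcases lt_or_gt_of_ne hpd with h1 | h1 <;> rcases lt_or_gt_of_ne hpj with h2 | h2
  · -- p < d, p < j
    rcases lt_or_gt_of_ne hdj with h3 | h3
    · constructor
      · rw [hL.d3c C p d j hC hLam h1 h3, s2 h1, s4 h2 h1 h3]
        cases σ <;> rfl
      · intro _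
        rw [hL.d3z C p d j hC hLam h1 h3, s2 h1, s4 h2 h1 h3, hp]
        have hs := hS (fun h => absurd h.1 (not_lt.mpr h1.le)) (fun h => absurd h.1 (not_lt.mpr h2.le))
        simp only [hs, and_true]
        cases σ <;> rfl
    · have hLam' : Lam C = {p, j, d} := by rw [hLam]; exact perm1 _ _ _
      have s6 := s5 h2 (fun h => absurd h.2 (not_lt.mpr h3.le))
      constructor
      · rw [hL.d3b C p j d hC hLam' h2 h3, s2 h1, s6, hp]
        cases σ <;> simp
      · intro _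
        rw [hL.d3z C p j d hC hLam' h2 h3, s2 h1, s6, hp]
        cases σ <;> simp
  · -- j < p < d
    have hLam' : Lam C = {j, p, d} := by rw [hLam]; exact perm4 _ _ _
    refine ⟨?_, fun h => absurd h.2 (not_lt.mpr h2.le)⟩
    rw [hL.d3a C j p d hC hLam' h2 h1, s3 h2, hp]
    simp
  · -- d < p < j
    have hLam' : Lam C = {d, p, j} := by rw [hLam]; exact perm2 _ _ _
    refine ⟨?_, fun h => absurd h.1 (not_lt.mpr h1.le)⟩
    have s6 := s5 h2 (fun h => absurd h.1 (not_lt.mpr h1.le))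
    rw [hL.d3c C d p j hC hLam' h1 h2, s6, hp]
    cases σ <;> rfl
  · -- d < p, j < p
    refine ⟨?_, fun h => absurd h.1 (not_lt.mpr h1.le)⟩
    rcases lt_or_gt_of_ne hdj with h3 | h3
    · have hLam' : Lam C = {d, j, p} := by rw [hLam]; exact perm3 _ _ _
      have hs := hS (fun h => absurd h.2 (not_lt.mpr h2.le)) (fun h => absurd h.2 (not_lt.mpr h1.le))
      have hs' : (((d : ℕ) + (j : ℕ) + (p : ℕ) : ℕ) : ZMod 6) ∈ S := by
        have e : (d : ℕ) + (j : ℕ) + (p : ℕ) = (p : ℕ) + (d : ℕ) + (j : ℕ) := by ring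
        rw [e]; exact hs
      rw [hL.d3b C d j p hC hLam' h3 h2, s1 h1, s3 h2, hp]
      simp only [hs', and_true]
      cases σ <;> rfl
    · have hLam' : Lam C = {j, d, p} := by rw [hLam]; exact perm5 _ _ _
      rw [hL.d3a C j d p hC hLam' h3 h1, s1 h1, s3 h2]
      simp

end LL

open Uv LG LL in
/-- labels of the first two edges of the link -/
theorem link_labels {m : ℕ} (S : Finset (ZMod 6))
    (D : Finset (Fin (2*m+1)) → Fin (2*m+1) → Bool)
    (L : Finset (X (2*m+1)) → X (2*m+1) → Bool) (hL : Good m S D L)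
    (p : Fin (2*m+1)) (σ : Bool) (V : Finset (Fin (2*m+1)))
    (y x : Fin (2*m+1)) (hV : V.card = m) (hp : p ∉ V) (hy : y ∈ V) (hx : x ∈ co V p)
    (hal : al S p x y) :
    L (uv p σ V) (x1 p σ y x) = true ∧ L (Bv p σ V y x) (x2 p σ y x) = true ∧
    (p < x ∧ p < y → L (Cv p σ V y x) none = true) := by
  obtain ⟨b1, b2, b3, b4, b5, b6, b7, b8, b9⟩ := Bv_facts p σ V y x hV hp hy hx
  obtain ⟨c1, c2, c3, c4, c5, c6, c7, c8, c9, c10, c11, c12, c13⟩ :=
    Cv_facts p σ V y x hV hp hy hx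
  have h2 := lab2 S D L hL (Cv p σ V y x) c2 p (dpos σ y x) (jpos σ y x) σ c4 c5 c6 c7 c8 c9 c10
    (fun h1 h2 => al_dj σ hal h1 h2)
  refine ⟨lab1 S D L hL p σ V y x hV hp hy hx, ?_, ?_⟩
  · rw [← hL.symm _ _ b2 c1]
    show L (Cv p σ V y x) (x2 p σ y x) = true
    rw [← c11]; exact h2.1
  · intro h
    apply h2.2
    cases σ
    · exact h
    · exact ⟨h.2, h.1⟩

open Uv LG LL in
/-- the first dart and the full position determine the arc -/
theorem link_inj1 {m : ℕ}
    (p : Fin (2*m+1)) (σ : Bool) (V : Finset (Fin (2*m+1))) (y x : Fin (2*m+1))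
    (hV : V.card = m) (hp : p ∉ V) (hy : y ∈ V) (hx : x ∈ co V p)
    (p' : Fin (2*m+1)) (σ' : Bool) (V' : Finset (Fin (2*m+1))) (y' x' : Fin (2*m+1))
    (hV' : V'.card = m) (hp' : p' ∉ V') (hy' : y' ∈ V') (hx' : x' ∈ co V' p')
    (h1 : uv p σ V = uv p' σ' V') (h2 : x1 p σ y x = x1 p' σ' y' x')
    (h3 : jpos σ y x = jpos σ' y' x') :
    p = p' ∧ σ = σ' ∧ V = V' ∧ y = y' ∧ x = x' := by
  obtain ⟨u1, u2, u3, u4, u5, u6⟩ := uv_facts p σ V hV hp
  obtain ⟨w1, w2, w3, w4, w5, w6⟩ := uv_facts p' σ' V' hV' hp'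
  have hpp : p = p' := by
    rw [h1, w2] at u2
    exact (Finset.singleton_injective u2).symm
  subst hpp
  have hss : σ = σ' := by rw [← u3, ← w3, h1]
  subst hss
  have hd : dpos σ y x = dpos σ y' x' := by
    unfold x1 at h2
    simp only [Option.some.injEq, Prod.mk.injEq] at h2
    exact h2.1
  have hVV : V = V' := by
    cases σ
    · simp only [Bool.false_eq_true, if_false] at u6 w6
      rw [← u6, ← w6, h1]
    · simp only [if_true] at u5 w5
      rw [← u5, ← w5, h1]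
  refine ⟨rfl, rfl, hVV, ?_⟩
  cases σ
  · exact ⟨h3, hd⟩
  · exact ⟨hd, h3⟩

open Uv LG LL in
/-- the second dart determines the arc -/
theorem link_inj2 {m : ℕ} (S : Finset (ZMod 6))
    (D : Finset (Fin (2*m+1)) → Fin (2*m+1) → Bool)
    (L : Finset (X (2*m+1)) → X (2*m+1) → Bool) (hL : Good m S D L)
    (p : Fin (2*m+1)) (σ : Bool) (V : Finset (Fin (2*m+1))) (y x : Fin (2*m+1))
    (hV : V.card = m) (hp : p ∉ V) (hy : y ∈ V) (hx : x ∈ co V p) (hal : al S p x y)
    (p' : Fin (2*m+1)) (σ' : Bool) (V' : Finset (Fin (2*m+1))) (y' x' : Fin (2*m+1))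
    (hV' : V'.card = m) (hp' : p' ∉ V') (hy' : y' ∈ V') (hx' : x' ∈ co V' p')
    (hal' : al S p' x' y')
    (h1 : Bv p σ V y x = Bv p' σ' V' y' x') (h2 : x2 p σ y x = x2 p' σ' y' x') :
    p = p' ∧ σ = σ' ∧ V = V' ∧ y = y' ∧ x = x' := by
  obtain ⟨b1, b2, b3, b4, b5, b6, b7, b8, b9⟩ := Bv_facts p σ V y x hV hp hy hx
  obtain ⟨e1, e2, e3, e4, e5, e6, e7, e8, e9⟩ := Bv_facts p' σ' V' y' x' hV' hp' hy' hx'
  have u1 := (uv_facts p σ V hV hp).1
  have w1 := (uv_facts p' σ' V' hV' hp').1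
  have l1 := lab1 S D L hL p σ V y x hV hp hy hx
  have l2 := lab1 S D L hL p' σ' V' y' x' hV' hp' hy' hx'
  rw [← hL.symm _ _ u1 b1] at l1
  rw [← hL.symm _ _ w1 e1] at l2
  change L (Bv p σ V y x) _ = true at l1
  change L (Bv p' σ' V' y' x') _ = true at l2
  rw [← b7] at l1
  rw [← e7, ← h1] at l2
  rw [← h1] at e2 e3 e7
  -- at most one of the two deletions has the label true
  have key : dpos σ y x = dpos σ' y' x' := by
    by_contra hne
    have hmem : dpos σ' y' x' ∈ Lam (Bv p σ V y x) := by rw [e3]; simp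
    have hp1 : dpos σ' y' x' = p := by
      rw [b3] at hmem
      simp only [mem_insert, mem_singleton] at hmem
      rcases hmem with h | h
      · exact h
      · exact absurd h.symm hne
    rw [hp1] at l2
    rcases lt_or_gt_of_ne b4 with h | h
    · rw [hL.d2b _ p _ b2 b3 h] at l1
      rw [hL.d2a _ p _ b2 b3 h] at l2
      have := of_decide_eq_true l1
      exact this (of_decide_eq_true l2)
    · have b3' : Lam (Bv p σ V y x) = {dpos σ y x, p} := by rw [b3]; exact Finset.pair_comm _ _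
      rw [hL.d2a _ _ p b2 b3' h] at l1
      rw [hL.d2b _ _ p b2 b3' h] at l2
      exact (of_decide_eq_true l2) (of_decide_eq_true l1)
  have hx1 : x1 p σ y x = x1 p' σ' y' x' := by rw [← b7, ← e7, key]
  have huv : uv p σ V = uv p' σ' V' := by
    rw [← N_N _ _ b1, ← N_N _ _ e1]
    show N (Bv p σ V y x) _ = N (Bv p' σ' V' y' x') _
    rw [h1, hx1]
  have hj : jpos σ y x = jpos σ' y' x' := by
    unfold x2 at h2
    simp only [Option.some.injEq, Prod.mk.injEq] at h2
    exact h2.1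
  exact link_inj1 p σ V y x hV hp hy hx p' σ' V' y' x' hV' hp' hy' hx' huv hx1 hj

open Uv LG LL in
/-- the third vertex determines the arc, for `p` on the left of both positions -/
theorem link_inj3 {m : ℕ}
    (p : Fin (2*m+1)) (σ : Bool) (V : Finset (Fin (2*m+1))) (y x : Fin (2*m+1))
    (hV : V.card = m) (hp : p ∉ V) (hy : y ∈ V) (hx : x ∈ co V p) (hl : p < x ∧ p < y)
    (p' : Fin (2*m+1)) (σ' : Bool) (V' : Finset (Fin (2*m+1))) (y' x' : Fin (2*m+1))
    (hV' : V'.card = m) (hp' : p' ∉ V') (hy' : y' ∈ V') (hx' : x' ∈ co V' p')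
    (hl' : p' < x' ∧ p' < y')
    (h1 : Cv p σ V y x = Cv p' σ' V' y' x') :
    p = p' ∧ σ = σ' ∧ V = V' ∧ y = y' ∧ x = x' := by
  obtain ⟨c1, c2, c3, c4, c5, c6, c7, c8, c9, c10, c11, c12, c13⟩ :=
    Cv_facts p σ V y x hV hp hy hx
  obtain ⟨e1, e2, e3, e4, e5, e6, e7, e8, e9, e10, e11, e12, e13⟩ :=
    Cv_facts p' σ' V' y' x' hV' hp' hy' hx'
  obtain ⟨u1, u2, u3, u4, u5, u6⟩ := uv_facts p σ V hV hp
  obtain ⟨w1, w2, w3, w4, w5, w6⟩ := uv_facts p' σ' V' hV' hp'
  have pd : p < dpos σ y x := by cases σ; exacts [hl.1, hl.2]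
  have pj : p < jpos σ y x := by cases σ; exacts [hl.2, hl.1]
  have pd' : p' < dpos σ' y' x' := by cases σ'; exacts [hl'.1, hl'.2]
  have pj' : p' < jpos σ' y' x' := by cases σ'; exacts [hl'.2, hl'.1]
  have hLL : ({p, dpos σ y x, jpos σ y x} : Finset (Fin (2*m+1))) =
      {p', dpos σ' y' x', jpos σ' y' x'} := by rw [← c4, ← e4, h1]
  have hpp : p = p' := by
    have m1 : p ∈ ({p', dpos σ' y' x', jpos σ' y' x'} : Finset (Fin (2*m+1))) := by
      rw [← hLL]; simp
    have m2 : p' ∈ ({p, dpos σ y x, jpos σ y x} : Finset (Fin (2*m+1))) := by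
      rw [hLL]; simp
    simp only [mem_insert, mem_singleton] at m1 m2
    have a1 : p' ≤ p := by
      rcases m1 with h | h | h
      · exact h.ge
      · rw [h]; exact pd'.le
      · rw [h]; exact pj'.le
    have a2 : p ≤ p' := by
      rcases m2 with h | h | h
      · exact h.ge
      · rw [h]; exact pd.le
      · rw [h]; exact pj.le
    exact le_antisymm a2 a1
  subst hpp
  have hss : σ = σ' := by rw [← c8, ← e8, h1]
  subst hss
  have hd : dpos σ y x = dpos σ y' x' := by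
    by_contra hne
    have m1 : dpos σ y x ∈ ({p, dpos σ y' x', jpos σ y' x'} : Finset (Fin (2*m+1))) := by
      rw [← hLL]; simp
    simp only [mem_insert, mem_singleton] at m1
    have hdj : dpos σ y x = jpos σ y' x' := by
      rcases m1 with h | h | h
      · exact absurd h.symm c5
      · exact absurd h hne
      · exact h
    have m2 : dpos σ y' x' ∈ ({p, dpos σ y x, jpos σ y x} : Finset (Fin (2*m+1))) := by
      rw [hLL]; simp
    simp only [mem_insert, mem_singleton] at m2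
    have hjd : dpos σ y' x' = jpos σ y x := by
      rcases m2 with h | h | h
      · exact absurd h.symm e5
      · exact absurd h.symm hne
      · exact h
    rw [← h1, ← hdj, hjd] at e10
    rw [← h1, hjd] at e9
    rw [c9] at e10
    rw [c10] at e9
    unfold sdf sjf at e10 e9
    rw [if_neg (not_lt.mpr pd.le), if_neg (not_lt.mpr pd.le)] at e10
    rw [if_neg (not_lt.mpr pj.le), if_neg (not_lt.mpr pj.le)] at e9
    rcases lt_or_gt_of_ne c7 with h | h
    · rw [if_pos ⟨pd, h⟩] at e9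
      cases σ <;> simp at e9
    · rw [if_pos ⟨pj, h⟩] at e10
      cases σ <;> simp at e10
  have hj : jpos σ y x = jpos σ y' x' := by
    have m1 : jpos σ y x ∈ ({p, dpos σ y' x', jpos σ y' x'} : Finset (Fin (2*m+1))) := by
      rw [← hLL]; simp
    simp only [mem_insert, mem_singleton] at m1
    rcases m1 with h | h | h
    · exact absurd h.symm c6
    · exact absurd (hd.trans h.symm) c7
    · exact h
  have hx1 : x1 p σ y x = x1 p σ y' x' := by unfold x1; rw [hd]
  have hx2 : x2 p σ y x = x2 p σ y' x' := by unfold x2; rw [hd, hj]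
  obtain ⟨b1, -⟩ := Bv_facts p σ V y x hV hp hy hx
  obtain ⟨f1, -⟩ := Bv_facts p σ V' y' x' hV' hp' hy' hx'
  have hB : Bv p σ V y x = Bv p σ V' y' x' := by
    rw [← N_N _ _ c1, ← N_N _ _ e1]
    show N (Cv p σ V y x) _ = N (Cv p σ V' y' x') _
    rw [h1, hx2]
  have huv : uv p σ V = uv p σ V' := by
    rw [← N_N _ _ b1, ← N_N _ _ f1]
    show N (Bv p σ V y x) _ = N (Bv p σ V' y' x') _
    rw [hB, hx1]
  exact link_inj1 p σ V y x hV hp hy hx p σ V' y' x' hV' hp' hy' hx' huv hx1 hj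

end OddG
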