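import Pool.Agent.Lib.MP_e26f2a_co.LinkDefs

set_option autoImplicit false

namespace OddG

open Finset

namespace OrbAux

variable {m : ℕ}

theorem inj (j : Fin (2*m+1)) : Function.Injective (fun v : Fin (2*m+1) => v + j) :=
  add_left_injective j

theorem sum_tr (V : Finset (Fin (2*m+1))) (j : Fin (2*m+1)) :
    ∑ v ∈ V.image (· + j), v = ∑ v ∈ V, v + V.card • j := by
  rw [sum_image (fun a _ b _ h => inj j h), sum_add_distrib, sum_const]

theorem tr_tr (V : Finset (Fin (2*m+1))) (j k : Fin (2*m+1)) :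
    (V.image (· + j)).image (· + k) = V.image (· + (j + k)) := by
  rw [image_image]
  congr 1
  ext v
  simp only [Function.comp, add_assoc]

theorem tr_zero (V : Finset (Fin (2*m+1))) : V.image (· + (0 : Fin (2*m+1))) = V := by
  simp

theorem gen {G : Type} [AddCommGroup G] (m : ℕ) (j : G) :
    (2*m+1) • j = j + (m • j + m • j) := by
  rw [show 2*m+1 = 1 + (m+m) by ring, add_nsmul, add_nsmul, one_nsmul]

theorem smul_zero_all (j : Fin (2*m+1)) : j + (m • j + m • j) = 0 := by
  have h := card_nsmul_eq_zero (x := j)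
  rw [Fintype.card_fin] at h
  rw [← gen, h]

end OrbAux

open OrbAux

theorem orb_rot {m : ℕ} (V : Finset (Fin (2*m+1))) (j : Fin (2*m+1)) (hV : V.card = m) :
    orb (V.image (· + j)) = orb V := by
  unfold orb tr
  rw [sum_tr, hV, tr_tr]
  congr 1
  ext v
  have h2 : j + (m • j + m • j) = 0 := smul_zero_all j
  have h3 : j + (∑ v ∈ V, v + m • j + (∑ v ∈ V, v + m • j)) =
      ∑ v ∈ V, v + ∑ v ∈ V, v := by
    calc j + (∑ v ∈ V, v + m • j + (∑ v ∈ V, v + m • j))
        = (j + (m • j + m • j)) + (∑ v ∈ V, v + ∑ v ∈ V, v) := by abel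
      _ = _ := by rw [h2, zero_add]
  rw [h3]

theorem orb_card {m : ℕ} (V : Finset (Fin (2*m+1))) : (orb V).card = V.card := by
  unfold orb tr
  exact card_image_of_injective _ (inj _)

theorem orb_orb {m : ℕ} (V : Finset (Fin (2*m+1))) (hV : V.card = m) : orb (orb V) = orb V := by
  conv_lhs => rw [show orb V = V.image (· + (∑ v ∈ V, v + ∑ v ∈ V, v)) from rfl]
  exact orb_rot V _ hV

theorem orb_eq {m : ℕ} (V V' : Finset (Fin (2*m+1))) (h : orb V = orb V') :
    ∃ j, V' = V.image (· + j) := by
  unfold orb tr at h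
  refine ⟨(∑ v ∈ V, v + ∑ v ∈ V, v) + -(∑ v ∈ V', v + ∑ v ∈ V', v), ?_⟩
  rw [← tr_tr, h, tr_tr, add_neg_cancel, tr_zero]

theorem rot_free {m : ℕ} (V : Finset (Fin (2*m+1))) (j : Fin (2*m+1)) (hV : V.card = m)
    (h : V.image (· + j) = V) : j = 0 := by
  have h1 := sum_tr V j
  rw [h, hV] at h1
  have h2 : m • j = 0 := by
    have := h1
    rwa [left_eq_add] at this
  have h3 := smul_zero_all j
  rw [h2, add_zero, add_zero] at h3
  exact h3

theorem orb_fiber {m : ℕ} (W : Finset (Fin (2*m+1))) (hW : W.card = m) (h : orb W = W) :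
    ((univ.powersetCard m).filter fun V : Finset (Fin (2*m+1)) => orb V = W).card = 2*m+1 := by
  classical
  have himg : (univ.powersetCard m).filter (fun V : Finset (Fin (2*m+1)) => orb V = W) =
      (univ : Finset (Fin (2*m+1))).image (fun j => W.image (· + j)) := by
    ext V
    rw [mem_filter, mem_powersetCard, mem_image]
    constructor
    · rintro ⟨⟨_, _⟩, h2⟩
      obtain ⟨j, hj⟩ := orb_eq W V (by rw [h, h2])
      exact ⟨j, mem_univ _, hj.symm⟩
    · rintro ⟨j, _, rfl⟩
      refine ⟨⟨subset_univ _, ?_⟩, ?_⟩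
      · rw [card_image_of_injective _ (inj _), hW]
      · rw [orb_rot W j hW, h]
  rw [himg, card_image_of_injective, card_univ, Fintype.card_fin]
  intro j k hjk
  have hjk' : W.image (· + j) = W.image (· + k) := hjk
  have h1 : W.image (· + (j + -k)) = W := by
    rw [← tr_tr, hjk', tr_tr, add_neg_cancel, tr_zero]
  have h2 := rot_free W _ hW h1
  rwa [← sub_eq_add_neg, sub_eq_zero] at h2

theorem orb_count {m : ℕ} :
    (2*m+1) * ((univ.powersetCard m).filter fun V : Finset (Fin (2*m+1)) => orb V = V).card =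
      (2*m+1).choose m := by
  classical
  have h1 : (univ.powersetCard m : Finset (Finset (Fin (2*m+1)))).card = (2*m+1).choose m := by
    rw [card_powersetCard, card_univ, Fintype.card_fin]
  rw [← h1]
  symm
  refine (card_eq_sum_card_fiberwise (f := orb)
    (t := (univ.powersetCard m).filter fun V : Finset (Fin (2*m+1)) => orb V = V) ?_).trans ?_
  rotate_left
  · rw [sum_const_nat (m := 2*m+1)]
    · rw [mul_comm]
    · intro W hW
      rw [mem_filter, mem_powersetCard] at hW
      exact orb_fiber W hW.1.2 hW.2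
  · intro V hV
    rw [mem_coe, mem_powersetCard] at hV
    rw [mem_coe, mem_filter, mem_powersetCard]
    exact ⟨⟨subset_univ _, by rw [orb_card, hV.2]⟩, orb_orb V hV.2⟩

end OddG
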