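import Pool.Agent.Lib.MP_e26f2a_co.Basic

set_option autoImplicit false

namespace OddG

open Finset

/-- translate of a set -/
def tr {m : ℕ} (j : Fin (2*m+1)) (V : Finset (Fin (2*m+1))) : Finset (Fin (2*m+1)) :=
  V.image (· + j)

/-- canonical representative of the rotation class of an `m`-set -/
def orb {m : ℕ} (V : Finset (Fin (2*m+1))) : Finset (Fin (2*m+1)) :=
  tr (∑ v ∈ V, v + ∑ v ∈ V, v) V

/-- charge of a vertex -/
noncomputable def psv {m : ℕ} (L : Finset (X (2*m+1)) → X (2*m+1) → Bool)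
    (ep : Finset (Fin (2*m+1)) → Bool) (A : Finset (X (2*m+1))) : ℝ :=
  if (Lam A).card = 1 ∧ (∃ p ∈ Lam A, L A (dl A p) = true) then
    (if fs A = true then 1 else -1) * (th m - (if ep (Es A) = fs A then 0 else 1))
  else 0

end OddG
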