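import Pool.Agent.Lib.MP_e26f2a_co.Orb
import Pool.Agent.Lib.MP_e26f2a_co.ChooseEven
import Pool.Agent.Lib.MP_e26f2a_co.ChiInj
import Pool.Agent.Lib.MP_e26f2a_co.ChiSym

set_option autoImplicit false

namespace OddG

open Finset

namespace Pair

variable {m : ℕ}

theorem mem_co {V : Finset (Fin (2*m+1))} {p i : Fin (2*m+1)} :
    i ∈ co V p ↔ i ≠ p ∧ i ∉ V := by
  simp [co, not_or]

theorem card_co (V : Finset (Fin (2*m+1))) (p : Fin (2*m+1)) (hV : V.card = m) (hp : p ∉ V) :
    (co V p).card = m := by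
  unfold co
  rw [card_sdiff_of_subset (subset_univ _), card_insert_of_notMem hp, hV]
  simp only [card_univ, Fintype.card_fin]
  omega

theorem co_co (V : Finset (Fin (2*m+1))) (p : Fin (2*m+1)) (hp : p ∉ V) :
    co (co V p) p = V := by
  ext i
  rw [mem_co, mem_co]
  constructor
  · rintro ⟨h1, h2⟩
    by_contra h3
    exact h2 ⟨h1, h3⟩
  · intro hi
    refine ⟨?_, fun h => h.2 hi⟩
    rintro rfl
    exact hp hi

theorem p_co (V : Finset (Fin (2*m+1))) (p : Fin (2*m+1)) : p ∉ co V p := by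
  rw [mem_co]; simp

theorem p_tr (V : Finset (Fin (2*m+1))) (p j : Fin (2*m+1)) (hp : p ∉ V) :
    p + j ∉ V.image (· + j) := by
  rw [mem_image]
  rintro ⟨a, ha, h⟩
  exact hp (add_right_cancel h ▸ ha)

theorem co_tr (V : Finset (Fin (2*m+1))) (p j : Fin (2*m+1)) :
    co (V.image (· + j)) (p + j) = (co V p).image (· + j) := by
  ext i
  rw [mem_co, mem_image, mem_image]
  constructor
  · rintro ⟨h1, h2⟩
    refine ⟨i - j, ?_, sub_add_cancel i j⟩
    rw [mem_co]
    refine ⟨fun h => h1 (by rw [← h, sub_add_cancel]), fun h => h2 ⟨i - j, h, sub_add_cancel i j⟩⟩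
  · rintro ⟨a, ha, rfl⟩
    rw [mem_co] at ha
    refine ⟨fun h => ha.1 (add_right_cancel h), ?_⟩
    rintro ⟨b, hb, h⟩
    exact ha.2 (add_right_cancel h ▸ hb)

theorem half_unique {R : Type} [CommRing R] (c c' : R) (h : c = 1 - c) (h' : c' = 1 - c') :
    c = c' := by
  have h1 : c + c = 1 := by linear_combination h
  have h2 : c' + c' = 1 := by linear_combination h'
  calc c = c * (c' + c') := by rw [h2, mul_one]
    _ = (c + c) * c' := by ring
    _ = c' := by rw [h1, one_mul]

theorem no_half (h : 2 ∣ m + 1) (c : ZMod (m+1)) : c ≠ 1 - c := by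
  intro hc
  have h1 : c + c = 1 := by linear_combination hc
  have h2 := congrArg (ZMod.castHom h (ZMod 2)) h1
  rw [map_add, map_one] at h2
  revert h2
  generalize (ZMod.castHom h (ZMod 2)) c = d
  revert d
  decide

end Pair

open Pair

theorem pairing {m : ℕ} (hm : ¬ ∃ r : ℕ, m + 1 = 2 ^ r) :
    ∃ π : Finset (Fin (2*m+1)) → Finset (Fin (2*m+1)),
      (∀ V, V.card = m → orb V = V →
        (π V).card = m ∧ orb (π V) = π V ∧ π (π V) = V ∧ π V ≠ V) ∧
      (∀ V p, V.card = m → p ∉ V → chi V p = 1 - chi V p → orb (co V p) = π (orb V)) := by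
  classical
  have hm0 : m ≠ 0 := by
    rintro rfl
    exact hm ⟨0, by norm_num⟩
  rcases Nat.even_or_odd' (m+1) with ⟨t, ht | ht⟩
  · -- m + 1 even
    have hdvd : 2 ∣ m + 1 := ⟨t, ht⟩
    set F := (univ.powersetCard m).filter fun V : Finset (Fin (2*m+1)) => orb V = V with hF
    have hFe : Even F.card := by
      have h1 := orb_count (m := m)
      have h2 := choose_even m hm
      rw [← h1, Nat.even_mul] at h2
      rcases h2 with h2 | h2
      · exact absurd h2 (by rw [Nat.not_even_iff_odd]; exact ⟨m, rfl⟩)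
      · exact h2
    have hmem : ∀ V, V ∈ F ↔ V.card = m ∧ orb V = V := by
      intro V
      rw [hF, mem_filter, mem_powersetCard]
      exact ⟨fun h => ⟨h.1.2, h.2⟩, fun h => ⟨⟨subset_univ _, h.1⟩, h.2⟩⟩
    clear_value F
    obtain ⟨u, hu⟩ := hFe
    have hcard : Fintype.card {V // V ∈ F} = Fintype.card (Fin u × Bool) := by
      rw [Fintype.card_coe, hu, Fintype.card_prod, Fintype.card_fin, Fintype.card_bool]
      ring
    let e := Fintype.equivOfCardEq hcard
    refine ⟨fun V => if h : V ∈ F then (e.symm ((e ⟨V, h⟩).1, !(e ⟨V, h⟩).2)).1 else V, ?_, ?_⟩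
    · intro V hV ho
      have hVF : V ∈ F := (hmem V).2 ⟨hV, ho⟩
      simp only [dif_pos hVF]
      set W := e.symm ((e ⟨V, hVF⟩).1, !(e ⟨V, hVF⟩).2) with hW
      have hWF := W.2
      have hWF' := (hmem W.1).1 hWF
      refine ⟨hWF'.1, hWF'.2, ?_, ?_⟩
      · rw [dif_pos hWF]
        have h1 : e ⟨W.1, hWF⟩ = ((e ⟨V, hVF⟩).1, !(e ⟨V, hVF⟩).2) := by
          rw [show (⟨W.1, hWF⟩ : {V // V ∈ F}) = W from rfl, hW, Equiv.apply_symm_apply]
        rw [h1]
        simp only [Bool.not_not, Prod.mk.eta, Equiv.symm_apply_apply]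
      · intro h
        have h1 : W = ⟨V, hVF⟩ := Subtype.ext h
        have h2 := congrArg e h1
        rw [hW, Equiv.apply_symm_apply] at h2
        have h3 := congrArg Prod.snd h2
        simp at h3
    · intro V p _ _ hc
      exact absurd hc (no_half hdvd _)
  · -- m + 1 odd
    have hc0 : (((t + 1 : ℕ)) : ZMod (m+1)) = 1 - (((t + 1 : ℕ)) : ZMod (m+1)) := by
      have h1 : ((2*t+1 : ℕ) : ZMod (m+1)) = 0 := by
        rw [← ht]; exact ZMod.natCast_self _
      push_cast at h1 ⊢
      linear_combination h1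
    set c0 : ZMod (m+1) := ((t + 1 : ℕ) : ZMod (m+1)) with hc0d
    have hex : ∀ V : Finset (Fin (2*m+1)), V.card = m → ∃ p, p ∉ V ∧ chi V p = c0 :=
      fun V hV => chi_surj V hV c0
    have hval : ∀ (V : Finset (Fin (2*m+1))) (p : Fin (2*m+1)), chi V p = 1 - chi V p →
        chi V p = c0 := fun V p h => half_unique _ _ h hc0
    let pt : Finset (Fin (2*m+1)) → Fin (2*m+1) :=
      fun V => if h : V.card = m then (hex V h).choose else 0
    have hpt : ∀ V : Finset (Fin (2*m+1)), V.card = m → pt V ∉ V ∧ chi V (pt V) = c0 := by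
      intro V hV
      simp only [pt, dif_pos hV]
      exact (hex V hV).choose_spec
    have hptu : ∀ (V : Finset (Fin (2*m+1))) (p : Fin (2*m+1)), V.card = m → p ∉ V →
        chi V p = c0 → pt V = p := fun V p hV hp h =>
      chi_inj V hV _ _ (hpt V hV).1 hp ((hpt V hV).2.trans h.symm)
    have hcotr : ∀ (V : Finset (Fin (2*m+1))) (p : Fin (2*m+1)), V.card = m → p ∉ V →
        chi V p = c0 → chi (co V p) p = c0 := by
      intro V p hV hp h
      rw [chi_co V p hV hp, h]; exact hc0.symm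
    have second : ∀ (V : Finset (Fin (2*m+1))) (p : Fin (2*m+1)), V.card = m → p ∉ V →
        chi V p = c0 → orb (co V p) = orb (co (orb V) (pt (orb V))) := by
      intro V p hV hp h
      have h1 : orb V = V.image (· + (∑ v ∈ V, v + ∑ v ∈ V, v)) := rfl
      have h2 : pt (orb V) = p + (∑ v ∈ V, v + ∑ v ∈ V, v) := by
        refine hptu _ _ (by rw [orb_card, hV]) ?_ ?_
        · rw [h1]; exact p_tr V p _ hp
        · rw [h1, chi_rot, h]
      rw [h2, h1, co_tr, orb_rot _ _ (card_co V p hV hp)]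
    refine ⟨fun V => orb (co V (pt V)), ?_, ?_⟩
    · intro V hV ho
      obtain ⟨hp, hc⟩ := hpt V hV
      have hco := card_co V (pt V) hV hp
      have hch := hcotr V (pt V) hV hp hc
      dsimp only
      refine ⟨by rw [orb_card, hco], orb_orb _ hco, ?_, ?_⟩
      · rw [← second (co V (pt V)) (pt V) hco (p_co _ _) hch, co_co V _ hp, ho]
      · intro h
        obtain ⟨j, hj⟩ := orb_eq V (co V (pt V)) (by rw [ho, h])
        have h1 : pt V + j ∉ co V (pt V) := by rw [hj]; exact p_tr V _ j hp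
        have h2 : chi (co V (pt V)) (pt V + j) = c0 := by
          rw [hj, chi_rot, hc]
        have h3 := chi_inj (co V (pt V)) hco _ _ (p_co _ _) h1 (hch.trans h2.symm)
        have h4 : j = 0 := by rwa [left_eq_add] at h3
        rw [h4] at hj
        have h5 : co V (pt V) = V := by rw [hj]; simp
        obtain ⟨v, hv⟩ : V.Nonempty := card_pos.1 (by omega)
        have h6 : v ∈ co V (pt V) := by rw [h5]; exact hv
        rw [mem_co] at h6
        exact h6.2 hv
    · intro V p hV hp hc
      exact second V p hV hp (hval V p hc)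

end OddG
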